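import Pool.Agent.H33.Solid.Defs

namespace H33Solid

open MeasureTheory

namespace Bad

/-- circumradius of the equilateral triangle of side `2` -/
noncomputable def RR : ℝ := 2 / Real.sqrt 3

theorem RR_pos : 0 < RR := by unfold RR; positivity

theorem RR_sq : RR ^ 2 = 4 / 3 := by
  unfold RR; rw [div_pow, Real.sq_sqrt (by norm_num)]; norm_num

theorem RR_lt : RR < 115471 / 100000 := by
  nlinarith [RR_sq, RR_pos]

theorem RR_gt : 115 / 100 < RR := by
  nlinarith [RR_sq, RR_pos]

/-- the open cap at distance `d / 2` -/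
def capset (d : ℝ) : Set ℂ := {z | ‖z‖ < RR ∧ d / 2 < z.re}

theorem capset_open (d : ℝ) : IsOpen (capset d) := by
  unfold capset
  exact (isOpen_lt continuous_norm continuous_const).inter
    (isOpen_lt continuous_const Complex.continuous_re)

theorem capset_meas (d : ℝ) : MeasurableSet (capset d) := (capset_open d).measurableSet

theorem capset_lt_top (d : ℝ) : volume (capset d) < ⊤ := by
  refine lt_of_le_of_lt (measure_mono (t := Metric.ball (0 : ℂ) RR) ?_) measure_ball_lt_top
  intro z hz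
  simpa using hz.1

/-- area of the cap -/
noncomputable def capv (d : ℝ) : ℝ := (volume (capset d)).toReal

theorem capv_nonneg (d : ℝ) : 0 ≤ capv d := ENNReal.toReal_nonneg

theorem capset_anti {d e : ℝ} (h : d ≤ e) : capset e ⊆ capset d := by
  intro z hz
  exact ⟨hz.1, by have := hz.2; linarith⟩

theorem capv_anti {d e : ℝ} (h : d ≤ e) : capv e ≤ capv d :=
  ENNReal.toReal_mono (capset_lt_top d).ne (measure_mono (capset_anti h))

/-! ### exact area of the cap of height `R - 1` -/

theorem hasDeriv {x : ℝ} (hx : x ^ 2 < 4 / 3) :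
    HasDerivAt (fun x : ℝ => 4 / 3 * Real.arcsin (Real.sqrt 3 / 2 * x) + x * Real.sqrt (4 / 3 - x ^ 2))
      (2 * Real.sqrt (4 / 3 - x ^ 2)) x := by
  have h3 : (Real.sqrt 3) ^ 2 = 3 := Real.sq_sqrt (by norm_num)
  have h3p : 0 < Real.sqrt 3 := by positivity
  have hpos : 0 < 4 / 3 - x ^ 2 := by linarith
  have hs : 0 < Real.sqrt (4 / 3 - x ^ 2) := Real.sqrt_pos.2 hpos
  have hs2 : Real.sqrt (4 / 3 - x ^ 2) ^ 2 = 4 / 3 - x ^ 2 := Real.sq_sqrt hpos.le
  have hx' : (Real.sqrt 3 / 2 * x) ^ 2 < 1 := by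
    rw [mul_pow, div_pow, h3]; linarith
  have hne1 : Real.sqrt 3 / 2 * x ≠ -1 := by
    intro h; rw [h] at hx'; norm_num at hx'
  have hne2 : Real.sqrt 3 / 2 * x ≠ 1 := by
    intro h; rw [h] at hx'; norm_num at hx'
  have hsq : Real.sqrt (1 - (Real.sqrt 3 / 2 * x) ^ 2) = Real.sqrt 3 / 2 * Real.sqrt (4 / 3 - x ^ 2) := by
    rw [Real.sqrt_eq_iff_mul_self_eq (by linarith) (by positivity)]
    nlinarith [h3, hs2]
  have h1 : HasDerivAt (fun x : ℝ => Real.sqrt 3 / 2 * x) (Real.sqrt 3 / 2) x := by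
    simpa using (hasDerivAt_id x).const_mul (Real.sqrt 3 / 2)
  have h2 := ((Real.hasDerivAt_arcsin hne1 hne2).comp x h1).const_mul (4 / 3 : ℝ)
  have h4 : HasDerivAt (fun x : ℝ => 4 / 3 - x ^ 2) (-(2 * x)) x := by
    have := ((hasDerivAt_id x).pow 2).const_sub (4 / 3 : ℝ)
    simpa using this
  have h5 := (hasDerivAt_id x).mul (h4.sqrt hpos.ne')
  have h6 := h2.add h5
  refine HasDerivAt.congr_deriv (f := fun x : ℝ => 4 / 3 * Real.arcsin (Real.sqrt 3 / 2 * x) + x * Real.sqrt (4 / 3 - x ^ 2)) h6 ?_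
  rw [hsq]
  simp only [id]
  generalize Real.sqrt (4 / 3 - x ^ 2) = s at hs hs2 ⊢
  have e : (4 / 3 : ℝ) * (1 / (Real.sqrt 3 / 2 * s) * (Real.sqrt 3 / 2)) = (4 / 3) / s := by
    field_simp
  rw [e]
  have e' : (4 / 3 : ℝ) = s ^ 2 + x ^ 2 := by linarith
  rw [e']
  field_simp
  ring

theorem integral_cap : ∫ x in (1 : ℝ)..RR, 2 * Real.sqrt (4 / 3 - x ^ 2) =
    2 * Real.pi / 9 - 1 / Real.sqrt 3 := by
  have hR := RR_gt
  have h3 : (Real.sqrt 3) ^ 2 = 3 := Real.sq_sqrt (by norm_num)
  have h3p : 0 < Real.sqrt 3 := by positivity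
  rw [intervalIntegral.integral_eq_sub_of_hasDerivAt_of_le
    (f := fun x : ℝ => 4 / 3 * Real.arcsin (Real.sqrt 3 / 2 * x) + x * Real.sqrt (4 / 3 - x ^ 2))
    (by linarith) (by fun_prop) ?_ ?_]
  · have e1 : Real.sqrt 3 / 2 * RR = 1 := by unfold RR; field_simp
    have e2 : (4 / 3 - RR ^ 2 : ℝ) = 0 := by rw [RR_sq]; norm_num
    have e3 : Real.arcsin (Real.sqrt 3 / 2 * 1) = Real.pi / 3 := by
      rw [mul_one, ← Real.sin_pi_div_three, Real.arcsin_sin]
      · linarith [Real.pi_pos]
      · linarith [Real.pi_pos]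
    have e4 : Real.sqrt (4 / 3 - 1 ^ 2) = 1 / Real.sqrt 3 := by
      rw [Real.sqrt_eq_iff_mul_self_eq (by norm_num) (by positivity)]
      field_simp
      nlinarith
    simp only [e1, e2, e3, e4, Real.arcsin_one, Real.sqrt_zero]
    ring
  · intro x hx
    apply hasDeriv
    have : x < RR := hx.2
    nlinarith [hx.1, RR_sq, RR_pos]
  · apply Continuous.intervalIntegrable
    fun_prop

theorem capv_two : capv 2 = 2 * Real.pi / 9 - 1 / Real.sqrt 3 := by
  have hR := RR_gt
  set f : ℝ → ℝ := fun x => Real.sqrt (4 / 3 - x ^ 2) with hf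
  have hfc : Continuous f := by fun_prop
  have hpre : capset 2 = Complex.measurableEquivRealProd ⁻¹'
      (regionBetween (fun x => -f x) f (Set.Ioc 1 RR)) := by
    ext z
    simp only [capset, Set.mem_ofPred_eq, Set.mem_preimage, regionBetween,
      Complex.measurableEquivRealProd_apply, Set.mem_Ioc, Set.mem_Ioo, hf]
    have hz : ‖z‖ ^ 2 = z.re ^ 2 + z.im ^ 2 := by
      rw [Complex.sq_norm, Complex.normSq_apply]; ring
    have hz0 := norm_nonneg z
    constructor
    · rintro ⟨h1, h2⟩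
      have hlt : z.re ^ 2 + z.im ^ 2 < 4 / 3 := by
        rw [← hz, ← RR_sq]; gcongr
      have hre : (1 : ℝ) < z.re := by linarith
      have him : |z.im| < Real.sqrt (4 / 3 - z.re ^ 2) := by
        apply Real.lt_sqrt_of_sq_lt
        rw [sq_abs]; linarith
      refine ⟨⟨hre, ?_⟩, (abs_lt.1 him).1, (abs_lt.1 him).2⟩
      nlinarith [RR_sq, RR_pos, sq_nonneg z.im]
    · rintro ⟨⟨h1, h2⟩, h3, h4⟩
      have him : |z.im| < Real.sqrt (4 / 3 - z.re ^ 2) := abs_lt.2 ⟨h3, h4⟩
      have h5 : z.im ^ 2 < 4 / 3 - z.re ^ 2 := by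
        have := (Real.lt_sqrt (abs_nonneg _)).1 him
        rwa [sq_abs] at this
      refine ⟨?_, by linarith⟩
      have : ‖z‖ ^ 2 < RR ^ 2 := by rw [hz, RR_sq]; linarith
      exact lt_of_pow_lt_pow_left₀ 2 RR_pos.le this
  have hint : IntegrableOn f (Set.Ioc 1 RR) := 
    (hfc.integrableOn_Icc).mono_set Set.Ioc_subset_Icc_self
  have hvol : volume (capset 2) = ENNReal.ofReal (2 * Real.pi / 9 - 1 / Real.sqrt 3) := by
    rw [hpre, Complex.volume_preserving_equiv_real_prod.measure_preimage_equiv]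
    rw [Measure.volume_eq_prod, volume_regionBetween_eq_integral (f := fun x => -f x) hint.neg hint
      measurableSet_Ioc (fun x _ => neg_le_self (Real.sqrt_nonneg _))]
    congr 1
    rw [← integral_cap, intervalIntegral.integral_of_le (by linarith)]
    apply integral_congr_ae
    filter_upwards with x
    simp [hf]; ring
  rw [capv, hvol, ENNReal.toReal_ofReal]
  rw [← integral_cap]
  apply intervalIntegral.integral_nonneg (by linarith)
  intro x _
  positivity

/-- open rectangle -/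
def rect (a b c : ℝ) : Set ℂ :=
  Complex.measurableEquivRealProd ⁻¹' (Set.Ioo a b ×ˢ Set.Ioo (-c) c)

theorem rect_volume (a b c : ℝ) :
    volume (rect a b c) = ENNReal.ofReal (b - a) * ENNReal.ofReal (2 * c) := by
  rw [rect, Complex.volume_preserving_equiv_real_prod.measure_preimage_equiv,
    Measure.volume_eq_prod, Measure.prod_prod, Real.volume_Ioo, Real.volume_Ioo]
  congr 2
  ring

theorem mem_rect {a b c : ℝ} {z : ℂ} : z ∈ rect a b c ↔ (a < z.re ∧ z.re < b) ∧ -c < z.im ∧ z.im < c := by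
  simp [rect, Complex.measurableEquivRealProd_apply]

theorem rect_meas (a b c : ℝ) : MeasurableSet (rect a b c) :=
  Complex.measurableEquivRealProd.measurable (measurableSet_Ioo.prod measurableSet_Ioo)

theorem norm_sq' (z : ℂ) : ‖z‖ ^ 2 = z.re ^ 2 + z.im ^ 2 := by
  rw [Complex.sq_norm, Complex.normSq_apply]; ring

theorem capv_diff : 5685 / 1000000 ≤ capv 2 - capv (201 / 100) := by
  have h1 : rect 1 (1005 / 1000) (5685 / 10000) ∪ capset (201 / 100) ⊆ capset 2 := by
    apply Set.union_subset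
    · intro z hz
      rw [mem_rect] at hz
      obtain ⟨⟨h1, h2⟩, h3, h4⟩ := hz
      refine ⟨?_, by linarith⟩
      have : ‖z‖ ^ 2 < RR ^ 2 := by
        rw [norm_sq', RR_sq]
        nlinarith
      exact lt_of_pow_lt_pow_left₀ 2 RR_pos.le this
    · exact capset_anti (by norm_num)
  have hdis : Disjoint (rect 1 (1005 / 1000) (5685 / 10000)) (capset (201 / 100)) := by
    rw [Set.disjoint_left]
    intro z hz hz'
    rw [mem_rect] at hz
    have := hz'.2
    linarith [hz.1.2]
  have h2 : volume (rect 1 (1005 / 1000) (5685 / 10000)) + volume (capset (201 / 100)) ≤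
      volume (capset 2) := by
    rw [← measure_union hdis (capset_meas _)]
    exact measure_mono h1
  have h3 := ENNReal.toReal_mono (capset_lt_top 2).ne h2
  rw [ENNReal.toReal_add (by rw [rect_volume]; exact (ENNReal.mul_lt_top ENNReal.ofReal_lt_top
    ENNReal.ofReal_lt_top).ne) (capset_lt_top _).ne, rect_volume, ENNReal.toReal_mul,
    ENNReal.toReal_ofReal (by norm_num), ENNReal.toReal_ofReal (by norm_num)] at h3
  have : (volume (capset 2)).toReal = capv 2 := rfl
  have : (volume (capset (201 / 100))).toReal = capv (201 / 100) := rfl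
  norm_num at h3
  norm_num
  linarith

theorem capv_small : capv (23 / 10) ≤ 985 / 1000000 := by
  have hR := RR_gt
  have hR' := RR_lt
  have h1 : capset (23 / 10) ⊆ rect (115 / 100) RR (1041 / 10000) := by
    intro z hz
    rw [mem_rect]
    obtain ⟨h1, h2⟩ := hz
    have hz0 := norm_nonneg z
    have h3 : z.re ^ 2 + z.im ^ 2 < 4 / 3 := by
      rw [← norm_sq', ← RR_sq]; gcongr
    have h4 : (115 / 100 : ℝ) < z.re := by linarith
    refine ⟨⟨h4, ?_⟩, ?_, ?_⟩
    · nlinarith [RR_sq, RR_pos, sq_nonneg z.im]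
    · nlinarith
    · nlinarith
  have h2 := ENNReal.toReal_mono (by rw [rect_volume]; exact (ENNReal.mul_lt_top ENNReal.ofReal_lt_top
    ENNReal.ofReal_lt_top).ne) (measure_mono h1)
  rw [rect_volume, ENNReal.toReal_mul,
    ENNReal.toReal_ofReal (by linarith), ENNReal.toReal_ofReal (by norm_num)] at h2
  have : (volume (capset (23 / 10))).toReal = capv (23 / 10) := rfl
  nlinarith

/-! ### caps in general position -/

theorem cap_le {p q : ℂ} {d : ℝ} (hd : 0 < d) (hpq : d ≤ dist p q) :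
    volume {x : ℂ | dist x p < RR ∧ dist x q < dist x p} ≤ volume (capset d) := by
  set D : ℝ := ‖q - p‖ with hD
  have hDpos : 0 < D := by
    rw [hD, ← dist_eq_norm, dist_comm]; linarith
  have hDd : d ≤ D := by rw [hD, ← dist_eq_norm, dist_comm]; exact hpq
  set u : ℂ := (q - p) / D with hu
  have hun : ‖u‖ = 1 := by
    rw [hu, norm_div, ← hD]
    simp [abs_of_pos hDpos, hDpos.ne']
  have huD : u * D = q - p := by
    rw [hu]; field_simp [show (D : ℂ) ≠ 0 by exact_mod_cast hDpos.ne']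
  have hmp1 : MeasurePreserving (fun z : ℂ => u * z) volume volume := by
    have := (rotation (⟨u, by simp [Submonoid.unitSphere, hun]⟩ : Circle)).measurePreserving
    exact this
  have hmp : MeasurePreserving (fun z : ℂ => p + u * z) volume volume :=
    (measurePreserving_add_left volume p).comp hmp1
  have hopen : IsOpen {x : ℂ | dist x p < RR ∧ dist x q < dist x p} := by
    exact (isOpen_lt (continuous_id.dist continuous_const) continuous_const).and
      (isOpen_lt (continuous_id.dist continuous_const) (continuous_id.dist continuous_const))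
  rw [← hmp.measure_preimage hopen.measurableSet.nullMeasurableSet]
  apply measure_mono
  intro z hz
  simp only [Set.mem_preimage, Set.mem_ofPred_eq, dist_eq_norm] at hz
  obtain ⟨h1, h2⟩ := hz
  have e1 : p + u * z - p = u * z := by ring
  have e2 : p + u * z - q = u * (z - D) := by
    rw [mul_sub, huD]; ring
  rw [e1, norm_mul, hun, one_mul] at h1 h2
  rw [e2, norm_mul, hun, one_mul] at h2
  refine ⟨h1, ?_⟩
  have h3 : ‖z - D‖ ^ 2 < ‖z‖ ^ 2 := by gcongr
  rw [norm_sq', norm_sq'] at h3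
  simp only [Complex.sub_re, Complex.ofReal_re, Complex.sub_im, Complex.ofReal_im] at h3
  have h4 : D ^ 2 < 2 * D * z.re := by nlinarith
  have h5 : D < 2 * z.re := by nlinarith
  linarith

end Bad

/-- `volume_cell_bad`, with the two counting lemmas of `Good.lean` as hypotheses. -/
theorem volume_cell_bad_core
    (card_le_six : ∀ {p : ℂ} (S : Finset ℂ), (∀ q ∈ S, 2 ≤ dist p q) →
      (∀ q ∈ S, dist p q ≤ 23 / 10) → (∀ q ∈ S, ∀ r ∈ S, q ≠ r → 2 ≤ dist q r) → S.card ≤ 6)
    (card_le_seven : ∀ {p : ℂ} (S : Finset ℂ), (∀ q ∈ S, 2 ≤ dist p q) →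
      (∀ q ∈ S, dist p q ≤ 231 / 100) → (∀ q ∈ S, ∀ r ∈ S, q ≠ r → 2 ≤ dist q r) → S.card ≤ 7)
    {C : Set ℂ} (hC : Sep C) {p : ℂ} (hp : p ∈ C) (hb : ¬ Good C p) :
    2 * Real.sqrt 3 + 1 / 250 ≤ (volume (cell C p)).toReal := by
  classical
  have hRgt := Bad.RR_gt
  have hRlt := Bad.RR_lt
  -- the finite set of relevant points
  have hfin : {q | q ∈ C ∧ q ≠ p ∧ dist p q ≤ 231 / 100}.Finite := by
    by_contra hinf
    obtain ⟨T, hT, hcard⟩ := Set.Infinite.exists_subset_card_eq hinf 8
    have := card_le_seven (p := p) T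
      (fun q hq => hC p hp q (hT hq).1 (Ne.symm (hT hq).2.1))
      (fun q hq => (hT hq).2.2)
      (fun q hq r hr hne => hC q (hT hq).1 r (hT hr).1 hne)
    omega
  set S : Finset ℂ := hfin.toFinset with hSdef
  have hS : ∀ q, q ∈ S ↔ q ∈ C ∧ q ≠ p ∧ dist p q ≤ 231 / 100 := by
    intro q; rw [hSdef, Set.Finite.mem_toFinset]; rfl
  -- covering of the disc
  have hcov : Metric.ball p Bad.RR ⊆ cell C p ∪
      ⋃ q ∈ S, {x : ℂ | dist x p < Bad.RR ∧ dist x q < dist x p} := by
    intro x hx
    rw [Metric.mem_ball] at hx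
    by_cases h : x ∈ cell C p
    · exact Or.inl h
    · right
      have h' : ∃ q ∈ C, dist x q < dist x p := by
        by_contra hcon
        push Not at hcon
        exact h ⟨by linarith, hcon⟩
      obtain ⟨q, hq, hlt⟩ := h'
      have hqp : q ≠ p := by rintro rfl; exact lt_irrefl _ hlt
      simp only [Set.mem_iUnion]
      refine ⟨q, ?_, hx, hlt⟩
      rw [hS]
      refine ⟨hq, hqp, ?_⟩
      have := dist_triangle_left p q x
      linarith
  have hball : (volume (Metric.ball p Bad.RR)).toReal = 4 * Real.pi / 3 := by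
    rw [Complex.volume_ball, ENNReal.toReal_mul, ENNReal.toReal_pow,
      ENNReal.toReal_ofReal Bad.RR_pos.le, Bad.RR_sq]
    simp
    ring
  have hvol : volume (Metric.ball p Bad.RR) ≤ volume (cell C p) +
      ∑ q ∈ S, volume {x : ℂ | dist x p < Bad.RR ∧ dist x q < dist x p} :=
    (measure_mono hcov).trans ((measure_union_le _ _).trans
      (add_le_add le_rfl (measure_biUnion_finset_le _ _)))
  have hcell : volume (cell C p) ≠ ⊤ := by
    refine (lt_of_le_of_lt (measure_mono (t := Metric.closedBall p (6 / 5)) ?_)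
      measure_closedBall_lt_top).ne
    intro x hx
    exact hx.1
  set v : ℂ → ℝ := fun q => (volume {x : ℂ | dist x p < Bad.RR ∧ dist x q < dist x p}).toReal with hv
  have hcap : ∀ q d, 0 < d → d ≤ dist p q → v q ≤ Bad.capv d := by
    intro q d hd hq
    exact ENNReal.toReal_mono (Bad.capset_lt_top d).ne (Bad.cap_le hd hq)
  have hcaptop : ∀ q ∈ S, volume {x : ℂ | dist x p < Bad.RR ∧ dist x q < dist x p} ≠ ⊤ := by
    intro q _
    refine (lt_of_le_of_lt (measure_mono (t := Metric.ball p Bad.RR) ?_) measure_ball_lt_top).ne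
    intro x hx
    exact hx.1
  have hmain : 4 * Real.pi / 3 ≤ (volume (cell C p)).toReal + ∑ q ∈ S, v q := by
    rw [← hball]
    have h1 := ENNReal.toReal_mono (ENNReal.add_ne_top.2 ⟨hcell, ENNReal.sum_ne_top.2 hcaptop⟩) hvol
    rw [ENNReal.toReal_add hcell (ENNReal.sum_ne_top.2 hcaptop), ENNReal.toReal_sum hcaptop] at h1
    exact h1
  -- counting
  set S1 := S.filter (fun q => dist p q ≤ 201 / 100) with hS1
  set S2 := S.filter (fun q => dist p q ≤ 23 / 10) with hS2
  have hc1 : S1.card ≤ 5 := by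
    by_contra hcon
    apply hb
    refine ⟨hp, ?_⟩
    have hsub : (S1 : Set ℂ) ⊆ nb C p := by
      intro q hq
      rw [Finset.mem_coe, hS1, Finset.mem_filter, hS] at hq
      exact ⟨hq.1.1, hq.1.2.1, hq.2⟩
    refine le_trans ?_ (Set.encard_le_encard hsub)
    rw [Set.encard_coe_eq_coe_finsetCard]
    have : 6 ≤ S1.card := by omega
    exact_mod_cast this
  have hsep : ∀ q ∈ S, ∀ r ∈ S, q ≠ r → 2 ≤ dist q r := by
    intro q hq r hr hne
    exact hC q ((hS q).1 hq).1 r ((hS r).1 hr).1 hne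
  have h2S : ∀ q ∈ S, 2 ≤ dist p q := by
    intro q hq
    exact hC p hp q ((hS q).1 hq).1 (Ne.symm ((hS q).1 hq).2.1)
  have hc2 : S2.card ≤ 6 := by
    apply card_le_six (p := p)
    · intro q hq; exact h2S q (Finset.mem_filter.1 hq).1
    · intro q hq; exact (Finset.mem_filter.1 hq).2
    · intro q hq r hr; exact hsep q (Finset.mem_filter.1 hq).1 r (Finset.mem_filter.1 hr).1
  have hc3 : S.card ≤ 7 := by
    apply card_le_seven (p := p)
    · intro q hq; exact h2S q hq
    · intro q hq; exact ((hS q).1 hq).2.2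
    · intro q hq r hr; exact hsep q hq r hr
  -- pointwise bound
  have hpt : ∀ q ∈ S, v q ≤ (if dist p q ≤ 201 / 100 then Bad.capv 2 - Bad.capv (201 / 100) else 0) +
      (if dist p q ≤ 23 / 10 then Bad.capv (201 / 100) - Bad.capv (23 / 10) else 0) +
      Bad.capv (23 / 10) := by
    intro q hq
    split_ifs with h1 h2 h2
    · have := hcap q 2 (by norm_num) (h2S q hq); linarith
    · exfalso; linarith
    · have := hcap q (201 / 100) (by norm_num) (by linarith); linarith
    · have := hcap q (23 / 10) (by norm_num) (by linarith); linarith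
  have hsum := Finset.sum_le_sum hpt
  rw [Finset.sum_add_distrib, Finset.sum_add_distrib, ← Finset.sum_filter, ← Finset.sum_filter,
    Finset.sum_const, Finset.sum_const, Finset.sum_const, ← hS1, ← hS2, nsmul_eq_mul, nsmul_eq_mul,
    nsmul_eq_mul] at hsum
  have hd1 := Bad.capv_diff
  have hd2 : Bad.capv (23 / 10) ≤ Bad.capv (201 / 100) := Bad.capv_anti (by norm_num)
  have hd3 := Bad.capv_nonneg (23 / 10)
  have hd4 := Bad.capv_small
  have hd5 := Bad.capv_two
  have hc1' : (S1.card : ℝ) ≤ 5 := by exact_mod_cast hc1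
  have hc2' : (S2.card : ℝ) ≤ 6 := by exact_mod_cast hc2
  have hc3' : (S.card : ℝ) ≤ 7 := by exact_mod_cast hc3
  have b1 := mul_le_mul_of_nonneg_right hc1' (show 0 ≤ Bad.capv 2 - Bad.capv (201 / 100) by linarith)
  have b2 := mul_le_mul_of_nonneg_right hc2' (show 0 ≤ Bad.capv (201 / 100) - Bad.capv (23 / 10) by linarith)
  have b3 := mul_le_mul_of_nonneg_right hc3' hd3
  have h3 : (Real.sqrt 3) ^ 2 = 3 := Real.sq_sqrt (by norm_num)
  have h3p : 0 < Real.sqrt 3 := by positivity
  have e : 1 / Real.sqrt 3 = Real.sqrt 3 / 3 := by field_simp; linarith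
  rw [e] at hd5
  linarith

end H33Solid
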