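import Pool.Agent.H33.Solid.Good
import Pool.Agent.H33.Solid.BadCore

namespace H33Solid

open MeasureTheory

/-- the cell of a bad point is larger than the hexagon by at least `1 / 250` -/
theorem volume_cell_bad {C : Set ℂ} (hC : Sep C) {p : ℂ} (hp : p ∈ C) (hb : ¬ Good C p) :
    2 * Real.sqrt 3 + 1 / 250 ≤ (volume (cell C p)).toReal :=
  volume_cell_bad_core (fun S => card_le_six S) (fun S => card_le_seven S) hC hp hb

end H33Solid
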