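import Pool.Agent.H33.Solid.Good

/-!
# Module B: the Voronoi cell of a good point is a union of six kites
-/

namespace H33Solid

open MeasureTheory Complex

/-! ### area of a triangle -/

theorem volume_std : volume {z : ℂ | 0 < z.re ∧ 0 ≤ z.im ∧ z.re + z.im ≤ 1} =
    ENNReal.ofReal (1 / 2) := by
  have h1 : {z : ℂ | 0 < z.re ∧ 0 ≤ z.im ∧ z.re + z.im ≤ 1} =
      Complex.measurableEquivRealProd ⁻¹' {z : ℝ × ℝ | 0 < z.1 ∧ 0 ≤ z.2 ∧ z.1 + z.2 ≤ 1} := by
    ext z
    simp [Complex.measurableEquivRealProd_apply]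
  have hm : MeasurableSet {z : ℝ × ℝ | 0 < z.1 ∧ 0 ≤ z.2 ∧ z.1 + z.2 ≤ 1} := by
    refine ((measurableSet_lt measurable_const measurable_fst).inter
      ((measurableSet_le measurable_const measurable_snd).inter
      (measurableSet_le (measurable_fst.add measurable_snd) measurable_const)))
  rw [h1, Complex.volume_preserving_equiv_real_prod.measure_preimage_equiv,
    Measure.volume_eq_prod, Measure.prod_apply hm]
  have h2 : ∀ x : ℝ, volume (Prod.mk x ⁻¹' {z : ℝ × ℝ | 0 < z.1 ∧ 0 ≤ z.2 ∧ z.1 + z.2 ≤ 1}) =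
      (Set.Ioc (0:ℝ) 1).indicator (fun x => ENNReal.ofReal (1 - x)) x := by
    intro x
    by_cases hx : x ∈ Set.Ioc (0:ℝ) 1
    · rw [Set.indicator_of_mem hx]
      have : Prod.mk x ⁻¹' {z : ℝ × ℝ | 0 < z.1 ∧ 0 ≤ z.2 ∧ z.1 + z.2 ≤ 1} =
          Set.Icc 0 (1 - x) := by
        ext y
        simp only [Set.mem_preimage, Set.mem_ofPred_eq, Set.mem_Icc]
        constructor
        · rintro ⟨_, h2, h3⟩; exact ⟨h2, by linarith⟩
        · rintro ⟨h2, h3⟩; exact ⟨hx.1, h2, by linarith⟩
      rw [this, Real.volume_Icc, sub_zero]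
    · rw [Set.indicator_of_notMem hx]
      have : Prod.mk x ⁻¹' {z : ℝ × ℝ | 0 < z.1 ∧ 0 ≤ z.2 ∧ z.1 + z.2 ≤ 1} = ∅ := by
        ext y
        simp only [Set.mem_preimage, Set.mem_ofPred_eq, Set.mem_empty_iff_false, iff_false]
        rintro ⟨h1, h2, h3⟩
        exact hx ⟨h1, by linarith⟩
      rw [this, measure_empty]
  rw [lintegral_congr h2, lintegral_indicator measurableSet_Ioc,
    ← ofReal_integral_eq_lintegral_ofReal]
  · congr 1
    rw [← intervalIntegral.integral_of_le zero_le_one, intervalIntegral.integral_sub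
      (by simp) (by simp)]
    simp
    norm_num
  · exact (continuous_const.sub continuous_id).integrableOn_Ioc
  · filter_upwards [ae_restrict_mem measurableSet_Ioc] with x hx
    simp only [Set.mem_Ioc] at hx
    simp only [Pi.zero_apply]
    linarith [hx.2]

/-- coordinates with respect to the basis `s, t` -/
noncomputable def coordMap (s t : ℂ) : ℂ →ₗ[ℝ] ℂ where
  toFun x := ⟨crs x t / crs s t, crs s x / crs s t⟩
  map_add' x y := by
    apply Complex.ext <;> simp [crs] <;> ring
  map_smul' c x := by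
    apply Complex.ext <;> simp [crs] <;> ring

theorem det_coordMap {s t : ℂ} (h : 0 < crs s t) : LinearMap.det (coordMap s t) =
    (crs s t)⁻¹ := by
  rw [← LinearMap.det_toMatrix Complex.basisOneI, Matrix.det_fin_two]
  have h0 : crs s t ≠ 0 := h.ne'
  simp only [LinearMap.toMatrix_apply, Complex.coe_basisOneI, Complex.coe_basisOneI_repr,
    coordMap, LinearMap.coe_mk, AddHom.coe_mk, Matrix.cons_val_zero, Matrix.cons_val_one,
    Fin.isValue]
  have e1 : crs 1 t = t.im := by simp [crs]
  have e2 : crs Complex.I t = - t.re := by simp [crs]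
  have e3 : crs s 1 = - s.im := by simp [crs]
  have e4 : crs s Complex.I = s.re := by simp [crs]
  rw [e1, e2, e3, e4]
  have e5 : t.im / crs s t * (s.re / crs s t) - -t.re / crs s t * (-s.im / crs s t) =
      (crs s t) / (crs s t * crs s t) := by
    have : crs s t = s.re * t.im - s.im * t.re := rfl
    field_simp
    rw [this]; ring
  rw [e5]
  field_simp

/-- half-open triangle with vertices `0, s, t` -/
def tri (s t : ℂ) : Set ℂ := {x | 0 < crs x t ∧ 0 ≤ crs s x ∧ crs x t + crs s x ≤ crs s t}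

theorem continuous_crs_left (t : ℂ) : Continuous (fun x => crs x t) := by
  unfold crs; fun_prop

theorem continuous_crs_right (t : ℂ) : Continuous (fun x => crs t x) := by
  unfold crs; fun_prop

theorem continuous_ip_left (t : ℂ) : Continuous (fun x => ip x t) := by
  unfold ip; fun_prop

theorem measurableSet_tri (s t : ℂ) : MeasurableSet (tri s t) := by
  refine ((measurableSet_lt measurable_const (continuous_crs_left t).measurable).inter
      ((measurableSet_le measurable_const (continuous_crs_right s).measurable).inter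
      (measurableSet_le ((continuous_crs_left t).measurable.add
        (continuous_crs_right s).measurable) measurable_const)))

theorem volume_tri {s t : ℂ} (h : 0 < crs s t) : volume (tri s t) =
    ENNReal.ofReal (crs s t / 2) := by
  have h1 : tri s t = coordMap s t ⁻¹' {z : ℂ | 0 < z.re ∧ 0 ≤ z.im ∧ z.re + z.im ≤ 1} := by
    ext x
    simp only [tri, coordMap, LinearMap.coe_mk, AddHom.coe_mk, Set.mem_preimage,
      Set.mem_ofPred_eq]
    rw [← add_div, div_le_one h]
    constructor
    · rintro ⟨a, b, c⟩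
      exact ⟨div_pos a h, div_nonneg b h.le, c⟩
    · rintro ⟨a, b, c⟩
      refine ⟨?_, ?_, c⟩
      · by_contra hcon
        push Not at hcon
        exact absurd a (not_lt.2 (div_nonpos_of_nonpos_of_nonneg hcon h.le))
      · by_contra hcon
        push Not at hcon
        exact absurd b (not_le.2 (div_neg_of_neg_of_pos hcon h))
  rw [h1, Measure.addHaar_preimage_linearMap volume (by rw [det_coordMap h]; positivity),
    det_coordMap h, inv_inv, abs_of_pos h, volume_std, ← ENNReal.ofReal_mul h.le]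
  congr 1
  ring

/-! ### area of a kite -/

/-- half-open kite with vertices `0, u/2, circumcentre, v/2` -/
def kite (u v : ℂ) : Set ℂ :=
  {x | 0 ≤ crs u x ∧ 0 < crs x v ∧ ip x u ≤ ‖u‖ ^ 2 / 2 ∧ ip x v ≤ ‖v‖ ^ 2 / 2}

theorem measurableSet_kite (u v : ℂ) : MeasurableSet (kite u v) := by
  refine (measurableSet_le measurable_const (continuous_crs_right u).measurable).inter
    ((measurableSet_lt measurable_const (continuous_crs_left v).measurable).inter
    ((measurableSet_le (continuous_ip_left u).measurable measurable_const).inter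
    (measurableSet_le (continuous_ip_left v).measurable measurable_const)))

theorem volume_kite {u v : ℂ} (hX : 0 < crs u v) (hgU : ip u v < ‖u‖ ^ 2)
    (hgV : ip u v < ‖v‖ ^ 2) : volume (kite u v) = ENNReal.ofReal (Kf u v) := by
  set X := crs u v with hXdef
  set U := ‖u‖ ^ 2 with hU
  set V := ‖v‖ ^ 2 with hV
  set g := ip u v with hg
  have hUV : X ^ 2 = U * V - g ^ 2 := by
    have := ip_sq_add_crs_sq u v
    linarith
  have hU0 : 0 < U := by
    rcases (show (0:ℝ) ≤ U by positivity).lt_or_eq with h | h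
    · exact h
    · exfalso; rw [← h] at hUV; nlinarith
  have hV0 : 0 < V := by
    rcases (show (0:ℝ) ≤ V by positivity).lt_or_eq with h | h
    · exact h
    · exfalso; rw [← h] at hUV; nlinarith
  set a := V * (U - g) / (2 * X ^ 2) with ha
  set b := U * (V - g) / (2 * X ^ 2) with hb
  have hX2 : 0 < 2 * X ^ 2 := by positivity
  have ha0 : 0 < a := div_pos (mul_pos hV0 (by linarith)) hX2
  have hb0 : 0 < b := div_pos (mul_pos hU0 (by linarith)) hX2
  have r1 : a * U + b * g = U / 2 := by
    rw [ha, hb]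
    field_simp
    rw [hUV]; ring
  have r2 : a * g + b * V = V / 2 := by
    rw [ha, hb]
    field_simp
    rw [hUV]; ring
  set c : ℂ := (a : ℂ) * u + (b : ℂ) * v with hc
  set u2 : ℂ := ((1 / 2 : ℝ) : ℂ) * u with hu2
  set v2 : ℂ := ((1 / 2 : ℝ) : ℂ) * v with hv2
  have cuc : ∀ x, crs x c = a * crs x u + b * crs x v := by
    intro x; simp [hc, crs]; ring
  have ccu : ∀ x, crs c x = a * crs u x + b * crs v x := by
    intro x; simp [hc, crs]; ring
  have cu2 : ∀ x, crs u2 x = crs u x / 2 := by
    intro x; simp [hu2, crs]; ring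
  have cv2 : ∀ x, crs x v2 = crs x v / 2 := by
    intro x; simp [hv2, crs]; ring
  have t1 : crs u2 c = b * X / 2 := by rw [cu2, cuc, crs_self]; ring
  have t2 : crs c v2 = a * X / 2 := by rw [cv2, ccu, crs_self]; ring
  -- coordinates of x
  have hdec : ∀ x : ℂ, X * ip x u = crs x v * U + crs u x * g ∧
      X * ip x v = crs x v * g + crs u x * V := by
    intro x
    constructor <;> simp only [hXdef, hU, hV, hg, norm_sq_eq', ip, crs] <;> ring
  have hset : kite u v = tri u2 c ∪ tri c v2 := by
    ext x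
    obtain ⟨hx1, hx2⟩ := hdec x
    set α := crs x v with hα
    set β := crs u x with hβ
    have hxu : crs x u = - β := by rw [hβ, crs_swap]
    have hvx : crs v x = - α := by rw [hα, crs_swap]
    simp only [kite, tri, Set.mem_ofPred_eq, Set.mem_union, cuc, ccu, cu2, cv2, ← hα, ← hβ, hxu,
      hvx, ← hXdef, ← hU, ← hV]
    have key1 : ip x u ≤ U / 2 ↔ α * U + β * g ≤ X * (U / 2) := by
      rw [← hx1]; exact (mul_le_mul_iff_right₀ hX).symm
    have key2 : ip x v ≤ V / 2 ↔ α * g + β * V ≤ X * (V / 2) := by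
      rw [← hx2]; exact (mul_le_mul_iff_right₀ hX).symm
    rw [key1, key2, crs_self v, crs_self u]
    have s1 : b * (α * U + β * g) = U * (α * b - β * a + β / 2) := by
      have : b * g = U / 2 - a * U := by linarith
      calc b * (α * U + β * g) = α * b * U + β * (b * g) := by ring
        _ = _ := by rw [this]; ring
    have s2 : a * (α * g + β * V) = V * (α / 2 + (a * β - b * α)) := by
      have : a * g = V / 2 - b * V := by linarith
      calc a * (α * g + β * V) = α * (a * g) + β * a * V := by ring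
        _ = _ := by rw [this]; ring
    constructor
    · rintro ⟨h1, h2, h3, h4⟩
      by_cases hsign : 0 < a * -β + b * α
      · left
        refine ⟨hsign, by linarith, ?_⟩
        have h5 := mul_le_mul_of_nonneg_left h3 hb0.le
        rw [s1] at h5
        have h6 : U * (α * b - β * a + β / 2) ≤ U * (b * X / 2) := by linarith
        have h7 := le_of_mul_le_mul_left h6 hU0
        linarith
      · right
        push Not at hsign
        refine ⟨by linarith, by linarith, ?_⟩
        have h5 := mul_le_mul_of_nonneg_left h4 ha0.le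
        rw [s2] at h5
        have h6 : V * (α / 2 + (a * β - b * α)) ≤ V * (a * X / 2) := by linarith
        have h7 := le_of_mul_le_mul_left h6 hV0
        linarith
    · rintro (⟨h1, h2, h3⟩ | ⟨h1, h2, h3⟩)
      · have hβ0 : 0 ≤ β := by linarith
        have hα0 : 0 < α := by
          by_contra hcon
          push Not at hcon
          nlinarith
        refine ⟨hβ0, hα0, ?_, ?_⟩
        · have h6 : U * (α * b - β * a + β / 2) ≤ U * (b * X / 2) :=
            mul_le_mul_of_nonneg_left (by linarith) hU0.le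
          rw [← s1] at h6
          have h7 : b * (α * U + β * g) ≤ b * (X * (U / 2)) := by linarith
          exact le_of_mul_le_mul_left h7 hb0
        · have h6 : b * (α * g + β * V) = (α * b - β * a) * g + β * (V / 2) := by
            have : b * V = V / 2 - a * g := by linarith
            calc b * (α * g + β * V) = α * b * g + β * (b * V) := by ring
              _ = _ := by rw [this]; ring
          have h7 : (α * b - β * a) * g ≤ (α * b - β * a) * V :=
            mul_le_mul_of_nonneg_left hgV.le (by linarith)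
          have h8 : V * (α * b - β * a + β / 2) ≤ V * (b * X / 2) :=
            mul_le_mul_of_nonneg_left (by linarith) hV0.le
          have h9 : b * (α * g + β * V) ≤ b * (X * (V / 2)) := by linarith
          exact le_of_mul_le_mul_left h9 hb0
      · have hα0 : 0 < α := by linarith
        have hβ0 : 0 ≤ β := by
          by_contra hcon
          push Not at hcon
          nlinarith
        refine ⟨hβ0, hα0, ?_, ?_⟩
        · have h6 : a * (α * U + β * g) = (a * β - b * α) * g + α * (U / 2) := by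
            have : a * U = U / 2 - b * g := by linarith
            calc a * (α * U + β * g) = α * (a * U) + β * a * g := by ring
              _ = _ := by rw [this]; ring
          have h7 : (a * β - b * α) * g ≤ (a * β - b * α) * U :=
            mul_le_mul_of_nonneg_left hgU.le (by linarith)
          have h8 : U * (α / 2 + (a * β - b * α)) ≤ U * (a * X / 2) :=
            mul_le_mul_of_nonneg_left (by linarith) hU0.le
          have h9 : a * (α * U + β * g) ≤ a * (X * (U / 2)) := by linarith
          exact le_of_mul_le_mul_left h9 ha0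
        · have h6 : V * (α / 2 + (a * β - b * α)) ≤ V * (a * X / 2) :=
            mul_le_mul_of_nonneg_left (by linarith) hV0.le
          rw [← s2] at h6
          have h7 : a * (α * g + β * V) ≤ a * (X * (V / 2)) := by linarith
          exact le_of_mul_le_mul_left h7 ha0
  have hdisj : Disjoint (tri u2 c) (tri c v2) := by
    rw [Set.disjoint_left]
    rintro x ⟨h1, -, -⟩ ⟨-, h2, -⟩
    rw [crs_swap x c] at h2
    linarith
  rw [hset, measure_union hdisj (measurableSet_tri _ _), volume_tri (by rw [t1]; positivity),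
    volume_tri (by rw [t2]; positivity), t1, t2, ← ENNReal.ofReal_add (by positivity)
    (by positivity)]
  congr 1
  unfold Kf
  rw [← hXdef, ← hg, ← hU, ← hV, ha, hb]
  field_simp
  ring

/-! ### the cell -/

theorem kite_bounds {u v y : ℂ} (hu : 2 ≤ ‖u‖ ∧ ‖u‖ ≤ 201 / 100) (hv : 2 ≤ ‖v‖ ∧ ‖v‖ ≤ 201 / 100)
    (hg : 179 / 100 ≤ ip u v) (hX : 0 < crs u v) (hy : y ∈ kite u v) :
    ∃ a b : ℝ, 0 < a ∧ 0 ≤ b ∧ y = (a : ℂ) * u + (b : ℂ) * v ∧ a + b ≤ 698 / 1000 ∧
      ‖y‖ ^ 2 ≤ 144 / 100 := by
  obtain ⟨h1, h2, h3, h4⟩ := hy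
  have hdec := exists_decomp (x := y) hX
  set a := crs y v / crs u v with ha
  set b := crs u y / crs u v with hb
  have ha0 : 0 < a := div_pos h2 hX
  have hb0 : 0 ≤ b := div_nonneg h1 hX.le
  have hU : ‖u‖ ^ 2 ≤ (201 / 100) ^ 2 := pow_le_pow_left₀ (by linarith [hu.1]) hu.2 2
  have hV : ‖v‖ ^ 2 ≤ (201 / 100) ^ 2 := pow_le_pow_left₀ (by linarith [hv.1]) hv.2 2
  have hU' : (4 : ℝ) ≤ ‖u‖ ^ 2 := by nlinarith [hu.1]
  have hV' : (4 : ℝ) ≤ ‖v‖ ^ 2 := by nlinarith [hv.1]
  have e1 : ip y u = a * ‖u‖ ^ 2 + b * ip u v := by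
    conv_lhs => rw [hdec]
    simp [ip, norm_sq_eq']; ring
  have e2 : ip y v = a * ip u v + b * ‖v‖ ^ 2 := by
    conv_lhs => rw [hdec]
    simp [ip, norm_sq_eq']; ring
  have e3 : ‖y‖ ^ 2 = a * ip y u + b * ip y v := by
    have h5 : ip y y = a * ip y u + b * ip y v := by
      conv_lhs => rw [ip]
      have hre : y.re = a * u.re + b * v.re := by
        conv_lhs => rw [hdec]
        simp
      have him : y.im = a * u.im + b * v.im := by
        conv_lhs => rw [hdec]
        simp
      have e : ∀ w, ip y w = y.re * w.re + y.im * w.im := fun w => rfl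
      rw [e u, e v]
      nth_rewrite 2 [hre]
      nth_rewrite 2 [him]
      ring
    rw [← ip_self, h5]
  have hab : a + b ≤ 698 / 1000 := by
    have i1 : a * (4 + 179 / 100) ≤ a * (‖u‖ ^ 2 + ip u v) :=
      mul_le_mul_of_nonneg_left (by linarith) ha0.le
    have i2 : b * (4 + 179 / 100) ≤ b * (ip u v + ‖v‖ ^ 2) :=
      mul_le_mul_of_nonneg_left (by linarith) hb0
    linarith
  refine ⟨a, b, ha0, hb0, hdec, hab, ?_⟩
  have i1 : a * ip y u ≤ a * ((201 / 100) ^ 2 / 2) := mul_le_mul_of_nonneg_left (by linarith) ha0.le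
  have i2 : b * ip y v ≤ b * ((201 / 100) ^ 2 / 2) := mul_le_mul_of_nonneg_left (by linarith) hb0
  rw [e3]
  linarith

theorem dist_le_iff_ip {p q x : ℂ} : dist x p ≤ dist x q ↔
    ip (x - p) (q - p) ≤ ‖q - p‖ ^ 2 / 2 := by
  have h1 : dist x q = ‖(x - p) - (q - p)‖ := by rw [sub_sub_sub_cancel_right, dist_eq_norm]
  rw [h1, dist_eq_norm, ← sq_le_sq₀ (norm_nonneg _) (norm_nonneg _), norm_sub_sq'' (x - p) (q - p)]
  constructor <;> intro h <;> linarith

theorem mem_cell_of_kite {C : Set ℂ} (hC : Sep C) {p q r x : ℂ} (hp : Good C p)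
    (hc : Corner C p q r) (hx : x - p ∈ kite (q - p) (r - p)) : x ∈ cell C p := by
  obtain ⟨a1, a2, a3, a4, a5, a6⟩ := hc.norms hC
  obtain ⟨a, b, ha, hb, hdec, hab, hn⟩ := kite_bounds a1 a2 a4 hc.2.2.2.2 hx
  have hxp : dist x p ≤ 6 / 5 := by
    rw [dist_eq_norm]
    apply le_of_sq_le_sq _ (by norm_num)
    linarith
  refine ⟨hxp, ?_⟩
  intro s hs
  by_cases hsp : s = p
  · rw [hsp]
  by_cases hd : dist p s < 3
  · have hsn := gap hC hp hs hsp hd
    rw [dist_le_iff_ip]
    by_cases hsq : s = q
    · rw [hsq]; exact hx.2.2.1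
    by_cases hsr : s = r
    · rw [hsr]; exact hx.2.2.2
    have b1 := nb_norm hC hp.1 hsn
    have c1 := ip_le_of_norm (nb_sub_norm hC (p := p) hc.2.1.1 hs (Ne.symm hsq))
    have c2 := ip_le_of_norm (nb_sub_norm hC (p := p) hc.2.2.1.1 hs (Ne.symm hsr))
    have nu : ‖q - p‖ ^ 2 ≤ (201 / 100) ^ 2 := pow_le_pow_left₀ (by linarith [a1.1]) a1.2 2
    have nv : ‖r - p‖ ^ 2 ≤ (201 / 100) ^ 2 := pow_le_pow_left₀ (by linarith [a2.1]) a2.2 2
    have nw : ‖s - p‖ ^ 2 ≤ (201 / 100) ^ 2 := pow_le_pow_left₀ (by linarith [b1.1]) b1.2 2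
    have nw' : (4 : ℝ) ≤ ‖s - p‖ ^ 2 := by nlinarith [b1.1]
    have e1 : ip (x - p) (s - p) = a * ip (q - p) (s - p) + b * ip (r - p) (s - p) := by
      rw [hdec]
      simp [ip]; ring
    have i1 : a * ip (q - p) (s - p) ≤ a * (205 / 100) :=
      mul_le_mul_of_nonneg_left (by linarith) ha.le
    have i2 : b * ip (r - p) (s - p) ≤ b * (205 / 100) :=
      mul_le_mul_of_nonneg_left (by linarith) hb
    rw [e1]
    linarith
  · push Not at hd
    have := dist_triangle p x s
    rw [dist_comm p x] at this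
    linarith

theorem volume_cell_good {C : Set ℂ} (hC : Sep C) {p : ℂ} (hp : Good C p) (T : Finset (ℂ × ℂ))
    (hT : ∀ x, x ∈ T ↔ Corner C p x.1 x.2) :
    (volume (cell C p)).toReal = ∑ x ∈ T, Kf (x.1 - p) (x.2 - p) := by
  classical
  -- the cell without its centre is the disjoint union of the kites
  have hset : cell C p \ {p} = ⋃ x ∈ T, (fun y => y - p) ⁻¹' kite (x.1 - p) (x.2 - p) := by
    ext y
    simp only [Set.mem_sdiff, Set.mem_singleton_iff, Set.mem_iUnion, Set.mem_preimage,
      exists_prop]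
    constructor
    · rintro ⟨⟨hy1, hy2⟩, hyp⟩
      obtain ⟨q, r, hc, h1, h2⟩ := cone_exists hC hp hyp
      exact ⟨(q, r), (hT _).2 hc, h1, h2, dist_le_iff_ip.1 (hy2 q hc.2.1.1),
        dist_le_iff_ip.1 (hy2 r hc.2.2.1.1)⟩
    · rintro ⟨x, hx, hy⟩
      refine ⟨mem_cell_of_kite hC hp ((hT x).1 hx) hy, ?_⟩
      rintro rfl
      have := hy.2.1
      simp [crs] at this
  have hmeas : ∀ x ∈ T, MeasurableSet ((fun y => y - p) ⁻¹' kite (x.1 - p) (x.2 - p)) :=
    fun x _ => (measurable_id.sub_const p) (measurableSet_kite _ _)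
  have hdisj : Set.PairwiseDisjoint (T : Set (ℂ × ℂ))
      (fun x => (fun y => y - p) ⁻¹' kite (x.1 - p) (x.2 - p)) := by
    intro x hx x' hx' hne
    rw [Function.onFun, Set.disjoint_left]
    intro y hy hy'
    obtain ⟨h1, h2⟩ := cone_unique hC ((hT x).1 hx) ((hT x').1 hx') hy.1 hy.2.1 hy'.1 hy'.2.1
    exact hne (Prod.ext h1 h2)
  have hvol : ∀ x ∈ T, volume ((fun y => y - p) ⁻¹' kite (x.1 - p) (x.2 - p)) =
      ENNReal.ofReal (Kf (x.1 - p) (x.2 - p)) := by
    intro x hx
    have hc := (hT x).1 hx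
    obtain ⟨a1, a2, a3, a4, a5, a6⟩ := hc.norms hC
    rw [(measurePreserving_sub_right volume p).measure_preimage
      (measurableSet_kite _ _).nullMeasurableSet]
    apply volume_kite hc.2.2.2.2
    · nlinarith [a1.1]
    · nlinarith [a2.1]
  have hpos : ∀ x ∈ T, 0 ≤ Kf (x.1 - p) (x.2 - p) := by
    intro x hx
    have hc := (hT x).1 hx
    obtain ⟨a1, a2, a3, a4, a5, a6⟩ := hc.norms hC
    unfold Kf
    apply div_nonneg _ (by linarith)
    have nu' : (4 : ℝ) ≤ ‖x.1 - p‖ ^ 2 := by nlinarith [a1.1]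
    have nv' : (4 : ℝ) ≤ ‖x.2 - p‖ ^ 2 := by nlinarith [a2.1]
    have h1 : (‖x.1 - p‖ ^ 2 + ‖x.2 - p‖ ^ 2) * ip (x.1 - p) (x.2 - p) ≤
        (‖x.1 - p‖ ^ 2 + ‖x.2 - p‖ ^ 2) * 4 := mul_le_mul_of_nonneg_left (by linarith) (by positivity)
    nlinarith
  rw [← measure_sdiff_null (measure_singleton p) (s := cell C p), hset,
    measure_biUnion_finset hdisj hmeas, Finset.sum_congr rfl hvol,
    ← ENNReal.ofReal_sum_of_nonneg hpos, ENNReal.toReal_ofReal (Finset.sum_nonneg hpos)]

end H33Solid
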