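import Pool.Agent.H33.Solid.Angle

/-!
# Module A: combinatorial geometry around a good point
-/

namespace H33Solid

open MeasureTheory Complex

/-! ### numerical bounds -/

theorem ip_le_of_norm {u v : ℂ} (h : 2 ≤ ‖u - v‖) : ip u v ≤ (‖u‖ ^ 2 + ‖v‖ ^ 2 - 4) / 2 := by
  have h1 := norm_sub_sq'' u v
  nlinarith

theorem cos_num6 : (6220 / 10000 : ℝ) < Real.cos (8985 / 10000) := by
  have h1 : (0.99369 : ℝ) ≤ Real.cos (8985 / 80000) := by
    have := Real.one_sub_sq_div_two_le_cos (x := 8985 / 80000)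
    norm_num at this ⊢
    linarith
  have h2 : (0.97483 : ℝ) ≤ Real.cos (8985 / 40000) := by
    have : Real.cos (8985 / 40000) = 2 * Real.cos (8985 / 80000) ^ 2 - 1 := by
      rw [← Real.cos_two_mul]; norm_num
    rw [this]; nlinarith
  have h3 : (0.90058 : ℝ) ≤ Real.cos (8985 / 20000) := by
    have : Real.cos (8985 / 20000) = 2 * Real.cos (8985 / 40000) ^ 2 - 1 := by
      rw [← Real.cos_two_mul]; norm_num
    rw [this]; nlinarith
  have : Real.cos (8985 / 10000) = 2 * Real.cos (8985 / 20000) ^ 2 - 1 := by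
    rw [← Real.cos_two_mul]; norm_num
  rw [this]; nlinarith

theorem cos_num7 : (6600 / 10000 : ℝ) < Real.cos (8 / 10) := by
  have := Real.one_sub_sq_div_two_le_cos (x := 8 / 10)
  norm_num at this ⊢
  linarith

theorem sqrt3_lb : (17320 / 10000 : ℝ) < Real.sqrt 3 := by
  rw [Real.lt_sqrt (by norm_num)]; norm_num

theorem sqrt3_ub : Real.sqrt 3 < (17321 / 10000 : ℝ) := by
  rw [Real.sqrt_lt' (by norm_num)]; norm_num

theorem cos_d1 : (505 / 1000 : ℝ) < Real.cos (Real.pi / 3 - 6 / 1000) := by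
  rw [Real.cos_sub, Real.cos_pi_div_three, Real.sin_pi_div_three]
  have h1 := Real.one_sub_sq_div_two_le_cos (x := 6 / 1000)
  have h2 := Real.sin_gt_sub_cube (x := 6 / 1000) (by norm_num)
  have h3 := sqrt3_lb
  norm_num at h1 h2 ⊢
  nlinarith

theorem cos_d2 : (4728 / 10000 : ℝ) < Real.cos (Real.pi / 3 + 31 / 1000) := by
  rw [Real.cos_add, Real.cos_pi_div_three, Real.sin_pi_div_three]
  have h1 := Real.one_sub_sq_div_two_le_cos (x := 31 / 1000)
  have h2 := Real.sin_lt (x := 31 / 1000) (by norm_num)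
  have h3 := sqrt3_ub
  have h4 := sqrt3_lb
  norm_num at h1 h2 ⊢
  nlinarith

theorem ip_lt_six {u v : ℂ} (hu : 2 ≤ ‖u‖) (hu' : ‖u‖ ≤ 23 / 10) (hv : 2 ≤ ‖v‖)
    (hv' : ‖v‖ ≤ 23 / 10) (h : 2 ≤ ‖u - v‖) :
    ip u v < ‖u‖ * ‖v‖ * Real.cos (8985 / 10000) := by
  have h1 := ip_le_of_norm h
  have h2 := cos_num6
  have h3 : ip u v ≤ ‖u‖ * ‖v‖ * (62199 / 100000) := by
    nlinarith [mul_nonneg (sub_nonneg.2 hu) (sub_nonneg.2 hu'),
      mul_nonneg (sub_nonneg.2 hv) (sub_nonneg.2 hv'), mul_nonneg (sub_nonneg.2 hu) (sub_nonneg.2 hv),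
      mul_nonneg (sub_nonneg.2 hu') (sub_nonneg.2 hv'),
      mul_nonneg (sub_nonneg.2 hu) (sub_nonneg.2 hv'),
      mul_nonneg (sub_nonneg.2 hu') (sub_nonneg.2 hv)]
  have h4 : 0 < ‖u‖ * ‖v‖ := by positivity
  nlinarith

theorem ip_lt_seven {u v : ℂ} (hu : 2 ≤ ‖u‖) (hu' : ‖u‖ ≤ 231 / 100) (hv : 2 ≤ ‖v‖)
    (hv' : ‖v‖ ≤ 231 / 100) (h : 2 ≤ ‖u - v‖) :
    ip u v < ‖u‖ * ‖v‖ * Real.cos (8 / 10) := by
  have h1 := ip_le_of_norm h
  have h2 := cos_num7
  have h3 : ip u v ≤ ‖u‖ * ‖v‖ * (65 / 100) := by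
    nlinarith [mul_nonneg (sub_nonneg.2 hu) (sub_nonneg.2 hu'),
      mul_nonneg (sub_nonneg.2 hv) (sub_nonneg.2 hv'), mul_nonneg (sub_nonneg.2 hu) (sub_nonneg.2 hv),
      mul_nonneg (sub_nonneg.2 hu') (sub_nonneg.2 hv'),
      mul_nonneg (sub_nonneg.2 hu) (sub_nonneg.2 hv'),
      mul_nonneg (sub_nonneg.2 hu') (sub_nonneg.2 hv)]
  have h4 : 0 < ‖u‖ * ‖v‖ := by positivity
  nlinarith

theorem ip_lt_nb {u v : ℂ} (hu : 2 ≤ ‖u‖) (hu' : ‖u‖ ≤ 201 / 100) (hv : 2 ≤ ‖v‖)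
    (hv' : ‖v‖ ≤ 201 / 100) (h : 2 ≤ ‖u - v‖) :
    ip u v < ‖u‖ * ‖v‖ * Real.cos (Real.pi / 3 - 6 / 1000) := by
  have h1 := ip_le_of_norm h
  have h2 := cos_d1
  have h3 : ip u v ≤ ‖u‖ * ‖v‖ * (505 / 1000) := by
    nlinarith [mul_nonneg (sub_nonneg.2 hu) (sub_nonneg.2 hu'),
      mul_nonneg (sub_nonneg.2 hv) (sub_nonneg.2 hv'), mul_nonneg (sub_nonneg.2 hu) (sub_nonneg.2 hv),
      mul_nonneg (sub_nonneg.2 hu') (sub_nonneg.2 hv'),
      mul_nonneg (sub_nonneg.2 hu) (sub_nonneg.2 hv'),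
      mul_nonneg (sub_nonneg.2 hu') (sub_nonneg.2 hv)]
  have h4 : 0 < ‖u‖ * ‖v‖ := by positivity
  nlinarith

/-! ### cardinality bounds -/

theorem card_le_aux {p : ℂ} (S : Finset ℂ) {ρ d : ℝ} (h2 : ∀ q ∈ S, 2 ≤ dist p q)
    (h23 : ∀ q ∈ S, dist p q ≤ ρ) (hS : ∀ q ∈ S, ∀ r ∈ S, q ≠ r → 2 ≤ dist q r)
    (hd : 0 < d) (hdpi : d ≤ Real.pi) (k : ℕ) (hk : 2 * Real.pi ≤ (k + 2) * d)
    (hip : ∀ u v : ℂ, 2 ≤ ‖u‖ → ‖u‖ ≤ ρ → 2 ≤ ‖v‖ → ‖v‖ ≤ ρ → 2 ≤ ‖u - v‖ →
      ip u v < ‖u‖ * ‖v‖ * Real.cos d) : S.card ≤ k + 1 := by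
  classical
  have hinj : Function.Injective (fun q : ℂ => q - p) := sub_left_injective
  rw [← Finset.card_image_of_injective S hinj]
  have hn : ∀ s, s ∈ S.image (fun q : ℂ => q - p) → 2 ≤ ‖s‖ ∧ ‖s‖ ≤ ρ := by
    intro s hs
    obtain ⟨q, hq, rfl⟩ := Finset.mem_image.1 hs
    have h1 := h2 q hq
    have h3 := h23 q hq
    rw [dist_comm, dist_eq_norm] at h1 h3
    exact ⟨h1, h3⟩
  apply card_le_of_ip hd hdpi k hk
  · intro s hs h0
    have := (hn s hs).1
    rw [h0, norm_zero] at this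
    linarith
  · intro s hs r hr hne
    apply hip s r (hn s hs).1 (hn s hs).2 (hn r hr).1 (hn r hr).2
    obtain ⟨q, hq, rfl⟩ := Finset.mem_image.1 hs
    obtain ⟨q', hq', rfl⟩ := Finset.mem_image.1 hr
    have h3 := hS q hq q' hq' (fun h => hne (by rw [h]))
    rw [dist_eq_norm] at h3
    rwa [sub_sub_sub_cancel_right]

/-- at most six points within 2.3 -/
theorem card_le_six {p : ℂ} (S : Finset ℂ) (h2 : ∀ q ∈ S, 2 ≤ dist p q)
    (h23 : ∀ q ∈ S, dist p q ≤ 23 / 10) (hS : ∀ q ∈ S, ∀ r ∈ S, q ≠ r → 2 ≤ dist q r) :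
    S.card ≤ 6 := by
  have hpi := Real.pi_lt_d4
  have hpi' := Real.pi_gt_d4
  apply card_le_aux S h2 h23 hS (d := 8985 / 10000) (by norm_num) (by norm_num at *; linarith) 5
    (by norm_num at *; linarith)
  intro u v h1 h2 h3 h4 h5
  exact ip_lt_six h1 h2 h3 h4 h5

/-- at most seven points within 2.31 -/
theorem card_le_seven {p : ℂ} (S : Finset ℂ) (h2 : ∀ q ∈ S, 2 ≤ dist p q)
    (h23 : ∀ q ∈ S, dist p q ≤ 231 / 100) (hS : ∀ q ∈ S, ∀ r ∈ S, q ≠ r → 2 ≤ dist q r) :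
    S.card ≤ 7 := by
  have hpi := Real.pi_lt_d4
  have hpi' := Real.pi_gt_d4
  apply card_le_aux S h2 h23 hS (d := 8 / 10) (by norm_num) (by norm_num at *; linarith) 6
    (by norm_num at *; linarith)
  intro u v h1 h2 h3 h4 h5
  exact ip_lt_seven h1 h2 h3 h4 h5

theorem nb_encard_le {C : Set ℂ} (hC : Sep C) {p : ℂ} (hp : p ∈ C) : (nb C p).encard ≤ 6 := by
  by_contra hcon
  push Not at hcon
  have h7 : (7 : ℕ∞) ≤ (nb C p).encard := by
    have := Order.add_one_le_of_lt hcon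
    norm_num at this
    exact this
  obtain ⟨t, ht, ht7⟩ := Set.exists_subset_encard_eq h7
  have hfin : t.Finite := Set.finite_of_encard_eq_coe (k := 7) (by simpa using ht7)
  have hcard : hfin.toFinset.card = 7 := by
    have := hfin.encard_eq_coe_toFinset_card
    rw [ht7] at this
    exact_mod_cast this.symm
  have := card_le_six (p := p) hfin.toFinset
    (fun q hq => by
      rw [Set.Finite.mem_toFinset] at hq
      obtain ⟨h1, h2, h3⟩ := ht hq
      exact hC p hp q h1 h2.symm)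
    (fun q hq => by
      rw [Set.Finite.mem_toFinset] at hq
      obtain ⟨h1, h2, h3⟩ := ht hq
      linarith)
    (fun q hq r hr hne => by
      rw [Set.Finite.mem_toFinset] at hq hr
      exact hC q (ht hq).1 r (ht hr).1 hne)
  omega

theorem nb_finset {C : Set ℂ} (hC : Sep C) {p : ℂ} (hp : Good C p) :
    ∃ N : Finset ℂ, (∀ x, x ∈ N ↔ x ∈ nb C p) ∧ N.card = 6 := by
  have h6 : (nb C p).encard = 6 := le_antisymm (nb_encard_le hC hp.1) hp.2
  have hfin : (nb C p).Finite := Set.finite_of_encard_eq_coe (k := 6) (by simpa using h6)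
  refine ⟨hfin.toFinset, fun x => Set.Finite.mem_toFinset hfin, ?_⟩
  have := hfin.encard_eq_coe_toFinset_card
  rw [h6] at this
  exact_mod_cast this.symm

/-! ### norms of edges -/

theorem nb_norm {C : Set ℂ} (hC : Sep C) {p q : ℂ} (hp : p ∈ C) (hq : q ∈ nb C p) :
    2 ≤ ‖q - p‖ ∧ ‖q - p‖ ≤ 201 / 100 := by
  obtain ⟨h1, h2, h3⟩ := hq
  have h4 := hC p hp q h1 h2.symm
  rw [dist_comm, dist_eq_norm] at h3 h4
  exact ⟨h4, h3⟩

theorem nb_sub_norm {C : Set ℂ} (hC : Sep C) {p q r : ℂ} (hq : q ∈ C) (hr : r ∈ C)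
    (hne : q ≠ r) : 2 ≤ ‖(q - p) - (r - p)‖ := by
  rw [sub_sub_sub_cancel_right, ← dist_eq_norm]
  exact hC q hq r hr hne

theorem ang_of_crs_pos {u v : ℂ} (h : 0 < crs u v) : 0 < ang u v ∧ ang u v < Real.pi := by
  rw [crs_eq_sin] at h
  have h0 : 0 ≤ ‖u‖ * ‖v‖ := by positivity
  have hs : 0 < Real.sin (ang u v) := by
    by_contra hcon
    push Not at hcon
    nlinarith [mul_nonneg h0 (neg_nonneg.2 hcon)]
  constructor
  · rcases (ang_nonneg u v).lt_or_eq with h1 | h1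
    · exact h1
    · rw [← h1, Real.sin_zero] at hs; exact absurd hs (lt_irrefl _)
  · by_contra hcon
    push Not at hcon
    have h2 : 0 ≤ Real.sin (ang u v - Real.pi) :=
      Real.sin_nonneg_of_nonneg_of_le_pi (by linarith) (by linarith [ang_lt u v])
    rw [Real.sin_sub_pi] at h2
    linarith

theorem Corner.norms {C : Set ℂ} (hC : Sep C) {p q r : ℂ} (h : Corner C p q r) :
    (2 ≤ ‖q - p‖ ∧ ‖q - p‖ ≤ 201 / 100) ∧ (2 ≤ ‖r - p‖ ∧ ‖r - p‖ ≤ 201 / 100) ∧
    (2 ≤ ‖(q - p) - (r - p)‖ ∧ ‖(q - p) - (r - p)‖ ≤ 21 / 10) ∧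
    179 / 100 ≤ ip (q - p) (r - p) ∧ ip (q - p) (r - p) ≤ 205 / 100 ∧
    344 / 100 ≤ crs (q - p) (r - p) := by
  obtain ⟨hp, hq, hr, hd, hc⟩ := h
  have h1 := nb_norm hC hp hq
  have h2 := nb_norm hC hp hr
  have hne : q ≠ r := by
    rintro rfl
    rw [crs_self] at hc
    exact lt_irrefl _ hc
  have h3 := nb_sub_norm hC (p := p) hq.1 hr.1 hne
  have h4 : ‖(q - p) - (r - p)‖ ≤ 21 / 10 := by
    rwa [sub_sub_sub_cancel_right, ← dist_eq_norm]
  have h5 := norm_sub_sq'' (q - p) (r - p)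
  have h6 : 179 / 100 ≤ ip (q - p) (r - p) := by nlinarith [h1.1, h2.1]
  have h7 : ip (q - p) (r - p) ≤ 205 / 100 := by nlinarith [h1.1, h2.1, h1.2, h2.2]
  refine ⟨h1, h2, ⟨h3, h4⟩, h6, h7, ?_⟩
  have h8 := ip_sq_add_crs_sq (q - p) (r - p)
  have h9 : (16 : ℝ) ≤ ‖q - p‖ ^ 2 * ‖r - p‖ ^ 2 := by
    have ha : (4 : ℝ) ≤ ‖q - p‖ ^ 2 := by nlinarith [h1.1]
    have hb : (4 : ℝ) ≤ ‖r - p‖ ^ 2 := by nlinarith [h2.1]
    nlinarith
  have h10 : ip (q - p) (r - p) ^ 2 ≤ (205 / 100) ^ 2 := by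
    apply pow_le_pow_left₀ (by linarith) h7
  by_contra hcon
  push Not at hcon
  have h11 : crs (q - p) (r - p) ^ 2 ≤ (344 / 100) ^ 2 :=
    pow_le_pow_left₀ hc.le hcon.le 2
  nlinarith

/-! ### consecutive neighbours -/

theorem exists_next {C : Set ℂ} (hC : Sep C) {p q : ℂ} (hp : Good C p) (hq : q ∈ nb C p) :
    ∃ r, Corner C p q r := by
  classical
  obtain ⟨N, hN, hN6⟩ := nb_finset hC hp
  have hqN : q ∈ N := (hN q).2 hq
  have hpi := Real.pi_gt_d4
  have hpi' := Real.pi_lt_d4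
  have hd1 : 0 < Real.pi / 3 - 6 / 1000 := by norm_num at *; linarith
  have hd2 : Real.pi / 3 - 6 / 1000 ≤ Real.pi := by linarith [Real.pi_pos]
  have hq0 : q - p ≠ 0 := by
    intro h0
    have := (nb_norm hC hp.1 hq).1
    rw [h0, norm_zero] at this
    linarith
  have key : ∃ r ∈ N.erase q, ang (q - p) (r - p) ≤ Real.pi / 3 + 31 / 1000 := by
    by_contra hcon
    push Not at hcon
    have h4 : (N.erase q).card ≤ 4 := by
      apply card_le_of_gap (N.erase q) (fun x => ang (q - p) (x - p))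
        (A := Real.pi / 3 + 31 / 1000) hd1 4
      · intro x hx
        refine ⟨(hcon x hx).le, ?_⟩
        rw [Finset.mem_erase] at hx
        have hxn := (hN x).1 hx.2
        have h1 := nb_norm hC hp.1 hq
        have h2 := nb_norm hC hp.1 hxn
        have := (ang_gap hq0 hd2 (ip_lt_nb h1.1 h1.2 h2.1 h2.2
          (nb_sub_norm hC hq.1 hxn.1 hx.1.symm))).2
        push_cast
        linarith
      · intro x hx y hy hxy
        rw [Finset.mem_erase] at hx hy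
        have hxn := (hN x).1 hx.2
        have hyn := (hN y).1 hy.2
        have h1 := nb_norm hC hp.1 hyn
        have h2 := nb_norm hC hp.1 hxn
        exact (gap_of_ip_lt hq0 hd2 (ip_lt_nb h2.1 h2.2 h1.1 h1.2
          (nb_sub_norm hC hxn.1 hyn.1 hxy))).le
    rw [Finset.card_erase_of_mem hqN, hN6] at h4
    omega
  obtain ⟨r, hr, hang⟩ := key
  rw [Finset.mem_erase] at hr
  have hrn := (hN r).1 hr.2
  have h1 := nb_norm hC hp.1 hq
  have h2 := nb_norm hC hp.1 hrn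
  have hg := (ang_gap hq0 hd2 (ip_lt_nb h1.1 h1.2 h2.1 h2.2
          (nb_sub_norm hC hq.1 hrn.1 hr.1.symm))).1
  refine ⟨r, hp.1, hq, hrn, ?_, ?_⟩
  · rw [dist_eq_norm, ← sub_sub_sub_cancel_right q r p]
    have h3 := norm_sub_sq'' (q - p) (r - p)
    have h4 : 4728 / 10000 * (‖q - p‖ * ‖r - p‖) ≤ ip (q - p) (r - p) := by
      rw [ip_eq_cos]
      have h5 : Real.cos (Real.pi / 3 + 31 / 1000) ≤ Real.cos (ang (q - p) (r - p)) := by
        apply Real.cos_le_cos_of_nonneg_of_le_pi (ang_nonneg _ _) _ hang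
        norm_num at *; linarith
      have h6 := cos_d2
      have h7 : 0 ≤ ‖q - p‖ * ‖r - p‖ := by positivity
      nlinarith
    have h5 : (4 : ℝ) ≤ ‖q - p‖ * ‖r - p‖ := by nlinarith [h1.1, h2.1]
    have h6 : ‖q - p‖ ^ 2 ≤ (201 / 100) ^ 2 := pow_le_pow_left₀ (by linarith [h1.1]) h1.2 2
    have h7 : ‖r - p‖ ^ 2 ≤ (201 / 100) ^ 2 := pow_le_pow_left₀ (by linarith [h2.1]) h2.2 2
    apply le_of_sq_le_sq _ (by norm_num)
    nlinarith
  · rw [crs_eq_sin]
    have h3 : 0 < Real.sin (ang (q - p) (r - p)) := by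
      apply Real.sin_pos_of_pos_of_lt_pi (by linarith)
      norm_num at *; linarith
    have h4 : 0 < ‖q - p‖ := by linarith [h1.1]
    have h5 : 0 < ‖r - p‖ := by linarith [h2.1]
    positivity

theorem next_unique {C : Set ℂ} (hC : Sep C) {p q r r' : ℂ} (hr : Corner C p q r)
    (hr' : Corner C p q r') : r = r' := by
  by_contra hne
  obtain ⟨h1, h2, h3, h4, h5, h6⟩ := hr.norms hC
  obtain ⟨-, k2, k3, k4, k5, k6⟩ := hr'.norms hC
  have h7 := ip_mul_add (q - p) (r - p) (r' - p)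
  have h8 := ip_le_of_norm (nb_sub_norm hC (p := p) hr.2.2.1.1 hr'.2.2.1.1 hne)
  have h9 : ‖r - p‖ ^ 2 ≤ (201 / 100) ^ 2 := pow_le_pow_left₀ (by linarith [h2.1]) h2.2 2
  have h10 : ‖r' - p‖ ^ 2 ≤ (201 / 100) ^ 2 := pow_le_pow_left₀ (by linarith [k2.1]) k2.2 2
  have h11 : ‖q - p‖ ^ 2 ≤ (201 / 100) ^ 2 := pow_le_pow_left₀ (by linarith [h1.1]) h1.2 2
  have h12 : (4 : ℝ) ≤ ‖q - p‖ ^ 2 := by nlinarith [h1.1]
  have h13 : (179 / 100) * (179 / 100) ≤ ip (q - p) (r - p) * ip (q - p) (r' - p) :=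
    mul_le_mul h4 k4 (by norm_num) (by linarith)
  have h14 : (344 / 100) * (344 / 100) ≤ crs (q - p) (r - p) * crs (q - p) (r' - p) :=
    mul_le_mul h6 k6 (by norm_num) (by linarith)
  have h15 : ip (r - p) (r' - p) ≤ 205 / 100 := by linarith
  have h16 : ‖q - p‖ ^ 2 * ip (r - p) (r' - p) ≤ (201 / 100) ^ 2 * (205 / 100) := by
    rcases le_or_gt 0 (ip (r - p) (r' - p)) with h | h
    · exact mul_le_mul h11 h15 h (by norm_num)
    · nlinarith
  linarith

theorem prev_unique {C : Set ℂ} (hC : Sep C) {p q q' r : ℂ} (hr : Corner C p q r)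
    (hr' : Corner C p q' r) : q = q' := by
  by_contra hne
  obtain ⟨h1, h2, h3, h4, h5, h6⟩ := hr.norms hC
  obtain ⟨k1, -, k3, k4, k5, k6⟩ := hr'.norms hC
  have h7 := ip_mul_add (r - p) (q - p) (q' - p)
  have h8 := ip_le_of_norm (nb_sub_norm hC (p := p) hr.2.1.1 hr'.2.1.1 hne)
  rw [ip_comm (r - p) (q - p), ip_comm (r - p) (q' - p), crs_swap (q - p) (r - p),
    crs_swap (q' - p) (r - p)] at h7
  have h9 : ‖r - p‖ ^ 2 ≤ (201 / 100) ^ 2 := pow_le_pow_left₀ (by linarith [h2.1]) h2.2 2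
  have h10 : ‖q' - p‖ ^ 2 ≤ (201 / 100) ^ 2 := pow_le_pow_left₀ (by linarith [k1.1]) k1.2 2
  have h11 : ‖q - p‖ ^ 2 ≤ (201 / 100) ^ 2 := pow_le_pow_left₀ (by linarith [h1.1]) h1.2 2
  have h12 : (4 : ℝ) ≤ ‖r - p‖ ^ 2 := by nlinarith [h2.1]
  have h13 : (179 / 100) * (179 / 100) ≤ ip (q - p) (r - p) * ip (q' - p) (r - p) :=
    mul_le_mul h4 k4 (by norm_num) (by linarith)
  have h14 : (344 / 100) * (344 / 100) ≤ crs (q - p) (r - p) * crs (q' - p) (r - p) :=
    mul_le_mul h6 k6 (by norm_num) (by linarith)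
  have h15 : ip (q - p) (q' - p) ≤ 205 / 100 := by linarith
  have h16 : ‖r - p‖ ^ 2 * ip (q - p) (q' - p) ≤ (201 / 100) ^ 2 * (205 / 100) := by
    rcases le_or_gt 0 (ip (q - p) (q' - p)) with h | h
    · exact mul_le_mul h9 h15 h (by norm_num)
    · nlinarith
  linarith

/-- no near neighbour lies in the open cone of a corner -/
theorem Corner.empty {C : Set ℂ} (hC : Sep C) {p q r s : ℂ} (h : Corner C p q r)
    (hs : s ∈ nb C p) (h1 : 0 < crs (q - p) (s - p)) (h2 : 0 < crs (s - p) (r - p)) : False := by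
  obtain ⟨a1, a2, a3, a4, a5, a6⟩ := h.norms hC
  have b1 := nb_norm hC h.1 hs
  have hqs : q ≠ s := by
    rintro rfl
    rw [crs_self] at h1; exact lt_irrefl _ h1
  have hrs : s ≠ r := by
    rintro rfl
    rw [crs_self] at h2; exact lt_irrefl _ h2
  have c1 := ip_le_of_norm (nb_sub_norm hC (p := p) h.2.1.1 hs.1 hqs)
  have c2 := ip_le_of_norm (nb_sub_norm hC (p := p) hs.1 h.2.2.1.1 hrs)
  set u := q - p with hu
  set v := r - p with hv
  set w := s - p with hw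
  have nu : ‖u‖ ^ 2 ≤ (201 / 100) ^ 2 := pow_le_pow_left₀ (by linarith [a1.1]) a1.2 2
  have nv : ‖v‖ ^ 2 ≤ (201 / 100) ^ 2 := pow_le_pow_left₀ (by linarith [a2.1]) a2.2 2
  have nw : ‖w‖ ^ 2 ≤ (201 / 100) ^ 2 := pow_le_pow_left₀ (by linarith [b1.1]) b1.2 2
  have nu' : (4 : ℝ) ≤ ‖u‖ ^ 2 := by nlinarith [a1.1]
  have nv' : (4 : ℝ) ≤ ‖v‖ ^ 2 := by nlinarith [a2.1]
  have nw' : (4 : ℝ) ≤ ‖w‖ ^ 2 := by nlinarith [b1.1]
  have d1 : ip u w ≤ 205 / 100 := by linarith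
  have d2 : ip w v ≤ 205 / 100 := by linarith
  have e1 : 0 ≤ ip u w := by
    have : crs u v * ip u w = crs w v * ‖u‖ ^ 2 + crs u w * ip u v := by
      simp only [norm_sq_eq', ip, crs]; ring
    by_contra hcon
    push Not at hcon
    have : crs u v * ip u w < 0 := mul_neg_of_pos_of_neg (by linarith) hcon
    have : 0 ≤ crs w v * ‖u‖ ^ 2 := by positivity
    have : 0 ≤ crs u w * ip u v := mul_nonneg h1.le (by linarith)
    linarith
  have e2 : 0 ≤ ip w v := by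
    have : crs u v * ip w v = crs w v * ip u v + crs u w * ‖v‖ ^ 2 := by
      simp only [norm_sq_eq', ip, crs]; ring
    by_contra hcon
    push Not at hcon
    have : crs u v * ip w v < 0 := mul_neg_of_pos_of_neg (by linarith) hcon
    have : 0 ≤ crs u w * ‖v‖ ^ 2 := by positivity
    have : 0 ≤ crs w v * ip u v := mul_nonneg h2.le (by linarith)
    linarith
  have f1 : 344 / 100 ≤ crs u w := by
    have g1 := ip_sq_add_crs_sq u w
    have g2 : ip u w ^ 2 ≤ (205 / 100) ^ 2 := pow_le_pow_left₀ e1 d1 2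
    by_contra hcon
    push Not at hcon
    have g3 : crs u w ^ 2 ≤ (344 / 100) ^ 2 := pow_le_pow_left₀ h1.le hcon.le 2
    nlinarith
  have f2 : 344 / 100 ≤ crs w v := by
    have g1 := ip_sq_add_crs_sq w v
    have g2 : ip w v ^ 2 ≤ (205 / 100) ^ 2 := pow_le_pow_left₀ e2 d2 2
    by_contra hcon
    push Not at hcon
    have g3 : crs w v ^ 2 ≤ (344 / 100) ^ 2 := pow_le_pow_left₀ h2.le hcon.le 2
    nlinarith
  have g := ip_mul_sub u w v
  have g1 : ip u w * ip w v ≤ (205 / 100) * (205 / 100) := mul_le_mul d1 d2 e2 (by norm_num)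
  have g2 : (344 / 100) * (344 / 100) ≤ crs u w * crs w v :=
    mul_le_mul f1 f2 (by norm_num) (by linarith)
  have g3 : 0 ≤ ‖w‖ ^ 2 * ip u v := mul_nonneg (by positivity) (by linarith)
  linarith

/-- every direction lies in the half-open cone of some corner -/
theorem cone_exists {C : Set ℂ} (hC : Sep C) {p x : ℂ} (hp : Good C p) (hx : x ≠ p) :
    ∃ q r, Corner C p q r ∧ 0 ≤ crs (q - p) (x - p) ∧ 0 < crs (x - p) (r - p) := by
  classical
  obtain ⟨N, hN, hN6⟩ := nb_finset hC hp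
  have hne : N.Nonempty := by
    rw [← Finset.card_pos]; omega
  obtain ⟨q, hq, hmin⟩ := Finset.exists_min_image N (fun q => ang (q - p) (x - p)) hne
  have hqn := (hN q).1 hq
  obtain ⟨r, hr⟩ := exists_next hC hp hqn
  obtain ⟨a1, a2, a3, a4, a5, a6⟩ := hr.norms hC
  have hq0 : q - p ≠ 0 := by
    intro h0; rw [h0, norm_zero] at a1; linarith [a1.1]
  have hr0 : r - p ≠ 0 := by
    intro h0; rw [h0, norm_zero] at a2; linarith [a2.1]
  have hx0 : x - p ≠ 0 := sub_ne_zero.2 hx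
  obtain ⟨b1, b2⟩ := ang_of_crs_pos hr.2.2.2.2
  have hlt : ang (q - p) (x - p) < ang (q - p) (r - p) := by
    by_contra hcon
    push Not at hcon
    have h1 := ang_sub hq0 hr0 hx0 hcon
    have h2 := hmin r ((hN r).2 hr.2.2.1)
    linarith
  refine ⟨q, r, hr, ?_, ?_⟩
  · rw [crs_eq_sin]
    have : 0 ≤ Real.sin (ang (q - p) (x - p)) :=
      Real.sin_nonneg_of_nonneg_of_le_pi (ang_nonneg _ _) (by linarith)
    positivity
  · rw [crs_eq_sin_sub hq0]
    have h1 : 0 < Real.sin (ang (q - p) (r - p) - ang (q - p) (x - p)) :=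
      Real.sin_pos_of_pos_of_lt_pi (by linarith) (by linarith [ang_nonneg (q - p) (x - p)])
    have h2 : 0 < ‖x - p‖ := norm_pos_iff.2 hx0
    have h3 : 0 < ‖r - p‖ := norm_pos_iff.2 hr0
    positivity

theorem cone_unique_aux {C : Set ℂ} (hC : Sep C) {p x q r q' r' : ℂ} (h : Corner C p q r)
    (h' : Corner C p q' r') (h2 : 0 < crs (x - p) (r - p))
    (h1' : 0 ≤ crs (q' - p) (x - p)) (h2' : 0 < crs (x - p) (r' - p))
    (hlt : ang (x - p) (r - p) < ang (x - p) (r' - p)) : False := by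
  obtain ⟨a1, a2, a3, a4, a5, a6⟩ := h.norms hC
  obtain ⟨b1, b2, b3, b4, b5, b6⟩ := h'.norms hC
  have hx0 : x - p ≠ 0 := by
    intro h0
    rw [h0] at h2
    simp [crs] at h2
  have hr0 : 0 < ‖r - p‖ := by linarith [a2.1]
  have hr0' : 0 < ‖r' - p‖ := by linarith [b2.1]
  have hq0' : 0 < ‖q' - p‖ := by linarith [b1.1]
  obtain ⟨c1, c2⟩ := ang_of_crs_pos h2
  obtain ⟨d1, d2⟩ := ang_of_crs_pos h2'
  have hv : 0 < crs (r - p) (r' - p) := by
    rw [crs_eq_sin_sub hx0]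
    have h1 : 0 < Real.sin (ang (x - p) (r' - p) - ang (x - p) (r - p)) :=
      Real.sin_pos_of_pos_of_lt_pi (by linarith) (by linarith)
    positivity
  have hv' : 0 < crs (q' - p) (r - p) := by
    rw [crs_eq_sin_sub hx0]
    have h3 : 0 < crs (q' - p) (r' - p) := by linarith
    rw [crs_eq_sin_sub hx0] at h3
    have h4 : 0 < Real.sin (ang (x - p) (r' - p) - ang (x - p) (q' - p)) := by
      by_contra hcon
      push Not at hcon
      have : 0 ≤ ‖q' - p‖ * ‖r' - p‖ * -Real.sin (ang (x - p) (r' - p) - ang (x - p) (q' - p)) :=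
        mul_nonneg (by positivity) (by linarith)
      linarith
    have h5 : crs (x - p) (q' - p) ≤ 0 := by rw [crs_swap]; linarith
    rw [crs_eq_sin] at h5
    have h6 : Real.sin (ang (x - p) (q' - p)) ≤ 0 := by
      by_contra hcon
      push Not at hcon
      have : 0 < ‖x - p‖ * ‖q' - p‖ * Real.sin (ang (x - p) (q' - p)) := by
        have : 0 < ‖x - p‖ := norm_pos_iff.2 hx0
        positivity
      linarith
    have h7 : 0 < Real.sin (ang (x - p) (r - p) - ang (x - p) (q' - p)) := by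
      rcases (ang_nonneg (x - p) (q' - p)).lt_or_eq with h8 | h8
      · have h9 : Real.pi ≤ ang (x - p) (q' - p) := by
          by_contra hcon
          push Not at hcon
          have := Real.sin_pos_of_pos_of_lt_pi h8 hcon
          linarith
        have h10 : Real.pi < ang (x - p) (q' - p) - ang (x - p) (r' - p) := by
          by_contra hcon
          push Not at hcon
          have : 0 ≤ Real.sin (ang (x - p) (q' - p) - ang (x - p) (r' - p)) :=
            Real.sin_nonneg_of_nonneg_of_le_pi (by linarith) hcon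
          rw [← neg_sub, Real.sin_neg] at this
          linarith
        have h11 : 0 < Real.sin (ang (x - p) (r - p) - ang (x - p) (q' - p) + 2 * Real.pi) :=
          Real.sin_pos_of_pos_of_lt_pi (by linarith [ang_lt (x - p) (q' - p)]) (by linarith)
        rwa [Real.sin_add_two_pi] at h11
      · rw [← h8, sub_zero]
        exact Real.sin_pos_of_pos_of_lt_pi c1 c2
    positivity
  exact h'.empty hC h.2.2.1 hv' hv

/-- the half-open cones of distinct corners are disjoint -/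
theorem cone_unique {C : Set ℂ} (hC : Sep C) {p x q r q' r' : ℂ} (h : Corner C p q r)
    (h' : Corner C p q' r') (h1 : 0 ≤ crs (q - p) (x - p)) (h2 : 0 < crs (x - p) (r - p))
    (h1' : 0 ≤ crs (q' - p) (x - p)) (h2' : 0 < crs (x - p) (r' - p)) : q = q' ∧ r = r' := by
  have hrr : r = r' := by
    rcases lt_trichotomy (ang (x - p) (r - p)) (ang (x - p) (r' - p)) with hlt | heq | hgt
    · exact (cone_unique_aux hC h h' h2 h1' h2' hlt).elim
    · by_contra hne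
      have hx0 : x - p ≠ 0 := by
        intro h0
        rw [h0] at h2
        simp [crs] at h2
      have h3 := ip_eq_cos_sub hx0 (r - p) (r' - p)
      rw [heq, sub_self, Real.cos_zero, mul_one] at h3
      obtain ⟨a1, a2, a3, a4, a5, a6⟩ := h.norms hC
      obtain ⟨b1, b2, b3, b4, b5, b6⟩ := h'.norms hC
      have h4 := ip_le_of_norm (nb_sub_norm hC (p := p) h.2.2.1.1 h'.2.2.1.1 hne)
      nlinarith [a2.1, a2.2, b2.1, b2.2]
    · exact (cone_unique_aux hC h' h h2' h1 h2 hgt).elim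
  subst hrr
  exact ⟨prev_unique hC h h', rfl⟩

/-- a good point has no other point within distance 3 -/
theorem gap {C : Set ℂ} (hC : Sep C) {p s : ℂ} (hp : Good C p) (hs : s ∈ C) (hne : s ≠ p)
    (hd : dist p s < 3) : s ∈ nb C p := by
  refine ⟨hs, hne, ?_⟩
  by_contra hcon
  push Not at hcon
  obtain ⟨q, r, hc, h1, h2⟩ := cone_exists hC hp hne
  obtain ⟨a1, a2, a3, a4, a5, a6⟩ := hc.norms hC
  have hqs : q ≠ s := by
    rintro rfl
    have := hc.2.1.2.2
    linarith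
  have hrs : r ≠ s := by
    rintro rfl
    have := hc.2.2.1.2.2
    linarith
  have c1 := ip_le_of_norm (nb_sub_norm hC (p := p) hs hc.2.1.1 hqs.symm)
  have c2 := ip_le_of_norm (nb_sub_norm hC (p := p) hs hc.2.2.1.1 hrs.symm)
  have hdd : dist p s = ‖s - p‖ := by rw [dist_comm, dist_eq_norm]
  rw [hdd] at hd hcon
  set u := q - p with hu
  set v := r - p with hv
  set w := s - p with hw
  have nu : ‖u‖ ^ 2 ≤ (201 / 100) ^ 2 := pow_le_pow_left₀ (by linarith [a1.1]) a1.2 2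
  have nv : ‖v‖ ^ 2 ≤ (201 / 100) ^ 2 := pow_le_pow_left₀ (by linarith [a2.1]) a2.2 2
  have nw : ‖w‖ ^ 2 < 9 := by nlinarith [norm_nonneg w]
  have nw' : (4 : ℝ) ≤ ‖w‖ ^ 2 := by nlinarith [norm_nonneg w]
  have nu' : (4 : ℝ) ≤ ‖u‖ ^ 2 := by nlinarith [a1.1]
  have nv' : (4 : ℝ) ≤ ‖v‖ ^ 2 := by nlinarith [a2.1]
  have e1 : crs u v * ip w u = crs w v * ‖u‖ ^ 2 + crs u w * ip u v := by
    simp only [norm_sq_eq', ip, crs]; ring
  have e2 : crs u v * ip w v = crs w v * ip u v + crs u w * ‖v‖ ^ 2 := by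
    simp only [norm_sq_eq', ip, crs]; ring
  have e3 : crs u v * ‖w‖ ^ 2 = crs w v * ip w u + crs u w * ip w v := by
    simp only [norm_sq_eq', ip, crs]; ring
  have f1 : ip w u ≤ (‖w‖ ^ 2 + 1 / 20) / 2 := by linarith
  have f2 : ip w v ≤ (‖w‖ ^ 2 + 1 / 20) / 2 := by linarith
  -- with S = crs w v + crs u w, X = crs u v
  have g1 : crs u v * ‖w‖ ^ 2 ≤ (crs w v + crs u w) * ((‖w‖ ^ 2 + 1 / 20) / 2) := by
    rw [e3, add_mul]
    exact add_le_add (mul_le_mul_of_nonneg_left f1 h2.le) (mul_le_mul_of_nonneg_left f2 h1)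
  have g2 : (crs w v + crs u w) * (4 + 179 / 100) ≤ crs u v * (‖w‖ ^ 2 + 1 / 20) := by
    have i1 : crs w v * (4 + 179 / 100) ≤ crs w v * (‖u‖ ^ 2 + ip u v) :=
      mul_le_mul_of_nonneg_left (by linarith) h2.le
    have i2 : crs u w * (4 + 179 / 100) ≤ crs u w * (ip u v + ‖v‖ ^ 2) :=
      mul_le_mul_of_nonneg_left (by linarith) h1
    have i3 : crs u v * (ip w u + ip w v) ≤ crs u v * (‖w‖ ^ 2 + 1 / 20) :=
      mul_le_mul_of_nonneg_left (by linarith) (by linarith)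
    nlinarith
  have g3 : crs u v * ‖w‖ ^ 2 * (4 + 179 / 100) ≤ crs u v * ((‖w‖ ^ 2 + 1 / 20) ^ 2 / 2) := by
    have : crs u v * ‖w‖ ^ 2 * (4 + 179 / 100) ≤
        (crs w v + crs u w) * (4 + 179 / 100) * ((‖w‖ ^ 2 + 1 / 20) / 2) := by nlinarith
    have h6 : (crs w v + crs u w) * (4 + 179 / 100) * ((‖w‖ ^ 2 + 1 / 20) / 2) ≤
        crs u v * (‖w‖ ^ 2 + 1 / 20) * ((‖w‖ ^ 2 + 1 / 20) / 2) :=
      mul_le_mul_of_nonneg_right g2 (by positivity)
    nlinarith
  have g4 : ‖w‖ ^ 2 * (4 + 179 / 100) ≤ (‖w‖ ^ 2 + 1 / 20) ^ 2 / 2 := by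
    have hX : 0 < crs u v := by linarith
    rw [mul_assoc] at g3
    exact le_of_mul_le_mul_left g3 hX
  nlinarith

/-- corners around a good point: six of them, and both projections are bijections onto `nb C p` -/
theorem corners {C : Set ℂ} (hC : Sep C) {p : ℂ} (hp : Good C p) :
    ∃ T : Finset (ℂ × ℂ), (∀ x, x ∈ T ↔ Corner C p x.1 x.2) ∧ T.card = 6 ∧
      (∀ g : ℂ → ℝ, ∑ x ∈ T, (g x.1 - g x.2) = 0) := by
  classical
  obtain ⟨N, hN, hN6⟩ := nb_finset hC hp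
  let T : Finset (ℂ × ℂ) := (N ×ˢ N).filter (fun x => Corner C p x.1 x.2)
  have hT : ∀ x, x ∈ T ↔ Corner C p x.1 x.2 := by
    intro x
    simp only [T, Finset.mem_filter, Finset.mem_product, and_iff_right_iff_imp]
    intro h
    exact ⟨(hN _).2 h.2.1, (hN _).2 h.2.2.1⟩
  have hinj1 : Set.InjOn Prod.fst (T : Set (ℂ × ℂ)) := by
    intro x hx y hy hxy
    have hx' := (hT x).1 hx
    have hy' := (hT y).1 hy
    rw [hxy] at hx'
    exact Prod.ext hxy (next_unique hC hx' hy')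
  have hinj2 : Set.InjOn Prod.snd (T : Set (ℂ × ℂ)) := by
    intro x hx y hy hxy
    have hx' := (hT x).1 hx
    have hy' := (hT y).1 hy
    rw [hxy] at hx'
    exact Prod.ext (prev_unique hC hx' hy') hxy
  have him1 : T.image Prod.fst = N := by
    ext q
    simp only [Finset.mem_image]
    constructor
    · rintro ⟨x, hx, rfl⟩
      exact (hN _).2 ((hT x).1 hx).2.1
    · intro hq
      obtain ⟨r, hr⟩ := exists_next hC hp ((hN q).1 hq)
      exact ⟨(q, r), (hT _).2 hr, rfl⟩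
  have hcard : T.card = 6 := by
    rw [← hN6, ← him1, Finset.card_image_of_injOn hinj1]
  have him2 : T.image Prod.snd = N := by
    apply Finset.eq_of_subset_of_card_le
    · intro q hq
      obtain ⟨x, hx, rfl⟩ := Finset.mem_image.1 hq
      exact (hN _).2 ((hT x).1 hx).2.2.1
    · rw [Finset.card_image_of_injOn hinj2, hcard, hN6]
  refine ⟨T, hT, hcard, fun g => ?_⟩
  rw [Finset.sum_sub_distrib]
  have h1 : ∑ x ∈ T, g x.1 = ∑ q ∈ N, g q := by
    rw [← him1, Finset.sum_image hinj1]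
  have h2 : ∑ x ∈ T, g x.2 = ∑ q ∈ N, g q := by
    conv_rhs => rw [← him2]
    rw [Finset.sum_image hinj2]
  rw [h1, h2, sub_self]

/-- cyclic symmetry of corners between good points -/
theorem Corner.rotate {C : Set ℂ} (hC : Sep C) {p q r : ℂ} (hq : Good C q)
    (h : Corner C p q r) : Corner C q r p := by
  obtain ⟨hp, hqn, hrn, hd, hc⟩ := h
  have hne : r ≠ q := by
    rintro rfl
    rw [crs_self] at hc
    exact lt_irrefl _ hc
  refine ⟨hq.1, gap hC hq hrn.1 hne (by linarith), ⟨hp, hqn.2.1.symm, ?_⟩, ?_, ?_⟩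
  · rw [dist_comm]; exact hqn.2.2
  · rw [dist_comm]; linarith [hrn.2.2]
  · have : crs (r - q) (p - q) = crs (q - p) (r - p) := by
      simp only [crs, Complex.sub_re, Complex.sub_im]; ring
    rw [this]; exact hc

end H33Solid
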