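import Pool.Agent.H33.Solid.Defs

/-! Module D: algebra of kites -/

namespace H33Solid

theorem crs_sub_rot (p q r : ℂ) : crs (r - q) (p - q) = crs (q - p) (r - p) := by
  simp only [crs, Complex.sub_re, Complex.sub_im]; ring

theorem crs_sub_rot' (p q r : ℂ) : crs (p - r) (q - r) = crs (q - p) (r - p) := by
  simp only [crs, Complex.sub_re, Complex.sub_im]; ring

theorem norm_sq_re_im (z : ℂ) : ‖z‖ ^ 2 = z.re ^ 2 + z.im ^ 2 := by
  rw [← Complex.normSq_eq_norm_sq, Complex.normSq_apply]; ring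

theorem Kf_sum {p q r : ℂ} (hc : 0 < crs (q - p) (r - p)) :
    Kf (q - p) (r - p) + Kf (r - q) (p - q) + Kf (p - r) (q - r) = crs (q - p) (r - p) / 2 := by
  unfold Kf
  rw [crs_sub_rot p q r, crs_sub_rot' p q r]
  have h8 : (8 * crs (q - p) (r - p)) ≠ 0 := by positivity
  rw [← add_div, ← add_div, div_eq_iff h8]
  simp only [norm_sq_re_im, ip, crs, Complex.sub_re, Complex.sub_im]
  ring

theorem Kf_ge {u v : ℂ} (hu : 2 ≤ ‖u‖) (hu' : ‖u‖ ≤ 201 / 100) (hv : 2 ≤ ‖v‖)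
    (hv' : ‖v‖ ≤ 201 / 100) (h : 2 ≤ ‖u - v‖) (h' : ‖u - v‖ ≤ 21 / 10) (hc : 0 < crs u v) :
    Real.sqrt 3 / 3 ≤ Kf u v := by
  -- squared quantities
  have a0 : 0 ≤ ‖u‖ ^ 2 - 4 := by nlinarith
  have a1 : ‖u‖ ^ 2 - 4 ≤ 401 / 10000 := by nlinarith
  have b0 : 0 ≤ ‖v‖ ^ 2 - 4 := by nlinarith
  have b1 : ‖v‖ ^ 2 - 4 ≤ 401 / 10000 := by nlinarith
  have c0 : 0 ≤ ‖u - v‖ ^ 2 - 4 := by nlinarith
  have c1 : ‖u - v‖ ^ 2 - 4 ≤ 41 / 100 := by nlinarith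
  obtain ⟨a, ha⟩ : ∃ a, a = ‖u‖ ^ 2 - 4 := ⟨_, rfl⟩
  obtain ⟨b, hb⟩ : ∃ b, b = ‖v‖ ^ 2 - 4 := ⟨_, rfl⟩
  obtain ⟨c, hc'⟩ : ∃ c, c = ‖u - v‖ ^ 2 - 4 := ⟨_, rfl⟩
  rw [← ha] at a0 a1
  rw [← hb] at b0 b1
  rw [← hc'] at c0 c1
  have hip : ip u v = (4 + a + b - c) / 2 := by
    rw [ha, hb, hc', norm_sq_re_im, norm_sq_re_im, norm_sq_re_im]
    simp only [ip, Complex.sub_re, Complex.sub_im]; ring
  have hu2 : ‖u‖ ^ 2 = 4 + a := by linarith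
  have hv2 : ‖v‖ ^ 2 = 4 + b := by linarith
  have hX2 : crs u v ^ 2 = (4 + a) * (4 + b) - ((4 + a + b - c) / 2) ^ 2 := by
    rw [← hip, ← hu2, ← hv2, norm_sq_re_im, norm_sq_re_im]
    simp only [ip, crs]; ring
  obtain ⟨N, hN⟩ : ∃ N, N = 2 * (4 + a) * (4 + b) - ((4 + a) + (4 + b)) * ((4 + a + b - c) / 2) :=
    ⟨_, rfl⟩
  have hKf : Kf u v = N / (8 * crs u v) := by
    unfold Kf; rw [hu2, hv2, hip, hN]
  have hN0 : 0 ≤ N := by rw [hN]; nlinarith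
  have hmc : 0 ≤ (a + b) * c := mul_nonneg (add_nonneg a0 b0) c0
  have hm1 : (a + b) * c ≤ 41 / 100 * (a + b) := by
    have := mul_le_mul_of_nonneg_left c1 (add_nonneg a0 b0)
    linarith
  have hm2 : (a + b) ^ 2 ≤ 802 / 10000 * (a + b) := by
    have h0 : a + b ≤ 802 / 10000 := by linarith
    have := mul_le_mul_of_nonneg_left h0 (add_nonneg a0 b0)
    nlinarith
  have hab : 0 ≤ a * b := mul_nonneg a0 b0
  have hNl : 16 + 19 / 10 * (a + b) + 4 * c ≤ N := by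
    rw [hN]
    have : 2 * (4 + a) * (4 + b) - ((4 + a) + (4 + b)) * ((4 + a + b - c) / 2) =
      16 + 2 * (a + b) + 4 * c + 2 * (a * b) - (a + b) ^ 2 / 2 + (a + b) * c / 2 := by ring
    rw [this]; linarith
  have hX2u : crs u v ^ 2 ≤ 12 + 2 * (a + b) + 2 * c + (a + b) * c / 2 := by
    rw [hX2]
    nlinarith [sq_nonneg (a - b), sq_nonneg c]
  have key : 64 * crs u v ^ 2 ≤ 3 * N ^ 2 := by
    have hm0 : 0 ≤ a + b := add_nonneg a0 b0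
    have h1 : (16 + 19 / 10 * (a + b) + 4 * c) ^ 2 ≤ N ^ 2 :=
      pow_le_pow_left₀ (by positivity) hNl 2
    have h2 : 256 + 60 * (a + b) + 128 * c ≤ (16 + 19 / 10 * (a + b) + 4 * c) ^ 2 := by
      have : (16 + 19 / 10 * (a + b) + 4 * c) ^ 2 = 256 + 60.8 * (a + b) + 128 * c
        + (19 / 10 * (a + b) + 4 * c) ^ 2 := by ring
      rw [this]
      have := sq_nonneg (19 / 10 * (a + b) + 4 * c)
      linarith
    linarith
  rw [hKf, div_le_div_iff₀ (by norm_num) (by positivity)]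
  have h3 : 0 ≤ Real.sqrt 3 := Real.sqrt_nonneg 3
  have h33 : Real.sqrt 3 ^ 2 = 3 := Real.sq_sqrt (by norm_num)
  apply le_of_sq_le_sq _ (by positivity)
  calc (Real.sqrt 3 * (8 * crs u v)) ^ 2 = 3 * (64 * crs u v ^ 2) := by
        rw [mul_pow, mul_pow, h33]; norm_num
    _ ≤ 3 * (3 * N ^ 2) := by linarith
    _ = (N * 3) ^ 2 := by ring

end H33Solid
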