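import Pool.Agent.H33.Solid.Compare
import Pool.Agent.H33.Solid.Good
import Pool.Agent.H33.Solid.CellGood
import Pool.Agent.H33.Solid.Bad
import Pool.Agent.H33.Solid.Kite

/-!
# Module F: global accounting
-/

namespace H33Solid

open MeasureTheory

open Classical in
/-- the corners at a good point -/
noncomputable def cornersAt (X : Set ℂ) (p : ℂ) : Finset (ℂ × ℂ) :=
  if h : Sep X ∧ Good X p then (corners h.1 h.2).choose else ∅

theorem mem_cornersAt {X : Set ℂ} (hX : Sep X) {p : ℂ} (hp : Good X p) (x : ℂ × ℂ) :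
    x ∈ cornersAt X p ↔ Corner X p x.1 x.2 := by
  have h : Sep X ∧ Good X p := ⟨hX, hp⟩
  unfold cornersAt
  rw [dif_pos h]
  exact (corners h.1 h.2).choose_spec.1 x

theorem sum_cornersAt {X : Set ℂ} (hX : Sep X) {p : ℂ} (hp : Good X p) (g : ℂ → ℝ) :
    ∑ x ∈ cornersAt X p, (g x.1 - g x.2) = 0 := by
  have h : Sep X ∧ Good X p := ⟨hX, hp⟩
  unfold cornersAt
  rw [dif_pos h]
  exact (corners h.1 h.2).choose_spec.2.2 g

theorem card_cornersAt {X : Set ℂ} (hX : Sep X) {p : ℂ} (hp : Good X p) :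
    (cornersAt X p).card = 6 := by
  have h : Sep X ∧ Good X p := ⟨hX, hp⟩
  unfold cornersAt
  rw [dif_pos h]
  exact (corners h.1 h.2).choose_spec.2.1

theorem cornersAt_bad {X : Set ℂ} {p : ℂ} (hp : ¬ Good X p) : cornersAt X p = ∅ := by
  unfold cornersAt
  rw [dif_neg (fun h => hp h.2)]

/-- the cost of a corner -/
noncomputable def cost (w : ℂ → ℂ → ℝ) (p q r : ℂ) : ℝ :=
  Kf (q - p) (r - p) - Real.sqrt 3 / 3 - (w p q - w p r) / 2

theorem vol_good {X : Set ℂ} (hX : Sep X) (w : ℂ → ℂ → ℝ) {p : ℂ} (hp : Good X p) :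
    (volume (cell X p)).toReal - 2 * Real.sqrt 3 = ∑ x ∈ cornersAt X p, cost w p x.1 x.2 := by
  rw [volume_cell_good hX hp (cornersAt X p) (mem_cornersAt hX hp)]
  have h1 := sum_cornersAt hX hp (fun q => w p q)
  have h2 : ∑ x ∈ cornersAt X p, (w p x.1 - w p x.2) / 2 = 0 := by
    rw [← Finset.sum_div, h1, zero_div]
  have h3 : ∑ _x ∈ cornersAt X p, Real.sqrt 3 / 3 = 2 * Real.sqrt 3 := by
    rw [Finset.sum_const, card_cornersAt hX hp]
    simp only [nsmul_eq_mul]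
    push_cast
    ring
  unfold cost
  rw [Finset.sum_sub_distrib, Finset.sum_sub_distrib, h2, h3]
  ring

theorem cost_sum {w : ℂ → ℂ → ℝ} (hanti : ∀ p q, w q p = - w p q) {p q r : ℂ}
    (hc : 0 < crs (q - p) (r - p)) :
    cost w p q r + cost w q r p + cost w r p q = Phi w p q r := by
  have h := Kf_sum hc
  unfold cost Phi
  rw [hanti p q, hanti q r, hanti r p]
  linarith

/-- facts about a corner -/
theorem Corner.dist_facts {X : Set ℂ} (hX : Sep X) {p q r : ℂ} (h : Corner X p q r) :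
    p ∈ X ∧ q ∈ X ∧ r ∈ X ∧ 2 ≤ dist p q ∧ dist p q ≤ 201 / 100 ∧ 2 ≤ dist p r ∧
      dist p r ≤ 201 / 100 ∧ 2 ≤ dist q r := by
  obtain ⟨hp, hq, hr, hqr, hc⟩ := h
  have hne : q ≠ r := by
    rintro rfl
    simp [crs, mul_comm] at hc
  exact ⟨hp, hq.1, hr.1, hX p hp q hq.1 hq.2.1.symm, hq.2.2, hX p hp r hr.1 hr.2.1.symm, hr.2.2,
    hX q hq.1 r hr.1 hne⟩

theorem cost_ge {t : ℝ} {w : ℂ → ℂ → ℝ} (hw : Calibration t w) {X : Set ℂ} (hX : Sep X)
    {p q r : ℂ} (h : Corner X p q r) : - (1 / 5000) ≤ cost w p q r := by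
  obtain ⟨_, _, _, h1, h2, h3, h4, h5⟩ := h.dist_facts hX
  have hK : Real.sqrt 3 / 3 ≤ Kf (q - p) (r - p) := by
    refine Kf_ge ?_ ?_ ?_ ?_ ?_ ?_ h.2.2.2.2
    · rw [← dist_eq_norm, dist_comm]; exact h1
    · rw [← dist_eq_norm, dist_comm]; exact h2
    · rw [← dist_eq_norm, dist_comm]; exact h3
    · rw [← dist_eq_norm, dist_comm]; exact h4
    · rw [sub_sub_sub_cancel_right, ← dist_eq_norm]; exact h5
    · rw [sub_sub_sub_cancel_right, ← dist_eq_norm]; exact h.2.2.2.1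
  have hb1 := hw.bound p q h2
  have hb2 := hw.bound p r h4
  rw [abs_le] at hb1 hb2
  unfold cost
  linarith [hb1.1, hb1.2, hb2.1, hb2.2]

/-- the triples -/
noncomputable def triples (X : Set ℂ) (A : Finset ℂ) : Finset ((_ : ℂ) × (ℂ × ℂ)) :=
  A.sigma (fun p => cornersAt X p)

theorem mem_triples {X : Set ℂ} (hX : Sep X) {A : Finset ℂ} {p q r : ℂ} :
    (⟨p, (q, r)⟩ : (_ : ℂ) × (ℂ × ℂ)) ∈ triples X A ↔ p ∈ A ∧ Good X p ∧ Corner X p q r := by
  unfold triples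
  rw [Finset.mem_sigma]
  refine and_congr_right (fun _ => ?_)
  by_cases hg : Good X p
  · simp [mem_cornersAt hX hg, hg]
  · simp [cornersAt_bad hg, hg]

open Classical in
theorem sum_vol {X : Set ℂ} (hX : Sep X) (w : ℂ → ℂ → ℝ) (A : Finset ℂ) :
    ∑ p ∈ A, ((volume (cell X p)).toReal - 2 * Real.sqrt 3) =
      ∑ x ∈ triples X A, cost w x.1 x.2.1 x.2.2 +
        ∑ p ∈ A.filter (fun p => ¬ Good X p), ((volume (cell X p)).toReal - 2 * Real.sqrt 3) := by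
  unfold triples
  rw [Finset.sum_sigma, ← Finset.sum_filter_add_sum_filter_not A (fun p => Good X p)
    (fun p => (volume (cell X p)).toReal - 2 * Real.sqrt 3)]
  congr 1
  rw [← Finset.sum_filter_add_sum_filter_not A (fun p => Good X p)
    (fun p => ∑ x ∈ cornersAt X p, cost w p x.1 x.2)]
  have h0 : ∑ p ∈ A.filter (fun p => ¬ Good X p), ∑ x ∈ cornersAt X p, cost w p x.1 x.2 = 0 := by
    refine Finset.sum_eq_zero (fun p hp => ?_)
    rw [cornersAt_bad (Finset.mem_filter.1 hp).2, Finset.sum_empty]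
  rw [h0, add_zero]
  refine Finset.sum_congr rfl (fun p hp => ?_)
  exact vol_good hX w (Finset.mem_filter.1 hp).2

open Classical in
/-- all three points in `A` and good -/
noncomputable def tripA (X : Set ℂ) (A : Finset ℂ) : Finset ((_ : ℂ) × (ℂ × ℂ)) :=
  (triples X A).filter (fun x => (x.2.1 ∈ A ∧ x.2.2 ∈ A) ∧ (Good X x.2.1 ∧ Good X x.2.2))

open Classical in
noncomputable def tripM (X : Set ℂ) (A : Finset ℂ) : Finset ((_ : ℂ) × (ℂ × ℂ)) :=
  (triples X A).filter (fun x => (x.2.1 ∈ A ∧ x.2.2 ∈ A) ∧ ¬ (Good X x.2.1 ∧ Good X x.2.2))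

open Classical in
noncomputable def tripB (X : Set ℂ) (A : Finset ℂ) : Finset ((_ : ℂ) × (ℂ × ℂ)) :=
  (triples X A).filter (fun x => ¬ (x.2.1 ∈ A ∧ x.2.2 ∈ A))

theorem sum_triples (X : Set ℂ) (A : Finset ℂ) (f : ((_ : ℂ) × (ℂ × ℂ)) → ℝ) :
    ∑ x ∈ triples X A, f x = ∑ x ∈ tripA X A, f x + ∑ x ∈ tripM X A, f x +
      ∑ x ∈ tripB X A, f x := by
  classical
  rw [← Finset.sum_filter_add_sum_filter_not (triples X A)
    (fun x => x.2.1 ∈ A ∧ x.2.2 ∈ A) f]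
  congr 1
  · rw [← Finset.sum_filter_add_sum_filter_not
      ((triples X A).filter (fun x => x.2.1 ∈ A ∧ x.2.2 ∈ A))
      (fun x => Good X x.2.1 ∧ Good X x.2.2) f]
    unfold tripA tripM
    rw [Finset.filter_filter, Finset.filter_filter]

open Classical in
theorem mem_tripA {X : Set ℂ} (hX : Sep X) {A : Finset ℂ} {p q r : ℂ} :
    (⟨p, (q, r)⟩ : (_ : ℂ) × (ℂ × ℂ)) ∈ tripA X A ↔
      (p ∈ A ∧ q ∈ A ∧ r ∈ A) ∧ (Good X p ∧ Good X q ∧ Good X r) ∧ Corner X p q r := by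
  unfold tripA
  rw [Finset.mem_filter, mem_triples hX]
  tauto

/-- rotation -/
def rot (x : (_ : ℂ) × (ℂ × ℂ)) : (_ : ℂ) × (ℂ × ℂ) := ⟨x.2.1, (x.2.2, x.1)⟩

theorem rot_mem {X : Set ℂ} (hX : Sep X) {A : Finset ℂ} {x : (_ : ℂ) × (ℂ × ℂ)}
    (hx : x ∈ tripA X A) : rot x ∈ tripA X A := by
  obtain ⟨p, q, r⟩ := x
  rw [mem_tripA hX] at hx
  unfold rot
  rw [mem_tripA hX]
  obtain ⟨⟨h1, h2, h3⟩, ⟨h4, h5, h6⟩, h7⟩ := hx
  exact ⟨⟨h2, h3, h1⟩, ⟨h5, h6, h4⟩, Corner.rotate hX h5 h7⟩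

theorem rot_rot_rot (x : (_ : ℂ) × (ℂ × ℂ)) : rot (rot (rot x)) = x := rfl

theorem sum_rot {X : Set ℂ} (hX : Sep X) (A : Finset ℂ) (f : ((_ : ℂ) × (ℂ × ℂ)) → ℝ) :
    ∑ x ∈ tripA X A, f (rot x) = ∑ x ∈ tripA X A, f x := by
  refine Finset.sum_nbij' rot (fun x => rot (rot x)) ?_ ?_ ?_ ?_ ?_
  · intro x hx; exact rot_mem hX hx
  · intro x hx; exact rot_mem hX (rot_mem hX hx)
  · intro x _; rfl
  · intro x _; rfl
  · intro x _; rfl

theorem sum_tripA {t : ℝ} {w : ℂ → ℂ → ℝ} (hw : Calibration t w) {X : Set ℂ} (hX : Sep X)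
    (A : Finset ℂ) : 3 * ∑ x ∈ tripA X A, cost w x.1 x.2.1 x.2.2 =
      ∑ x ∈ tripA X A, Phi w x.1 x.2.1 x.2.2 := by
  have h1 := sum_rot hX A (fun x => cost w x.1 x.2.1 x.2.2)
  have h2 := sum_rot hX A (fun x => cost w (rot x).1 (rot x).2.1 (rot x).2.2)
  have h3 : ∑ x ∈ tripA X A, Phi w x.1 x.2.1 x.2.2 =
      ∑ x ∈ tripA X A, (cost w x.1 x.2.1 x.2.2 + cost w (rot x).1 (rot x).2.1 (rot x).2.2 +
        cost w (rot (rot x)).1 (rot (rot x)).2.1 (rot (rot x)).2.2) := by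
    refine Finset.sum_congr rfl (fun x hx => ?_)
    obtain ⟨p, q, r⟩ := x
    rw [mem_tripA hX] at hx
    exact (cost_sum hw.anti hx.2.2.2.2.2.2).symm
  rw [h3, Finset.sum_add_distrib, Finset.sum_add_distrib]
  linarith

theorem card_near_bad {X : Set ℂ} {b : ℂ} (hb : b ∈ X) (hbad : ¬ Good X b) (F : Finset ℂ)
    (hF : ∀ z ∈ F, z ∈ nb X b) : F.card ≤ 5 := by
  have h1 : (nb X b).encard < 6 := by
    by_contra hcon
    exact hbad ⟨hb, not_lt.1 hcon⟩
  have h2 : (F : Set ℂ).encard ≤ (nb X b).encard := Set.encard_le_encard (fun z hz => hF z hz)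
  rw [Set.encard_coe_eq_coe_finsetCard] at h2
  have h3 : (F.card : ℕ∞) < 6 := lt_of_le_of_lt h2 h1
  have h4 : F.card < 6 := by exact_mod_cast h3
  omega

theorem mem_nb_symm {X : Set ℂ} {p q : ℂ} (hp : p ∈ X) (h : q ∈ nb X p) : p ∈ nb X q :=
  ⟨hp, h.2.1.symm, by rw [dist_comm]; exact h.2.2⟩

open Classical in
theorem card_tripM {X : Set ℂ} (hX : Sep X) {A : Finset ℂ} (hA : ∀ z ∈ A, z ∈ X) :
    (tripM X A).card ≤ 10 * (A.filter (fun p => ¬ Good X p)).card := by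
  set Bad := A.filter (fun p => ¬ Good X p) with hBad
  have h1 : ((triples X A).filter (fun x => x.2.1 ∈ Bad)).card ≤ 5 * Bad.card := by
    refine Finset.card_le_mul_card_image_of_maps_to (f := fun x => x.2.1) ?_ 5 ?_
    · intro x hx
      exact (Finset.mem_filter.1 hx).2
    · intro b hb
      have hb' := Finset.mem_filter.1 hb
      set F := ((triples X A).filter (fun x => x.2.1 ∈ Bad)).filter (fun x => x.2.1 = b) with hF
      have hinj : Set.InjOn (fun x : (_ : ℂ) × (ℂ × ℂ) => x.1) (F : Set _) := by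
        intro x hx y hy hxy
        obtain ⟨p, q, r⟩ := x
        obtain ⟨p', q', r'⟩ := y
        simp only [hF, Finset.coe_filter, Finset.mem_filter, Set.mem_ofPred_eq] at hx hy hxy
        obtain ⟨⟨hx1, _⟩, rfl⟩ := hx
        obtain ⟨⟨hy1, _⟩, rfl⟩ := hy
        subst hxy
        rw [mem_triples hX] at hx1 hy1
        rw [next_unique hX hx1.2.2 hy1.2.2]
      rw [← Finset.card_image_of_injOn hinj]
      refine card_near_bad (hA b hb'.1) hb'.2 _ ?_
      intro z hz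
      rw [Finset.mem_image] at hz
      obtain ⟨⟨p, q, r⟩, hx, rfl⟩ := hz
      simp only [hF, Finset.mem_filter] at hx
      obtain ⟨⟨hx1, _⟩, rfl⟩ := hx
      rw [mem_triples hX] at hx1
      exact mem_nb_symm hx1.2.2.1 hx1.2.2.2.1
  have h2 : ((triples X A).filter (fun x => x.2.2 ∈ Bad)).card ≤ 5 * Bad.card := by
    refine Finset.card_le_mul_card_image_of_maps_to (f := fun x => x.2.2) ?_ 5 ?_
    · intro x hx
      exact (Finset.mem_filter.1 hx).2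
    · intro b hb
      have hb' := Finset.mem_filter.1 hb
      set F := ((triples X A).filter (fun x => x.2.2 ∈ Bad)).filter (fun x => x.2.2 = b) with hF
      have hinj : Set.InjOn (fun x : (_ : ℂ) × (ℂ × ℂ) => x.1) (F : Set _) := by
        intro x hx y hy hxy
        obtain ⟨p, q, r⟩ := x
        obtain ⟨p', q', r'⟩ := y
        simp only [hF, Finset.coe_filter, Finset.mem_filter, Set.mem_ofPred_eq] at hx hy hxy
        obtain ⟨⟨hx1, _⟩, rfl⟩ := hx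
        obtain ⟨⟨hy1, _⟩, rfl⟩ := hy
        subst hxy
        rw [mem_triples hX] at hx1 hy1
        rw [prev_unique hX hx1.2.2 hy1.2.2]
      rw [← Finset.card_image_of_injOn hinj]
      refine card_near_bad (hA b hb'.1) hb'.2 _ ?_
      intro z hz
      rw [Finset.mem_image] at hz
      obtain ⟨⟨p, q, r⟩, hx, rfl⟩ := hz
      simp only [hF, Finset.mem_filter] at hx
      obtain ⟨⟨hx1, _⟩, rfl⟩ := hx
      rw [mem_triples hX] at hx1
      exact mem_nb_symm hx1.2.2.1 hx1.2.2.2.2.1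
  have h3 : tripM X A ⊆ (triples X A).filter (fun x => x.2.1 ∈ Bad) ∪
      (triples X A).filter (fun x => x.2.2 ∈ Bad) := by
    intro x hx
    unfold tripM at hx
    rw [Finset.mem_filter] at hx
    obtain ⟨hx1, ⟨hx2, hx3⟩, hx4⟩ := hx
    rw [Finset.mem_union]
    by_cases hg : Good X x.2.1
    · right
      exact Finset.mem_filter.2 ⟨hx1, Finset.mem_filter.2 ⟨hx3, fun hg' => hx4 ⟨hg, hg'⟩⟩⟩
    · left
      exact Finset.mem_filter.2 ⟨hx1, Finset.mem_filter.2 ⟨hx2, hg⟩⟩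
  calc (tripM X A).card ≤ _ := Finset.card_le_card h3
    _ ≤ _ := Finset.card_union_le _ _
    _ ≤ 5 * Bad.card + 5 * Bad.card := Nat.add_le_add h1 h2
    _ = 10 * Bad.card := by ring

open Classical in
theorem sum_tripM {t : ℝ} {w : ℂ → ℂ → ℝ} (hw : Calibration t w) {X : Set ℂ} (hX : Sep X)
    {A : Finset ℂ} (hA : ∀ z ∈ A, z ∈ X) :
    - (1 / 500) * ((A.filter (fun p => ¬ Good X p)).card : ℝ) ≤
      ∑ x ∈ tripM X A, cost w x.1 x.2.1 x.2.2 := by
  have h1 : ((tripM X A).card : ℝ) ≤ 10 * ((A.filter (fun p => ¬ Good X p)).card : ℝ) := by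
    exact_mod_cast card_tripM hX hA
  have h2 : ∑ x ∈ tripM X A, (-(1 / 5000) : ℝ) ≤ ∑ x ∈ tripM X A, cost w x.1 x.2.1 x.2.2 := by
    refine Finset.sum_le_sum (fun x hx => ?_)
    obtain ⟨p, q, r⟩ := x
    unfold tripM at hx
    rw [Finset.mem_filter, mem_triples hX] at hx
    exact cost_ge hw hX hx.1.2.2
  rw [Finset.sum_const, nsmul_eq_mul] at h2
  nlinarith

theorem norm_le_of_dist {p q : ℂ} {c : ℝ} (h : dist p q ≤ c) : ‖p‖ ≤ ‖q‖ + c := by
  rw [dist_eq_norm] at h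
  have := norm_sub_norm_le p q
  linarith

theorem tripB_subset {X Y : Set ℂ} (hX : Sep X) (hY : Sep Y) {R₀ R : ℝ}
    (hagree : ∀ z : ℂ, R₀ ≤ ‖z‖ → (z ∈ X ↔ z ∈ Y)) (hR : R₀ + 10 ≤ R) {A B : Finset ℂ}
    (hA : ∀ z, z ∈ A ↔ z ∈ X ∧ ‖z‖ ≤ R) (hB : ∀ z, z ∈ B ↔ z ∈ Y ∧ ‖z‖ ≤ R) :
    tripB X A ⊆ tripB Y B := by
  intro x hx
  obtain ⟨p, q, r⟩ := x
  unfold tripB at hx ⊢
  rw [Finset.mem_filter, mem_triples hX] at hx
  rw [Finset.mem_filter, mem_triples hY]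
  obtain ⟨⟨hpA, hg, hc⟩, hout⟩ := hx
  obtain ⟨hp, hq, hr, h1, h2, h3, h4, h5⟩ := hc.dist_facts hX
  have hout' : R < ‖q‖ ∨ R < ‖r‖ := by
    by_contra hcon
    push Not at hcon
    exact hout ⟨(hA q).2 ⟨hq, hcon.1⟩, (hA r).2 ⟨hr, hcon.2⟩⟩
  have hpn : R - 201 / 100 < ‖p‖ := by
    rcases hout' with h | h
    · have := norm_le_of_dist (show dist q p ≤ 201 / 100 by rw [dist_comm]; exact h2)
      linarith
    · have := norm_le_of_dist (show dist r p ≤ 201 / 100 by rw [dist_comm]; exact h4)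
      linarith
  have hqn : R - 402 / 100 < ‖q‖ := by
    have := norm_le_of_dist h2
    linarith
  have hrn : R - 402 / 100 < ‖r‖ := by
    have := norm_le_of_dist h4
    linarith
  have hpY : p ∈ Y := (hagree p (by linarith)).1 hp
  have hqY : q ∈ Y := (hagree q (by linarith)).1 hq
  have hrY : r ∈ Y := (hagree r (by linarith)).1 hr
  have hnb : nb X p ⊆ nb Y p := by
    intro z hz
    refine ⟨(hagree z ?_).1 hz.1, hz.2⟩
    have := norm_le_of_dist hz.2.2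
    linarith
  refine ⟨⟨(hB p).2 ⟨hpY, ((hA p).1 hpA).2⟩, ⟨hpY, hg.2.trans (Set.encard_le_encard hnb)⟩,
    ⟨hpY, hnb hc.2.1, hnb hc.2.2.1, hc.2.2.2⟩⟩, ?_⟩
  rintro ⟨hqB, hrB⟩
  rcases hout' with h | h
  · linarith [((hB q).1 hqB).2]
  · linarith [((hB r).1 hrB).2]

theorem phi_nonneg {t : ℝ} {w : ℂ → ℂ → ℝ} (hw : Calibration t w) {X : Set ℂ} (hX : Sep X)
    {p q r : ℂ} (hq : Good X q) (h : Corner X p q r) : 0 ≤ Phi w p q r := by
  obtain ⟨_, _, _, h1, h2, h3, h4, h5⟩ := h.dist_facts hX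
  have hrot := Corner.rotate hX hq h
  refine hw.nonneg p q r h1 h2 h5 hrot.2.1.2.2 ?_ ?_ h.2.2.2.2
  · rw [dist_comm]; exact h3
  · rw [dist_comm]; exact h4

open Classical in
theorem account_R {t : ℝ} {w : ℂ → ℂ → ℝ} (hw : Calibration t w) {C C' : Set ℂ} (hC : Sep C)
    (hgood : ∀ p ∈ C, Good C p) (hsat : ∀ x : ℂ, ∃ q ∈ C, dist x q ≤ 6 / 5)
    (htight : ∀ p q r, Corner C p q r → Phi w p q r = 0)
    (hC' : Sep C') {R₀ R : ℝ} (hagree : ∀ z : ℂ, R₀ ≤ ‖z‖ → (z ∈ C ↔ z ∈ C'))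
    (hR : R₀ + 10 ≤ R) (A A' : Finset ℂ) (hA : ∀ z, z ∈ A ↔ z ∈ C ∧ ‖z‖ ≤ R)
    (hA' : ∀ z, z ∈ A' ↔ z ∈ C' ∧ ‖z‖ ≤ R) (hcard : A.card ≤ A'.card) :
    (∀ p ∈ A', Good C' p) ∧ ∀ p q r, p ∈ A' → q ∈ A' → r ∈ A' → Corner C' p q r →
      Phi w p q r = 0 := by
  have hvol := volume_compare hC hsat hC' hagree hR A A' hA hA'
  have hineq : ∑ p ∈ A', ((volume (cell C' p)).toReal - 2 * Real.sqrt 3) ≤
      ∑ p ∈ A, ((volume (cell C p)).toReal - 2 * Real.sqrt 3) := by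
    rw [Finset.sum_sub_distrib, Finset.sum_sub_distrib, Finset.sum_const, Finset.sum_const,
      nsmul_eq_mul, nsmul_eq_mul]
    have h1 : (A.card : ℝ) ≤ A'.card := by exact_mod_cast hcard
    have h2 : 0 ≤ 2 * Real.sqrt 3 := by positivity
    nlinarith
  rw [sum_vol hC' w A', sum_vol hC w A, sum_triples, sum_triples] at hineq
  -- the bad points of C
  have hbadC : A.filter (fun p => ¬ Good C p) = ∅ := by
    rw [Finset.filter_eq_empty_iff]
    intro p hp hcon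
    exact hcon (hgood p ((hA p).1 hp).1)
  have hMC : tripM C A = ∅ := by
    rw [← Finset.card_eq_zero]
    have := card_tripM hC (A := A) (fun z hz => ((hA z).1 hz).1)
    rw [hbadC, Finset.card_empty] at this
    omega
  have hAC : ∑ x ∈ tripA C A, cost w x.1 x.2.1 x.2.2 = 0 := by
    have h3 := sum_tripA hw hC A
    have h4 : ∑ x ∈ tripA C A, Phi w x.1 x.2.1 x.2.2 = 0 := by
      refine Finset.sum_eq_zero (fun x hx => ?_)
      obtain ⟨p, q, r⟩ := x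
      rw [mem_tripA hC] at hx
      exact htight p q r hx.2.2
    linarith
  have hB : tripB C' A' = tripB C A := by
    refine Finset.Subset.antisymm ?_ ?_
    · exact tripB_subset hC' hC (fun z hz => (hagree z hz).symm) hR hA' hA
    · exact tripB_subset hC hC' hagree hR hA hA'
  rw [hbadC, hMC, hAC, hB, Finset.sum_empty, Finset.sum_empty] at hineq
  have hM' := sum_tripM hw hC' (A := A') (fun z hz => ((hA' z).1 hz).1)
  have hbad' : (1 / 250 : ℝ) * ((A'.filter (fun p => ¬ Good C' p)).card : ℝ) ≤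
      ∑ p ∈ A'.filter (fun p => ¬ Good C' p),
        ((volume (cell C' p)).toReal - 2 * Real.sqrt 3) := by
    have h5 : ∑ p ∈ A'.filter (fun p => ¬ Good C' p), (1 / 250 : ℝ) ≤
        ∑ p ∈ A'.filter (fun p => ¬ Good C' p),
          ((volume (cell C' p)).toReal - 2 * Real.sqrt 3) := by
      refine Finset.sum_le_sum (fun p hp => ?_)
      rw [Finset.mem_filter] at hp
      have := volume_cell_bad hC' ((hA' p).1 hp.1).1 hp.2
      linarith
    rw [Finset.sum_const, nsmul_eq_mul] at h5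
    linarith
  have hA3 := sum_tripA hw hC' A'
  have hnn : ∀ x ∈ tripA C' A', 0 ≤ Phi w x.1 x.2.1 x.2.2 := by
    intro x hx
    obtain ⟨p, q, r⟩ := x
    rw [mem_tripA hC'] at hx
    exact phi_nonneg hw hC' hx.2.1.2.1 hx.2.2
  have hsum0 : 0 ≤ ∑ x ∈ tripA C' A', Phi w x.1 x.2.1 x.2.2 := Finset.sum_nonneg hnn
  have hcard0 : (0 : ℝ) ≤ ((A'.filter (fun p => ¬ Good C' p)).card : ℝ) := Nat.cast_nonneg _
  have hcard1 : ((A'.filter (fun p => ¬ Good C' p)).card : ℝ) = 0 := by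
    linarith
  have hsum1 : ∑ x ∈ tripA C' A', Phi w x.1 x.2.1 x.2.2 = 0 := by
    linarith
  have hallgood : ∀ p ∈ A', Good C' p := by
    have h6 : (A'.filter (fun p => ¬ Good C' p)).card = 0 := by exact_mod_cast hcard1
    rw [Finset.card_eq_zero, Finset.filter_eq_empty_iff] at h6
    intro p hp
    exact not_not.1 (h6 hp)
  refine ⟨hallgood, ?_⟩
  intro p q r hp hq hr hc
  have h7 := (Finset.sum_eq_zero_iff_of_nonneg hnn).1 hsum1 ⟨p, (q, r)⟩
    ((mem_tripA hC').2 ⟨⟨hp, hq, hr⟩, ⟨hallgood p hp, hallgood q hq, hallgood r hr⟩, hc⟩)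
  exact h7

theorem account {t : ℝ} {w : ℂ → ℂ → ℝ} (hw : Calibration t w) {C C' : Set ℂ} (hC : Sep C)
    (hgood : ∀ p ∈ C, Good C p) (hsat : ∀ x : ℂ, ∃ q ∈ C, dist x q ≤ 6 / 5)
    (htight : ∀ p q r, Corner C p q r → Phi w p q r = 0)
    (hC' : Sep C') {R₀ : ℝ} (hagree : ∀ z : ℂ, R₀ ≤ ‖z‖ → (z ∈ C ↔ z ∈ C'))
    (hcard : ∀ R, R₀ ≤ R → {z | z ∈ C ∧ ‖z‖ ≤ R}.ncard ≤ {z | z ∈ C' ∧ ‖z‖ ≤ R}.ncard) :
    (∀ p ∈ C', Good C' p) ∧ (∀ p q r, Corner C' p q r → Phi w p q r = 0) := by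
  have key : ∀ R, R₀ + 10 ≤ R → (∀ p ∈ C', ‖p‖ ≤ R → Good C' p) ∧
      ∀ p q r, ‖p‖ ≤ R → ‖q‖ ≤ R → ‖r‖ ≤ R → Corner C' p q r → Phi w p q r = 0 := by
    intro R hR
    have hf := finite_ball hC R
    have hf' := finite_ball hC' R
    have hc : hf.toFinset.card ≤ hf'.toFinset.card := by
      rw [← Set.ncard_eq_toFinset_card _ hf, ← Set.ncard_eq_toFinset_card _ hf']
      exact hcard R (by linarith)
    obtain ⟨h1, h2⟩ := account_R hw hC hgood hsat htight hC' hagree hR hf.toFinset hf'.toFinset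
      (fun z => by rw [Set.Finite.mem_toFinset]; rfl)
      (fun z => by rw [Set.Finite.mem_toFinset]; rfl) hc
    refine ⟨fun p hp hpR => h1 p ?_, fun p q r hp hq hr hcn => ?_⟩
    · rw [Set.Finite.mem_toFinset]; exact ⟨hp, hpR⟩
    · refine h2 p q r ?_ ?_ ?_ hcn <;> rw [Set.Finite.mem_toFinset]
      · exact ⟨hcn.1, hp⟩
      · exact ⟨hcn.2.1.1, hq⟩
      · exact ⟨hcn.2.2.1.1, hr⟩
  refine ⟨?_, ?_⟩
  · intro p hp
    exact (key (max (R₀ + 10) ‖p‖) (le_max_left _ _)).1 p hp (le_max_right _ _)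
  · intro p q r hc
    refine (key (max (max (R₀ + 10) ‖p‖) (max ‖q‖ ‖r‖)) ?_).2 p q r ?_ ?_ ?_ hc
    · exact (le_max_left _ _).trans (le_max_left _ _)
    · exact (le_max_right _ _).trans (le_max_left _ _)
    · exact (le_max_left _ _).trans (le_max_right _ _)
    · exact (le_max_right _ _).trans (le_max_right _ _)

end H33Solid
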