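import Pool.Agent.H33.Solid.Defs

/-!
# Angles in the plane

`ang u v ∈ [0, 2π)` is the counterclockwise angle from `u` to `v`; a circular pigeonhole lemma.
-/

namespace H33Solid

open MeasureTheory Complex

/-! ### algebra of `ip` and `crs` -/

theorem ip_comm (u v : ℂ) : ip u v = ip v u := by simp [ip]; ring

theorem norm_sq_eq' (u : ℂ) : ‖u‖ ^ 2 = u.re ^ 2 + u.im ^ 2 := by
  rw [← Complex.normSq_eq_norm_sq, Complex.normSq_apply]; ring

theorem ip_self (u : ℂ) : ip u u = ‖u‖ ^ 2 := by rw [norm_sq_eq']; simp [ip]; ring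

theorem crs_swap (u v : ℂ) : crs v u = - crs u v := by simp [crs]; ring

theorem crs_self (u : ℂ) : crs u u = 0 := by simp [crs]; ring

theorem norm_sub_sq'' (u v : ℂ) : ‖u - v‖ ^ 2 = ‖u‖ ^ 2 + ‖v‖ ^ 2 - 2 * ip u v := by
  simp only [norm_sq_eq', ip, Complex.sub_re, Complex.sub_im]; ring

theorem ip_sq_add_crs_sq (u v : ℂ) : ip u v ^ 2 + crs u v ^ 2 = ‖u‖ ^ 2 * ‖v‖ ^ 2 := by
  simp only [norm_sq_eq', ip, crs]; ring

theorem ip_mul_add (q r s : ℂ) : ip q r * ip q s + crs q r * crs q s = ‖q‖ ^ 2 * ip r s := by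
  simp only [norm_sq_eq', ip, crs]; ring

theorem ip_mul_sub (q r s : ℂ) : ip q r * ip r s - crs q r * crs r s = ‖r‖ ^ 2 * ip q s := by
  simp only [norm_sq_eq', ip, crs]; ring

/-- decomposition of a vector in the basis `u, v` -/
theorem crs_decomp (u v x : ℂ) : crs u v * x.re = crs x v * u.re + crs u x * v.re ∧
    crs u v * x.im = crs x v * u.im + crs u x * v.im := by
  constructor <;> simp only [crs] <;> ring

theorem exists_decomp {u v x : ℂ} (h : 0 < crs u v) :
    x = ((crs x v / crs u v : ℝ) : ℂ) * u + ((crs u x / crs u v : ℝ) : ℂ) * v := by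
  obtain ⟨h1, h2⟩ := crs_decomp u v x
  have h0 : crs u v ≠ 0 := h.ne'
  apply Complex.ext
  · simp only [Complex.add_re, Complex.mul_re, Complex.ofReal_re, Complex.ofReal_im]
    field_simp
    linarith
  · simp only [Complex.add_im, Complex.mul_im, Complex.ofReal_re, Complex.ofReal_im]
    field_simp
    linarith

/-! ### angles -/

/-- counterclockwise angle from `u` to `v`, in `[0, 2π)` -/
noncomputable def ang (u v : ℂ) : ℝ := toIcoMod Real.two_pi_pos 0 (Complex.arg (v / u))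

theorem ang_nonneg (u v : ℂ) : 0 ≤ ang u v := left_le_toIcoMod _ _ _

theorem ang_lt (u v : ℂ) : ang u v < 2 * Real.pi := by
  have := toIcoMod_lt_right Real.two_pi_pos 0 (Complex.arg (v / u))
  simpa [ang] using this

theorem cos_ang' (u v : ℂ) : Real.cos (ang u v) = Real.cos (Complex.arg (v / u)) := by
  unfold ang toIcoMod
  rw [zsmul_eq_mul, Real.cos_sub_int_mul_two_pi]

theorem sin_ang' (u v : ℂ) : Real.sin (ang u v) = Real.sin (Complex.arg (v / u)) := by
  unfold ang toIcoMod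
  rw [zsmul_eq_mul, Real.sin_sub_int_mul_two_pi]

theorem ip_eq_cos (u v : ℂ) : ip u v = ‖u‖ * ‖v‖ * Real.cos (ang u v) := by
  rcases eq_or_ne u 0 with hu | hu
  · simp [hu, ip]
  rcases eq_or_ne v 0 with hv | hv
  · simp [hv, ip]
  have hu' : ‖u‖ ≠ 0 := by simpa using hu
  have hv' : ‖v‖ ≠ 0 := by simpa using hv
  rw [cos_ang', Complex.cos_arg (div_ne_zero hv hu), norm_div, Complex.div_re,
    Complex.normSq_eq_norm_sq]
  unfold ip
  field_simp

theorem crs_eq_sin (u v : ℂ) : crs u v = ‖u‖ * ‖v‖ * Real.sin (ang u v) := by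
  rcases eq_or_ne u 0 with hu | hu
  · simp [hu, crs]
  rcases eq_or_ne v 0 with hv | hv
  · simp [hv, crs]
  have hu' : ‖u‖ ≠ 0 := by simpa using hu
  have hv' : ‖v‖ ≠ 0 := by simpa using hv
  rw [sin_ang', Complex.sin_arg, norm_div, Complex.div_im,
    Complex.normSq_eq_norm_sq]
  unfold crs
  field_simp

theorem ip_eq_cos_sub {u : ℂ} (hu : u ≠ 0) (v w : ℂ) :
    ip v w = ‖v‖ * ‖w‖ * Real.cos (ang u w - ang u v) := by
  have h := ip_mul_add u v w
  have hu' : ‖u‖ ≠ 0 := by simpa using hu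
  rw [ip_eq_cos u v, ip_eq_cos u w, crs_eq_sin u v, crs_eq_sin u w] at h
  rw [Real.cos_sub]
  have : ‖u‖ ^ 2 * ip v w = ‖u‖ ^ 2 * (‖v‖ * ‖w‖ * (Real.cos (ang u w) * Real.cos (ang u v) +
      Real.sin (ang u w) * Real.sin (ang u v))) := by rw [← h]; ring
  exact mul_left_cancel₀ (pow_ne_zero 2 hu') this

theorem crs_mul_sub (q r s : ℂ) : ip q r * crs q s - crs q r * ip q s = ‖q‖ ^ 2 * crs r s := by
  simp only [norm_sq_eq', ip, crs]; ring

theorem crs_eq_sin_sub {u : ℂ} (hu : u ≠ 0) (v w : ℂ) :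
    crs v w = ‖v‖ * ‖w‖ * Real.sin (ang u w - ang u v) := by
  have h := crs_mul_sub u v w
  have hu' : ‖u‖ ≠ 0 := by simpa using hu
  rw [ip_eq_cos u v, ip_eq_cos u w, crs_eq_sin u v, crs_eq_sin u w] at h
  rw [Real.sin_sub]
  have : ‖u‖ ^ 2 * crs v w = ‖u‖ ^ 2 * (‖v‖ * ‖w‖ * (Real.sin (ang u w) * Real.cos (ang u v) -
      Real.cos (ang u w) * Real.sin (ang u v))) := by rw [← h]; ring
  exact mul_left_cancel₀ (pow_ne_zero 2 hu') this

theorem eq_of_cos_sin {a b : ℝ} (ha : 0 ≤ a) (ha' : a < 2 * Real.pi) (hb : 0 ≤ b)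
    (hb' : b < 2 * Real.pi) (hc : Real.cos a = Real.cos b) (hs : Real.sin a = Real.sin b) :
    a = b := by
  have h1 : Real.cos (a - b) = 1 := by
    rw [Real.cos_sub, hc, hs]; nlinarith [Real.sin_sq_add_cos_sq b]
  obtain ⟨n, hn⟩ := (Real.cos_eq_one_iff _).1 h1
  have hpi := Real.pi_pos
  have h2 : (n : ℝ) < 1 := by
    by_contra h
    push Not at h
    nlinarith
  have h3 : (-1 : ℝ) < n := by
    by_contra h
    push Not at h
    nlinarith
  have h4 : n = 0 := by
    have : n < 1 := by exact_mod_cast h2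
    have : -1 < n := by exact_mod_cast h3
    omega
  rw [h4] at hn
  simp at hn
  linarith

theorem ang_self {u : ℂ} (hu : u ≠ 0) : ang u u = 0 := by
  have hu' : ‖u‖ ≠ 0 := by simpa using hu
  apply eq_of_cos_sin (ang_nonneg _ _) (ang_lt _ _) le_rfl Real.two_pi_pos
  · have := ip_eq_cos u u
    rw [ip_self] at this
    rw [Real.cos_zero]
    have h2 : ‖u‖ * ‖u‖ ≠ 0 := mul_ne_zero hu' hu'
    have : ‖u‖ * ‖u‖ * Real.cos (ang u u) = ‖u‖ * ‖u‖ * 1 := by rw [← this]; ring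
    exact mul_left_cancel₀ h2 this
  · have := crs_eq_sin u u
    rw [crs_self] at this
    rw [Real.sin_zero]
    have h2 : ‖u‖ * ‖u‖ ≠ 0 := mul_ne_zero hu' hu'
    have : ‖u‖ * ‖u‖ * Real.sin (ang u u) = ‖u‖ * ‖u‖ * 0 := by rw [← this]; ring
    exact mul_left_cancel₀ h2 this

theorem ang_sub {u v w : ℂ} (hu : u ≠ 0) (hv : v ≠ 0) (hw : w ≠ 0) (h : ang u v ≤ ang u w) :
    ang v w = ang u w - ang u v := by
  have hv' : ‖v‖ ≠ 0 := by simpa using hv
  have hw' : ‖w‖ ≠ 0 := by simpa using hw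
  have h2 : ‖v‖ * ‖w‖ ≠ 0 := mul_ne_zero hv' hw'
  apply eq_of_cos_sin (ang_nonneg _ _) (ang_lt _ _) (by linarith)
    (by linarith [ang_lt u w, ang_nonneg u v])
  · have h3 := ip_eq_cos v w
    rw [ip_eq_cos_sub hu v w] at h3
    exact (mul_left_cancel₀ h2 h3).symm
  · have h3 := crs_eq_sin v w
    rw [crs_eq_sin_sub hu v w] at h3
    exact (mul_left_cancel₀ h2 h3).symm

/-! ### circular pigeonhole -/

/-- pigeonhole on an interval -/
theorem card_le_of_gap {ι : Type*} (S : Finset ι) (f : ι → ℝ) {A d : ℝ} (hd : 0 < d) (k : ℕ)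
    (hA : ∀ x ∈ S, A ≤ f x ∧ f x < A + k * d)
    (hgap : ∀ x ∈ S, ∀ y ∈ S, x ≠ y → d ≤ |f x - f y|) : S.card ≤ k := by
  have hmaps : ∀ x ∈ S, ⌊(f x - A) / d⌋₊ ∈ Finset.range k := by
    intro x hx
    obtain ⟨h1, h2⟩ := hA x hx
    rw [Finset.mem_range, Nat.floor_lt (div_nonneg (by linarith) hd.le), div_lt_iff₀ hd]
    linarith
  have hinj : ∀ x ∈ S, ∀ y ∈ S, ⌊(f x - A) / d⌋₊ = ⌊(f y - A) / d⌋₊ → x = y := by
    intro x hx y hy hxy
    by_contra hne
    have hg := hgap x hx y hy hne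
    have hx0 : 0 ≤ (f x - A) / d := div_nonneg (by linarith [(hA x hx).1]) hd.le
    have hy0 : 0 ≤ (f y - A) / d := div_nonneg (by linarith [(hA y hy).1]) hd.le
    have h1 := Nat.floor_le hx0
    have h2 := Nat.floor_le hy0
    have h3 := Nat.lt_floor_add_one ((f x - A) / d)
    have h4 := Nat.lt_floor_add_one ((f y - A) / d)
    rw [hxy] at h1 h3
    have h5 : |(f x - A) / d - (f y - A) / d| < 1 := by
      rw [abs_lt]; constructor <;> linarith
    have h6 : (f x - A) / d - (f y - A) / d = (f x - f y) / d := by ring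
    rw [h6, abs_div, abs_of_pos hd, div_lt_one hd] at h5
    linarith
  calc S.card ≤ (Finset.range k).card := Finset.card_le_card_of_injOn _ hmaps
        (fun x hx y hy h => hinj x hx y hy h)
    _ = k := Finset.card_range k

/-- two vectors whose normalised inner product is less than `cos d` are at angular distance `> d` -/
theorem gap_of_ip_lt {u v w : ℂ} (hu : u ≠ 0) {d : ℝ} (hdpi : d ≤ Real.pi)
    (h : ip v w < ‖v‖ * ‖w‖ * Real.cos d) : d < |ang u v - ang u w| := by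
  by_contra hcon
  push Not at hcon
  rw [ip_eq_cos_sub hu v w] at h
  have h1 : Real.cos d ≤ Real.cos (ang u w - ang u v) := by
    rw [← Real.cos_abs (ang u w - ang u v), abs_sub_comm]
    exact Real.cos_le_cos_of_nonneg_of_le_pi (abs_nonneg _) hdpi hcon
  have := mul_le_mul_of_nonneg_left h1 (mul_nonneg (norm_nonneg v) (norm_nonneg w))
  linarith

theorem ang_gap {q s : ℂ} (hq : q ≠ 0) {d : ℝ} (hdpi : d ≤ Real.pi)
    (h : ip q s < ‖q‖ * ‖s‖ * Real.cos d) : d < ang q s ∧ ang q s < 2 * Real.pi - d := by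
  constructor
  · have := gap_of_ip_lt hq hdpi h
    rwa [ang_self hq, zero_sub, abs_neg, abs_of_nonneg (ang_nonneg _ _)] at this
  · by_contra hcon
    push Not at hcon
    rw [ip_eq_cos q s] at h
    have h1 : Real.cos d ≤ Real.cos (ang q s) := by
      rw [← Real.cos_two_pi_sub (ang q s)]
      apply Real.cos_le_cos_of_nonneg_of_le_pi _ hdpi (by linarith)
      linarith [ang_lt q s]
    have := mul_le_mul_of_nonneg_left h1 (mul_nonneg (norm_nonneg q) (norm_nonneg s))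
    linarith

/-- circular pigeonhole -/
theorem card_le_of_ip {S : Finset ℂ} {d : ℝ} (hd : 0 < d) (hdpi : d ≤ Real.pi) (k : ℕ)
    (hk : 2 * Real.pi ≤ (k + 2) * d) (h0 : ∀ s ∈ S, s ≠ 0)
    (h : ∀ s ∈ S, ∀ r ∈ S, s ≠ r → ip s r < ‖s‖ * ‖r‖ * Real.cos d) : S.card ≤ k + 1 := by
  rcases S.eq_empty_or_nonempty with hS | ⟨q, hq⟩
  · simp [hS]
  have h1 : (S.erase q).card ≤ k := by
    apply card_le_of_gap (S.erase q) (ang q) (A := d) hd k
    · intro x hx
      rw [Finset.mem_erase] at hx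
      obtain ⟨h1, h2⟩ := ang_gap (h0 q hq) hdpi (h q hq x hx.2 hx.1.symm)
      refine ⟨h1.le, ?_⟩
      linarith
    · intro x hx y hy hxy
      rw [Finset.mem_erase] at hx hy
      exact (gap_of_ip_lt (h0 q hq) hdpi (h x hx.2 y hy.2 hxy)).le
  rw [Finset.card_erase_of_mem hq] at h1
  omega

end H33Solid
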