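import Pool.Agent.H33.Solid.Root

/-! Module LA: the periodic function `ff` and its averages -/

namespace H33Solid

open MeasureTheory intervalIntegral

/-- slope of the comparison cubic at the ends of the rise -/
noncomputable def al (Y : ℝ) : ℝ := rf Y / Y - Y / 6

/-- the cubic `G` on the rise `[0, Y]` -/
noncomputable def Gq (Y u : ℝ) : ℝ := al Y * u + u ^ 2 / 2 - u ^ 3 / (3 * Y)

/-- one period of `ff` -/
noncomputable def f0 (Y w : ℝ) : ℝ :=
  if w ≤ Y then w - Gq Y w else (Y - rf Y) * (1 - w) / (1 - Y)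

/-- the `1`-periodic function of the calibration -/
noncomputable def ff (Y u : ℝ) : ℝ := f0 Y (Int.fract u)

/-- average of `g` over the segment from `a` to `b` -/
noncomputable def avg (g : ℝ → ℝ) (a b : ℝ) : ℝ := ∫ t in (0:ℝ)..1, g (a + t * (b - a))

section avg

theorem avg_self (g : ℝ → ℝ) (a : ℝ) : avg g a a = g a := by simp [avg]

theorem avg_symm (g : ℝ → ℝ) (a b : ℝ) : avg g a b = avg g b a := by
  unfold avg
  have h := intervalIntegral.integral_comp_sub_left (a := 0) (b := 1)
    (fun t => g (b + t * (a - b))) 1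
  simp only [sub_self, sub_zero] at h
  rw [← h]
  congr 1
  funext t
  congr 1
  ring

theorem avg_mul (g : ℝ → ℝ) (a b : ℝ) : (b - a) * avg g a b = ∫ u in a..b, g u := by
  unfold avg
  have h := intervalIntegral.mul_integral_comp_mul_add (a := 0) (b := 1) (f := g) (b - a) a
  rw [show (b - a) * 0 + a = a by ring, show (b - a) * 1 + a = b by ring] at h
  rw [← h]
  congr 1
  congr 1
  funext t
  congr 1
  ring

theorem avg_add_mul {g : ℝ → ℝ} (hg : Continuous g) (a b c : ℝ) :
    (c - a) * avg g a c = (b - a) * avg g a b + (c - b) * avg g b c := by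
  rw [avg_mul, avg_mul, avg_mul, intervalIntegral.integral_add_adjacent_intervals
    (hg.intervalIntegrable _ _) (hg.intervalIntegrable _ _)]

theorem avg_cont {g : ℝ → ℝ} (hg : Continuous g) (a b : ℝ) :
    IntervalIntegrable (fun t : ℝ => g (a + t * (b - a))) volume 0 1 :=
  Continuous.intervalIntegrable (by fun_prop) _ _

theorem avg_le_const {g : ℝ → ℝ} (hg : Continuous g) {M : ℝ} (h : ∀ u, g u ≤ M) (a b : ℝ) :
    avg g a b ≤ M := by
  unfold avg
  have := intervalIntegral.integral_mono_on (a := 0) (b := 1) (f := fun t => g (a + t * (b - a)))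
    (g := fun _ => M) (by norm_num) (avg_cont hg a b) intervalIntegrable_const (fun t _ => h _)
  simpa using this

theorem const_le_avg {g : ℝ → ℝ} (hg : Continuous g) {M : ℝ} (h : ∀ u, M ≤ g u) (a b : ℝ) :
    M ≤ avg g a b := by
  unfold avg
  have := intervalIntegral.integral_mono_on (a := 0) (b := 1) (g := fun t => g (a + t * (b - a)))
    (f := fun _ => M) (by norm_num) intervalIntegrable_const (avg_cont hg a b) (fun t _ => h _)
  simpa using this

theorem avg_shift {g : ℝ → ℝ} {k : ℝ} (h : ∀ u, g (u + k) = g u) (a b : ℝ) :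
    avg g (a + k) (b + k) = avg g a b := by
  unfold avg
  congr 1
  funext t
  rw [show a + k + t * (b + k - (a + k)) = (a + t * (b - a)) + k by ring, h]

/-- comparison of averages with a common base point -/
theorem avg_sub_le {g h : ℝ → ℝ} (hg : Continuous g) (hh : Continuous h) {c a b : ℝ}
    (H : ∀ t ∈ Set.Icc (0:ℝ) 1, h (c + t * (b - c)) - h (c + t * (a - c)) ≤
      g (c + t * (b - c)) - g (c + t * (a - c))) :
    avg h c b - avg h c a ≤ avg g c b - avg g c a := by
  unfold avg
  rw [← intervalIntegral.integral_sub (avg_cont hh _ _) (avg_cont hh _ _),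
    ← intervalIntegral.integral_sub (avg_cont hg _ _) (avg_cont hg _ _)]
  apply intervalIntegral.integral_mono_on (by norm_num)
  · exact Continuous.intervalIntegrable (by fun_prop) _ _
  · exact Continuous.intervalIntegrable (by fun_prop) _ _
  · exact H

theorem avg_add {g h : ℝ → ℝ} (hg : Continuous g) (hh : Continuous h) (a b : ℝ) :
    avg (fun u => g u + h u) a b = avg g a b + avg h a b := by
  unfold avg
  exact intervalIntegral.integral_add (avg_cont hg _ _) (avg_cont hh _ _)

theorem avg_sub {g h : ℝ → ℝ} (hg : Continuous g) (hh : Continuous h) (a b : ℝ) :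
    avg (fun u => g u - h u) a b = avg g a b - avg h a b := by
  unfold avg
  exact intervalIntegral.integral_sub (avg_cont hg _ _) (avg_cont hh _ _)

theorem avg_const_mul (k : ℝ) (g : ℝ → ℝ) (a b : ℝ) :
    avg (fun u => k * g u) a b = k * avg g a b := by
  unfold avg
  rw [← intervalIntegral.integral_const_mul]

theorem avg_id (a b : ℝ) : avg (fun u => u) a b = (a + b) / 2 := by
  unfold avg
  rw [intervalIntegral.integral_add intervalIntegrable_const
    (Continuous.intervalIntegrable (by fun_prop) _ _), intervalIntegral.integral_mul_const]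
  simp
  ring

end avg

section ff

variable {Y : ℝ}

theorem al_bounds (h0 : 0 < Y) (h1 : Y ≤ 1 / 10) : Y / 7 ≤ al Y ∧ al Y ≤ Y / 4 := by
  have hY : |Y| ≤ 1 / 10 := by rw [abs_of_pos h0]; exact h1
  have h2 := rf_le hY
  have h3 := rf_ge hY
  rw [abs_of_pos h0] at h2
  unfold al
  constructor
  · rw [le_sub_iff_add_le, le_div_iff₀ h0]; nlinarith [sq_nonneg Y]
  · rw [sub_le_iff_le_add, div_le_iff₀ h0]; nlinarith [sq_nonneg Y]

theorem Gq_Y (h0 : 0 < Y) : Gq Y Y = rf Y := by
  unfold Gq al; field_simp; ring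

theorem Gq_zero : Gq Y 0 = 0 := by unfold Gq; ring

theorem f0_continuous (h0 : 0 < Y) (h1 : Y ≤ 1 / 10) : Continuous (f0 Y) := by
  unfold f0
  apply Continuous.if_le
  · unfold Gq; fun_prop
  · fun_prop
  · exact continuous_id
  · exact continuous_const
  · intro w hw
    rw [hw, Gq_Y h0]
    have : (1 - Y) ≠ 0 := by linarith
    field_simp

theorem f0_zero (h0 : 0 < Y) : f0 Y 0 = 0 := by
  unfold f0; rw [if_pos h0.le, Gq_zero]; ring

theorem f0_one (h1 : Y ≤ 1 / 10) : f0 Y 1 = 0 := by
  unfold f0; rw [if_neg (by linarith)]; simp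

theorem ff_continuous (h0 : 0 < Y) (h1 : Y ≤ 1 / 10) : Continuous (ff Y) :=
  ContinuousOn.comp_fract'' (f0_continuous h0 h1).continuousOn
    (by rw [f0_zero h0, f0_one h1])

end ff

end H33Solid
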