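import Pool.Agent.H33.Solid.CalibTri

/-! Module LCAL (part 2): tightness and rigidity of the calibration -/

namespace H33Solid

/-! ### the displacement `bv t` -/

theorem height_facts {t : ℝ} (h0 : 0 < t) (h1 : t ≤ 1 / 10 ^ 6) :
    0 < height t - Real.sqrt 3 ∧ Real.sqrt 3 * (height t - Real.sqrt 3) ≤ t ∧
    (1 - t) ^ 2 + height t ^ 2 = 4 := by
  have ht : t ≤ 1 / 1000000 := by norm_num at h1 ⊢; linarith
  have hpos : (0:ℝ) ≤ 4 - (1 - t) ^ 2 := by nlinarith
  have hsq : height t ^ 2 = 4 - (1 - t) ^ 2 := Real.sq_sqrt hpos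
  have h3 := s3sq
  have h30 : 0 < Real.sqrt 3 := Real.sqrt_pos.2 (by norm_num)
  have hlt : Real.sqrt 3 < height t := by
    unfold height
    apply Real.sqrt_lt_sqrt (by norm_num)
    nlinarith
  have hg : (height t - Real.sqrt 3) * (height t + Real.sqrt 3) = 2 * t - t ^ 2 := by nlinarith
  refine ⟨by linarith, ?_, by rw [hsq]; ring⟩
  have hg2 : (height t - Real.sqrt 3) * (2 * Real.sqrt 3) ≤
      (height t - Real.sqrt 3) * (height t + Real.sqrt 3) :=
    mul_le_mul_of_nonneg_left (by linarith) (by linarith)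
  nlinarith [sq_nonneg t]

theorem bv_facts {t : ℝ} (h0 : 0 < t) (h1 : t ≤ 1 / 10 ^ 6) :
    0 < ca (bv t) ∧ ca (bv t) ≤ 1 / 10 ^ 6 ∧ |cb (bv t)| ≤ 1 / 10 ^ 6 ∧
    tau (ca (bv t)) (cb (bv t)) = 0 := by
  obtain ⟨g1, g2, g3⟩ := height_facts h0 h1
  have h3 := s3sq
  have h30 : 0 < Real.sqrt 3 := Real.sqrt_pos.2 (by norm_num)
  have g4 : 0 < Real.sqrt 3 * (height t - Real.sqrt 3) := mul_pos h30 g1
  have eca : ca (bv t) = (t + Real.sqrt 3 * (height t - Real.sqrt 3)) / 2 := rfl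
  have ecb : cb (bv t) = (t - Real.sqrt 3 / 3 * (height t - Real.sqrt 3)) / 2 := rfl
  refine ⟨by rw [eca]; linarith, by rw [eca]; linarith, ?_, ?_⟩
  · rw [ecb, abs_le]
    constructor <;> linarith
  · have hn := norm_sq_coord (2 * e3 + bv t)
    rw [ca_add, cb_add, ca_2e3, cb_2e3, norm_sq_eq'] at hn
    have hre : (2 * e3 + bv t).re = t - 1 := by simp [e3, bv]; ring
    have him : (2 * e3 + bv t).im = height t := by simp [e3, bv]; ring
    rw [hre, him] at hn
    unfold tau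
    nlinarith

theorem tau_root {Y B B' : ℝ} (h : tau Y B = tau Y B') (hB : |B| ≤ 1 / 4) (hB' : |B'| ≤ 1 / 4) :
    B = B' := by
  obtain ⟨a1, a2⟩ := abs_le.mp hB
  obtain ⟨b1, b2⟩ := abs_le.mp hB'
  unfold tau at h
  have h1 : (B - B') * (2 - B - B') = 0 := by nlinarith
  rcases mul_eq_zero.1 h1 with h2 | h2
  · linarith
  · exfalso; linarith

theorem cb_bv {t : ℝ} (h0 : 0 < t) (h1 : t ≤ 1 / 10 ^ 6) :
    cb (bv t) = (ca (bv t) + 2 * rf (ca (bv t))) / 3 := by
  obtain ⟨f1, f2, f3, f4⟩ := bv_facts h0 h1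
  set Y := ca (bv t)
  have hY : Y ≤ 1 / 1000000 := by norm_num at f2 ⊢; linarith
  have hYa : |Y| ≤ 1 / 10 := by rw [abs_of_pos f1]; linarith
  have r1 := rf_rel hYa
  have r2 := rf_nonneg hYa
  have r3 := rf_le_half hYa
  rw [abs_of_pos f1] at r3
  apply tau_root (Y := Y)
  · rw [f4]
    unfold tau
    nlinarith
  · norm_num at f3 ⊢; linarith
  · rw [abs_le]; constructor <;> linarith

/-! ### special values of `Etot` -/

section special

variable {Y Bh : ℝ}

theorem R1_int_add_Y (hY0 : 0 < Y) (hY : Y ≤ 1 / 1000) (k : ℤ) : R1 Y (k + Y) = 0 := by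
  rw [show (k:ℝ) + Y = Y + k by ring, R1_add_int, R1_window hY0.le (by linarith) (by linarith),
    sub_self, max_self, min_eq_left hY0.le]

theorem R1_Y_sub_int (hY0 : 0 < Y) (hY : Y ≤ 1 / 1000) (k : ℤ) : R1 Y (Y - k) = 0 := by
  have := R1_int_add_Y hY0 hY (-k)
  rwa [show ((-k : ℤ) : ℝ) + Y = Y - k by push_cast; ring] at this

theorem eta_zero' : eta 0 = 1 := eta_one (by simp)

theorem Etot_zero (s : ℝ) : Etot Y s 0 0 0 0 = 0 := by
  unfold Etot E1
  simp [avg_self, cl_nonpos]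

theorem Etot_fault_up (hY0 : 0 < Y) (hY : Y ≤ 1 / 1000) (hBh : Bh = (Y + 2 * rf Y) / 3) (k : ℤ) :
    Etot Y k 0 0 Y Bh = 0 := by
  have hYa : |Y| ≤ 1 / 10 := by rw [abs_of_pos hY0]; linarith
  have r2 := rf_nonneg hYa
  have r3 := rf_le_half hYa
  rw [abs_of_pos hY0] at r3
  unfold Etot E1
  have e1 : eta (Y + Bh) = 1 := eta_one (by rw [hBh, abs_le]; constructor <;> linarith)
  have e2 : eta (2 * (Bh - 0)) = 1 := eta_one (by rw [hBh, abs_le]; constructor <;> linarith)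
  have a1 := avg_rise hY0 hY k
  rw [e1, e2, zero_add, add_zero, add_zero, a1, avg_self, ff_int hY0, R1_int_add_Y hY0 hY,
    R1_Y_sub_int hY0 hY, hBh]
  ring

theorem Etot_fault_down (hY0 : 0 < Y) (hY : Y ≤ 1 / 1000) (hBh : Bh = (Y + 2 * rf Y) / 3) (k : ℤ) :
    Etot Y k Y Bh 0 0 = 0 := by
  have hYa : |Y| ≤ 1 / 10 := by rw [abs_of_pos hY0]; linarith
  have r2 := rf_nonneg hYa
  have r3 := rf_le_half hYa
  rw [abs_of_pos hY0] at r3
  unfold Etot E1
  have e1 : eta (Y + Bh) = 1 := eta_one (by rw [hBh, abs_le]; constructor <;> linarith)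
  have e2 : eta (2 * (0 - Bh)) = 1 := eta_one (by rw [hBh, abs_le]; constructor <;> linarith)
  have a1 := avg_rise hY0 hY k
  rw [e1, e2, add_zero, add_zero, a1, avg_self, ff_int_add_Y hY0 hY, R1_int_add_Y hY0 hY,
    R1_Y_sub_int hY0 hY, eta_zero', hBh]
  ring

theorem Etot_rigid (hY0 : 0 < Y) (hY : Y ≤ 1 / 1000) (hBh : Bh = (Y + 2 * rf Y) / 3) (k : ℤ) :
    0 < Etot Y k 0 0 Y (-Bh) := by
  have hYa : |Y| ≤ 1 / 10 := by rw [abs_of_pos hY0]; linarith
  have r2 := rf_nonneg hYa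
  have r3 := rf_le_half hYa
  rw [abs_of_pos hY0] at r3
  unfold Etot E1
  have e1 : eta (Y + -Bh) = 1 := eta_one (by rw [hBh, abs_le]; constructor <;> linarith)
  have e2 : eta (2 * (-Bh - 0)) = 1 := eta_one (by rw [hBh, abs_le]; constructor <;> linarith)
  have a1 := avg_rise hY0 hY k
  rw [e1, e2, zero_add, add_zero, add_zero, a1, avg_self, ff_int hY0, R1_int_add_Y hY0 hY,
    R1_Y_sub_int hY0 hY]
  have hBh0 : 0 ≤ Bh := by rw [hBh]; linarith
  nlinarith

end special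

/-! ### rigidity -/

theorem rigid_aux {t : ℝ} (h0 : 0 < t) (h1 : t ≤ 1 / 10 ^ 6) (hE : EtotOK (ca (bv t))) {p r : ℂ}
    (h : Tri p (p + 2) r) (hPhi : Phi (ww (ca (bv t))) p (p + 2) r = 0) :
    r = p + 2 * e2 ∨ (r = p + 2 * e2 + bv t ∧ ∃ k : ℤ, ca p = k) := by
  obtain ⟨f1, f2, f3, f4⟩ := bv_facts h0 h1
  set Y := ca (bv t) with hYdef
  have ea : ca ((p + 2) - p) = 1 := by rw [add_sub_cancel_left, ca_two]
  have eb : cb ((p + 2) - p) = 1 := by rw [add_sub_cancel_left, cb_two]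
  obtain ⟨-, hA, hZ⟩ := h.bounds
  rw [ea, eb] at hA hZ
  have n2 : Near (1 / 10) (1 / 10) 1 (-1) (r - (p + 2)) := by
    obtain ⟨A1, A2⟩ := abs_le.mp hA
    obtain ⟨Z1, Z2⟩ := abs_le.mp hZ
    constructor <;> rw [abs_le] <;> constructor <;> linarith
  have n1 : Near (1 / 10) (1 / 10) 1 1 ((p + 2) - p) := by
    constructor
    · rw [ea]; norm_num
    · rw [eb]; norm_num
  obtain ⟨x, B1, y, B3, e1, e2', e3', e4, hb, hw⟩ := up_data h n1 n2
  have hx : x = 0 := by linarith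
  have hB : B1 = 0 := by linarith
  subst hx hB
  rw [phi_up e1 e2' e3' e4 hb] at hPhi
  have h3 : 0 < Real.sqrt 3 / 3 := by
    have : 0 < Real.sqrt 3 := Real.sqrt_pos.2 (by norm_num)
    positivity
  have hE0 : Etot Y (ca p) 0 0 y B3 = 0 := by
    rcases mul_eq_zero.1 hPhi with h4 | h4
    · exact absurd h4 h3.ne'
    · exact h4
  rcases (hE _ _ _ _ _ hw).2 hE0 with hT | ⟨ht3, hy, hk⟩
  · left
    have hE1 := hw.E1_nonneg
    rw [E1_eq, hT] at hE1
    have q1 := sq_nonneg (y - 0 - 3 * (B3 - 0))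
    have q2 := sq_nonneg (0 + y + 0 + B3)
    have hA0 : (y - 0 - 3 * (B3 - 0)) ^ 2 = 0 := by linarith
    have hZ0 : (0 + y + 0 + B3) ^ 2 = 0 := by linarith
    have hA1 := pow_eq_zero_iff (two_ne_zero) |>.1 hA0
    have hZ1 := pow_eq_zero_iff (two_ne_zero) |>.1 hZ0
    have hy0 : y = 0 := by linarith
    have hB0 : B3 = 0 := by linarith
    apply coord_ext
    · rw [ca_add, ca_2e2]
      rw [ca_sub, ca_add, ca_two] at e3'
      linarith
    · rw [cb_add, cb_2e2]
      rw [cb_sub, cb_add, cb_two] at e4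
      linarith
  · right
    refine ⟨?_, hk⟩
    have hyY : y = Y := by linarith
    have hB3 : B3 = cb (bv t) := by
      apply tau_root (Y := Y)
      · rw [f4, ← hyY, ht3]
      · exact hb.hB3
      · norm_num at f3 ⊢; linarith
    apply coord_ext
    · rw [ca_add, ca_add, ca_2e2]
      rw [ca_sub, ca_add, ca_two] at e3'
      linarith
    · rw [cb_add, cb_add, cb_2e2]
      rw [cb_sub, cb_add, cb_two] at e4
      linarith

/-- **Module LCAL.** -/
theorem calib_of_EtotOK {t : ℝ} (h0 : 0 < t) (h1 : t ≤ 1 / 10 ^ 6) (h : EtotOK (ca (bv t))) :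
    Calibration t (ww (ca (bv t))) := by
  obtain ⟨f1, f2, f3, f4⟩ := bv_facts h0 h1
  have hcb := cb_bv h0 h1
  set Y := ca (bv t) with hYdef
  have hY6 : Y ≤ 1 / 1000000 := by norm_num at f2 ⊢; linarith
  have hY : Y ≤ 1 / 1000 := by linarith
  have h3 : 0 < Real.sqrt 3 / 3 := by
    have : 0 < Real.sqrt 3 := Real.sqrt_pos.2 (by norm_num)
    positivity
  have hBh : |cb (bv t)| ≤ 1 / 100 := by norm_num at f3 ⊢; linarith
  obtain ⟨b1, b2⟩ := abs_le.mp hBh
  have box0 : Box 0 0 0 0 := by constructor <;> norm_num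
  have box1 : Box 0 0 Y (cb (bv t)) := by
    constructor
    · norm_num
    · norm_num
    · rw [abs_le]; constructor <;> linarith
    · rw [abs_le]; constructor <;> linarith
    · rw [abs_le]; constructor <;> linarith
    · rw [abs_le]; constructor <;> linarith
  have box2 : Box Y (cb (bv t)) 0 0 := by
    constructor
    · rw [abs_le]; constructor <;> linarith
    · rw [abs_le]; constructor <;> linarith
    · norm_num
    · norm_num
    · rw [abs_le]; constructor <;> linarith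
    · rw [abs_le]; constructor <;> linarith
  have box3 : Box 0 0 Y (-cb (bv t)) := by
    constructor
    · norm_num
    · norm_num
    · rw [abs_le]; constructor <;> linarith
    · rw [abs_le]; constructor <;> linarith
    · rw [abs_le]; constructor <;> linarith
    · rw [abs_le]; constructor <;> linarith
  refine ⟨ww_anti Y, ?_, ?_, ?_, ?_, ?_, ?_, ?_, ?_⟩
  · -- bound
    intro p q _
    unfold ww om
    have k1 := half_abs_le (s := ca p) (a := ca (q - p)) (b := cb (q - p)) f1 hY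
    have k2 := half_abs_le (s := ca q) (a := ca (p - q)) (b := cb (p - q)) f1 hY
    have k3 := abs_sub (half Y (ca p) (ca (q - p)) (cb (q - p)))
      (half Y (ca q) (ca (p - q)) (cb (p - q)))
    rw [abs_mul, abs_of_pos h3]
    have s3 : Real.sqrt 3 / 3 ≤ 1 := by
      have := Real.sqrt_le_sqrt (show (3:ℝ) ≤ 9 by norm_num)
      rw [show (9:ℝ) = 3 ^ 2 by norm_num, Real.sqrt_sq (by norm_num)] at this
      linarith
    have k4 : |half Y (ca p) (ca (q - p)) (cb (q - p)) -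
      half Y (ca q) (ca (p - q)) (cb (p - q))| ≤ 1 / 5000 := by linarith
    calc Real.sqrt 3 / 3 * |half Y (ca p) (ca (q - p)) (cb (q - p)) -
          half Y (ca q) (ca (p - q)) (cb (p - q))| ≤ 1 * (1 / 5000) :=
          mul_le_mul s3 k4 (abs_nonneg _) (by norm_num)
      _ = 1 / 5000 := by ring
  · -- nonneg
    intro p q r g1 g2 g3 g4 g5 g6 g7
    exact nonneg_tri h ⟨g1, g2, g3, g4, g5, g6, g7⟩
  · -- tight_up
    intro p
    rw [phi_up (x := 0) (B1 := 0) (y := 0) (B3 := 0) _ _ _ _ box0, Etot_zero, mul_zero]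
    · rw [add_sub_cancel_left, ca_two]; ring
    · rw [add_sub_cancel_left, cb_two]; ring
    · rw [ca_sub, ca_add, ca_add, ca_2e2, ca_two]; ring
    · rw [cb_sub, cb_add, cb_add, cb_2e2, cb_two]; ring
  · -- tight_down
    intro p
    rw [phi_down (x := 0) (B1 := 0) (y := 0) (B3 := 0) _ _ _ _ box0, Etot_zero, mul_zero]
    · rw [add_sub_cancel_left, ca_2e3]; ring
    · rw [add_sub_cancel_left, cb_2e3]; ring
    · rw [ca_sub, ca_add, ca_add, ca_2e2, ca_2e3]; ring
    · rw [cb_sub, cb_add, cb_add, cb_2e2, cb_2e3]; ring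
  · -- tight_fault_up
    rintro p ⟨k, hk⟩
    rw [phi_up (x := 0) (B1 := 0) (y := Y) (B3 := cb (bv t)) _ _ _ _ box1, hk,
      Etot_fault_up f1 hY hcb, mul_zero]
    · rw [add_sub_cancel_left, ca_two]; ring
    · rw [add_sub_cancel_left, cb_two]; ring
    · rw [ca_sub, ca_add, ca_add, ca_add, ca_2e2, ca_two]; ring
    · rw [cb_sub, cb_add, cb_add, cb_add, cb_2e2, cb_two]; ring
  · -- tight_fault_down
    rintro p ⟨k, hk⟩
    rw [phi_down (x := Y) (B1 := cb (bv t)) (y := 0) (B3 := 0) _ _ _ _ box2, hk,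
      Etot_fault_down f1 hY hcb, mul_zero]
    · rw [ca_sub, ca_add, ca_add, ca_2e3]; ring
    · rw [cb_sub, cb_add, cb_add, cb_2e3]; ring
    · rw [ca_sub, ca_add, ca_add, ca_add, ca_add, ca_2e2, ca_2e3]; ring
    · rw [cb_sub, cb_add, cb_add, cb_add, cb_add, cb_2e2, cb_2e3]; ring
  · -- rigid
    intro p r g1 g2 g3 g4 g5 hPhi
    apply rigid_aux h0 h1 h _ hPhi
    refine ⟨?_, ?_, g1, g2, g3, g4, ?_⟩
    · rw [dist_eq_norm]; simp
    · rw [dist_eq_norm]; simp; norm_num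
    · rw [add_sub_cancel_left]; exact g5
  · -- rigid'
    rintro p ⟨k, hk⟩ hPhi
    rw [phi_down (x := 0) (B1 := 0) (y := Y) (B3 := -cb (bv t)) _ _ _ _ box3, hk] at hPhi
    · have := Etot_rigid f1 hY hcb k
      have := mul_pos h3 this
      linarith
    · rw [add_sub_cancel_left, ca_2e3]; ring
    · rw [add_sub_cancel_left, cb_2e3]; ring
    · rw [ca_sub, ca_add, ca_add, ca_add, ca_2e2, ca_2e3]; ring
    · rw [cb_sub, cb_add, cb_add, cb_add, cb_2e2, cb_2e3]; ring

end H33Solid
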