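import Pool.Agent.H33.Solid.Avg

/-! Module LB: properties of `ff` and of its mean values -/

namespace H33Solid

namespace MeanAux

variable {Y : ℝ}

/-! ### one period -/

lemma L_bounds (h0 : 0 < Y) (h1 : Y ≤ 1 / 1000) : 0 ≤ Y - rf Y ∧ Y - rf Y ≤ Y := by
  have hY : |Y| ≤ 1 / 10 := by rw [abs_of_pos h0]; linarith
  have h2 := rf_le_half hY
  have h3 := rf_nonneg hY
  rw [abs_of_pos h0] at h2
  constructor <;> linarith

lemma f0_low {w : ℝ} (hw : w ≤ Y) : f0 Y w = w - Gq Y w := by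
  unfold f0; rw [if_pos hw]

lemma f0_high (h0 : 0 < Y) (h1 : Y ≤ 1 / 1000) {w : ℝ} (hw : Y ≤ w) :
    f0 Y w = (Y - rf Y) / (1 - Y) * (1 - w) := by
  have hne : (1 - Y) ≠ 0 := by linarith
  unfold f0
  split_ifs with h
  · have : w = Y := le_antisymm h hw
    subst this
    rw [Gq_Y h0]
    field_simp
  · field_simp

/-- the slope of the descending part -/
lemma kap_bounds (h0 : 0 < Y) (h1 : Y ≤ 1 / 1000) :
    0 ≤ (Y - rf Y) / (1 - Y) ∧ (Y - rf Y) / (1 - Y) ≤ 2 * Y := by
  have h2 := L_bounds h0 h1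
  constructor
  · exact div_nonneg h2.1 (by linarith)
  · rw [div_le_iff₀ (by linarith)]
    nlinarith

lemma slope_low (h0 : 0 < Y) (h1 : Y ≤ 1 / 1000) {a b : ℝ} (ha : 0 ≤ a) (hab : a ≤ b)
    (hb : b ≤ Y) :
    f0 Y b - f0 Y a ≤ (1 - al Y) * (b - a) ∧ 0 ≤ f0 Y b - f0 Y a := by
  have h2 := al_bounds h0 (by linarith : Y ≤ 1 / 10)
  rw [f0_low hb, f0_low (hab.trans hb)]
  have e : b - Gq Y b - (a - Gq Y a) =
      (b - a) * ((1 - al Y) - (a + b) / 2 + (a ^ 2 + a * b + b ^ 2) / (3 * Y)) := by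
    unfold Gq
    field_simp
    ring
  rw [e]
  have h3 : (a ^ 2 + a * b + b ^ 2) / (3 * Y) ≤ (a + b) / 2 := by
    rw [div_le_iff₀ (by linarith)]
    nlinarith [mul_nonneg ha (by linarith : 0 ≤ Y - a),
      mul_nonneg (ha.trans hab) (by linarith : 0 ≤ Y - b),
      mul_nonneg ha (by linarith : 0 ≤ Y - b),
      mul_nonneg (ha.trans hab) (by linarith : 0 ≤ Y - a)]
  have h4 : 0 ≤ (a ^ 2 + a * b + b ^ 2) / (3 * Y) := by
    have := mul_nonneg ha (ha.trans hab)
    positivity
  constructor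
  · nlinarith
  · apply mul_nonneg (by linarith)
    linarith

lemma slope_high (h0 : 0 < Y) (h1 : Y ≤ 1 / 1000) {a b : ℝ} (ha : Y ≤ a) (hab : a ≤ b) :
    f0 Y b - f0 Y a ≤ 0 ∧ -(2 * Y) * (b - a) ≤ f0 Y b - f0 Y a := by
  rw [f0_high h0 h1 ha, f0_high h0 h1 (ha.trans hab)]
  have h2 := kap_bounds h0 h1
  constructor <;> nlinarith

lemma slope_one (h0 : 0 < Y) (h1 : Y ≤ 1 / 1000) {a b : ℝ} (ha : 0 ≤ a) (hab : a ≤ b) :
    f0 Y b - f0 Y a ≤ (1 - al Y) * (b - a) ∧ -(2 * Y) * (b - a) ≤ f0 Y b - f0 Y a := by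
  have h2 := al_bounds h0 (by linarith : Y ≤ 1 / 10)
  have h3 : 0 ≤ (1 - al Y) * (b - a) := mul_nonneg (by linarith) (by linarith)
  have h4 : 0 ≤ (2 * Y) * (b - a) := mul_nonneg (by linarith) (by linarith)
  rcases le_total b Y with hb | hb
  · have := slope_low h0 h1 ha hab hb
    exact ⟨this.1, by linarith [this.2]⟩
  · rcases le_total a Y with haY | haY
    · have k1 := slope_low h0 h1 ha haY le_rfl
      have k2 := slope_high h0 h1 le_rfl hb
      constructor
      · have : (1 - al Y) * (Y - a) ≤ (1 - al Y) * (b - a) :=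
          mul_le_mul_of_nonneg_left (by linarith) (by linarith)
        linarith [k1.1, k2.1]
      · have : (2 * Y) * (b - Y) ≤ (2 * Y) * (b - a) :=
          mul_le_mul_of_nonneg_left (by linarith) (by linarith)
        linarith [k1.2, k2.2]
    · have := slope_high h0 h1 haY hab
      exact ⟨by linarith [this.1], this.2⟩

/-- `ff` on a closed period -/
lemma ff_piece (h0 : 0 < Y) (h1 : Y ≤ 1 / 1000) {u : ℝ} {k : ℤ} (hk : (k : ℝ) ≤ u)
    (hk' : u ≤ k + 1) : ff Y u = f0 Y (u - k) := by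
  rcases hk'.eq_or_lt with h | h
  · subst h
    unfold ff
    rw [show ((k : ℝ) + 1) = ((k + 1 : ℤ) : ℝ) by push_cast; ring, Int.fract_intCast, f0_zero h0]
    push_cast
    rw [show ((k : ℝ) + 1 - k) = 1 by ring, f0_one (by linarith)]
  · unfold ff
    have : ⌊u⌋ = k := by
      rw [Int.floor_eq_iff]
      exact ⟨hk, h⟩
    rw [Int.fract, this]

end MeanAux

open MeanAux

variable {Y : ℝ}

theorem ff_add_int (u : ℝ) (k : ℤ) : ff Y (u + k) = ff Y u := by
  unfold ff
  rw [Int.fract_add_intCast]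

theorem ff_int (h0 : 0 < Y) (k : ℤ) : ff Y k = 0 := by
  unfold ff
  rw [Int.fract_intCast, f0_zero h0]

theorem ff_nonneg (h0 : 0 < Y) (h1 : Y ≤ 1 / 1000) (u : ℝ) : 0 ≤ ff Y u := by
  unfold ff
  have hw0 := Int.fract_nonneg u
  have hw1 := Int.fract_lt_one u
  rcases le_total (Int.fract u) Y with h | h
  · have := (slope_low h0 h1 le_rfl hw0 h).2
    rw [f0_zero h0] at this
    linarith
  · rw [f0_high h0 h1 h]
    exact mul_nonneg (kap_bounds h0 h1).1 (by linarith)

theorem ff_le (h0 : 0 < Y) (h1 : Y ≤ 1 / 1000) (u : ℝ) : ff Y u ≤ Y - rf Y := by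
  unfold ff
  have hw0 := Int.fract_nonneg u
  have e : f0 Y Y = Y - rf Y := by rw [f0_low le_rfl, Gq_Y h0]
  rcases le_total (Int.fract u) Y with h | h
  · have := (slope_low h0 h1 hw0 h le_rfl).2
    linarith
  · have := (slope_high h0 h1 le_rfl h).1
    linarith

theorem ff_int_add_Y (h0 : 0 < Y) (h1 : Y ≤ 1 / 1000) (k : ℤ) : ff Y (k + Y) = Y - rf Y := by
  rw [ff_piece (k := k) h0 h1 (by linarith) (by linarith), add_sub_cancel_left, f0_low le_rfl,
    Gq_Y h0]

theorem ff_reflect (h0 : 0 < Y) (h1 : Y ≤ 1 / 1000) (u : ℝ) :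
    ff Y (Y - u) = (Y - rf Y) - ff Y u := by
  have e1 : u = Int.fract u + (⌊u⌋ : ℤ) := (Int.fract_add_floor u).symm
  have e2 : Y - u = (Y - Int.fract u) + ((-⌊u⌋ : ℤ) : ℝ) := by
    push_cast
    linarith [Int.self_sub_floor u]
  rw [e2, ff_add_int]
  have e3 : ff Y u = f0 Y (Int.fract u) := rfl
  rw [e3]
  have hw0 := Int.fract_nonneg u
  have hw1 := Int.fract_lt_one u
  generalize Int.fract u = w at hw0 hw1
  rcases le_total w Y with h | h
  · rw [ff_piece (k := 0) h0 h1 (by push_cast; linarith) (by push_cast; linarith)]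
    push_cast
    rw [sub_zero, f0_low h, f0_low (by linarith)]
    unfold Gq
    have : al Y * Y = rf Y - Y ^ 2 / 6 := by
      unfold al
      field_simp
    field_simp
    nlinarith [this]
  · rw [ff_piece (k := -1) h0 h1 (by push_cast; linarith) (by push_cast; linarith)]
    push_cast
    rw [f0_high h0 h1 h, f0_high h0 h1 (by linarith)]
    have : (1 - Y) ≠ 0 := by linarith
    field_simp
    ring

/-- slopes of `ff` lie in `[-2Y, 1 - al Y]` -/
theorem ff_slope (h0 : 0 < Y) (h1 : Y ≤ 1 / 1000) {u v : ℝ} (huv : u ≤ v) :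
    ff Y v - ff Y u ≤ (1 - al Y) * (v - u) ∧ -(2 * Y) * (v - u) ≤ ff Y v - ff Y u := by
  have h2 := al_bounds h0 (by linarith : Y ≤ 1 / 10)
  have key : ∀ (k : ℤ) (a b : ℝ), (k : ℝ) ≤ a → a ≤ b → b ≤ k + 1 →
      ff Y b - ff Y a ≤ (1 - al Y) * (b - a) ∧ -(2 * Y) * (b - a) ≤ ff Y b - ff Y a := by
    intro k a b ha hab hb
    rw [ff_piece h0 h1 ha (by linarith), ff_piece h0 h1 (ha.trans hab) hb]
    have := slope_one h0 h1 (by linarith : 0 ≤ a - k) (by linarith : a - k ≤ b - k)
    rwa [show b - (k : ℝ) - (a - k) = b - a by ring] at this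
  by_cases hfl : ⌊u⌋ = ⌊v⌋
  · have hv1 := (Int.lt_floor_add_one v).le
    rw [← hfl] at hv1
    exact key ⌊u⌋ u v (Int.floor_le u) huv hv1
  · have hlt : ⌊u⌋ + 1 ≤ ⌊v⌋ := by
      have := Int.floor_le_floor huv
      omega
    have hlt' : ((⌊u⌋ : ℝ) + 1) ≤ ⌊v⌋ := by exact_mod_cast hlt
    have k1 := key ⌊u⌋ u (⌊u⌋ + 1) (Int.floor_le u) (Int.lt_floor_add_one u).le le_rfl
    have k2 := key ⌊v⌋ ⌊v⌋ v le_rfl (Int.floor_le v) (Int.lt_floor_add_one v).le
    have z1 : ff Y (⌊u⌋ + 1) = 0 := by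
      have := ff_int h0 (⌊u⌋ + 1)
      push_cast at this
      exact this
    have z2 : ff Y (⌊v⌋ : ℝ) = 0 := ff_int h0 ⌊v⌋
    rw [z1] at k1
    rw [z2] at k2
    have k3 : 0 ≤ (1 - al Y) * (⌊v⌋ - (⌊u⌋ + 1)) := mul_nonneg (by linarith) (by linarith)
    have k4 : 0 ≤ (2 * Y) * (⌊v⌋ - (⌊u⌋ + 1)) := mul_nonneg (by linarith) (by linarith)
    constructor
    · nlinarith [k1.1, k2.1]
    · nlinarith [k1.2, k2.2]

/-- average over `[0, Y]` -/
theorem avg_rise (h0 : 0 < Y) (h1 : Y ≤ 1 / 1000) (k : ℤ) :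
    avg (ff Y) k (k + Y) = (Y - rf Y) / 2 := by
  have hc := ff_continuous h0 (by linarith : Y ≤ 1 / 10)
  have e1 : avg (ff Y) k (k + Y) = avg (ff Y) 0 Y := by
    have := avg_shift (g := ff Y) (k := (k : ℝ)) (fun u => ff_add_int u k) 0 Y
    rw [← this, zero_add, add_comm Y]
  rw [e1]
  have e2 : avg (ff Y) 0 Y = (Y - rf Y) - avg (ff Y) 0 Y := by
    conv_lhs => rw [avg_symm]
    have e3 : avg (ff Y) Y 0 = avg (fun u => (Y - rf Y) - ff Y u) 0 Y := by
      unfold avg
      congr 1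
      funext t
      rw [show Y + t * (0 - Y) = Y - (0 + t * (Y - 0)) by ring, ff_reflect h0 h1]
    rw [e3, avg_sub continuous_const hc]
    congr 1
    unfold avg
    simp
  linarith

namespace MeanAux

variable {Y : ℝ}

lemma avg_linear (k a b : ℝ) : avg (fun u => k * u) a b = k * ((a + b) / 2) := by
  rw [avg_const_mul, avg_id]

lemma avg_slope (h0 : 0 < Y) (h1 : Y ≤ 1 / 1000) (P : ℝ) {a b : ℝ} (hab : a ≤ b) :
    avg (ff Y) P b - avg (ff Y) P a ≤ (1 - al Y) * ((b - a) / 2) ∧
      -(2 * Y) * ((b - a) / 2) ≤ avg (ff Y) P b - avg (ff Y) P a := by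
  have hc := ff_continuous h0 (by linarith : Y ≤ 1 / 10)
  have hle : ∀ t ∈ Set.Icc (0:ℝ) 1, P + t * (a - P) ≤ P + t * (b - P) := by
    intro t ht
    have : t * (a - P) ≤ t * (b - P) := mul_le_mul_of_nonneg_left (by linarith) ht.1
    linarith
  constructor
  · have := avg_sub_le (g := fun u => (1 - al Y) * u) (h := ff Y) (by fun_prop) hc (c := P)
      (a := a) (b := b) (by
        intro t ht
        have := (ff_slope h0 h1 (hle t ht)).1
        linarith)
    rw [avg_linear, avg_linear] at this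
    linarith
  · have := avg_sub_le (h := fun u => -(2 * Y) * u) (g := ff Y) hc (by fun_prop) (c := P)
      (a := a) (b := b) (by
        intro t ht
        have := (ff_slope h0 h1 (hle t ht)).2
        linarith)
    rw [avg_linear, avg_linear] at this
    linarith

lemma avg_bounds (h0 : 0 < Y) (h1 : Y ≤ 1 / 1000) (a b : ℝ) :
    0 ≤ avg (ff Y) a b ∧ avg (ff Y) a b ≤ Y := by
  have hc := ff_continuous h0 (by linarith : Y ≤ 1 / 10)
  exact ⟨const_le_avg hc (fun u => ff_nonneg h0 h1 u) a b,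
    avg_le_const hc (fun u => (ff_le h0 h1 u).trans (L_bounds h0 h1).2) a b⟩

/-- between two rises the averages decrease -/
lemma avg_desc (h0 : 0 < Y) (h1 : Y ≤ 1 / 1000) {P a b : ℝ} (hab : a ≤ b) {k : ℤ}
    (hlo : (k : ℝ) + Y ≤ min P a) (hhi : max P b ≤ k + 1) :
    avg (ff Y) P b - avg (ff Y) P a ≤ 0 := by
  have hc := ff_continuous h0 (by linarith : Y ≤ 1 / 10)
  have := avg_sub_le (g := fun _ => (0 : ℝ)) (h := ff Y) continuous_const hc (c := P)
      (a := a) (b := b) (by
        intro t ht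
        have hle : P + t * (a - P) ≤ P + t * (b - P) := by
          have : t * (a - P) ≤ t * (b - P) := mul_le_mul_of_nonneg_left (by linarith) ht.1
          linarith
        have h3 : (k : ℝ) + Y ≤ P + t * (a - P) := by
          have k1 : (k : ℝ) + Y ≤ P := hlo.trans (min_le_left _ _)
          have k2 : (k : ℝ) + Y ≤ a := hlo.trans (min_le_right _ _)
          nlinarith [ht.1, ht.2]
        have h4 : P + t * (b - P) ≤ k + 1 := by
          have k1 : P ≤ (k : ℝ) + 1 := (le_max_left _ _).trans hhi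
          have k2 : b ≤ (k : ℝ) + 1 := (le_max_right _ _).trans hhi
          nlinarith [ht.1, ht.2]
        have h5 := (slope_high h0 h1 (by linarith : Y ≤ P + t * (a - P) - k)
          (by linarith : P + t * (a - P) - k ≤ P + t * (b - P) - k)).1
        rw [ff_piece (k := k) h0 h1 (by linarith) h4, ff_piece (k := k) h0 h1 (by linarith)
          (by linarith)]
        simpa using h5)
  simpa [avg] using this

/-- the general mean value statement -/
lemma mean_gen (h0 : 0 < Y) (h1 : Y ≤ 1 / 1000) (P : ℝ) {a b : ℝ} (hab : a ≠ b) :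
    -(2 * Y) ≤ 2 * (avg (ff Y) P b - avg (ff Y) P a) / (b - a) ∧
    2 * (avg (ff Y) P b - avg (ff Y) P a) / (b - a) ≤ 1 - al Y ∧
    ((∀ k : ℤ, max P (max a b) < k ∨ k + Y < min P (min a b)) →
      2 * (avg (ff Y) P b - avg (ff Y) P a) / (b - a) ≤ 0) := by
  have hk : (∀ k : ℤ, max P (max a b) < k ∨ k + Y < min P (min a b)) →
      ∃ k : ℤ, (k : ℝ) + Y ≤ min P (min a b) ∧ max P (max a b) ≤ k + 1 := by
    intro H
    refine ⟨⌊min P (min a b)⌋, ?_, ?_⟩
    · rcases H ⌊min P (min a b)⌋ with h | h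
      · exfalso
        have k1 : min P (min a b) ≤ max P (max a b) := (min_le_left _ _).trans (le_max_left _ _)
        have k2 := Int.floor_le (min P (min a b))
        linarith
      · exact h.le
    · rcases H (⌊min P (min a b)⌋ + 1) with h | h
      · push_cast at h
        exact h.le
      · exfalso
        push_cast at h
        have k2 := Int.lt_floor_add_one (min P (min a b))
        linarith
  rcases lt_or_gt_of_ne hab with h | h
  · have hs := avg_slope h0 h1 P h.le
    have hpos : 0 < b - a := by linarith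
    refine ⟨?_, ?_, ?_⟩
    · rw [le_div_iff₀ hpos]; linarith [hs.2]
    · rw [div_le_iff₀ hpos]; linarith [hs.1]
    · intro H
      obtain ⟨k, hk1, hk2⟩ := hk H
      have := avg_desc h0 h1 h.le (P := P) (k := k)
        (hk1.trans (min_le_min_left _ (min_le_left _ _)))
        ((max_le_max_left _ (le_max_right _ _)).trans hk2)
      exact div_nonpos_of_nonpos_of_nonneg (by linarith) hpos.le
  · have hs := avg_slope h0 h1 P (le_of_lt h)
    have hneg : 0 < a - b := by linarith
    have e : 2 * (avg (ff Y) P b - avg (ff Y) P a) / (b - a) =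
        2 * (avg (ff Y) P a - avg (ff Y) P b) / (a - b) := by
      rw [← neg_sub a b, ← neg_sub (avg (ff Y) P a), mul_neg, neg_div_neg_eq]
    rw [e]
    refine ⟨?_, ?_, ?_⟩
    · rw [le_div_iff₀ hneg]; linarith [hs.2]
    · rw [div_le_iff₀ hneg]; linarith [hs.1]
    · intro H
      obtain ⟨k, hk1, hk2⟩ := hk H
      have := avg_desc h0 h1 (le_of_lt h) (P := P) (k := k)
        (hk1.trans (min_le_min_left _ (min_le_right _ _)))
        ((max_le_max_left _ (le_max_left _ _)).trans hk2)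
      exact div_nonpos_of_nonpos_of_nonneg (by linarith) hneg.le

lemma abs_mul_le {a b c : ℝ} (h : |a * b| ≤ c) : |a| * |b| ≤ c := by
  rwa [← abs_mul]

end MeanAux

/-- mean value of `1 - ff'` over a (possibly degenerate) triple `s, s + x, s + (x + y)`. -/
theorem mean (h0 : 0 < Y) (h1 : Y ≤ 1 / 1000) (s x y : ℝ) : ∃ n : ℝ,
    al Y ≤ n ∧ n ≤ 1 + 2 * Y ∧ |1 - n| * |x| ≤ 2 * Y ∧ |1 - n| * |y| ≤ 2 * Y ∧
    |1 - n| * |x + y| ≤ 2 * Y ∧
    avg (ff Y) (s + x) (s + (x + y)) = avg (ff Y) s (s + (x + y)) + x / 2 * (1 - n) ∧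
    avg (ff Y) s (s + x) = avg (ff Y) s (s + (x + y)) - y / 2 * (1 - n) ∧
    ((∀ k : ℤ, max s (max (s + x) (s + (x + y))) < k ∨ k + Y < min s (min (s + x) (s + (x + y)))) →
      1 ≤ n) := by
  have hc := ff_continuous h0 (by linarith : Y ≤ 1 / 10)
  have hal := al_bounds h0 (by linarith : Y ≤ 1 / 10)
  have b1 := avg_bounds h0 h1 (s + x) (s + (x + y))
  have b2 := avg_bounds h0 h1 s (s + (x + y))
  have b3 := avg_bounds h0 h1 s (s + x)
  have hadd := avg_add_mul hc s (s + x) (s + (x + y))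
  have hadd' : (x + y) * avg (ff Y) s (s + (x + y)) =
      x * avg (ff Y) s (s + x) + y * avg (ff Y) (s + x) (s + (x + y)) := by
    have e1 : s + (x + y) - s = x + y := by ring
    have e2 : s + x - s = x := by ring
    have e3 : s + (x + y) - (s + x) = y := by ring
    rw [e1, e2, e3] at hadd
    exact hadd
  by_cases hS : x + y = 0
  · by_cases hy : y = 0
    · have hx : x = 0 := by linarith
      subst hy
      subst hx
      refine ⟨1, by linarith, by linarith, ?_, ?_, ?_, ?_, ?_, fun _ => le_rfl⟩ <;> simp <;>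
        linarith
    · have hx : x = -y := by linarith
      have hg := mean_gen h0 h1 s (a := s + x) (b := s + (x + y)) (by
        intro h; apply hy; linarith)
      have e : s + (x + y) - (s + x) = y := by ring
      rw [e] at hg
      have hsym : avg (ff Y) (s + x) (s + (x + y)) = avg (ff Y) s (s + x) := by
        rw [hS, add_zero, avg_symm]
      obtain ⟨q, hq⟩ : ∃ q, q = 2 * (avg (ff Y) s (s + (x + y)) - avg (ff Y) s (s + x)) / y :=
        ⟨_, rfl⟩
      rw [← hq] at hg
      have hqy : y * q = 2 * (avg (ff Y) s (s + (x + y)) - avg (ff Y) s (s + x)) := by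
        rw [hq]; field_simp
      have hyy : |q| * |y| ≤ 2 * Y := by
        apply abs_mul_le
        rw [mul_comm, hqy, abs_le]
        constructor <;> linarith [b2.1, b2.2, b3.1, b3.2]
      refine ⟨1 - q, by linarith [hg.2.1], by linarith [hg.1], ?_, ?_, ?_, ?_, ?_, ?_⟩
      · rw [show 1 - (1 - q) = q by ring, hx, abs_neg]
        exact hyy
      · rw [show 1 - (1 - q) = q by ring]
        exact hyy
      · rw [hS]; simp; linarith
      · rw [hsym]
        have : x / 2 * (1 - (1 - q)) = -(y * q) / 2 := by rw [hx]; ring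
        linarith
      · linarith
      · intro H
        have := hg.2.2 H
        linarith
  · have hg := mean_gen h0 h1 (s + x) (a := s) (b := s + (x + y)) (by
        intro h; apply hS; linarith)
    have e : s + (x + y) - s = x + y := by ring
    rw [e] at hg
    have hsym : avg (ff Y) (s + x) s = avg (ff Y) s (s + x) := avg_symm _ _ _
    rw [hsym] at hg
    obtain ⟨q, hq⟩ : ∃ q, q = 2 * (avg (ff Y) (s + x) (s + (x + y)) - avg (ff Y) s (s + x)) /
        (x + y) := ⟨_, rfl⟩
    rw [← hq] at hg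
    have hqS : (x + y) * q = 2 * (avg (ff Y) (s + x) (s + (x + y)) - avg (ff Y) s (s + x)) := by
      rw [hq]; field_simp
    have i1 : avg (ff Y) (s + x) (s + (x + y)) = avg (ff Y) s (s + (x + y)) + x / 2 * q := by
      apply mul_left_cancel₀ hS
      linear_combination (-x / 2) * hqS - hadd'
    have i2 : avg (ff Y) s (s + x) = avg (ff Y) s (s + (x + y)) - y / 2 * q := by
      apply mul_left_cancel₀ hS
      linear_combination (y / 2) * hqS - hadd'
    refine ⟨1 - q, by linarith [hg.2.1], by linarith [hg.1], ?_, ?_, ?_, ?_, ?_, ?_⟩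
    · rw [show 1 - (1 - q) = q by ring]
      apply abs_mul_le
      rw [abs_le]
      constructor <;> linarith [b1.1, b1.2, b2.1, b2.2]
    · rw [show 1 - (1 - q) = q by ring]
      apply abs_mul_le
      rw [abs_le]
      constructor <;> linarith [b3.1, b3.2, b2.1, b2.2]
    · rw [show 1 - (1 - q) = q by ring]
      apply abs_mul_le
      rw [abs_le]
      constructor <;> linarith [b3.1, b3.2, b1.1, b1.2]
    · rw [show 1 - (1 - q) = q by ring]
      exact i1
    · rw [show 1 - (1 - q) = q by ring]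
      exact i2
    · intro H
      have := hg.2.2 (by
        intro k
        rcases H k with h | h
        · left
          rw [max_left_comm]
          exact h
        · right
          rw [min_left_comm]
          exact h)
      linarith

namespace MeanAux

variable {Y : ℝ}

lemma avg_congr {g h : ℝ → ℝ} {a b : ℝ}
    (H : ∀ t ∈ Set.Icc (0:ℝ) 1, g (a + t * (b - a)) = h (a + t * (b - a))) :
    avg g a b = avg h a b := by
  unfold avg
  apply intervalIntegral.integral_congr
  intro t ht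
  rw [Set.uIcc_of_le (by norm_num)] at ht
  exact H t ht

lemma seg_mem {a b t : ℝ} {lo hi : ℝ} (ht : t ∈ Set.Icc (0:ℝ) 1) (ha : lo ≤ a) (hb : lo ≤ b)
    (ha' : a ≤ hi) (hb' : b ≤ hi) : lo ≤ a + t * (b - a) ∧ a + t * (b - a) ≤ hi := by
  constructor <;> nlinarith [ht.1, ht.2]

lemma avg_sq (a b : ℝ) : avg (fun u => u ^ 2) a b = (a ^ 2 + a * b + b ^ 2) / 3 := by
  unfold avg
  have e : (fun t : ℝ => (a + t * (b - a)) ^ 2) =
      fun t => (a ^ 2 + (2 * a * (b - a)) * t) + (b - a) ^ 2 * t ^ 2 := by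
    funext t; ring
  rw [e, intervalIntegral.integral_add (Continuous.intervalIntegrable (by fun_prop) _ _)
    (Continuous.intervalIntegrable (by fun_prop) _ _),
    intervalIntegral.integral_add (Continuous.intervalIntegrable (by fun_prop) _ _)
    (Continuous.intervalIntegrable (by fun_prop) _ _),
    intervalIntegral.integral_const_mul, intervalIntegral.integral_const_mul, integral_id,
    integral_pow]
  simp
  ring

lemma avg_cube (a b : ℝ) : avg (fun u => u ^ 3) a b = (a + b) * (a ^ 2 + b ^ 2) / 4 := by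
  unfold avg
  have e : (fun t : ℝ => (a + t * (b - a)) ^ 3) =
      fun t => ((a ^ 3 + (3 * a ^ 2 * (b - a)) * t) + (3 * a * (b - a) ^ 2) * t ^ 2) +
        (b - a) ^ 3 * t ^ 3 := by
    funext t; ring
  rw [e, intervalIntegral.integral_add (Continuous.intervalIntegrable (by fun_prop) _ _)
    (Continuous.intervalIntegrable (by fun_prop) _ _),
    intervalIntegral.integral_add (Continuous.intervalIntegrable (by fun_prop) _ _)
    (Continuous.intervalIntegrable (by fun_prop) _ _),
    intervalIntegral.integral_add (Continuous.intervalIntegrable (by fun_prop) _ _)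
    (Continuous.intervalIntegrable (by fun_prop) _ _),
    intervalIntegral.integral_const_mul, intervalIntegral.integral_const_mul,
    intervalIntegral.integral_const_mul, integral_id, integral_pow, integral_pow]
  simp
  ring

lemma avg_Gq (a b : ℝ) : avg (Gq Y) a b =
    al Y * ((a + b) / 2) + (a ^ 2 + a * b + b ^ 2) / 6 - (a + b) * (a ^ 2 + b ^ 2) / (12 * Y) := by
  have e : Gq Y = fun u => (al Y * u + (1 / 2) * u ^ 2) - (1 / (3 * Y)) * u ^ 3 := by
    funext u; unfold Gq; ring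
  rw [e, avg_sub (by fun_prop) (by fun_prop), avg_add (by fun_prop) (by fun_prop), avg_const_mul,
    avg_const_mul (1 / 2) (fun u => u ^ 2), avg_const_mul (1 / (3 * Y)) (fun u => u ^ 3), avg_id,
    avg_sq, avg_cube]
  ring

lemma avg_mono {g : ℝ → ℝ} (hg : Continuous g) (hm : Monotone g) (P : ℝ) {a b : ℝ}
    (hab : a ≤ b) : 0 ≤ avg g P b - avg g P a := by
  have := avg_sub_le (g := g) (h := fun _ => (0 : ℝ)) hg continuous_const (c := P)
      (a := a) (b := b) (by
        intro t ht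
        have : P + t * (a - P) ≤ P + t * (b - P) := by
          have : t * (a - P) ≤ t * (b - P) := mul_le_mul_of_nonneg_left (by linarith) ht.1
          linarith
        have := hm this
        linarith)
  simpa [avg] using this

/-- the negative part -/
noncomputable def mn (u : ℝ) : ℝ := min u 0

/-- the part above `Y` -/
noncomputable def mx (Y u : ℝ) : ℝ := max (u - Y) 0

lemma mn_cont : Continuous mn := by unfold mn; fun_prop
lemma mx_cont : Continuous (mx Y) := by unfold mx; fun_prop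
lemma mn_mono : Monotone mn := fun _ _ h => min_le_min_right _ h
lemma mx_mono : Monotone (mx Y) := fun _ _ h => max_le_max_right _ (by linarith)

lemma mn_nonpos {a b : ℝ} (ha : a ≤ 0) (hb : b ≤ 0) : avg mn a b = (a + b) / 2 := by
  rw [← avg_id a b]
  apply avg_congr
  intro t ht
  have := seg_mem (lo := min a b) ht (min_le_left _ _) (min_le_right _ _) ha hb
  exact min_eq_left this.2

lemma mn_nonneg {a b : ℝ} (ha : 0 ≤ a) (hb : 0 ≤ b) : avg mn a b = 0 := by
  have : avg mn a b = avg (fun _ => (0 : ℝ)) a b := by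
    apply avg_congr
    intro t ht
    have := seg_mem (hi := max a b) ht ha hb (le_max_left _ _) (le_max_right _ _)
    exact min_eq_right this.1
  rw [this]
  simp [avg]

lemma mn_mixed {a b : ℝ} (ha : a ≤ 0) (hb : 0 ≤ b) : (b - a) * avg mn a b = -a ^ 2 / 2 := by
  rw [avg_add_mul mn_cont a 0 b, mn_nonpos ha le_rfl, mn_nonneg le_rfl hb]
  ring

lemma mx_low {a b : ℝ} (ha : a ≤ Y) (hb : b ≤ Y) : avg (mx Y) a b = 0 := by
  have : avg (mx Y) a b = avg (fun _ => (0 : ℝ)) a b := by
    apply avg_congr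
    intro t ht
    have := seg_mem (lo := min a b) ht (min_le_left _ _) (min_le_right _ _) ha hb
    exact max_eq_right (by linarith [this.2])
  rw [this]
  simp [avg]

lemma mx_high {a b : ℝ} (ha : Y ≤ a) (hb : Y ≤ b) : avg (mx Y) a b = (a + b) / 2 - Y := by
  have : avg (mx Y) a b = avg (fun u => u - Y) a b := by
    apply avg_congr
    intro t ht
    have := seg_mem (hi := max a b) ht ha hb (le_max_left _ _) (le_max_right _ _)
    exact max_eq_left (by linarith [this.1])
  rw [this, avg_sub (g := fun u => u) (h := fun _ => Y) continuous_id continuous_const, avg_id]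
  simp [avg]

lemma mx_mixed {a b : ℝ} (ha : a ≤ Y) (hb : Y ≤ b) :
    (b - a) * avg (mx Y) a b = (b - Y) ^ 2 / 2 := by
  rw [avg_add_mul mx_cont a Y b, mx_low ha le_rfl, mx_high le_rfl hb]
  ring

/-- the difference `id - ff - Φ` -/
noncomputable def DD (Y u : ℝ) : ℝ :=
  (u - ff Y u) - (Gq Y u + (1 - al Y) * (mn u + mx Y u))

lemma DD_neg (h0 : 0 < Y) (h1 : Y ≤ 1 / 1000) {u : ℝ} (hu : -(1 / 4) ≤ u) (hu' : u ≤ 0) :
    DD Y u = (Y - rf Y) / (1 - Y) * u - u ^ 2 / 2 + u ^ 3 / (3 * Y) := by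
  unfold DD
  rw [ff_piece (k := -1) h0 h1 (by push_cast; linarith) (by push_cast; linarith),
    f0_high h0 h1 (by push_cast; linarith), mn, mx, min_eq_left hu', max_eq_right (by linarith)]
  unfold Gq
  push_cast
  ring

lemma DD_mid (h0 : 0 < Y) (h1 : Y ≤ 1 / 1000) {u : ℝ} (hu : 0 ≤ u) (hu' : u ≤ Y) :
    DD Y u = 0 := by
  unfold DD
  rw [ff_piece (k := 0) h0 h1 (by push_cast; linarith) (by push_cast; linarith)]
  push_cast
  rw [sub_zero, f0_low hu', mn, mx, min_eq_right hu, max_eq_right (by linarith)]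
  ring

lemma DD_high (h0 : 0 < Y) (h1 : Y ≤ 1 / 1000) {u : ℝ} (hu : Y ≤ u) (hu' : u ≤ 1 / 4) :
    DD Y u = (1 - al Y) * Y - (Y - rf Y) / (1 - Y) * (1 - u) - u ^ 2 / 2 + u ^ 3 / (3 * Y) := by
  unfold DD
  rw [ff_piece (k := 0) h0 h1 (by push_cast; linarith) (by push_cast; linarith)]
  push_cast
  rw [sub_zero, f0_high h0 h1 hu, mn, mx, min_eq_right (by linarith), max_eq_left (by linarith)]
  unfold Gq
  ring

lemma cubic_le (h0 : 0 < Y) {κ u v : ℝ} (hκ : 0 ≤ κ) (huv : u ≤ v)
    (h : v ≤ 0 ∨ Y ≤ u) :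
    κ * u - u ^ 2 / 2 + u ^ 3 / (3 * Y) ≤ κ * v - v ^ 2 / 2 + v ^ 3 / (3 * Y) := by
  have e : (κ * v - v ^ 2 / 2 + v ^ 3 / (3 * Y)) - (κ * u - u ^ 2 / 2 + u ^ 3 / (3 * Y)) =
      (v - u) * (κ + (2 * (u ^ 2 + u * v + v ^ 2) - 3 * Y * (u + v)) / (6 * Y)) := by
    field_simp
    ring
  have h2 : 0 ≤ 2 * (u ^ 2 + u * v + v ^ 2) - 3 * Y * (u + v) := by
    rcases h with h | h
    · have : 0 ≤ u * v := mul_nonneg_of_nonpos_of_nonpos (huv.trans h) h
      nlinarith [sq_nonneg u, sq_nonneg v]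
    · nlinarith [mul_nonneg (by linarith : 0 ≤ u - Y) (by linarith : 0 ≤ v - Y),
        mul_nonneg (by linarith : 0 ≤ u - Y) h0.le, mul_nonneg (by linarith : 0 ≤ v - Y) h0.le,
        sq_nonneg (u - Y), sq_nonneg (v - Y)]
  have h3 : 0 ≤ (2 * (u ^ 2 + u * v + v ^ 2) - 3 * Y * (u + v)) / (6 * Y) := by positivity
  have h4 : 0 ≤ (v - u) * (κ + (2 * (u ^ 2 + u * v + v ^ 2) - 3 * Y * (u + v)) / (6 * Y)) :=
    mul_nonneg (by linarith) (by linarith)
  linarith

lemma DD_mono (h0 : 0 < Y) (h1 : Y ≤ 1 / 1000) {u v : ℝ} (hu : -(1 / 4) ≤ u) (huv : u ≤ v)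
    (hv : v ≤ 1 / 4) : DD Y u ≤ DD Y v := by
  have hκ := (kap_bounds h0 h1).1
  have c1 : ∀ {u v : ℝ}, -(1 / 4) ≤ u → u ≤ v → v ≤ 0 → DD Y u ≤ DD Y v := by
    intro u v hu huv hv
    rw [DD_neg h0 h1 hu (huv.trans hv), DD_neg h0 h1 (hu.trans huv) hv]
    exact cubic_le h0 hκ huv (Or.inl hv)
  have c2 : ∀ {u v : ℝ}, Y ≤ u → u ≤ v → v ≤ 1 / 4 → DD Y u ≤ DD Y v := by
    intro u v hu huv hv
    rw [DD_high h0 h1 hu (huv.trans hv), DD_high h0 h1 (hu.trans huv) hv]
    have := cubic_le h0 hκ huv (Or.inr hu)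
    linarith
  have z0 : DD Y 0 = 0 := DD_mid h0 h1 le_rfl h0.le
  have zY : DD Y Y = 0 := DD_mid h0 h1 h0.le le_rfl
  have hlow : ∀ {u : ℝ}, -(1 / 4) ≤ u → u ≤ Y → DD Y u ≤ 0 := by
    intro u hu hu'
    rcases le_total u 0 with h | h
    · rw [← z0]; exact c1 hu h le_rfl
    · rw [DD_mid h0 h1 h hu']
  have hhigh : ∀ {u : ℝ}, 0 ≤ u → u ≤ 1 / 4 → 0 ≤ DD Y u := by
    intro u hu hu'
    rcases le_total u Y with h | h
    · rw [DD_mid h0 h1 hu h]
    · rw [← zY]; exact c2 le_rfl h hu'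
  rcases le_total v 0 with h | h
  · exact c1 hu huv h
  · rcases le_total Y u with h' | h'
    · exact c2 h' huv hv
    · exact (hlow hu h').trans (hhigh h hv)

end MeanAux

/-- lower bound of the mean for a sorted triple `c ≤ c + x ≤ c + (x + y)` near the rise
`[0, Y]`. -/
theorem mean_lower (h0 : 0 < Y) (h1 : Y ≤ 1 / 1000) {c x y n : ℝ} (hx : 0 ≤ x) (hy : 0 ≤ y)
    (hS0 : 0 < x + y) (hS : x + y ≤ 4 * Y) (hc1 : c ≤ Y) (hc2 : 0 ≤ c + (x + y))
    (hn : (x + y) * (1 - n) = 2 * (avg (ff Y) (c + x) (c + (x + y)) - avg (ff Y) c (c + x))) :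
    ∃ m1 m2 : ℝ, 0 ≤ m1 ∧ 0 ≤ m2 ∧ (c < 0 → x ≤ -c → -c ≤ m1 * (x + y)) ∧
    (c < 0 → -c ≤ x → c ^ 2 ≤ m1 * (x + y) * x) ∧
    (Y < c + (x + y) → y ≤ c + (x + y) - Y → c + (x + y) - Y ≤ m2 * (x + y)) ∧
    (Y < c + (x + y) → c + (x + y) - Y ≤ y → (c + (x + y) - Y) ^ 2 ≤ m2 * (x + y) * y) ∧
    6 * rf Y + 2 * Y * ((x + y) - Y) + x * y + c * (Y + (x + y) + 2 * y)
        + (Y - (c + (x + y))) * (Y + (x + y) + 2 * x) + 6 * c * (Y - (c + (x + y)))
        + 6 * Y * (1 - (rf Y / Y - Y / 6)) * (m1 + m2) ≤ 6 * Y * n := by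
  have hcf := ff_continuous h0 (by linarith : Y ≤ 1 / 10)
  have hal := al_bounds h0 (by linarith : Y ≤ 1 / 10)
  obtain ⟨S, hSdef⟩ : ∃ S, S = x + y := ⟨_, rfl⟩
  obtain ⟨P, hPdef⟩ : ∃ P, P = c + x := ⟨_, rfl⟩
  obtain ⟨b, hbdef⟩ : ∃ b, b = c + S := ⟨_, rfl⟩
  rw [← hSdef] at hS0 hS hc2 hn ⊢
  rw [← hbdef] at hc2 hn ⊢
  rw [← hPdef] at hn
  have hcP : c ≤ P := by linarith
  have hPb : P ≤ b := by linarith
  have hGc : Continuous (fun u => u - ff Y u) := by fun_prop
  have hGq : Continuous (Gq Y) := by unfold Gq; fun_prop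
  have hmn := mn_cont
  have hmx := mx_cont (Y := Y)
  have hΦc : Continuous (fun u => Gq Y u + (1 - al Y) * (mn u + mx Y u)) := by fun_prop
  -- comparison
  have hcomp := avg_sub_le hGc hΦc (c := P) (a := c) (b := b) (by
    intro t ht
    have k1 := seg_mem (lo := c) (hi := P) (a := P) (b := c) ht hcP le_rfl le_rfl hcP
    have k2 := seg_mem (lo := P) (hi := b) (a := P) (b := b) ht le_rfl hPb hPb le_rfl
    have := DD_mono h0 h1 (u := P + t * (c - P)) (v := P + t * (b - P)) (by linarith)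
      (by linarith) (by linarith)
    unfold DD at this
    linarith)
  have eG : ∀ b', avg (fun u => u - ff Y u) P b' = (P + b') / 2 - avg (ff Y) P b' := by
    intro b'
    rw [avg_sub (g := fun u => u) continuous_id hcf, avg_id]
  have eΦ : ∀ b', avg (fun u => Gq Y u + (1 - al Y) * (mn u + mx Y u)) P b' =
      avg (Gq Y) P b' + (1 - al Y) * (avg mn P b' + avg (mx Y) P b') := by
    intro b'
    rw [avg_add (g := Gq Y) (h := fun u => (1 - al Y) * (mn u + mx Y u)) hGq (by fun_prop),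
      avg_const_mul (1 - al Y) (fun u => mn u + mx Y u), avg_add mn_cont mx_cont]
  rw [eG, eG, eΦ, eΦ, avg_Gq, avg_Gq] at hcomp
  have hsym : avg (ff Y) P c = avg (ff Y) c P := avg_symm _ _ _
  rw [hsym] at hcomp
  have hm1 := avg_mono mn_cont mn_mono P (a := c) (b := b) (by linarith)
  have hm2 := avg_mono (mx_cont (Y := Y)) mx_mono P (a := c) (b := b) (by linarith)
  obtain ⟨m1, hm1def⟩ : ∃ m1, m1 = 2 * (avg mn P b - avg mn P c) / S := ⟨_, rfl⟩
  obtain ⟨m2, hm2def⟩ : ∃ m2, m2 = 2 * (avg (mx Y) P b - avg (mx Y) P c) / S := ⟨_, rfl⟩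
  have e1 : m1 * S = 2 * (avg mn P b - avg mn P c) := by rw [hm1def]; field_simp
  have e2 : m2 * S = 2 * (avg (mx Y) P b - avg (mx Y) P c) := by rw [hm2def]; field_simp
  have hsn : avg mn P c = avg mn c P := avg_symm _ _ _
  have hsx : avg (mx Y) P c = avg (mx Y) c P := avg_symm _ _ _
  refine ⟨m1, m2, ?_, ?_, ?_, ?_, ?_, ?_, ?_⟩
  · rw [hm1def]; positivity
  · rw [hm2def]; positivity
  · intro hc hxc
    have hP : P ≤ 0 := by linarith
    have k1 := mn_mixed hP hc2
    have k2 := mn_nonpos hP hc.le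
    rw [e1, k2]
    have hbP : b - P = y := by rw [hbdef, hPdef, hSdef]; ring
    rw [hbP] at k1
    rcases hy.eq_or_lt with hy0 | hy0
    · have hbP' : b = P := by linarith
      have hP0 : P = 0 := by linarith
      rw [hbP', hP0, avg_self]
      have : mn 0 = 0 := by simp [mn]
      rw [this]
      linarith
    · have : 0 ≤ y * (2 * (avg mn P b - (P + c) / 2) + c) := by
        have : y * (2 * (avg mn P b - (P + c) / 2) + c) = -P * b := by
          have hb : b = P + y := by linarith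
          rw [hb] at k1 ⊢
          linear_combination 2 * k1
        rw [this]
        exact mul_nonneg (by linarith) hc2
      have := nonneg_of_mul_nonneg_right this hy0
      linarith
  · intro hc hxc
    have hP : 0 ≤ P := by linarith
    rw [e1, mn_nonneg hP hc2, hsn]
    have k1 := mn_mixed hc.le hP
    have : P - c = x := by linarith
    rw [this] at k1
    linarith
  · intro hb hyb
    have hP : Y ≤ P := by linarith
    rw [e2, mx_high hP hb.le, hsx]
    have k1 := mx_mixed hc1 hP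
    have hPc : P - c = x := by linarith
    rw [hPc] at k1
    rcases hx.eq_or_lt with hx0 | hx0
    · have hcP' : P = c := by linarith
      have hPY : P = Y := by linarith
      rw [← hcP', hPY, avg_self]
      have : mx Y Y = 0 := by simp [mx]
      rw [this]
      linarith
    · have : 0 ≤ x * (2 * ((P + b) / 2 - Y - avg (mx Y) c P) - (b - Y)) := by
        have : x * (2 * ((P + b) / 2 - Y - avg (mx Y) c P) - (b - Y)) = (P - Y) * (Y - c) := by
          have hx' : x = P - c := by linarith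
          rw [hx'] at k1 ⊢
          linear_combination -2 * k1
        rw [this]
        exact mul_nonneg (by linarith) (by linarith)
      have := nonneg_of_mul_nonneg_right this hx0
      linarith
  · intro hb hyb
    have hP : P ≤ Y := by linarith
    rw [e2, hsx, mx_low hc1 hP]
    have k1 := mx_mixed hP hb.le
    have : b - P = y := by linarith
    rw [this] at k1
    linarith
  · have hal' : 6 * Y * (al Y) = 6 * rf Y - Y ^ 2 := by
      unfold al
      field_simp
    have hfin : S * (6 * rf Y + 2 * Y * (S - Y) + x * y + c * (Y + S + 2 * y)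
        + (Y - b) * (Y + S + 2 * x) + 6 * c * (Y - b)
        + 6 * Y * (1 - al Y) * (m1 + m2)) ≤ S * (6 * Y * n) := by
      have q1 : S * (6 * Y * (1 - al Y) * (m1 + m2)) = 6 * Y * (1 - al Y) *
          (2 * (avg mn P b - avg mn P c) + 2 * (avg (mx Y) P b - avg (mx Y) P c)) := by
        rw [← e1, ← e2]; ring
      have q2 : S * (6 * Y * n) = 6 * Y * (S - 2 * (avg (ff Y) P b - avg (ff Y) c P)) := by
        rw [← hn]; ring
      have q3 := mul_le_mul_of_nonneg_left hcomp (by linarith : 0 ≤ 12 * Y)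
      have q4 : 12 * Y * ((P + b) * (P ^ 2 + b ^ 2) / (12 * Y)) = (P + b) * (P ^ 2 + b ^ 2) := by
        field_simp
      have q5 : 12 * Y * ((P + c) * (P ^ 2 + c ^ 2) / (12 * Y)) = (P + c) * (P ^ 2 + c ^ 2) := by
        field_simp
      have hy' : y = S - x := by linarith
      rw [mul_add S _ (6 * Y * (1 - al Y) * (m1 + m2)), q1, q2]
      have hx' : x = P - c := by linarith
      have hS' : S = b - c := by linarith
      have q6 : S * (6 * rf Y + 2 * Y * (S - Y) + x * y + c * (Y + S + 2 * y)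
        + (Y - b) * (Y + S + 2 * x) + 6 * c * (Y - b)) =
          12 * Y * (al Y * ((P + b) / 2) + (P ^ 2 + P * b + b ^ 2) / 6) -
            (P + b) * (P ^ 2 + b ^ 2) -
          (12 * Y * (al Y * ((P + c) / 2) + (P ^ 2 + P * c + c ^ 2) / 6) -
            (P + c) * (P ^ 2 + c ^ 2)) := by
        rw [hy', hx', hS']
        linear_combination (-(b - c)) * hal'
      rw [q6, hS']
      linarith
    have : rf Y / Y - Y / 6 = al Y := rfl
    rw [this]
    exact le_of_mul_le_mul_left hfin hS0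

end H33Solid
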