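import Pool.Agent.H33.Solid.Coord
import Pool.Agent.H33.Solid.Mean
import Pool.Agent.H33.Solid.Angle

/-! Module LCAL (part 1): triangles, nonnegativity; the cochain `ww` is a calibration as soon as the energies `Etot` are nonnegative -/

namespace H33Solid

/-! ### coordinates -/

theorem s3sq : Real.sqrt 3 * Real.sqrt 3 = 3 := Real.mul_self_sqrt (by norm_num)

theorem ca_sub (z w : ℂ) : ca (z - w) = ca z - ca w := by simp [ca]; ring
theorem cb_sub (z w : ℂ) : cb (z - w) = cb z - cb w := by simp [cb]; ring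
theorem ca_add (z w : ℂ) : ca (z + w) = ca z + ca w := by simp [ca]; ring
theorem cb_add (z w : ℂ) : cb (z + w) = cb z + cb w := by simp [cb]; ring

theorem ca_two : ca 2 = 1 := by simp [ca]
theorem cb_two : cb 2 = 1 := by simp [cb]
theorem ca_2e2 : ca (2 * e2) = 2 := by
  have := s3sq
  simp [ca, e2]; linarith
theorem cb_2e2 : cb (2 * e2) = 0 := by
  have := s3sq
  simp [cb, e2]; linarith
theorem ca_2e3 : ca (2 * e3) = 1 := by
  have := s3sq
  simp [ca, e3]; linarith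
theorem cb_2e3 : cb (2 * e3) = -1 := by
  have := s3sq
  simp [cb, e3]; linarith

theorem norm_sq_coord (z : ℂ) : ‖z‖ ^ 2 = ca z ^ 2 + 3 * cb z ^ 2 := by
  rw [norm_sq_eq', ca, cb]
  have := s3sq
  nlinarith

theorem crs_coord (u v : ℂ) : crs u v = Real.sqrt 3 * (cb u * ca v - ca u * cb v) := by
  have h := s3sq
  simp only [crs, ca, cb]
  linear_combination (-(u.re * v.im - u.im * v.re) / 3) * h

theorem coord_ext {z w : ℂ} (h1 : ca z = ca w) (h2 : cb z = cb w) : z = w := by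
  have h := s3sq
  simp only [ca, cb] at h1 h2
  have h0 : 0 < Real.sqrt 3 := Real.sqrt_pos.2 (by norm_num)
  have him : Real.sqrt 3 * z.im = Real.sqrt 3 * w.im := by linarith
  have him' : z.im = w.im := mul_left_cancel₀ h0.ne' him
  apply Complex.ext _ him'
  rw [him'] at h1
  linarith

/-! ### values of `half` -/

section half

variable {Y s x B S b a : ℝ}

theorem half_one (hx : |x| ≤ 1 / 4) (hB : |B| ≤ 1 / 4) : half Y s (1 + x) (1 - B) =
    -(eta (x + B) * (2 - B) * avg (ff Y) s (s + x)) := by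
  unfold half
  rw [if_pos ⟨by rwa [add_sub_cancel_left], by rw [sub_sub_cancel_left, abs_neg]; exact hB⟩]
  rw [show 1 + x - (1 - B) = x + B by ring, show 1 + (1 - B) = 2 - B by ring,
    show 1 + x - 1 = x by ring]

theorem half_three (hx : |x| ≤ 1 / 4) (hB : |B| ≤ 1 / 4) : half Y s (1 + x) (-(1 - B)) =
    eta (x + B) * (2 - B) * avg (ff Y) s (s + x) := by
  unfold half
  obtain ⟨h1, h2⟩ := abs_le.mp hB
  rw [if_neg, if_pos ⟨by rwa [add_sub_cancel_left], by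
    rw [show -(1 - B) + 1 = B by ring]; exact hB⟩]
  · rw [show 1 + x + -(1 - B) = x + B by ring, show 1 - -(1 - B) = 2 - B by ring,
      show 1 + x - 1 = x by ring]
  · rintro ⟨-, h⟩
    have := (abs_le.mp h).1
    linarith

theorem half_two (hS : |S| ≤ 1 / 4) (hb : |b| ≤ 1 / 4) : half Y s (2 + S) b =
    eta (2 * b) * (-b * avg (ff Y) s (s + S) +
      1 / 2 * cl b S * (R1 Y (s + S) - R1 Y (Y - s))) := by
  unfold half
  obtain ⟨h1, h2⟩ := abs_le.mp hS
  rw [if_neg, if_neg, if_pos ⟨by rwa [add_sub_cancel_left], hb⟩]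
  · rw [show 2 + S - 2 = S by ring]
  · rintro ⟨h, -⟩
    have := (abs_le.mp h).2
    linarith
  · rintro ⟨h, -⟩
    have := (abs_le.mp h).2
    linarith

theorem half_zero (ha : a < 3 / 4) : half Y s a b = 0 := by
  unfold half
  rw [if_neg, if_neg, if_neg]
  · rintro ⟨h, -⟩
    have := (abs_le.mp h).1
    linarith
  · rintro ⟨h, -⟩
    have := (abs_le.mp h).1
    linarith
  · rintro ⟨h, -⟩
    have := (abs_le.mp h).1
    linarith

/-- if `half` does not vanish, the edge is of one of the three types -/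
theorem half_ne_zero (h : half Y s a b ≠ 0) :
    (|a - 1| ≤ 1 / 4 ∧ |b - 1| ≤ 1 / 4 ∧ |a - b| < 1 / 25) ∨
    (|a - 1| ≤ 1 / 4 ∧ |b + 1| ≤ 1 / 4 ∧ |a + b| < 1 / 25) ∨
    (|a - 2| ≤ 1 / 4 ∧ |b| ≤ 1 / 4 ∧ |2 * b| < 1 / 25) := by
  unfold half at h
  split_ifs at h with h1 h2 h3
  · left
    refine ⟨h1.1, h1.2, eta_ne_zero ?_⟩
    intro h0
    rw [h0] at h
    simp at h
  · right; left
    refine ⟨h2.1, h2.2, eta_ne_zero ?_⟩
    intro h0
    rw [h0] at h
    simp at h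
  · right; right
    refine ⟨h3.1, h3.2, eta_ne_zero ?_⟩
    intro h0
    rw [h0] at h
    simp at h
  · exact absurd rfl h

theorem half_abs_le (hY0 : 0 < Y) (hY : Y ≤ 1 / 1000) : |half Y s a b| ≤ 9 / 4 * Y := by
  have hYa : |Y| ≤ 1 / 10 := by rw [abs_of_pos hY0]; linarith
  have hc := ff_continuous hY0 (by linarith : Y ≤ 1 / 10)
  have hr := rf_nonneg hYa
  have havg : ∀ u v, 0 ≤ avg (ff Y) u v ∧ avg (ff Y) u v ≤ Y := by
    intro u v
    refine ⟨const_le_avg hc (ff_nonneg hY0 hY) u v, ?_⟩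
    have := avg_le_const hc (ff_le hY0 hY) u v
    linarith
  unfold half
  split_ifs with h1 h2 h3
  · obtain ⟨k1, k2⟩ := havg s (s + (a - 1))
    obtain ⟨b1, b2⟩ := abs_le.mp h1.2
    rw [abs_neg, abs_mul, abs_mul, abs_of_nonneg (eta_nonneg _), abs_of_nonneg k1,
      abs_of_nonneg (by linarith : 0 ≤ 1 + b)]
    have e1 := eta_le_one (a - b)
    have e0 := eta_nonneg (a - b)
    have : eta (a - b) * (1 + b) ≤ 1 * (9 / 4) := mul_le_mul e1 (by linarith) (by linarith) (by norm_num)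
    have h0 : 0 ≤ eta (a - b) * (1 + b) := mul_nonneg e0 (by linarith)
    calc eta (a - b) * (1 + b) * avg (ff Y) s (s + (a - 1)) ≤ (1 * (9 / 4)) * Y :=
          mul_le_mul this k2 k1 (by norm_num)
      _ = _ := by ring
  · obtain ⟨k1, k2⟩ := havg s (s + (a - 1))
    obtain ⟨b1, b2⟩ := abs_le.mp h2.2
    rw [abs_mul, abs_mul, abs_of_nonneg (eta_nonneg _), abs_of_nonneg k1,
      abs_of_nonneg (by linarith : 0 ≤ 1 - b)]
    have e1 := eta_le_one (a + b)
    have e0 := eta_nonneg (a + b)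
    have : eta (a + b) * (1 - b) ≤ 1 * (9 / 4) := mul_le_mul e1 (by linarith) (by linarith) (by norm_num)
    calc eta (a + b) * (1 - b) * avg (ff Y) s (s + (a - 1)) ≤ (1 * (9 / 4)) * Y :=
          mul_le_mul this k2 k1 (by norm_num)
      _ = _ := by ring
  · obtain ⟨k1, k2⟩ := havg s (s + (a - 2))
    have hR1 := R1_nonneg hY0.le (s + (a - 2))
    have hR1' := R1_le hY0.le (s + (a - 2))
    have hR2 := R1_nonneg hY0.le (Y - s)
    have hR2' := R1_le hY0.le (Y - s)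
    have hcl := cl_abs b (a - 2)
    have hcl2 : |cl b (a - 2)| ≤ 1 / 4 := by
      refine hcl.trans (max_le ?_ (by norm_num))
      exact (abs_le.mp h3.1).2
    rw [abs_mul, abs_of_nonneg (eta_nonneg _)]
    have e1 := eta_le_one (2 * b)
    have e0 := eta_nonneg (2 * b)
    have m1 : |-b * avg (ff Y) s (s + (a - 2))| ≤ 1 / 4 * Y := by
      rw [abs_mul, abs_neg, abs_of_nonneg k1]
      exact mul_le_mul h3.2 k2 k1 (by norm_num)
    have m2 : |1 / 2 * cl b (a - 2) * (R1 Y (s + (a - 2)) - R1 Y (Y - s))| ≤ 1 / 8 * Y := by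
      rw [abs_mul, abs_mul]
      have : |R1 Y (s + (a - 2)) - R1 Y (Y - s)| ≤ Y := by
        rw [abs_le]; constructor <;> linarith
      have h2 : |(1:ℝ) / 2| * |cl b (a - 2)| ≤ 1 / 8 := by
        rw [abs_of_pos (by norm_num : (0:ℝ) < 1 / 2)]; linarith
      exact mul_le_mul h2 this (abs_nonneg _) (by norm_num)
    have m3 := abs_add_le (-b * avg (ff Y) s (s + (a - 2)))
      (1 / 2 * cl b (a - 2) * (R1 Y (s + (a - 2)) - R1 Y (Y - s)))
    have m4 := mul_le_mul e1 m3 (abs_nonneg _) (by norm_num)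
    linarith
  · simp; linarith

end half

/-! ### `Phi` of the two kinds of triangles -/

theorem om_anti (Y : ℝ) (p q : ℂ) : om Y q p = - om Y p q := by unfold om; ring

theorem ww_anti (Y : ℝ) (p q : ℂ) : ww Y q p = - ww Y p q := by unfold ww; rw [om_anti]; ring

theorem Phi_ww (Y : ℝ) (p q r : ℂ) : Phi (ww Y) p q r = Real.sqrt 3 / 3 *
    (3 * ((cb (q - p) * ca (r - p) - ca (q - p) * cb (r - p)) / 2 - 1)
      - (om Y p q + om Y q r + om Y r p)) := by
  unfold Phi ww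
  rw [crs_coord]
  ring

theorem Phi_cyc (Y : ℝ) (p q r : ℂ) : Phi (ww Y) q r p = Phi (ww Y) p q r := by
  unfold Phi
  have : crs (r - q) (p - q) = crs (q - p) (r - p) := by
    simp only [crs, Complex.sub_re, Complex.sub_im]; ring
  rw [this]; ring

variable {Y : ℝ}

theorem avg_ff_add_one (a b : ℝ) : avg (ff Y) (a + 1) (b + 1) = avg (ff Y) a b :=
  avg_shift (k := 1) (fun u => by have := ff_add_int (Y := Y) u 1; simpa using this) a b

/-- the six bounds -/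
structure Box (x B1 y B3 : ℝ) : Prop where
  hx : |x| ≤ 1 / 4
  hB1 : |B1| ≤ 1 / 4
  hy : |y| ≤ 1 / 4
  hB3 : |B3| ≤ 1 / 4
  hS : |x + y| ≤ 1 / 4
  hb : |B3 - B1| ≤ 1 / 4

theorem phi_up {p q r : ℂ} {x B1 y B3 : ℝ} (ha1 : ca (q - p) = 1 + x) (hb1 : cb (q - p) = 1 - B1)
    (ha2 : ca (r - q) = 1 + y) (hb2 : cb (r - q) = -(1 - B3)) (hbox : Box x B1 y B3) :
    Phi (ww Y) p q r = Real.sqrt 3 / 3 * Etot Y (ca p) x B1 y B3 := by
  have ha3 : ca (r - p) = 2 + (x + y) := by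
    have : r - p = (q - p) + (r - q) := by ring
    rw [this, ca_add, ha1, ha2]; ring
  have hb3 : cb (r - p) = B3 - B1 := by
    have : r - p = (q - p) + (r - q) := by ring
    rw [this, cb_add, hb1, hb2]; ring
  have hcq : ca q = ca p + x + 1 := by
    have := ca_sub q p
    linarith
  have hneg : ∀ z w : ℂ, ca (z - w) = - ca (w - z) := by
    intro z w; rw [ca_sub, ca_sub]; ring
  obtain ⟨x1, x2⟩ := abs_le.mp hbox.hx
  obtain ⟨y1, y2⟩ := abs_le.mp hbox.hy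
  obtain ⟨S1, S2⟩ := abs_le.mp hbox.hS
  have o1 : om Y p q = -(eta (x + B1) * (2 - B1) * avg (ff Y) (ca p) (ca p + x)) := by
    unfold om
    rw [ha1, hb1, half_one hbox.hx hbox.hB1, half_zero, sub_zero]
    rw [hneg, ha1]; linarith
  have o2 : om Y q r = eta (y + B3) * (2 - B3) * avg (ff Y) (ca p + x) (ca p + (x + y)) := by
    unfold om
    rw [ha2, hb2, half_three hbox.hy hbox.hB3, half_zero, sub_zero, hcq,
      show ca p + x + 1 + y = (ca p + (x + y)) + 1 by ring, avg_ff_add_one]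
    rw [hneg, ha2]; linarith
  have o3 : om Y r p = -(eta (2 * (B3 - B1)) * (-(B3 - B1) * avg (ff Y) (ca p) (ca p + (x + y)) +
      1 / 2 * cl (B3 - B1) (x + y) * (R1 Y (ca p + (x + y)) - R1 Y (Y - ca p)))) := by
    unfold om
    rw [ha3, hb3, half_two hbox.hS hbox.hb, half_zero, zero_sub]
    rw [hneg, ha3]; linarith
  rw [Phi_ww, o1, o2, o3, ha1, hb1, ha3, hb3]
  unfold Etot E1
  ring

theorem phi_down {p q r : ℂ} {x B1 y B3 : ℝ} (ha1 : ca (q - p) = 1 + x)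
    (hb1 : cb (q - p) = -(1 - B1)) (ha2 : ca (r - q) = 1 + y) (hb2 : cb (r - q) = 1 - B3)
    (hbox : Box x B1 y B3) :
    Phi (ww Y) p r q = Real.sqrt 3 / 3 * Etot Y (ca p) x B1 y B3 := by
  have ha3 : ca (r - p) = 2 + (x + y) := by
    have : r - p = (q - p) + (r - q) := by ring
    rw [this, ca_add, ha1, ha2]; ring
  have hb3 : cb (r - p) = B1 - B3 := by
    have : r - p = (q - p) + (r - q) := by ring
    rw [this, cb_add, hb1, hb2]; ring
  have hcq : ca q = ca p + x + 1 := by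
    have := ca_sub q p
    linarith
  have hneg : ∀ z w : ℂ, ca (z - w) = - ca (w - z) := by
    intro z w; rw [ca_sub, ca_sub]; ring
  obtain ⟨x1, x2⟩ := abs_le.mp hbox.hx
  obtain ⟨y1, y2⟩ := abs_le.mp hbox.hy
  obtain ⟨S1, S2⟩ := abs_le.mp hbox.hS
  have o1 : om Y q p = -(eta (x + B1) * (2 - B1) * avg (ff Y) (ca p) (ca p + x)) := by
    unfold om
    rw [ha1, hb1, half_three hbox.hx hbox.hB1, half_zero, zero_sub]
    rw [hneg, ha1]; linarith
  have o2 : om Y r q = eta (y + B3) * (2 - B3) * avg (ff Y) (ca p + x) (ca p + (x + y)) := by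
    unfold om
    rw [ha2, hb2, half_one hbox.hy hbox.hB3, half_zero, zero_sub, hcq,
      show ca p + x + 1 + y = (ca p + (x + y)) + 1 by ring, avg_ff_add_one, neg_neg]
    rw [hneg, ha2]; linarith
  have o3 : om Y p r = -(eta (2 * (B3 - B1)) * (-(B3 - B1) * avg (ff Y) (ca p) (ca p + (x + y)) +
      1 / 2 * cl (B3 - B1) (x + y) * (R1 Y (ca p + (x + y)) - R1 Y (Y - ca p)))) := by
    have hbb : |B1 - B3| ≤ 1 / 4 := by rw [abs_sub_comm]; exact hbox.hb
    unfold om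
    rw [ha3, hb3, half_two hbox.hS hbb, half_zero, sub_zero]
    · rw [show 2 * (B1 - B3) = -(2 * (B3 - B1)) by ring, eta_neg,
        show B1 - B3 = -(B3 - B1) by ring, cl_neg]
      ring
    · rw [hneg, ha3]; linarith
  rw [Phi_ww, o1, o2, o3, ha1, hb1, ha3, hb3]
  unfold Etot E1
  ring

/-! ### general triangles -/

/-- positively oriented triangles with side lengths in `[2, 2.01]` -/
structure Tri (p q r : ℂ) : Prop where
  pq : 2 ≤ dist p q
  pq' : dist p q ≤ 201 / 100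
  qr : 2 ≤ dist q r
  qr' : dist q r ≤ 201 / 100
  rp : 2 ≤ dist r p
  rp' : dist r p ≤ 201 / 100
  pos : 0 < crs (q - p) (r - p)

theorem Tri.rot {p q r : ℂ} (h : Tri p q r) : Tri q r p := by
  refine ⟨h.qr, h.qr', h.rp, h.rp', h.pq, h.pq', ?_⟩
  have : crs (r - q) (p - q) = crs (q - p) (r - p) := by
    simp only [crs, Complex.sub_re, Complex.sub_im]; ring
  rw [this]; exact h.pos

theorem side_tau {p q : ℂ} (h : 2 ≤ dist p q) (h' : dist p q ≤ 201 / 100) :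
    0 ≤ ca (q - p) ^ 2 + 3 * cb (q - p) ^ 2 - 4 ∧
    ca (q - p) ^ 2 + 3 * cb (q - p) ^ 2 - 4 ≤ 401 / 10000 := by
  rw [dist_comm, dist_eq_norm] at h h'
  rw [← norm_sq_coord]
  constructor <;> nlinarith

theorem crs_pos_coord {p q r : ℂ} (h : 0 < crs (q - p) (r - p)) :
    0 < cb (q - p) * ca (r - p) - ca (q - p) * cb (r - p) := by
  rw [crs_coord] at h
  by_contra hcon
  push Not at hcon
  have := mul_nonneg (Real.sqrt_nonneg 3) (neg_nonneg.2 hcon)
  linarith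

theorem tri_bounds {a1 b1 a2 b2 : ℝ} (h1 : 0 ≤ a1 ^ 2 + 3 * b1 ^ 2 - 4)
    (h1' : a1 ^ 2 + 3 * b1 ^ 2 - 4 ≤ 401 / 10000) (h2 : 0 ≤ a2 ^ 2 + 3 * b2 ^ 2 - 4)
    (h2' : a2 ^ 2 + 3 * b2 ^ 2 - 4 ≤ 401 / 10000)
    (h3 : 0 ≤ (a1 + a2) ^ 2 + 3 * (b1 + b2) ^ 2 - 4)
    (h3' : (a1 + a2) ^ 2 + 3 * (b1 + b2) ^ 2 - 4 ≤ 401 / 10000)
    (hpos : 0 < b1 * (a1 + a2) - a1 * (b1 + b2)) :
    0 ≤ (b1 * (a1 + a2) - a1 * (b1 + b2)) / 2 - 1 ∧
    |a2 - (-a1 / 2 + 3 / 2 * b1)| ≤ 35 / 1000 ∧ |b2 + (a1 + b1) / 2| ≤ 20 / 1000 := by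
  have t1 : tau (a1 - 1) (1 - b1) = a1 ^ 2 + 3 * b1 ^ 2 - 4 := by unfold tau; ring
  have t3 : tau (a2 - 1) (1 + b2) = a2 ^ 2 + 3 * b2 ^ 2 - 4 := by unfold tau; ring
  have t2 : tau2 ((a1 - 1) + (a2 - 1)) ((1 + b2) - (1 - b1)) =
      (a1 + a2) ^ 2 + 3 * (b1 + b2) ^ 2 - 4 := by unfold tau2; ring
  have hH := heron (a1 - 1) (1 - b1) (a2 - 1) (1 + b2)
  have hE := E1_eq (a1 - 1) (1 - b1) (a2 - 1) (1 + b2)
  have hE1 : E1 (a1 - 1) (1 - b1) (a2 - 1) (1 + b2) / 3 =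
      (b1 * (a1 + a2) - a1 * (b1 + b2)) / 2 - 1 := by unfold E1; ring
  rw [t1, t2, t3] at hH hE
  set T1 := a1 ^ 2 + 3 * b1 ^ 2 - 4
  set T2 := (a1 + a2) ^ 2 + 3 * (b1 + b2) ^ 2 - 4
  set T3 := a2 ^ 2 + 3 * b2 ^ 2 - 4
  set E := E1 (a1 - 1) (1 - b1) (a2 - 1) (1 + b2)
  have h0 : 0 ≤ E / 3 := heron_aux (by rw [hE1]; linarith) h1 h1' h3 h3' h2 h2' hH
  refine ⟨by rw [← hE1]; exact h0, ?_⟩
  have hW := AZ_aux (W := (a2 - 1 - (a1 - 1) - 3 * (1 + b2 - (1 - b1))) ^ 2 +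
    3 * (a1 - 1 + (a2 - 1) + (1 - b1) + (1 + b2)) ^ 2) (a := E) (by linarith) h1 h1' h3 h3' h2 h2'
    (by positivity) (by rw [hE]; ring) hH
  have hA : |a2 - 1 - (a1 - 1) - 3 * (1 + b2 - (1 - b1))| ≤ 1 / 20 := by
    apply abs_le_of_sq_le_sq _ (by norm_num)
    nlinarith [sq_nonneg (a1 - 1 + (a2 - 1) + (1 - b1) + (1 + b2))]
  have hZ : |a1 - 1 + (a2 - 1) + (1 - b1) + (1 + b2)| ≤ 3 / 100 := by
    apply abs_le_of_sq_le_sq _ (by norm_num)
    nlinarith [sq_nonneg (a2 - 1 - (a1 - 1) - 3 * (1 + b2 - (1 - b1)))]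
  obtain ⟨A1, A2⟩ := abs_le.mp hA
  obtain ⟨Z1, Z2⟩ := abs_le.mp hZ
  constructor
  · rw [abs_le]; constructor <;> linarith
  · rw [abs_le]; constructor <;> linarith

theorem Tri.bounds {p q r : ℂ} (h : Tri p q r) :
    0 ≤ (cb (q - p) * ca (r - p) - ca (q - p) * cb (r - p)) / 2 - 1 ∧
    |ca (r - q) - (-ca (q - p) / 2 + 3 / 2 * cb (q - p))| ≤ 35 / 1000 ∧
    |cb (r - q) + (ca (q - p) + cb (q - p)) / 2| ≤ 20 / 1000 := by
  have ea : ca (r - p) = ca (q - p) + ca (r - q) := by rw [← ca_add]; congr 1; ring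
  have eb : cb (r - p) = cb (q - p) + cb (r - q) := by rw [← cb_add]; congr 1; ring
  have h3 := side_tau (p := p) (q := r) (by rw [dist_comm]; exact h.rp)
    (by rw [dist_comm]; exact h.rp')
  have h1 := side_tau h.pq h.pq'
  have h2 := side_tau h.qr h.qr'
  have hp := crs_pos_coord h.pos
  rw [ea, eb] at h3 hp
  rw [ea, eb]
  exact tri_bounds h1.1 h1.2 h2.1 h2.2 h3.1 h3.2 hp

/-- an edge vector close to `(α, β)` in coordinates -/
def Near (d e α β : ℝ) (z : ℂ) : Prop := |ca z - α| ≤ d ∧ |cb z - β| ≤ e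

theorem window_of_box {x B1 y B3 : ℝ} (hb : Box x B1 y B3)
    (h1 : 0 ≤ (1 + x) ^ 2 + 3 * (1 - B1) ^ 2 - 4)
    (h1' : (1 + x) ^ 2 + 3 * (1 - B1) ^ 2 - 4 ≤ 401 / 10000)
    (h3 : 0 ≤ (1 + y) ^ 2 + 3 * (1 - B3) ^ 2 - 4)
    (h3' : (1 + y) ^ 2 + 3 * (1 - B3) ^ 2 - 4 ≤ 401 / 10000)
    (h2 : 0 ≤ (2 + (x + y)) ^ 2 + 3 * (B3 - B1) ^ 2 - 4)
    (h2' : (2 + (x + y)) ^ 2 + 3 * (B3 - B1) ^ 2 - 4 ≤ 401 / 10000) : Window x B1 y B3 := by
  have t1 : tau x B1 = (1 + x) ^ 2 + 3 * (1 - B1) ^ 2 - 4 := by unfold tau; ring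
  have t3 : tau y B3 = (1 + y) ^ 2 + 3 * (1 - B3) ^ 2 - 4 := by unfold tau; ring
  have t2 : tau2 (x + y) (B3 - B1) = (2 + (x + y)) ^ 2 + 3 * (B3 - B1) ^ 2 - 4 := by
    unfold tau2; ring
  exact ⟨hb.hx, hb.hB1, hb.hy, hb.hB3, hb.hS, hb.hb, by rw [t1]; exact h1, by rw [t1]; exact h1',
    by rw [t3]; exact h3, by rw [t3]; exact h3', by rw [t2]; exact h2, by rw [t2]; exact h2'⟩

/-- an UP triangle: data for the window -/
theorem up_data {p q r : ℂ} (h : Tri p q r) (h1 : Near (1 / 10) (1 / 10) 1 1 (q - p))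
    (h2 : Near (1 / 10) (1 / 10) 1 (-1) (r - q)) : ∃ x B1 y B3 : ℝ,
    ca (q - p) = 1 + x ∧ cb (q - p) = 1 - B1 ∧ ca (r - q) = 1 + y ∧ cb (r - q) = -(1 - B3) ∧
    Box x B1 y B3 ∧ Window x B1 y B3 := by
  have s3 := side_tau (p := p) (q := r) (by rw [dist_comm]; exact h.rp)
    (by rw [dist_comm]; exact h.rp')
  have s1 := side_tau h.pq h.pq'
  have s2 := side_tau h.qr h.qr'
  have ea : ca (r - p) = ca (q - p) + ca (r - q) := by rw [← ca_add]; congr 1; ring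
  have eb : cb (r - p) = cb (q - p) + cb (r - q) := by rw [← cb_add]; congr 1; ring
  rw [ea, eb] at s3
  obtain ⟨a1, a2⟩ := abs_le.mp h1.1
  obtain ⟨b1, b2⟩ := abs_le.mp h1.2
  obtain ⟨c1, c2⟩ := abs_le.mp h2.1
  obtain ⟨d1, d2⟩ := abs_le.mp h2.2
  have hbox : Box (ca (q - p) - 1) (1 - cb (q - p)) (ca (r - q) - 1) (1 + cb (r - q)) := by
    constructor <;> rw [abs_le] <;> constructor <;> linarith
  refine ⟨ca (q - p) - 1, 1 - cb (q - p), ca (r - q) - 1, 1 + cb (r - q), by ring, by ring,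
    by ring, by ring, hbox, window_of_box hbox ?_ ?_ ?_ ?_ ?_ ?_⟩
  · linarith [s1.1]
  · linarith [s1.2]
  · linarith [s2.1]
  · linarith [s2.2]
  · have e : (2 + (ca (q - p) - 1 + (ca (r - q) - 1))) ^ 2 +
      3 * (1 + cb (r - q) - (1 - cb (q - p))) ^ 2 - 4 =
      (ca (q - p) + ca (r - q)) ^ 2 + 3 * (cb (q - p) + cb (r - q)) ^ 2 - 4 := by ring
    rw [e]; exact s3.1
  · have e : (2 + (ca (q - p) - 1 + (ca (r - q) - 1))) ^ 2 +
      3 * (1 + cb (r - q) - (1 - cb (q - p))) ^ 2 - 4 =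
      (ca (q - p) + ca (r - q)) ^ 2 + 3 * (cb (q - p) + cb (r - q)) ^ 2 - 4 := by ring
    rw [e]; exact s3.2

/-- a DOWN triangle `p, r, q` -/
theorem down_data {p q r : ℂ} (h : Tri p r q) (h1 : Near (1 / 10) (1 / 10) 1 (-1) (q - p))
    (h2 : Near (1 / 10) (1 / 10) 1 1 (r - q)) : ∃ x B1 y B3 : ℝ,
    ca (q - p) = 1 + x ∧ cb (q - p) = -(1 - B1) ∧ ca (r - q) = 1 + y ∧ cb (r - q) = 1 - B3 ∧
    Box x B1 y B3 ∧ Window x B1 y B3 := by
  have s3 := side_tau h.pq h.pq'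
  have s1 := side_tau (p := p) (q := q) (by rw [dist_comm]; exact h.rp)
    (by rw [dist_comm]; exact h.rp')
  have s2 := side_tau (p := q) (q := r) (by rw [dist_comm]; exact h.qr)
    (by rw [dist_comm]; exact h.qr')
  have ea : ca (r - p) = ca (q - p) + ca (r - q) := by rw [← ca_add]; congr 1; ring
  have eb : cb (r - p) = cb (q - p) + cb (r - q) := by rw [← cb_add]; congr 1; ring
  rw [ea, eb] at s3
  obtain ⟨a1, a2⟩ := abs_le.mp h1.1
  obtain ⟨b1, b2⟩ := abs_le.mp h1.2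
  obtain ⟨c1, c2⟩ := abs_le.mp h2.1
  obtain ⟨d1, d2⟩ := abs_le.mp h2.2
  have hbox : Box (ca (q - p) - 1) (1 + cb (q - p)) (ca (r - q) - 1) (1 - cb (r - q)) := by
    constructor <;> rw [abs_le] <;> constructor <;> linarith
  refine ⟨ca (q - p) - 1, 1 + cb (q - p), ca (r - q) - 1, 1 - cb (r - q), by ring, by ring,
    by ring, by ring, hbox, window_of_box hbox ?_ ?_ ?_ ?_ ?_ ?_⟩
  · linarith [s1.1]
  · linarith [s1.2]
  · linarith [s2.1]
  · linarith [s2.2]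
  · have e : (2 + (ca (q - p) - 1 + (ca (r - q) - 1))) ^ 2 +
      3 * (1 - cb (r - q) - (1 + cb (q - p))) ^ 2 - 4 =
      (ca (q - p) + ca (r - q)) ^ 2 + 3 * (cb (q - p) + cb (r - q)) ^ 2 - 4 := by ring
    rw [e]; exact s3.1
  · have e : (2 + (ca (q - p) - 1 + (ca (r - q) - 1))) ^ 2 +
      3 * (1 - cb (r - q) - (1 + cb (q - p))) ^ 2 - 4 =
      (ca (q - p) + ca (r - q)) ^ 2 + 3 * (cb (q - p) + cb (r - q)) ^ 2 - 4 := by ring
    rw [e]; exact s3.2

theorem nonneg_up (hE : EtotOK Y) {p q r : ℂ} (h : Tri p q r)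
    (h1 : Near (1 / 10) (1 / 10) 1 1 (q - p)) (h2 : Near (1 / 10) (1 / 10) 1 (-1) (r - q)) :
    0 ≤ Phi (ww Y) p q r := by
  obtain ⟨x, B1, y, B3, e1, e2, e3, e4, hb, hw⟩ := up_data h h1 h2
  rw [phi_up e1 e2 e3 e4 hb]
  exact mul_nonneg (by positivity) (hE _ _ _ _ _ hw).1

theorem nonneg_down (hE : EtotOK Y) {p q r : ℂ} (h : Tri p r q)
    (h1 : Near (1 / 10) (1 / 10) 1 (-1) (q - p)) (h2 : Near (1 / 10) (1 / 10) 1 1 (r - q)) :
    0 ≤ Phi (ww Y) p r q := by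
  obtain ⟨x, B1, y, B3, e1, e2, e3, e4, hb, hw⟩ := down_data h h1 h2
  rw [phi_down e1 e2 e3 e4 hb]
  exact mul_nonneg (by positivity) (hE _ _ _ _ _ hw).1

/-- refined location of an edge for which `half` does not vanish -/
theorem near_of_half {s a b : ℝ} (h : half Y s a b ≠ 0) (h1 : 0 ≤ a ^ 2 + 3 * b ^ 2 - 4)
    (h1' : a ^ 2 + 3 * b ^ 2 - 4 ≤ 401 / 10000) :
    (|a - 1| ≤ 4 / 100 ∧ |b - 1| ≤ 2 / 100) ∨ (|a - 1| ≤ 4 / 100 ∧ |b + 1| ≤ 2 / 100) ∨
    (|a - 2| ≤ 4 / 100 ∧ |b| ≤ 2 / 100) := by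
  have key : ∀ b' : ℝ, |a - 1| ≤ 1 / 4 → |b' - 1| ≤ 1 / 4 → |a - b'| < 1 / 25 →
      0 ≤ a ^ 2 + 3 * b' ^ 2 - 4 → a ^ 2 + 3 * b' ^ 2 - 4 ≤ 401 / 10000 →
      |a - 1| ≤ 4 / 100 ∧ |b' - 1| ≤ 2 / 100 := by
    intro b' ha hb hab k k'
    obtain ⟨a1, a2⟩ := abs_le.mp ha
    obtain ⟨b1, b2⟩ := abs_le.mp hb
    obtain ⟨c1, c2⟩ := abs_lt.mp hab
    have hab2 : (a - b') ^ 2 ≤ 1 / 625 := by nlinarith
    have e : (a + 3 * b') ^ 2 = 4 * (a ^ 2 + 3 * b' ^ 2) - 3 * (a - b') ^ 2 := by ring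
    have l1 : 3999 / 1000 ≤ a + 3 * b' := by
      by_contra hcon
      push Not at hcon
      nlinarith
    have l2 : a + 3 * b' ≤ 403 / 100 := by
      by_contra hcon
      push Not at hcon
      nlinarith [sq_nonneg (a - b')]
    constructor <;> rw [abs_le] <;> constructor <;> linarith
  rcases half_ne_zero h with ⟨ha, hb, hab⟩ | ⟨ha, hb, hab⟩ | ⟨ha, hb, hab⟩
  · left; exact key b ha hb hab h1 h1'
  · right; left
    have := key (-b) ha (by rw [show -b - 1 = -(b + 1) by ring, abs_neg]; exact hb)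
      (by rw [sub_neg_eq_add]; exact hab) (by rw [neg_sq]; exact h1) (by rw [neg_sq]; exact h1')
    refine ⟨this.1, ?_⟩
    have h2 := this.2
    rwa [show -b - 1 = -(b + 1) by ring, abs_neg] at h2
  · right; right
    obtain ⟨a1, a2⟩ := abs_le.mp ha
    obtain ⟨c1, c2⟩ := abs_lt.mp hab
    have hb2 : b ^ 2 ≤ 1 / 2500 := by nlinarith
    constructor
    · rw [abs_le]
      constructor
      · nlinarith
      · nlinarith [sq_nonneg b]
    · rw [abs_le]; constructor <;> linarith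

theorem nonneg_of_om (hE : EtotOK Y) {p q r : ℂ} (h : Tri p q r) (hom : om Y p q ≠ 0) :
    0 ≤ Phi (ww Y) p q r := by
  have ea : ca (r - p) = ca (q - p) + ca (r - q) := by rw [← ca_add]; congr 1; ring
  have eb : cb (r - p) = cb (q - p) + cb (r - q) := by rw [← cb_add]; congr 1; ring
  have nega : ∀ z w : ℂ, ca (z - w) = - ca (w - z) := by
    intro z w; rw [ca_sub, ca_sub]; ring
  have negb : ∀ z w : ℂ, cb (z - w) = - cb (w - z) := by
    intro z w; rw [cb_sub, cb_sub]; ring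
  obtain ⟨-, hA, hZ⟩ := h.bounds
  obtain ⟨A1, A2⟩ := abs_le.mp hA
  obtain ⟨Z1, Z2⟩ := abs_le.mp hZ
  have s1 := side_tau h.pq h.pq'
  have hor : half Y (ca p) (ca (q - p)) (cb (q - p)) ≠ 0 ∨
      half Y (ca q) (ca (p - q)) (cb (p - q)) ≠ 0 := by
    by_contra hcon
    push Not at hcon
    apply hom
    unfold om
    rw [hcon.1, hcon.2, sub_zero]
  rcases hor with hh | hh
  · rcases near_of_half hh s1.1 s1.2 with ⟨ha, hb⟩ | ⟨ha, hb⟩ | ⟨ha, hb⟩
    · -- (1,1)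
      obtain ⟨a1, a2⟩ := abs_le.mp ha
      obtain ⟨b1, b2⟩ := abs_le.mp hb
      apply nonneg_up hE h
      · constructor <;> rw [abs_le] <;> constructor <;> linarith
      · constructor <;> rw [abs_le] <;> constructor <;> linarith
    · -- (1,-1)
      obtain ⟨a1, a2⟩ := abs_le.mp ha
      obtain ⟨b1, b2⟩ := abs_le.mp hb
      rw [← Phi_cyc Y p q r, ← Phi_cyc Y q r p]
      apply nonneg_up hE h.rot.rot
      · constructor
        · rw [nega p r, ea, abs_le]; constructor <;> linarith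
        · rw [negb p r, eb, abs_le]; constructor <;> linarith
      · constructor <;> rw [abs_le] <;> constructor <;> linarith
    · -- (2,0)
      obtain ⟨a1, a2⟩ := abs_le.mp ha
      obtain ⟨b1, b2⟩ := abs_le.mp hb
      apply nonneg_down hE h
      · constructor
        · rw [ea, abs_le]; constructor <;> linarith
        · rw [eb, abs_le]; constructor <;> linarith
      · constructor
        · rw [nega q r, abs_le]; constructor <;> linarith
        · rw [negb q r, abs_le]; constructor <;> linarith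
  · rw [nega p q, negb p q] at hh
    rcases near_of_half hh (by linarith [s1.1, sq_nonneg (ca (q - p))])
      (by linarith [s1.2]) with ⟨ha, hb⟩ | ⟨ha, hb⟩ | ⟨ha, hb⟩
    · -- (-1,-1)
      obtain ⟨a1, a2⟩ := abs_le.mp ha
      obtain ⟨b1, b2⟩ := abs_le.mp hb
      rw [← Phi_cyc Y p q r, ← Phi_cyc Y q r p]
      apply nonneg_down hE h.rot.rot
      · constructor
        · rw [nega q r, abs_le]; constructor <;> linarith
        · rw [negb q r, abs_le]; constructor <;> linarith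
      · constructor
        · rw [nega p q, abs_le]; constructor <;> linarith
        · rw [negb p q, abs_le]; constructor <;> linarith
    · -- (-1,1)
      obtain ⟨a1, a2⟩ := abs_le.mp ha
      obtain ⟨b1, b2⟩ := abs_le.mp hb
      rw [← Phi_cyc Y p q r]
      apply nonneg_down hE h.rot
      · constructor
        · rw [nega p q, abs_le]; constructor <;> linarith
        · rw [negb p q, abs_le]; constructor <;> linarith
      · constructor
        · rw [ea, abs_le]; constructor <;> linarith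
        · rw [eb, abs_le]; constructor <;> linarith
    · -- (-2,0)
      obtain ⟨a1, a2⟩ := abs_le.mp ha
      obtain ⟨b1, b2⟩ := abs_le.mp hb
      rw [← Phi_cyc Y p q r]
      apply nonneg_up hE h.rot
      · constructor
        · rw [abs_le]; constructor <;> linarith
        · rw [abs_le]; constructor <;> linarith
      · constructor
        · rw [nega p r, ea, abs_le]; constructor <;> linarith
        · rw [negb p r, eb, abs_le]; constructor <;> linarith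

theorem nonneg_tri (hE : EtotOK Y) {p q r : ℂ} (h : Tri p q r) : 0 ≤ Phi (ww Y) p q r := by
  by_cases h1 : om Y p q = 0
  · by_cases h2 : om Y q r = 0
    · by_cases h3 : om Y r p = 0
      · rw [Phi_ww, h1, h2, h3]
        have := h.bounds.1
        apply mul_nonneg (by positivity)
        linarith
      · rw [← Phi_cyc Y p q r, ← Phi_cyc Y q r p]
        exact nonneg_of_om hE h.rot.rot h3
    · rw [← Phi_cyc Y p q r]
      exact nonneg_of_om hE h.rot h2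
  · exact nonneg_of_om hE h h1

end H33Solid
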