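import Pool.Agent.H33.Solid.Defs

/-!
# Module E: comparison of the total cell areas of two packings which agree far away
-/

namespace H33Solid

open MeasureTheory

theorem finite_ball {C : Set ℂ} (hC : Sep C) (R : ℝ) : {z | z ∈ C ∧ ‖z‖ ≤ R}.Finite := by
  have htb : TotallyBounded (Metric.closedBall (0 : ℂ) R) :=
    (isCompact_closedBall (0 : ℂ) R).totallyBounded
  obtain ⟨s, hs, hcov⟩ := Metric.totallyBounded_iff.1 htb 1 one_pos
  have hfin : (⋃ y ∈ s, ({z | z ∈ C ∧ ‖z‖ ≤ R} ∩ Metric.ball y 1)).Finite := by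
    refine hs.biUnion (fun y _ => ?_)
    refine Set.Subsingleton.finite ?_
    intro a ha b hb
    by_contra hab
    have h2 := hC a ha.1.1 b hb.1.1 hab
    have h3 : dist a b < 2 := by
      have ha' : dist a y < 1 := ha.2
      have hb' : dist b y < 1 := hb.2
      have := dist_triangle_right a b y
      linarith
    linarith
  refine hfin.subset ?_
  intro z hz
  have hz' : z ∈ Metric.closedBall (0 : ℂ) R := by
    simpa [Metric.mem_closedBall, dist_zero_right] using hz.2
  have := hcov hz'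
  simp only [Set.mem_iUnion] at this ⊢
  obtain ⟨y, hy, hzy⟩ := this
  exact ⟨y, hy, hz, hzy⟩

theorem isClosed_cell (C : Set ℂ) (p : ℂ) : IsClosed (cell C p) := by
  have : cell C p = Metric.closedBall p (6 / 5) ∩ ⋂ q ∈ C, {x | dist x p ≤ dist x q} := by
    ext x
    simp [cell, Metric.mem_closedBall]
  rw [this]
  refine Metric.isClosed_closedBall.inter ?_
  refine isClosed_biInter (fun q _ => ?_)
  exact isClosed_le (by fun_prop) (by fun_prop)

theorem cell_subset_closedBall (C : Set ℂ) (p : ℂ) : cell C p ⊆ Metric.closedBall p (6 / 5) :=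
  fun x hx => hx.1

theorem measurableSet_cell (C : Set ℂ) (p : ℂ) : MeasurableSet (cell C p) :=
  (isClosed_cell C p).measurableSet

theorem volume_cell_ne_top (C : Set ℂ) (p : ℂ) : volume (cell C p) ≠ ⊤ := by
  refine ne_of_lt (lt_of_le_of_lt (measure_mono (cell_subset_closedBall C p)) ?_)
  exact measure_closedBall_lt_top

theorem volume_bisector {p q : ℂ} (h : p ≠ q) :
    volume {x : ℂ | dist x p = dist x q} = 0 := by
  have h1 : ({x : ℂ | dist x p = dist x q} : Set ℂ) =
      (AffineSubspace.perpBisector p q : Set ℂ) := by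
    ext x
    simp [AffineSubspace.mem_perpBisector_iff_dist_eq]
  rw [h1]
  refine Measure.addHaar_affineSubspace volume _ ?_
  intro htop
  exact h (AffineSubspace.perpBisector_eq_top.1 htop)

theorem aedisjoint_cell {C : Set ℂ} {p q : ℂ} (hp : p ∈ C) (hq : q ∈ C) (h : p ≠ q) :
    AEDisjoint volume (cell C p) (cell C q) := by
  refine measure_mono_null ?_ (volume_bisector h)
  intro x hx
  exact le_antisymm (hx.1.2 q hq) (hx.2.2 p hp)

/-- the nearest point exists -/
theorem exists_nearest {C : Set ℂ} (hC : Sep C) (hsat : ∀ x : ℂ, ∃ q ∈ C, dist x q ≤ 6 / 5)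
    (x : ℂ) : ∃ q ∈ C, x ∈ cell C q := by
  have hfin : {z | z ∈ C ∧ ‖z‖ ≤ ‖x‖ + 6 / 5}.Finite := finite_ball hC _
  obtain ⟨q0, hq0, hd0⟩ := hsat x
  have hmem : ∀ z ∈ C, dist x z ≤ 6 / 5 → z ∈ {z | z ∈ C ∧ ‖z‖ ≤ ‖x‖ + 6 / 5} := by
    intro z hz hd
    refine ⟨hz, ?_⟩
    have h1 : ‖z‖ ≤ ‖x‖ + dist x z := by
      rw [dist_eq_norm]
      have := norm_sub_norm_le z x
      rw [norm_sub_rev z x] at this
      linarith
    linarith
  obtain ⟨q, hq, hmin⟩ := Set.exists_min_image _ (fun z => dist x z) hfin ⟨q0, hmem q0 hq0 hd0⟩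
  have hq65 : dist x q ≤ 6 / 5 := (hmin q0 (hmem q0 hq0 hd0)).trans hd0
  refine ⟨q, hq.1, hq65, ?_⟩
  intro z hz
  by_cases hd : dist x z ≤ 6 / 5
  · exact hmin z (hmem z hz hd)
  · push Not at hd
    linarith

theorem volume_compare {C C' : Set ℂ} (hC : Sep C) (hsat : ∀ x : ℂ, ∃ q ∈ C, dist x q ≤ 6 / 5)
    (hC' : Sep C') {R₀ R : ℝ} (hagree : ∀ z : ℂ, R₀ ≤ ‖z‖ → (z ∈ C ↔ z ∈ C'))
    (hR : R₀ + 10 ≤ R) (A A' : Finset ℂ) (hA : ∀ z, z ∈ A ↔ z ∈ C ∧ ‖z‖ ≤ R)
    (hA' : ∀ z, z ∈ A' ↔ z ∈ C' ∧ ‖z‖ ≤ R) :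
    ∑ p ∈ A', (volume (cell C' p)).toReal ≤ ∑ p ∈ A, (volume (cell C p)).toReal := by
  classical
  rw [← ENNReal.toReal_sum (fun p _ => volume_cell_ne_top C' p),
    ← ENNReal.toReal_sum (fun p _ => volume_cell_ne_top C p)]
  refine ENNReal.toReal_mono ?_ ?_
  · exact ENNReal.sum_ne_top.2 (fun p _ => volume_cell_ne_top C p)
  have hU' : volume (⋃ p ∈ A', cell C' p) = ∑ p ∈ A', volume (cell C' p) := by
    refine measure_biUnion_finset₀ ?_ (fun p _ => (measurableSet_cell C' p).nullMeasurableSet)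
    intro p hp q hq hpq
    exact aedisjoint_cell ((hA' p).1 hp).1 ((hA' q).1 hq).1 hpq
  rw [← hU']
  have hB := finite_ball hC (R + 3)
  set N : Set ℂ := ⋃ p ∈ A', ⋃ q ∈ hB.toFinset.filter (fun q => q ≠ p),
    {x : ℂ | dist x p = dist x q} with hN
  have hN0 : volume N = 0 := by
    rw [hN]
    refine (measure_biUnion_null_iff A'.countable_toSet).2 (fun p _ => ?_)
    refine (measure_biUnion_null_iff (Finset.countable_toSet _)).2 (fun q hq => ?_)
    exact volume_bisector (Finset.mem_filter.1 hq).2.symm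
  have hsub : (⋃ p ∈ A', cell C' p) ⊆ (⋃ p ∈ A, cell C p) ∪ N := by
    intro x hx
    simp only [Set.mem_iUnion] at hx
    obtain ⟨p, hp, hxp⟩ := hx
    by_cases hxU : x ∈ ⋃ q ∈ A, cell C q
    · exact Or.inl hxU
    · right
      obtain ⟨q, hqC, hxq⟩ := exists_nearest hC hsat x
      have hqA : q ∉ A := by
        intro hqA
        apply hxU
        simp only [Set.mem_iUnion]
        exact ⟨q, hqA, hxq⟩
      have hqn : R < ‖q‖ := by
        by_contra hcon
        push Not at hcon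
        exact hqA ((hA q).2 ⟨hqC, hcon⟩)
      have hqC' : q ∈ C' := (hagree q (by linarith)).1 hqC
      have hp' := (hA' p).1 hp
      have h1 : dist q p ≤ 12 / 5 := by
        have ha : dist x q ≤ 6 / 5 := hxq.1
        have hb : dist x p ≤ 6 / 5 := hxp.1
        have := dist_triangle_left q p x
        linarith
      have h2 : ‖q‖ ≤ ‖p‖ + dist q p := by
        rw [dist_eq_norm]
        have := norm_sub_norm_le q p
        linarith
      have hpC : p ∈ C := (hagree p (by linarith)).2 hp'.1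
      have heq : dist x p = dist x q := le_antisymm (hxp.2 q hqC') (hxq.2 p hpC)
      rw [hN]
      simp only [Set.mem_iUnion]
      refine ⟨p, hp, q, ?_, heq⟩
      rw [Finset.mem_filter, Set.Finite.mem_toFinset]
      refine ⟨⟨hqC, by linarith [hp'.2]⟩, ?_⟩
      rintro rfl
      linarith [hp'.2]
  calc volume (⋃ p ∈ A', cell C' p) ≤ volume ((⋃ p ∈ A, cell C p) ∪ N) := measure_mono hsub
    _ ≤ volume (⋃ p ∈ A, cell C p) + volume N := measure_union_le _ _
    _ = volume (⋃ p ∈ A, cell C p) := by rw [hN0, add_zero]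
    _ ≤ ∑ p ∈ A, volume (cell C p) := measure_biUnion_finset_le _ _

end H33Solid
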