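import Pool.Agent.H33.Solid.Etot

/-! Module LC: the calibration in coordinates -/

namespace H33Solid

/-- second coordinate (the first one is `ca`): `‖z‖² = ca z ² + 3 cb z ²` -/
noncomputable def cb (z : ℂ) : ℝ := (z.re - Real.sqrt 3 / 3 * z.im) / 2

/-- half of the cochain, as a function of the position `s` and of the coordinates `(a, b)` of the edge -/
noncomputable def half (Y s a b : ℝ) : ℝ :=
  if |a - 1| ≤ 1 / 4 ∧ |b - 1| ≤ 1 / 4 then
    -(eta (a - b) * (1 + b) * avg (ff Y) s (s + (a - 1)))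
  else if |a - 1| ≤ 1 / 4 ∧ |b + 1| ≤ 1 / 4 then
    eta (a + b) * (1 - b) * avg (ff Y) s (s + (a - 1))
  else if |a - 2| ≤ 1 / 4 ∧ |b| ≤ 1 / 4 then
    eta (2 * b) * (-b * avg (ff Y) s (s + (a - 2)) +
      1 / 2 * cl b (a - 2) * (R1 Y (s + (a - 2)) - R1 Y (Y - s)))
  else 0

noncomputable def om (Y : ℝ) (p q : ℂ) : ℝ :=
  half Y (ca p) (ca (q - p)) (cb (q - p)) - half Y (ca q) (ca (p - q)) (cb (p - q))

/-- the calibration -/
noncomputable def ww (Y : ℝ) (p q : ℂ) : ℝ := Real.sqrt 3 / 3 * om Y p q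

/-- what is proved about `Etot` (module LM) -/
def EtotOK (Y : ℝ) : Prop := ∀ s x B1 y B3 : ℝ, Window x B1 y B3 → 0 ≤ Etot Y s x B1 y B3 ∧
  (Etot Y s x B1 y B3 = 0 → tau x B1 + tau y B3 + tau2 (x + y) (B3 - B1) = 0 ∨
    (tau y B3 = 0 ∧ x + y = Y ∧ ∃ k : ℤ, s = k))

end H33Solid
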