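import Mathlib

/-!
# Shifted hexagonal circle packings: basic definitions

The plane is `ℂ`; a family of unit disks is given by the set of its centres.
-/

namespace H33Solid

open MeasureTheory

/-- The closed unit disks centred at the points of `C` have pairwise disjoint interiors. -/
def IsPacking (C : Set ℂ) : Prop := C.PairwiseDisjoint (fun c => Metric.ball c 1)

/-- Height of the first upper row of `P t`: `h_t = √(4 - (1 - t)²)`. -/
noncomputable def height (t : ℝ) : ℝ := Real.sqrt (4 - (1 - t) ^ 2)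

/-- The point of `P t` with index `(m, k)`. -/
noncomputable def pt (t : ℝ) (m k : ℤ) : ℂ :=
  if k ≤ 0 then ⟨2 * (m : ℝ) + k, (k : ℝ) * Real.sqrt 3⟩
  else ⟨2 * (m : ℝ) + k + t, height t + ((k : ℝ) - 1) * Real.sqrt 3⟩

/-- The shifted hexagonal packing `P t` (set of centres). -/
def P (t : ℝ) : Set ℂ := {z | ∃ m k : ℤ, z = pt t m k}

/-- Solidity: every rearrangement of finitely many members is congruent to the packing. -/
def Solid (C : Set ℂ) : Prop :=
  ∀ F F' : Finset ℂ, (F : Set ℂ) ⊆ C → F'.card = F.card → Disjoint (C \ F) (F' : Set ℂ) →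
    IsPacking ((C \ F) ∪ F') → ∃ e : ℂ ≃ᵢ ℂ, e '' C = (C \ F) ∪ F'

/-! ### Auxiliary notions used in the proof -/

/-- pairwise distances at least `2` -/
def Sep (C : Set ℂ) : Prop := ∀ p ∈ C, ∀ q ∈ C, p ≠ q → 2 ≤ dist p q

/-- cross product -/
def crs (u v : ℂ) : ℝ := u.re * v.im - u.im * v.re

/-- inner product -/
def ip (u v : ℂ) : ℝ := u.re * v.re + u.im * v.im

/-- area of the kite with vertices `0, u/2, circumcentre of (0,u,v), v/2` -/
noncomputable def Kf (u v : ℂ) : ℝ :=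
  (2 * ‖u‖ ^ 2 * ‖v‖ ^ 2 - (‖u‖ ^ 2 + ‖v‖ ^ 2) * ip u v) / (8 * crs u v)

/-- truncated Voronoi cell -/
def cell (C : Set ℂ) (p : ℂ) : Set ℂ := {x | dist x p ≤ 6 / 5 ∧ ∀ q ∈ C, dist x p ≤ dist x q}

/-- near neighbours -/
def nb (C : Set ℂ) (p : ℂ) : Set ℂ := {q | q ∈ C ∧ q ≠ p ∧ dist p q ≤ 201 / 100}

/-- `p` has at least (then exactly) six near neighbours -/
def Good (C : Set ℂ) (p : ℂ) : Prop := p ∈ C ∧ 6 ≤ (nb C p).encard

/-- `q, r` are consecutive near neighbours of `p` in counterclockwise order -/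
def Corner (C : Set ℂ) (p q r : ℂ) : Prop :=
  p ∈ C ∧ q ∈ nb C p ∧ r ∈ nb C p ∧ dist q r ≤ 21 / 10 ∧ 0 < crs (q - p) (r - p)

/-- the defect of a triangle with respect to the calibration `w` -/
noncomputable def Phi (w : ℂ → ℂ → ℝ) (p q r : ℂ) : ℝ :=
  crs (q - p) (r - p) / 2 - Real.sqrt 3 - (w p q + w q r + w r p)

/-- `e₂ = exp(iπ/3)`, `e₃ = exp(2iπ/3)`; `bv t` is the displacement of the upper part. -/
noncomputable def e2 : ℂ := ⟨1 / 2, Real.sqrt 3 / 2⟩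
noncomputable def e3 : ℂ := ⟨-1 / 2, Real.sqrt 3 / 2⟩
noncomputable def bv (t : ℝ) : ℂ := ⟨t, height t - Real.sqrt 3⟩

/-- position modulo the lattice: `ca p = p · e₂` -/
noncomputable def ca (p : ℂ) : ℝ := (p.re + Real.sqrt 3 * p.im) / 2

/-- What the local inequality has to provide for the given `t`. -/
structure Calibration (t : ℝ) (w : ℂ → ℂ → ℝ) : Prop where
  anti : ∀ p q, w q p = - w p q
  bound : ∀ p q, dist p q ≤ 201 / 100 → |w p q| ≤ 1 / 5000
  nonneg : ∀ p q r, 2 ≤ dist p q → dist p q ≤ 201 / 100 → 2 ≤ dist q r → dist q r ≤ 201 / 100 →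
    2 ≤ dist r p → dist r p ≤ 201 / 100 → 0 < crs (q - p) (r - p) → 0 ≤ Phi w p q r
  tight_up : ∀ p, Phi w p (p + 2) (p + 2 * e2) = 0
  tight_down : ∀ p, Phi w p (p + 2 * e2) (p + 2 * e3) = 0
  tight_fault_up : ∀ p, (∃ k : ℤ, ca p = k) → Phi w p (p + 2) (p + 2 * e2 + bv t) = 0
  tight_fault_down : ∀ p, (∃ k : ℤ, ca p = k) →
    Phi w p (p + 2 * e2 + bv t) (p + 2 * e3 + bv t) = 0
  rigid : ∀ p r, 2 ≤ dist (p + 2) r → dist (p + 2) r ≤ 201 / 100 →
    2 ≤ dist r p → dist r p ≤ 201 / 100 → 0 < crs 2 (r - p) → Phi w p (p + 2) r = 0 →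
    r = p + 2 * e2 ∨ (r = p + 2 * e2 + bv t ∧ ∃ k : ℤ, ca p = k)
  rigid' : ∀ p, (∃ k : ℤ, ca p = k) → Phi w p (p + 2 * e2 + bv t) (p + 2 * e3) ≠ 0

end H33Solid
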