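import Pool.Agent.H33.Solid.Root

namespace H33Solid

/-- the overhang term -/
noncomputable def RR (Y c c2 : ℝ) : ℝ := min (max (c2 - Y) 0) Y - min (max (-c) 0) Y

end H33Solid
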