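import Pool.Agent.H33.Solid.Root

/-! Module LS: shape functions and their bounds -/

namespace H33Solid

noncomputable def E1 (x B1 y B3 : ℝ) : ℝ := 3 / 2 * (x + y - B1 - B3 - y * B1 - x * B3)
noncomputable def q2 (x B1 y B3 : ℝ) : ℝ := x + y - (y * B1 + x * B3) / 2
noncomputable def E0 (x B1 y B3 : ℝ) : ℝ := E1 x B1 y B3 - q2 x B1 y B3
noncomputable def tau (x B : ℝ) : ℝ := 2 * x + x ^ 2 - 6 * B + 3 * B ^ 2
noncomputable def tau2 (S b : ℝ) : ℝ := 4 * S + S ^ 2 + 3 * b ^ 2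

/-- Exact identities in terms of `A = y - x - 3 b₂`, `Z = S + B₁ + B₃`. -/
theorem E1_eq (x B1 y B3 : ℝ) : E1 x B1 y B3 =
    (tau x B1 + tau y B3 + tau2 (x + y) (B3 - B1)) / 4 - (y - x - 3 * (B3 - B1)) ^ 2 / 8
      - 3 / 8 * (x + y + B1 + B3) ^ 2 := by
  unfold E1 tau tau2; ring

theorem E0_eq (x B1 y B3 : ℝ) : E0 x B1 y B3 =
    (tau x B1 + tau y B3) / 4 - (y - x - 3 * (B3 - B1)) ^ 2 / 8
      - (B3 - B1) * (y - x - 3 * (B3 - B1)) / 4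
      - 3 / 8 * (x + y + B1 + B3) ^ 2 + (x + y) * (x + y + B1 + B3) / 4 := by
  unfold E0 E1 q2 tau; ring

theorem A_rel (x B1 y B3 : ℝ) : (y - x - 3 * (B3 - B1)) * (1 + (x + y) / 2) =
    (tau y B3 - tau x B1) / 2 - 3 / 2 * (B3 - B1) * (x + y + B1 + B3) := by
  unfold tau; ring

theorem Z_rel (x B1 y B3 : ℝ) : (x + y + B1 + B3) * (6 + 3 * (x + y) - 3 / 2 * (x + y + B1 + B3)) =
    2 * tau2 (x + y) (B3 - B1) - tau x B1 - tau y B3 + (y - x - 3 * (B3 - B1)) ^ 2 / 2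
      + 3 * (y - x - 3 * (B3 - B1)) * (B3 - B1) := by
  unfold tau tau2; ring

/-- Heron's formula -/
theorem heron (x B1 y B3 : ℝ) : 48 * (E1 x B1 y B3 / 3 + 1) ^ 2 = 48
    + 8 * (tau x B1 + tau y B3 + tau2 (x + y) (B3 - B1))
    + (tau x B1 + tau y B3 + tau2 (x + y) (B3 - B1)) ^ 2
    - 2 * (tau x B1 ^ 2 + tau y B3 ^ 2 + tau2 (x + y) (B3 - B1) ^ 2) := by
  unfold E1 tau tau2; ring


/-- all bounds for shapes in the window -/
structure Window (x B1 y B3 : ℝ) : Prop where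
  hx : |x| ≤ 1 / 4
  hB1 : |B1| ≤ 1 / 4
  hy : |y| ≤ 1 / 4
  hB3 : |B3| ≤ 1 / 4
  hS : |x + y| ≤ 1 / 4
  hb : |B3 - B1| ≤ 1 / 4
  t1 : 0 ≤ tau x B1
  t1' : tau x B1 ≤ 401 / 10000
  t3 : 0 ≤ tau y B3
  t3' : tau y B3 ≤ 401 / 10000
  t2 : 0 ≤ tau2 (x + y) (B3 - B1)
  t2' : tau2 (x + y) (B3 - B1) ≤ 401 / 10000

variable {x B1 y B3 : ℝ}

theorem heron_aux {a t1 t2 t3 : ℝ} (hpos : 0 < a + 1) (h1 : 0 ≤ t1) (h1' : t1 ≤ 401 / 10000)
    (h2 : 0 ≤ t2) (h2' : t2 ≤ 401 / 10000) (h3 : 0 ≤ t3) (h3' : t3 ≤ 401 / 10000)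
    (hH : 48 * (a + 1) ^ 2 = 48 + 8 * (t1 + t3 + t2) + (t1 + t3 + t2) ^ 2
      - 2 * (t1 ^ 2 + t3 ^ 2 + t2 ^ 2)) : 0 ≤ a := by
  have s1 : t1 ^ 2 ≤ 401 / 10000 * t1 := by nlinarith
  have s2 : t2 ^ 2 ≤ 401 / 10000 * t2 := by nlinarith
  have s3 : t3 ^ 2 ≤ 401 / 10000 * t3 := by nlinarith
  have s4 := sq_nonneg (t1 + t3 + t2)
  have hge : (48:ℝ) ≤ 48 * (a + 1) ^ 2 := by linarith
  by_contra hcon
  push Not at hcon
  nlinarith

theorem Window.E1_nonneg (h : Window x B1 y B3) : 0 ≤ E1 x B1 y B3 := by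
  have hH := heron x B1 y B3
  have hpos : 0 < E1 x B1 y B3 / 3 + 1 := by
    obtain ⟨hx1, hx2⟩ := abs_le.mp h.hx
    obtain ⟨hB11, hB12⟩ := abs_le.mp h.hB1
    obtain ⟨hy1, hy2⟩ := abs_le.mp h.hy
    obtain ⟨hB31, hB32⟩ := abs_le.mp h.hB3
    obtain ⟨hS1, hS2⟩ := abs_le.mp h.hS
    have e1 : |y * B1| ≤ 1 / 16 := by
      rw [abs_mul]; nlinarith [abs_nonneg y, abs_nonneg B1, h.hy, h.hB1]
    have e2 : |x * B3| ≤ 1 / 16 := by
      rw [abs_mul]; nlinarith [abs_nonneg x, abs_nonneg B3, h.hx, h.hB3]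
    have := (abs_le.mp e1).2
    have := (abs_le.mp e2).2
    unfold E1
    linarith
  have := heron_aux hpos h.t1 h.t1' h.t2 h.t2' h.t3 h.t3' hH
  linarith

theorem AZ_aux {a t1 t2 t3 W : ℝ} (h0 : 0 ≤ a) (h1 : 0 ≤ t1) (h1' : t1 ≤ 401 / 10000)
    (h2 : 0 ≤ t2) (h2' : t2 ≤ 401 / 10000) (h3 : 0 ≤ t3) (h3' : t3 ≤ 401 / 10000) (hW : 0 ≤ W)
    (hE : a = (t1 + t3 + t2) / 4 - W / 8)
    (hH : 48 * (a / 3 + 1) ^ 2 = 48 + 8 * (t1 + t3 + t2) + (t1 + t3 + t2) ^ 2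
      - 2 * (t1 ^ 2 + t3 ^ 2 + t2 ^ 2)) : W ≤ 401 / 20000 * (t1 + t3 + t2) := by
  have s1 : t1 ^ 2 ≤ 401 / 10000 * t1 := by nlinarith
  have s2 : t2 ^ 2 ≤ 401 / 10000 * t2 := by nlinarith
  have s3 : t3 ^ 2 ≤ 401 / 10000 * t3 := by nlinarith
  have ha : a ≤ (t1 + t3 + t2) / 4 := by linarith
  have ha2 : a ^ 2 ≤ ((t1 + t3 + t2) / 4) ^ 2 := pow_le_pow_left₀ h0 ha 2
  have e : 48 * (a / 3 + 1) ^ 2 = 16 / 3 * a ^ 2 + 32 * a + 48 := by ring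
  have e2 : ((t1 + t3 + t2) / 4) ^ 2 = (t1 + t3 + t2) ^ 2 / 16 := by ring
  have := sq_nonneg (t1 + t3 + t2)
  linarith

/-- `A² + 3 Z² ≤ 0.02005 T` -/
theorem Window.AZ (h : Window x B1 y B3) :
    (y - x - 3 * (B3 - B1)) ^ 2 + 3 * (x + y + B1 + B3) ^ 2 ≤
      401 / 20000 * (tau x B1 + tau y B3 + tau2 (x + y) (B3 - B1)) := by
  refine AZ_aux h.E1_nonneg h.t1 h.t1' h.t2 h.t2' h.t3 h.t3' (by positivity) ?_
    (heron x B1 y B3)
  rw [E1_eq]; ring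

theorem Window.E1_ge (h : Window x B1 y B3) :
    24 / 100 * (tau x B1 + tau y B3 + tau2 (x + y) (B3 - B1)) ≤ E1 x B1 y B3 := by
  have := h.AZ
  rw [E1_eq]
  have h1 := h.t1; have h3 := h.t3; have h2 := h.t2
  linarith

theorem Window.absA (h : Window x B1 y B3) : |y - x - 3 * (B3 - B1)| ≤ 1 / 20 := by
  have := h.AZ
  apply abs_le_of_sq_le_sq _ (by norm_num)
  have h1' := h.t1'; have h3' := h.t3'; have h2' := h.t2'
  nlinarith [sq_nonneg (x + y + B1 + B3)]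

theorem Window.absZ (h : Window x B1 y B3) : |x + y + B1 + B3| ≤ 3 / 100 := by
  have := h.AZ
  apply abs_le_of_sq_le_sq _ (by norm_num)
  have h1' := h.t1'; have h3' := h.t3'; have h2' := h.t2'
  nlinarith [sq_nonneg (y - x - 3 * (B3 - B1))]

/-- basic linear relations, in absolute values -/
theorem Window.rel (h : Window x B1 y B3) {bb ss : ℝ} (hbb : |B3 - B1| ≤ bb) (hss : |x + y| ≤ ss)
    (hss' : ss ≤ 1 / 4) :
    |y - x - 3 * (B3 - B1)| * (1 - ss / 2) ≤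
      (tau x B1 + tau y B3) / 2 + 3 / 2 * bb * |x + y + B1 + B3| ∧
    |x + y + B1 + B3| * (6 - 3 * ss - 45 / 1000) ≤
      2 * tau2 (x + y) (B3 - B1) + (tau x B1 + tau y B3)
        + |y - x - 3 * (B3 - B1)| * (25 / 1000 + 3 * bb) := by
  have hA := h.absA
  have hZ := h.absZ
  have rA := A_rel x B1 y B3
  have rZ := Z_rel x B1 y B3
  have h1 := h.t1; have h3 := h.t3; have h2 := h.t2
  set A := y - x - 3 * (B3 - B1)
  set Z := x + y + B1 + B3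
  set b := B3 - B1
  set S := x + y
  set t1 := tau x B1
  set t3 := tau y B3
  set t2 := tau2 S b
  have hS1 : 1 - ss / 2 ≤ 1 + S / 2 := by have := (abs_le.mp hss).1; linarith
  have hS2 : 6 - 3 * ss - 45 / 1000 ≤ 6 + 3 * S - 3 / 2 * Z := by
    have := (abs_le.mp hss).1
    have := (abs_le.mp hZ).2
    linarith
  have hA0 := abs_nonneg A
  have hZ0 := abs_nonneg Z
  constructor
  · calc |A| * (1 - ss / 2) ≤ |A| * (1 + S / 2) := mul_le_mul_of_nonneg_left hS1 hA0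
      _ = |A * (1 + S / 2)| := by
        rw [abs_mul, abs_of_nonneg (show 0 ≤ 1 + S / 2 by linarith)]
      _ = |(t3 - t1) / 2 - 3 / 2 * b * Z| := by rw [rA]
      _ ≤ |(t3 - t1) / 2| + |3 / 2 * b * Z| := abs_sub _ _
      _ ≤ (t1 + t3) / 2 + 3 / 2 * bb * |Z| := by
        apply add_le_add
        · rw [abs_le]; constructor <;> linarith
        · rw [abs_mul, abs_mul, abs_of_pos (show (0:ℝ) < 3 / 2 by norm_num)]
          apply mul_le_mul_of_nonneg_right _ hZ0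
          linarith
  · calc |Z| * (6 - 3 * ss - 45 / 1000) ≤ |Z| * (6 + 3 * S - 3 / 2 * Z) :=
          mul_le_mul_of_nonneg_left hS2 hZ0
      _ = |Z * (6 + 3 * S - 3 / 2 * Z)| := by
        rw [abs_mul, abs_of_nonneg (show 0 ≤ 6 + 3 * S - 3 / 2 * Z by linarith)]
      _ = |(2 * t2 - t1 - t3) + A * (A / 2 + 3 * b)| := by rw [rZ]; congr 1; ring
      _ ≤ |2 * t2 - t1 - t3| + |A * (A / 2 + 3 * b)| := abs_add_le _ _
      _ ≤ (2 * t2 + (t1 + t3)) + |A| * (25 / 1000 + 3 * bb) := by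
        apply add_le_add
        · rw [abs_le]; constructor <;> linarith
        · rw [abs_mul]
          apply mul_le_mul_of_nonneg_left _ hA0
          rw [abs_le]
          obtain ⟨a1, a2⟩ := abs_le.mp hA
          obtain ⟨b1, b2⟩ := abs_le.mp hbb
          constructor <;> linarith
      _ = _ := by ring

theorem Window.linA (h : Window x B1 y B3) : |y - x - 3 * (B3 - B1)| ≤
    8 / 10 * (tau x B1 + tau y B3 + tau2 (x + y) (B3 - B1)) ∧ |x + y + B1 + B3| ≤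
    55 / 100 * (tau x B1 + tau y B3 + tau2 (x + y) (B3 - B1)) := by
  obtain ⟨r1, r2⟩ := h.rel h.hb h.hS le_rfl
  have h1 := h.t1; have h3 := h.t3; have h2 := h.t2
  constructor <;> nlinarith

theorem Window.E0_close (h : Window x B1 y B3) : |E0 x B1 y B3 - (tau x B1 + tau y B3) / 4| ≤
    (tau x B1 + tau y B3 + tau2 (x + y) (B3 - B1)) / 10 := by
  obtain ⟨l1, l2⟩ := h.linA
  have hA := h.absA
  have hZ := h.absZ
  rw [E0_eq]
  have hb := h.hb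
  have hS := h.hS
  set A := y - x - 3 * (B3 - B1)
  set Z := x + y + B1 + B3
  set b := B3 - B1
  set S := x + y
  set T := tau x B1 + tau y B3 + tau2 S b
  have hA0 := abs_nonneg A
  have hZ0 := abs_nonneg Z
  have e1 : |A ^ 2| ≤ 1 / 20 * |A| := by rw [abs_pow]; nlinarith
  have e2 : |b * A| ≤ 1 / 4 * |A| := by
    rw [abs_mul]; exact mul_le_mul_of_nonneg_right hb hA0
  have e3 : |Z ^ 2| ≤ 3 / 100 * |Z| := by rw [abs_pow]; nlinarith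
  have e4 : |S * Z| ≤ 1 / 4 * |Z| := by
    rw [abs_mul]; exact mul_le_mul_of_nonneg_right hS hZ0
  obtain ⟨p1, p2⟩ := abs_le.mp e1
  obtain ⟨p3, p4⟩ := abs_le.mp e2
  obtain ⟨p5, p6⟩ := abs_le.mp e3
  obtain ⟨p7, p8⟩ := abs_le.mp e4
  rw [abs_le]
  constructor <;> linarith

end H33Solid
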