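import Pool.Agent.H33.Solid.Avg
import Pool.Agent.H33.Solid.Shape
import Pool.Agent.H33.Solid.RR

/-! Module LE: the total energy of a triangle -/

namespace H33Solid

/-- cutoff in the rotation -/
noncomputable def eta (θ : ℝ) : ℝ := max 0 (min 1 (2 - 50 * |θ|))

/-- clamp `3 b` to `[-S⁺, S⁺]` -/
noncomputable def cl (b S : ℝ) : ℝ := max (-(max S 0)) (min (max S 0) (3 * b))

/-- periodic overhang function -/
noncomputable def R1 (Y v : ℝ) : ℝ :=
  if Int.fract v < 1 / 2 then min (max (Int.fract v - Y) 0) Y else 0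

noncomputable def Etot (Y s x B1 y B3 : ℝ) : ℝ :=
  E1 x B1 y B3 + eta (x + B1) * (2 - B1) * avg (ff Y) s (s + x)
    - eta (y + B3) * (2 - B3) * avg (ff Y) (s + x) (s + (x + y))
    + eta (2 * (B3 - B1)) * (-(B3 - B1) * avg (ff Y) s (s + (x + y))
      + 1 / 2 * cl (B3 - B1) (x + y) * (R1 Y (s + (x + y)) - R1 Y (Y - s)))

theorem eta_nonneg (θ : ℝ) : 0 ≤ eta θ := le_max_left _ _

theorem eta_le_one (θ : ℝ) : eta θ ≤ 1 := max_le (by norm_num) (min_le_left _ _)

theorem eta_one {θ : ℝ} (h : |θ| ≤ 1 / 50) : eta θ = 1 := by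
  unfold eta
  rw [min_eq_left (by linarith), max_eq_right (by norm_num)]

theorem eta_neg (θ : ℝ) : eta (-θ) = eta θ := by unfold eta; rw [abs_neg]

theorem eta_ne_zero {θ : ℝ} (h : eta θ ≠ 0) : |θ| < 1 / 25 := by
  by_contra hcon
  push Not at hcon
  apply h
  unfold eta
  rw [max_eq_left]
  exact (min_le_right _ _).trans (by linarith)

theorem eta_lip (θ θ' : ℝ) : |eta θ - eta θ'| ≤ 50 * |θ - θ'| := by
  unfold eta
  have h1 : |max 0 (min 1 (2 - 50 * |θ|)) - max 0 (min 1 (2 - 50 * |θ'|))| ≤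
      |min 1 (2 - 50 * |θ|) - min 1 (2 - 50 * |θ'|)| := by
    have := abs_max_sub_max_le_abs (min 1 (2 - 50 * |θ|)) (min 1 (2 - 50 * |θ'|)) 0
    rwa [max_comm, max_comm (min 1 (2 - 50 * |θ'|))] at this
  have h2 : |min 1 (2 - 50 * |θ|) - min 1 (2 - 50 * |θ'|)| ≤
      |(2 - 50 * |θ|) - (2 - 50 * |θ'|)| := by
    have := abs_min_sub_min_le_max 1 (2 - 50 * |θ|) 1 (2 - 50 * |θ'|)
    simpa using this
  have h3 : |(2 - 50 * |θ|) - (2 - 50 * |θ'|)| = 50 * abs (abs θ - abs θ') := by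
    rw [show (2 - 50 * |θ|) - (2 - 50 * |θ'|) = -(50 * (|θ| - |θ'|)) by ring, abs_neg, abs_mul]
    norm_num
  have h4 := abs_abs_sub_abs_le_abs_sub θ θ'
  linarith

theorem cl_neg (b S : ℝ) : cl (-b) S = - cl b S := by
  unfold cl
  have hS : 0 ≤ max S 0 := le_max_right _ _
  set M := max S 0
  rw [show 3 * -b = -(3 * b) by ring]
  rcases le_total (3 * b) (-M) with h | h
  · rw [min_eq_left (by linarith), min_eq_right (by linarith), max_eq_right (by linarith),
      max_eq_left (by linarith)]; ring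
  · rcases le_total (3 * b) M with h' | h'
    · rw [min_eq_right (by linarith), min_eq_right (by linarith), max_eq_right (by linarith),
        max_eq_right (by linarith)]
    · rw [min_eq_right (by linarith), min_eq_left (by linarith), max_eq_left (by linarith),
        max_eq_right (by linarith)]

theorem cl_abs (b S : ℝ) : |cl b S| ≤ max S 0 := by
  have hS : 0 ≤ max S 0 := le_max_right _ _
  unfold cl
  rw [abs_le]
  exact ⟨le_max_left _ _, max_le (by linarith) (min_le_left _ _)⟩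

theorem cl_nonpos {b S : ℝ} (h : S ≤ 0) : cl b S = 0 := by
  have := cl_abs b S
  rw [max_eq_right h] at this
  exact abs_nonpos_iff.mp this

theorem cl_lip (b b' S : ℝ) : |cl b S - cl b' S| ≤ 3 * |b - b'| := by
  unfold cl
  set M := max S 0
  have h1 : |max (-M) (min M (3 * b)) - max (-M) (min M (3 * b'))| ≤
      |min M (3 * b) - min M (3 * b')| := by
    have := abs_max_sub_max_le_abs (min M (3 * b)) (min M (3 * b')) (-M)
    rwa [max_comm, max_comm (min M (3 * b'))] at this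
  have h2 : |min M (3 * b) - min M (3 * b')| ≤ |3 * b - 3 * b'| := by
    have := abs_min_sub_min_le_max M (3 * b) M (3 * b')
    simpa using this
  have h3 : |3 * b - 3 * b'| = 3 * |b - b'| := by
    rw [← mul_sub, abs_mul]; norm_num
  linarith

theorem cl_ge {b S v : ℝ} (hS : 0 ≤ S) (h1 : v ≤ 3 * b) (h2 : v ≤ S) : v ≤ cl b S := by
  unfold cl
  rw [max_eq_left hS]
  exact le_max_of_le_right (le_min h2 h1)

theorem cl_le {b S : ℝ} (hS : 0 ≤ S) : cl b S ≤ S := by
  have := (abs_le.mp (cl_abs b S)).2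
  rwa [max_eq_left hS] at this

theorem R1_nonneg {Y : ℝ} (hY : 0 ≤ Y) (v : ℝ) : 0 ≤ R1 Y v := by
  unfold R1
  split_ifs
  · exact le_min (le_max_right _ _) hY
  · exact le_rfl

theorem R1_le {Y : ℝ} (hY : 0 ≤ Y) (v : ℝ) : R1 Y v ≤ Y := by
  unfold R1
  split_ifs
  · exact min_le_right _ _
  · exact hY

theorem R1_window {Y v : ℝ} (hY : 0 ≤ Y) (h1 : -(1 / 2) ≤ v) (h2 : v < 1 / 2) :
    R1 Y v = min (max (v - Y) 0) Y := by
  unfold R1
  rcases le_or_gt 0 v with h | h
  · have : Int.fract v = v := Int.fract_eq_self.mpr ⟨h, by linarith⟩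
    rw [this, if_pos h2]
  · have : Int.fract v = v + 1 := by
      rw [← Int.fract_add_one]
      exact Int.fract_eq_self.mpr ⟨by linarith, by linarith⟩
    rw [this, if_neg (by linarith), max_eq_right (by linarith), min_eq_left hY]

theorem R1_add_int {Y v : ℝ} (k : ℤ) : R1 Y (v + k) = R1 Y v := by
  unfold R1; rw [Int.fract_add_intCast]

theorem RR_abs {Y : ℝ} (hY : 0 ≤ Y) (c c2 : ℝ) : |RR Y c c2| ≤ Y := by
  unfold RR
  have h1 : 0 ≤ min (max (c2 - Y) 0) Y := le_min (le_max_right _ _) hY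
  have h2 : min (max (c2 - Y) 0) Y ≤ Y := min_le_right _ _
  have h3 : 0 ≤ min (max (-c) 0) Y := le_min (le_max_right _ _) hY
  have h4 : min (max (-c) 0) Y ≤ Y := min_le_right _ _
  rw [abs_le]; constructor <;> linarith

theorem Etot_shift {Y s x B1 y B3 : ℝ} (k : ℤ) (hf : ∀ u, ff Y (u + k) = ff Y u) :
    Etot Y (s + k) x B1 y B3 = Etot Y s x B1 y B3 := by
  unfold Etot
  rw [show s + k + x = (s + x) + k by ring, show s + k + (x + y) = (s + (x + y)) + k by ring,
    avg_shift hf, avg_shift hf, avg_shift hf, R1_add_int]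
  have : R1 Y (Y - (s + k)) = R1 Y (Y - s) := by
    rw [show Y - s = (Y - (s + k)) + (k : ℤ) by ring]
    rw [R1_add_int]
  rw [this]

end H33Solid
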