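import Pool.Agent.H33.Solid.RR

/-! Module LH, first inequality -/

namespace H33Solid

/-- AM-GM for an overhang -/
theorem overhang {z w g e κ K : ℝ} (hz : 0 ≤ z) (hw : 0 ≤ w) (hg : 0 ≤ g) (he : 0 ≤ e)
    (hκ : 0 ≤ κ) (h1 : z ≤ e → 1.4 * e ≤ g) (h2 : e ≤ z → 1.4 * e ^ 2 ≤ g * z)
    (hK : K ≤ 1.4) (hKK : K ^ 2 ≤ 5.6 * κ * w) : K * e ≤ κ * (z * w) + g := by
  rcases le_total z e with h | h
  · have h3 := h1 h
    have h4 : K * e ≤ 1.4 * e := mul_le_mul_of_nonneg_right hK he
    have h5 : 0 ≤ κ * (z * w) := by positivity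
    linarith
  · have h3 := h2 h
    have h4 : 0 ≤ κ * (z * w) + g := by positivity
    have h5 : (K * e) ^ 2 ≤ (κ * (z * w) + g) ^ 2 := by
      have h6 : (K * e) ^ 2 ≤ 5.6 * κ * w * e ^ 2 := by
        rw [mul_pow]
        exact mul_le_mul_of_nonneg_right hKK (sq_nonneg e)
      have h7 : κ * w * (1.4 * e ^ 2) ≤ κ * w * (g * z) :=
        mul_le_mul_of_nonneg_left h3 (by positivity)
      nlinarith [sq_nonneg (κ * (z * w) - g)]
    exact abs_le_of_sq_le_sq' h5 h4 |>.2

/-- the polynomial heart of `hard_T1` -/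
theorem hard_T1_star {Y : ℝ} (hY0 : 0 < Y) (hY : Y ≤ 1 / 10 ^ 6) {a e x y S g1 g2 b : ℝ}
    (hx : 0 ≤ x) (hxy : x ≤ y) (hSdef : S = x + y) (hS0 : 0 < S) (hS : S ≤ 4 * Y) (ha : a ≤ Y)
    (he : e ≤ Y) (hsum : a + e + S = Y) (hg1 : 0 ≤ g1) (hg2 : 0 ≤ g2)
    (h1 : a < 0 → x ≤ -a → 1.4 * (-a) ≤ g1)
    (h1' : a < 0 → -a ≤ x → 1.4 * (-a) ^ 2 ≤ g1 * x)
    (h2 : e < 0 → y ≤ -e → 1.4 * (-e) ≤ g2)
    (h2' : e < 0 → -e ≤ y → 1.4 * (-e) ^ 2 ≤ g2 * y)
    (hb0 : y - x ≤ b * S) (hb1 : b ≤ 1) :
    x * y / 2 + Y / 100 * (|a| + |e|) ≤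
      x * y + a * (Y + S + 2 * y) + e * (Y + S + 2 * x) + 6 * a * e + (g1 + g2)
        - 4 * Y * S * max (S - Y) 0
        + 3 * Y * b * (min (max (-e) 0) Y - min (max (-a) 0) Y) := by
  have hy0 : 0 ≤ y := by linarith
  have hbn : 0 ≤ b := by
    by_contra hcon
    push Not at hcon
    have : b * S < 0 := mul_neg_of_neg_of_pos hcon hS0
    linarith
  have hYb : 0 ≤ 3 * Y * b := by positivity
  have hYb' : 3 * Y * b ≤ 3 * Y := by
    have := mul_le_mul_of_nonneg_left hb1 (by positivity : 0 ≤ 3 * Y)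
    linarith
  have hYY : Y * Y ≤ Y / 10 ^ 6 := by
    have := mul_le_mul_of_nonneg_left hY hY0.le
    linarith
  have h2x : 2 * x ≤ S := by linarith
  have hyS : y ≤ S := by linarith
  have hxy0 : 0 ≤ x * y := mul_nonneg hx hy0
  have hYS : 0 ≤ Y * S := by positivity
  have hYSle : Y * S ≤ 4 * Y * Y := by
    have := mul_le_mul_of_nonneg_left hS hY0.le
    linarith
  rcases le_or_gt 0 a with ha0 | ha0
  · rcases le_or_gt 0 e with he0 | he0
    · -- no overhang
      have hm : max (S - Y) 0 = 0 := max_eq_right (by linarith)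
      have hm1 : max (-e) 0 = 0 := max_eq_right (by linarith)
      have hm2 : max (-a) 0 = 0 := max_eq_right (by linarith)
      rw [hm, hm1, hm2, abs_of_nonneg ha0, abs_of_nonneg he0]
      have k1 : 0 ≤ a * e := mul_nonneg ha0 he0
      have k2 : a * Y ≤ a * (Y + S + 2 * y) := mul_le_mul_of_nonneg_left (by linarith) ha0
      have k3 : e * Y ≤ e * (Y + S + 2 * x) := mul_le_mul_of_nonneg_left (by linarith) he0
      have k4 : 0 ≤ a * Y := by positivity
      have k5 : 0 ≤ e * Y := by positivity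
      linarith
    · -- right overhang only
      have hm : max (S - Y) 0 ≤ -e := max_le (by linarith) (by linarith)
      have hm1 : max (-e) 0 = -e := max_eq_left (by linarith)
      have hm2 : max (-a) 0 = 0 := max_eq_right (by linarith)
      have hm3 : min (0 : ℝ) Y = 0 := min_eq_left hY0.le
      rw [hm1, hm2, hm3, abs_of_nonneg ha0, abs_of_neg he0, sub_zero]
      have h2e := h2 he0
      have h2e' := h2' he0
      obtain ⟨d, rfl⟩ : ∃ d, e = -d := ⟨-e, by ring⟩
      simp only [neg_neg] at *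
      have hd : 0 < d := by linarith
      have hmin0 : 0 ≤ min d Y := le_min hd.le hY0.le
      have hR0 : 0 ≤ 3 * Y * b * min d Y := mul_nonneg hYb hmin0
      have k1 : 4 * Y * S * max (S - Y) 0 ≤ 4 * Y * S * d :=
        mul_le_mul_of_nonneg_left hm (by positivity)
      have k2 : Y * S * d ≤ 4 * Y * Y * d := mul_le_mul_of_nonneg_right hYSle hd.le
      have k3 : 4 * Y * Y * d ≤ Y * d / 1000 := by
        have : 4 * Y * Y ≤ Y / 1000 := by linarith
        have := mul_le_mul_of_nonneg_right this hd.le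
        linarith
      have hYd : 0 < Y * d := by positivity
      have hYa : 0 ≤ Y * a := by positivity
      -- everything except e-losses
      have k4 : a * Y ≤ a * (Y + S + 2 * y) := mul_le_mul_of_nonneg_left (by linarith) ha0
      rcases le_or_gt y d with hyd | hyd
      · have g := h2e hyd
        have k5 : a * d ≤ Y * d := mul_le_mul_of_nonneg_right ha hd.le
        have k6 : d * (Y + S + 2 * x) ≤ d * (9 * Y) :=
          mul_le_mul_of_nonneg_left (by linarith) hd.le
        have k7 : Y * d ≤ d / 10 ^ 6 := by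
          have := mul_le_mul_of_nonneg_right hY hd.le
          linarith
        linarith
      · have g := h2e' hyd.le
        rcases le_or_gt (Y / 100) d with hd1 | hd1
        · have k5 : a * d ≤ Y * d := mul_le_mul_of_nonneg_right ha hd.le
          have k6 : d * (Y + S + 2 * x) ≤ d * (9 * Y) :=
            mul_le_mul_of_nonneg_left (by linarith) hd.le
          have k7 : Y * d ≤ d / 10 ^ 6 := by
            have := mul_le_mul_of_nonneg_right hY hd.le
            linarith
          have k8 : 0.0035 * d ≤ g2 := by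
            have l1 : 1.4 * d ^ 2 ≤ g2 * (4 * Y) :=
              g.trans (mul_le_mul_of_nonneg_left (by linarith) hg2)
            have l2 : 1.4 * d * (Y / 100) ≤ 1.4 * d * d :=
              mul_le_mul_of_nonneg_left hd1 (by positivity)
            have l3 : (0.0035 * d) * (4 * Y) ≤ g2 * (4 * Y) := by linarith
            exact le_of_mul_le_mul_right l3 (by positivity)
          linarith
        · rcases le_or_gt (Y / 10) a with ha1 | ha1
          · have hSY : S ≤ Y := by linarith
            have k5 : d * (Y + S + 2 * x) ≤ d * (3 * Y) :=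
              mul_le_mul_of_nonneg_left (by linarith) hd.le
            have k6 : a * d ≤ a * (Y / 100) := mul_le_mul_of_nonneg_left hd1.le ha0
            have k7 : d * Y ≤ Y / 100 * Y := mul_le_mul_of_nonneg_right hd1.le hY0.le
            have k8 : Y / 10 * Y ≤ a * Y := mul_le_mul_of_nonneg_right ha1 hY0.le
            linarith
          · have hS1 : 9 / 10 * Y ≤ S := by linarith
            have hS2 : S ≤ 101 / 100 * Y := by linarith
            have k6 : a * d ≤ a * (Y / 100) := mul_le_mul_of_nonneg_left hd1.le ha0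
            rcases le_or_gt x (Y / 20) with hx1 | hx1
            · have hbig : 8 / 9 ≤ b := by
                have l1 : 8 / 9 * S ≤ b * S := by linarith
                exact le_of_mul_le_mul_right l1 hS0
              have hmin : min d Y = d := min_eq_left (by linarith)
              rw [hmin]
              have k7 : 3 * Y * (8 / 9) * d ≤ 3 * Y * b * d := by
                refine mul_le_mul_of_nonneg_right ?_ hd.le
                exact mul_le_mul_of_nonneg_left hbig (by positivity)
              have k8 : d * (Y + S + 2 * x) ≤ d * (2.12 * Y) :=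
                mul_le_mul_of_nonneg_left (by linarith) hd.le
              linarith
            · have hov : 16 * Y * d ≤ 1 / 2 * (y * x) + g2 := by
                refine overhang hy0 hx hg2 hd.le (by norm_num) h2e h2e' ?_ ?_
                · linarith
                · linarith
              have k8 : d * (Y + S + 2 * x) ≤ d * (9 * Y) :=
                mul_le_mul_of_nonneg_left (by linarith) hd.le
              linarith
  · -- left overhang
    have h1a := h1 ha0
    have h1a' := h1' ha0
    obtain ⟨f, rfl⟩ : ∃ f, a = -f := ⟨-a, by ring⟩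
    simp only [neg_neg] at *
    have hf : 0 < f := by linarith
    have hYf : 0 < Y * f := by positivity
    have hmf : max f 0 = f := max_eq_left hf.le
    rw [hmf, abs_of_neg ha0]
    simp only [neg_neg]
    have hminf : min f Y ≤ f := min_le_left _ _
    have kf3 : 4 * Y * Y * f ≤ Y * f / 1000 := by
      have : 4 * Y * Y ≤ Y / 1000 := by linarith
      have := mul_le_mul_of_nonneg_right this hf.le
      linarith
    have kf2 : Y * S * f ≤ 4 * Y * Y * f := mul_le_mul_of_nonneg_right hYSle hf.le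
    have kf4 : f * (Y + S + 2 * y) ≤ f * (13 * Y) :=
      mul_le_mul_of_nonneg_left (by linarith) hf.le
    have kf5 : 3 * Y * b * min f Y ≤ 3 * Y * f := by
      calc 3 * Y * b * min f Y ≤ 3 * Y * b * f := mul_le_mul_of_nonneg_left hminf hYb
        _ ≤ 3 * Y * f := mul_le_mul_of_nonneg_right hYb' hf.le
    have hYf6 : Y * f ≤ f / 10 ^ 6 := by
      have := mul_le_mul_of_nonneg_right hY hf.le
      linarith
    rcases le_or_gt 0 e with he0 | he0
    · have hm1 : max (-e) 0 = 0 := max_eq_right (by linarith)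
      have hm : max (S - Y) 0 ≤ f := max_le (by linarith) hf.le
      have hm3 : min (0 : ℝ) Y = 0 := min_eq_left hY0.le
      rw [hm1, hm3, abs_of_nonneg he0, zero_sub]
      have k1 : 4 * Y * S * max (S - Y) 0 ≤ 4 * Y * S * f :=
        mul_le_mul_of_nonneg_left hm (by positivity)
      have k2 : f * e ≤ f * Y := mul_le_mul_of_nonneg_left he hf.le
      have k3 : e * Y ≤ e * (Y + S + 2 * x) := mul_le_mul_of_nonneg_left (by linarith) he0
      have hYe : 0 ≤ Y * e := by positivity
      rcases le_or_gt ((22.1 * Y) ^ 2) (2.8 * y) with hy1 | hy1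
      · have hov : 22.1 * Y * f ≤ 1 / 2 * (x * y) + g1 := by
          refine overhang hx hy0 hg1 hf.le (by norm_num) h1a h1a' ?_ ?_
          · linarith
          · linarith
        linarith
      · rcases le_or_gt x f with hxf | hxf
        · have g := h1a hxf
          linarith
        · have hy2 : y ≤ 175 * Y ^ 2 := by linarith
          have hy3 : 175 * Y ^ 2 ≤ Y / 1000 := by linarith
          have he1 : Y / 2 ≤ e := by linarith
          have k4 : Y / 2 * Y ≤ e * Y := mul_le_mul_of_nonneg_right he1 hY0.le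
          have k5 : Y * f ≤ Y * (Y / 1000) := mul_le_mul_of_nonneg_left (by linarith) hY0.le
          linarith
    · -- both
      have h2e := h2 he0
      have h2e' := h2' he0
      obtain ⟨d, rfl⟩ : ∃ d, e = -d := ⟨-e, by ring⟩
      simp only [neg_neg] at *
      have hd : 0 < d := by linarith
      have hmd : max d 0 = d := max_eq_left hd.le
      have hm : max (S - Y) 0 = f + d := by
        rw [max_eq_left (by linarith)]; linarith
      rw [hmd, hm, abs_of_neg he0]
      simp only [neg_neg]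
      have hYd : 0 < Y * d := by positivity
      have hfd : 0 < f * d := by positivity
      have hmin0 : 0 ≤ min d Y := le_min hd.le hY0.le
      have hR0 : 0 ≤ 3 * Y * b * min d Y := mul_nonneg hYb hmin0
      have hSY : Y ≤ S := by linarith
      have hyY : Y / 2 ≤ y := by linarith
      have kd2 : Y * S * d ≤ 4 * Y * Y * d := mul_le_mul_of_nonneg_right hYSle hd.le
      have kd3 : 4 * Y * Y * d ≤ Y * d / 1000 := by
        have : 4 * Y * Y ≤ Y / 1000 := by linarith
        have := mul_le_mul_of_nonneg_right this hd.le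
        linarith
      have kd4 : d * (Y + S + 2 * x) ≤ d * (9 * Y) :=
        mul_le_mul_of_nonneg_left (by linarith) hd.le
      have kd6 : Y * d ≤ d / 10 ^ 6 := by
        have := mul_le_mul_of_nonneg_right hY hd.le
        linarith
      have hovf : 16.2 * Y * f ≤ 1 / 4 * (x * y) + g1 := by
        refine overhang hx hy0 hg1 hf.le (by norm_num) h1a h1a' ?_ ?_
        · linarith
        · linarith
      rcases le_or_gt y d with hyd | hyd
      · have g := h2e hyd
        linarith
      · have g := h2e' hyd.le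
        rcases le_or_gt (Y / 100) d with hd1 | hd1
        · have k8 : 0.0035 * d ≤ g2 := by
            have l1 : 1.4 * d ^ 2 ≤ g2 * (4 * Y) :=
              g.trans (mul_le_mul_of_nonneg_left (by linarith) hg2)
            have l2 : 1.4 * d * (Y / 100) ≤ 1.4 * d * d :=
              mul_le_mul_of_nonneg_left hd1 (by positivity)
            have l3 : (0.0035 * d) * (4 * Y) ≤ g2 * (4 * Y) := by linarith
            exact le_of_mul_le_mul_right l3 (by positivity)
          linarith
        · rcases le_or_gt (Y / 10) f with hf1 | hf1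
          · have k8 : 0.07 * f ≤ g1 := by
              rcases le_or_gt x f with hxf | hxf
              · have := h1a hxf
                linarith
              · have l0 := h1a' hxf.le
                have l1 : 1.4 * f ^ 2 ≤ g1 * (2 * Y) :=
                  l0.trans (mul_le_mul_of_nonneg_left (by linarith) hg1)
                have l2 : 1.4 * f * (Y / 10) ≤ 1.4 * f * f :=
                  mul_le_mul_of_nonneg_left hf1 (by positivity)
                have l3 : (0.07 * f) * (2 * Y) ≤ g1 * (2 * Y) := by linarith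
                exact le_of_mul_le_mul_right l3 (by positivity)
            have k9 : d * Y ≤ Y / 100 * Y := mul_le_mul_of_nonneg_right hd1.le hY0.le
            have k10 : Y / 100 * Y ≤ Y / 10 ^ 8 := by linarith
            linarith
          · have hS2 : S ≤ 111 / 100 * Y := by linarith
            rcases le_or_gt x (Y / 20) with hx1 | hx1
            · have hbig : 8 / 9 ≤ b := by
                have l1 : 8 / 9 * S ≤ b * S := by linarith
                exact le_of_mul_le_mul_right l1 hS0
              have hmin : min d Y = d := min_eq_left (by linarith)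
              rw [hmin]
              have k7 : 3 * Y * (8 / 9) * d ≤ 3 * Y * b * d := by
                refine mul_le_mul_of_nonneg_right ?_ hd.le
                exact mul_le_mul_of_nonneg_left hbig (by positivity)
              have k8 : d * (Y + S + 2 * x) ≤ d * (2.22 * Y) :=
                mul_le_mul_of_nonneg_left (by linarith) hd.le
              linarith
            · have hov : 10 * Y * d ≤ 1 / 4 * (y * x) + g2 := by
                refine overhang hy0 hx hg2 hd.le (by norm_num) h2e h2e' ?_ ?_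
                · linarith
                · linarith
              linarith

/-- shape part -/
theorem shape_T1 {x y : ℝ} (hx : 0 ≤ x) (hxy : x ≤ y) (hS : x + y ≤ 1 / 10) :
    rf x + rf y + 2 / 3 * (x * y) + 2 / 3 * (y * rf x + x * rf y) ≤ rf (x + y) := by
  have hy : 0 ≤ y := hx.trans hxy
  have ax : |x| ≤ 1 / 10 := by rw [abs_of_nonneg hx]; linarith
  have ay : |y| ≤ 1 / 10 := by rw [abs_of_nonneg hy]; linarith
  have aS : |x + y| ≤ 1 / 10 := by rw [abs_of_nonneg (by linarith)]; linarith
  have ex := rf_rel ax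
  have ey := rf_rel ay
  have eS := rf_rel aS
  have nx := rf_nonneg ax
  have ny := rf_nonneg ay
  have nS := rf_nonneg aS
  have rx := rf_ratio hx (show x ≤ x + y by linarith) hS
  have ry := rf_ratio hy (show y ≤ x + y by linarith) hS
  have lx := rf_le ax
  have ly := rf_le ay
  rw [abs_of_nonneg hx] at lx
  rw [abs_of_nonneg hy] at ly
  set a := rf x
  set b := rf y
  set s := rf (x + y)
  -- rx : S a + x S y / 3 ≤ x s ; ry : S b + y S x / 3 ≤ y s
  have hsum : a + b + 2 * (x * y) / 3 ≤ s := by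
    rcases eq_or_lt_of_le (show 0 ≤ x + y by linarith) with h0 | h0
    · have hx0 : x = 0 := by linarith
      have hy0 : y = 0 := by linarith
      have ha0 : a ≤ 0 := by rw [hx0] at lx; simpa using lx
      have hb0 : b ≤ 0 := by rw [hy0] at ly; simpa using ly
      rw [hx0]
      linarith
    · have h3 : (x + y) * (a + b + 2 * (x * y) / 3) ≤ (x + y) * s := by linarith
      exact le_of_mul_le_mul_left h3 h0
  -- W ≤ (2/3) S x y
  have hW : y * a + x * b ≤ 2 / 3 * ((x + y) * (x * y)) := by
    have h1 : y * a ≤ y * (x ^ 2 / 3 * (1 + x)) := mul_le_mul_of_nonneg_left lx hy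
    have h2 : x * b ≤ x * (y ^ 2 / 3 * (1 + y)) := mul_le_mul_of_nonneg_left ly hx
    have hp : 0 ≤ x * y := mul_nonneg hx hy
    have h3 : x * y * x ^ 2 ≤ x * y * (x * 1) := by
      refine mul_le_mul_of_nonneg_left ?_ hp
      rw [pow_two]
      exact mul_le_mul_of_nonneg_left (by linarith) hx
    have h4 : x * y * y ^ 2 ≤ x * y * (y * 1) := by
      refine mul_le_mul_of_nonneg_left ?_ hp
      rw [pow_two]
      exact mul_le_mul_of_nonneg_left (by linarith) hy
    linarith
  have hsq : a ^ 2 + b ^ 2 ≤ s ^ 2 := by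
    have hp : 0 ≤ x * y := mul_nonneg hx hy
    have h1 : a + b ≤ s := by linarith
    have h2 := mul_self_le_mul_self (by linarith : 0 ≤ a + b) h1
    have h3 := mul_nonneg nx ny
    linarith
  -- S s ≥ x a + y b + W + (2/3) S x y
  have hmain : x * a + y * b + (y * a + x * b) + 2 / 3 * ((x + y) * (x * y)) ≤ (x + y) * s := by
    linarith
  linarith

/-- upper bound for the increase of the ratio -/
theorem ratio_upper {v w : ℝ} (hv0 : 0 ≤ v) (hvw : v ≤ w) (hw : w ≤ 1 / 100) :
    3 * (v * rf w - w * rf v) ≤ v * w * (w - v) * (1 + 2 * w) := by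
  have hv : |v| ≤ 1 / 10 := by rw [abs_of_nonneg hv0]; linarith
  have hw' : |w| ≤ 1 / 10 := by rw [abs_of_nonneg (by linarith)]; linarith
  have h1 := rf_rel hv
  have h2 := rf_rel hw'
  have h3 := rf_nonneg hv
  have h4 := rf_nonneg hw'
  have h5 := rf_le hv
  have h6 := rf_le hw'
  have hw0 : 0 ≤ w := hv0.trans hvw
  rw [abs_of_nonneg hv0] at h5
  rw [abs_of_nonneg hw0] at h6
  set a := rf v
  set b := rf w
  have ha1 : a ≤ v / 200 := by
    have k1 : v * v ≤ v * (1 / 100) := mul_le_mul_of_nonneg_left (by linarith) hv0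
    have k2 : v * v * v ≤ v * v * (1 / 100) :=
      mul_le_mul_of_nonneg_left (by linarith) (mul_nonneg hv0 hv0)
    linarith
  have hb1 : b ≤ w / 200 := by
    have k1 : w * w ≤ w * (1 / 100) := mul_le_mul_of_nonneg_left (by linarith) hw0
    have k2 : w * w * w ≤ w * w * (1 / 100) :=
      mul_le_mul_of_nonneg_left (by linarith) (mul_nonneg hw0 hw0)
    linarith
  have hd : 0 ≤ w - v := by linarith
  -- (3 - a - b - w)(b - a) = (w - v)(w + v + a)
  have e1 : (3 - a - b - w) * (b - a) = (w - v) * (w + v + a) := by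
    linear_combination h1 - h2
  have hba : b - a ≤ (w - v) * (7 / 10 * w) := by
    have hK : (5 / 2 : ℝ) ≤ 3 - a - b - w := by linarith
    by_contra hcon
    push Not at hcon
    have hn : 0 ≤ (w - v) * (7 / 10 * w) := by positivity
    have hpos : 0 < b - a := by linarith
    have h7 : (3 - a - b - w) * ((w - v) * (7 / 10 * w)) < (3 - a - b - w) * (b - a) :=
      mul_lt_mul_of_pos_left hcon (by linarith)
    have h8 : (w - v) * (w + v + a) ≤ (w - v) * ((3 - a - b - w) * (7 / 10 * w)) := by
      refine mul_le_mul_of_nonneg_left ?_ hd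
      have h9 : 3 - 3 / 100 ≤ 3 - a - b - w := by linarith
      have h10 : (3 - 3 / 100) * (7 / 10 * w) ≤ (3 - a - b - w) * (7 / 10 * w) :=
        mul_le_mul_of_nonneg_right h9 (by positivity)
      linarith
    linarith
  -- (3 - b) D = v w (w - v) + (w a + v w) (b - a)
  have e2 : (3 - b) * (v * b - w * a) = v * w * (w - v) + (w * a + v * w) * (b - a) := by
    linear_combination w * h1 - v * h2
  have hX : 0 ≤ v * w * (w - v) := mul_nonneg (mul_nonneg hv0 hw0) hd
  have e3 : (w * a + v * w) * (b - a) ≤ v * w * (w - v) * (3 / 4 * w) := by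
    have hvw0 : 0 ≤ v * w := mul_nonneg hv0 hw0
    have k0 : w * a ≤ w * (v / 200) := mul_le_mul_of_nonneg_left ha1 hw0
    have k1 : (w * a + v * w) * (b - a) ≤ (w * a + v * w) * ((w - v) * (7 / 10 * w)) :=
      mul_le_mul_of_nonneg_left hba (by positivity)
    have k2 : (w * a + v * w) * ((w - v) * (7 / 10 * w)) ≤
        (201 / 200 * (v * w)) * ((w - v) * (7 / 10 * w)) :=
      mul_le_mul_of_nonneg_right (by linarith) (by positivity)
    have k3 : 0 ≤ v * w * (w - v) * w := mul_nonneg hX hw0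
    linarith
  set D := v * b - w * a
  set X := v * w * (w - v)
  by_contra hcon
  push Not at hcon
  have k1 : (3 - b) * (X * (1 + 2 * w)) < (3 - b) * (3 * D) :=
    mul_lt_mul_of_pos_left hcon (by linarith)
  have k2 : X * (b * (1 + 2 * w)) ≤ X * (w / 200 * (1 + 2 * w)) :=
    mul_le_mul_of_nonneg_left (mul_le_mul_of_nonneg_right hb1 (by positivity)) hX
  have k3 : X * (w * w) ≤ X * (w * (1 / 100)) :=
    mul_le_mul_of_nonneg_left (mul_le_mul_of_nonneg_left hw hw0) hX
  have k4 : 0 ≤ X * w := mul_nonneg hX hw0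
  linarith

theorem hard_T1_aux {Y : ℝ} (hY0 : 0 < Y) (hY : Y ≤ 1 / 10 ^ 6) {c x y S e n m1 m2 β : ℝ}
    (hSdef : S = x + y) (hedef : e = Y - (c + S)) (hx : 0 ≤ x)
    (hxy : x ≤ y) (hS0 : 0 < S) (hS : S ≤ 4 * Y) (hc1 : c ≤ Y) (hc2 : 0 ≤ c + S)
    (hm1 : 0 ≤ m1) (hm2 : 0 ≤ m2)
    (h1 : c < 0 → x ≤ -c → -c ≤ m1 * S)
    (h1' : c < 0 → -c ≤ x → c ^ 2 ≤ m1 * S * x)
    (h2 : Y < c + S → y ≤ c + S - Y → c + S - Y ≤ m2 * S)
    (h2' : Y < c + S → c + S - Y ≤ y → (c + S - Y) ^ 2 ≤ m2 * S * y)
    (hn : 6 * rf Y + 2 * Y * (S - Y) + x * y + c * (Y + S + 2 * y)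
        + e * (Y + S + 2 * x) + 6 * c * e
        + 6 * Y * (1 - (rf Y / Y - Y / 6)) * (m1 + m2) ≤ 6 * Y * n)
    (hβ1 : y - x ≤ β) (hβ2 : β ≤ S) :
    S / (6 * Y) * (x * y / 8 + Y / 200 * (|c| + |e|)) ≤
      - rf x - rf y - 2 / 3 * (x * y) - 2 / 3 * (y * rf x + x * rf y)
      + n * (S - x * y / 3 - (y * rf x + x * rf y) / 3) + β / 2 * RR Y c (c + S) := by
  have hy : 0 ≤ y := hx.trans hxy
  have hshape := shape_T1 hx hxy (by linarith : x + y ≤ 1 / 10)
  have ax : |x| ≤ 1 / 10 := by rw [abs_of_nonneg hx]; linarith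
  have ay : |y| ≤ 1 / 10 := by rw [abs_of_nonneg hy]; linarith
  have aS : |S| ≤ 1 / 10 := by rw [abs_of_nonneg hS0.le]; linarith
  have aY : |Y| ≤ 1 / 10 := by rw [abs_of_nonneg hY0.le]; linarith
  have hp : 0 ≤ x * y := mul_nonneg hx hy
  -- the quantity W
  have hW0 : 0 ≤ y * rf x + x * rf y :=
    add_nonneg (mul_nonneg hy (rf_nonneg ax)) (mul_nonneg hx (rf_nonneg ay))
  have hW1 : y * rf x + x * rf y ≤ x * y / 100 := by
    have lx := rf_le ax
    have ly := rf_le ay
    rw [abs_of_nonneg hx] at lx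
    rw [abs_of_nonneg hy] at ly
    have h1 : y * rf x ≤ y * (x ^ 2 / 3 * (1 + x)) := mul_le_mul_of_nonneg_left lx hy
    have h2 : x * rf y ≤ x * (y ^ 2 / 3 * (1 + y)) := mul_le_mul_of_nonneg_left ly hx
    have h3 : x * y * (x * (1 + x)) ≤ x * y * (1 / 100) := by
      refine mul_le_mul_of_nonneg_left ?_ hp
      have : x * (1 + x) ≤ x * 2 := mul_le_mul_of_nonneg_left (by linarith) hx
      linarith
    have h4 : x * y * (y * (1 + y)) ≤ x * y * (1 / 100) := by
      refine mul_le_mul_of_nonneg_left ?_ hp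
      have : y * (1 + y) ≤ y * 2 := mul_le_mul_of_nonneg_left (by linarith) hy
      linarith
    linarith
  obtain ⟨W, hWdef⟩ : ∃ W, y * rf x + x * rf y = W := ⟨_, rfl⟩
  have hnS := rf_nonneg aS
  have hSle := rf_le aS
  have hYle := rf_le aY
  have hYge := rf_ge aY
  rw [abs_of_nonneg hS0.le] at hSle
  rw [abs_of_nonneg hY0.le] at hYle
  rw [hWdef] at hshape hW0 hW1 ⊢
  rw [← hSdef] at hshape
  have hRR : RR Y c (c + S) = min (max (-e) 0) Y - min (max (-c) 0) Y := by
    unfold RR
    have : c + S - Y = -e := by rw [hedef]; ring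
    rw [this]
  rw [hRR]
  -- the ratio part
  have hratio : -(4 * Y * S * max (S - Y) 0) * S ≤
      6 * (S * rf Y - Y * rf S) + 2 * Y * (S - Y) * S := by
    rcases le_or_gt S Y with h | h
    · have k := rf_ratio hS0.le h (by linarith : Y ≤ 1 / 10)
      have hm : max (S - Y) 0 = 0 := max_eq_right (by linarith)
      rw [hm]
      linarith
    · have k := ratio_upper hY0.le h.le (by linarith : S ≤ 1 / 100)
      have hm : max (S - Y) 0 = S - Y := max_eq_left (by linarith)
      rw [hm]
      linarith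
  -- al
  have hal : 5.6 * Y ≤ 6 * Y * (1 - (rf Y / Y - Y / 6)) := by
    have h3 : Y * (rf Y / Y) = rf Y := by field_simp
    have h4 : Y ^ 2 / 3 * (1 + Y) ≤ Y / 100 := by
      have k1 : Y * Y ≤ Y * (1 / 10 ^ 6) := mul_le_mul_of_nonneg_left hY hY0.le
      have k2 : Y * Y * Y ≤ Y * Y * (1 / 10 ^ 6) :=
        mul_le_mul_of_nonneg_left hY (mul_nonneg hY0.le hY0.le)
      linarith
    have h5 : 0 ≤ Y * Y := by positivity
    linarith
  have hgm : 5.6 * Y * (m1 + m2) ≤ 6 * Y * (1 - (rf Y / Y - Y / 6)) * (m1 + m2) :=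
    mul_le_mul_of_nonneg_right hal (by linarith)
  -- apply the star lemma
  obtain ⟨b, hb⟩ : ∃ b, b = β / S := ⟨_, rfl⟩
  have hbS : b * S = β := by rw [hb]; field_simp
  have hb1 : b ≤ 1 := by rw [hb, div_le_one hS0]; exact hβ2
  have hsum : c + e + S = Y := by rw [hedef]; ring
  have hstar := hard_T1_star hY0 hY (a := c) (e := e) (x := x) (y := y) (S := S)
    (g1 := 5.6 * Y * m1) (g2 := 5.6 * Y * m2) (b := b) hx hxy hSdef hS0 hS hc1
    (by linarith) hsum (by positivity) (by positivity)
    (by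
      intro hc hxc
      have := h1 hc hxc
      have k : m1 * S ≤ m1 * (4 * Y) := mul_le_mul_of_nonneg_left hS hm1
      linarith)
    (by
      intro hc hxc
      have := h1' hc hxc
      have k : m1 * S * x ≤ m1 * (4 * Y) * x :=
        mul_le_mul_of_nonneg_right (mul_le_mul_of_nonneg_left hS hm1) hx
      linarith)
    (by
      intro hc hxc
      have := h2 (by linarith) (by linarith)
      have k : m2 * S ≤ m2 * (4 * Y) := mul_le_mul_of_nonneg_left hS hm2
      linarith)
    (by
      intro hc hxc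
      have h := h2' (by linarith) (by linarith)
      have k : m2 * S * y ≤ m2 * (4 * Y) * y :=
        mul_le_mul_of_nonneg_right (mul_le_mul_of_nonneg_left hS hm2) hy
      have he : c + S - Y = -e := by rw [hedef]; ring
      rw [he] at h
      linarith)
    (by rw [hbS]; exact hβ1) hb1
  have hbn : 0 ≤ b := by
    by_contra hcon
    push Not at hcon
    have : b * S < 0 := mul_neg_of_neg_of_pos hcon hS0
    linarith
  -- final assembly
  obtain ⟨R, hR⟩ : ∃ R, min (max (-e) 0) Y - min (max (-c) 0) Y = R := ⟨_, rfl⟩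
  have hRc : - |c| ≤ R := by
    rw [← hR]
    have k1 : 0 ≤ min (max (-e) 0) Y := le_min (le_max_right _ _) hY0.le
    have k2 : min (max (-c) 0) Y ≤ |c| :=
      (min_le_left _ _).trans (max_le (neg_le_abs c) (abs_nonneg c))
    linarith
  rw [hR] at hstar ⊢
  obtain ⟨Q, hQ⟩ : ∃ Q, Q = x * y + c * (Y + S + 2 * y) + e * (Y + S + 2 * x) + 6 * c * e +
      (5.6 * Y * m1 + 5.6 * Y * m2) - 4 * Y * S * max (S - Y) 0 := ⟨_, rfl⟩
  rw [← hQ] at hstar
  have hSn : 6 * Y * rf S + S * Q ≤ S * (6 * Y * n) := by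
    have k1 := mul_le_mul_of_nonneg_left hn hS0.le
    have k2 := mul_le_mul_of_nonneg_left hgm hS0.le
    rw [hQ]
    linarith
  obtain ⟨θ, hθ⟩ : ∃ θ, θ = x * y / 3 + W / 3 := ⟨_, rfl⟩
  have hθ0 : 0 ≤ θ := by rw [hθ]; linarith
  have hθ1 : θ ≤ 35 / 100 * (x * y) := by rw [hθ]; linarith
  have hxyS : x * y ≤ S * S / 4 := by
    rw [hSdef]
    have := sq_nonneg (x - y)
    linarith
  have hSS : S * S ≤ S / 1000 := by
    have := mul_le_mul_of_nonneg_left (show S ≤ 1 / 1000 by linarith) hS0.le
    linarith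
  have hθ2 : θ ≤ S / 1000 := by linarith
  have hθS : 0 ≤ S - θ := by linarith
  obtain ⟨T, hT⟩ : ∃ T, T = x * y / 2 + Y / 100 * (|c| + |e|) := ⟨_, rfl⟩
  rw [← hT] at hstar
  have hc0 := abs_nonneg c
  have he0 := abs_nonneg e
  have hT0 : 0 ≤ T := by rw [hT]; positivity
  rw [div_mul_eq_mul_div, div_le_iff₀ (by positivity : 0 < 6 * Y)]
  refine le_of_mul_le_mul_left ?_ hS0
  -- pieces
  have p1 : (6 * Y * rf S + S * Q) * (S - θ) ≤ S * (6 * Y * n) * (S - θ) :=
    mul_le_mul_of_nonneg_right hSn hθS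
  have p2 : T * (S * (S - θ)) ≤ (Q + 3 * Y * b * R) * (S * (S - θ)) :=
    mul_le_mul_of_nonneg_right hstar (by positivity)
  have p3 : T * (S * (S * (999 / 1000))) ≤ T * (S * (S - θ)) := by
    refine mul_le_mul_of_nonneg_left (mul_le_mul_of_nonneg_left ?_ hS0.le) hT0
    linarith
  have p4 : -(3 * Y * S * θ * |c|) ≤ 3 * Y * b * S * θ * R := by
    have q1 : 3 * Y * b * S * θ * (-|c|) ≤ 3 * Y * b * S * θ * R :=
      mul_le_mul_of_nonneg_left hRc (by positivity)
    have q2 : b * (3 * Y * S * θ * |c|) ≤ 1 * (3 * Y * S * θ * |c|) :=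
      mul_le_mul_of_nonneg_right hb1 (by positivity)
    linarith
  have p5 : 3 * Y * S * θ * |c| ≤ S * S * (Y * |c|) / 300 := by
    have q : θ * (3 * Y * S * |c|) ≤ S / 1000 * (3 * Y * S * |c|) :=
      mul_le_mul_of_nonneg_right hθ2 (by positivity)
    have q' : 0 ≤ S * S * (Y * |c|) := by positivity
    linarith
  have p6 : 6 * Y * rf S * θ ≤ S * S * (x * y) / 1000 := by
    have q1 : rf S ≤ S * S := by
      have : S * S * S ≤ S * S * 1 := mul_le_mul_of_nonneg_left (by linarith) (by positivity)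
      linarith
    have q2 : rf S * θ ≤ (S * S) * (35 / 100 * (x * y)) :=
      mul_le_mul q1 hθ1 hθ0 (by positivity)
    have q3 : 6 * Y * (rf S * θ) ≤ 6 * Y * ((S * S) * (35 / 100 * (x * y))) :=
      mul_le_mul_of_nonneg_left q2 (by positivity)
    have q4 : Y * ((S * S) * (x * y)) ≤ 1 / 10 ^ 6 * ((S * S) * (x * y)) :=
      mul_le_mul_of_nonneg_right hY (by positivity)
    have q5 : 0 ≤ (S * S) * (x * y) := by positivity
    linarith
  have hshape' : - rf S * (6 * Y * S) ≤
      (- rf x - rf y - 2 / 3 * (x * y) - 2 / 3 * W) * (6 * Y * S) :=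
    mul_le_mul_of_nonneg_right (by linarith) (by positivity)
  have p7 : 0 ≤ S * S * (x * y) := by positivity
  have p8 : 0 ≤ S * S * (Y * |c|) := by positivity
  have p9 : 0 ≤ S * S * (Y * |e|) := by positivity
  have p10 : 3 * Y * b * S * S * R = 3 * Y * S * β * R := by rw [← hbS]; ring
  subst hT
  subst hθ
  linarith

theorem hard_T1 {Y : ℝ} (hY0 : 0 < Y) (hY : Y ≤ 1 / 10 ^ 6) {c x y n m1 m2 β : ℝ} (hx : 0 ≤ x)
    (hxy : x ≤ y) (hS0 : 0 < x + y) (hS : x + y ≤ 4 * Y) (hc1 : c ≤ Y) (hc2 : 0 ≤ c + (x + y))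
    (hm1 : 0 ≤ m1) (hm2 : 0 ≤ m2)
    (h1 : c < 0 → x ≤ -c → -c ≤ m1 * (x + y))
    (h1' : c < 0 → -c ≤ x → c ^ 2 ≤ m1 * (x + y) * x)
    (h2 : Y < c + (x + y) → y ≤ c + (x + y) - Y → c + (x + y) - Y ≤ m2 * (x + y))
    (h2' : Y < c + (x + y) → c + (x + y) - Y ≤ y → (c + (x + y) - Y) ^ 2 ≤ m2 * (x + y) * y)
    (hn : 6 * rf Y + 2 * Y * ((x + y) - Y) + x * y + c * (Y + (x + y) + 2 * y)
        + (Y - (c + (x + y))) * (Y + (x + y) + 2 * x) + 6 * c * (Y - (c + (x + y)))
        + 6 * Y * (1 - (rf Y / Y - Y / 6)) * (m1 + m2) ≤ 6 * Y * n)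
    (hβ1 : y - x ≤ β) (hβ2 : β ≤ x + y) :
    (x + y) / (6 * Y) * (x * y / 8 + Y / 200 * (|c| + |Y - (c + (x + y))|)) ≤
      - rf x - rf y - 2 / 3 * (x * y) - 2 / 3 * (y * rf x + x * rf y)
      + n * ((x + y) - x * y / 3 - (y * rf x + x * rf y) / 3) + β / 2 * RR Y c (c + (x + y)) :=
  hard_T1_aux hY0 hY rfl rfl hx hxy hS0 hS hc1 hc2 hm1 hm2 h1 h1' h2 h2' hn hβ1 hβ2

end H33Solid
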