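import Pool.Agent.H33.Solid.Root

/-! More on the function `rf`: difference quotient, upper bound for the ratio comparison -/

namespace H33Solid

theorem rf_zero_le_third {v : ℝ} (hv0 : 0 ≤ v) (hv : v ≤ 1 / 10) :
    v ^ 2 / 3 ≤ rf v ∧ rf v ≤ v ^ 2 / 3 * (1 + v) ∧ rf v ≤ 4 / 100 * v := by
  have h : |v| ≤ 1 / 10 := by rw [abs_of_nonneg hv0]; exact hv
  have h1 := rf_ge h
  have h2 := rf_le h
  rw [abs_of_nonneg hv0] at h2
  refine ⟨?_, h2, ?_⟩
  · linarith [mul_nonneg (sq_nonneg v) hv0]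
  · linarith [mul_nonneg hv0 (sub_nonneg.2 hv), mul_nonneg (mul_nonneg hv0 hv0) (sub_nonneg.2 hv)]

theorem rf_neg_bounds {v : ℝ} (hv0 : 0 ≤ v) (hv : v ≤ 1 / 10) :
    0 ≤ rf (-v) ∧ rf (-v) ≤ v ^ 2 / 3 := by
  have h : |(-v)| ≤ 1 / 10 := by rw [abs_neg, abs_of_nonneg hv0]; exact hv
  have h0 := rf_nonneg h
  have h1 := rf_le_half h
  rw [abs_neg, abs_of_nonneg hv0] at h1
  have h2 := rf_mul h
  refine ⟨h0, ?_⟩
  have h3 : rf (-v) * 3 ≤ rf (-v) * (3 - -v - rf (-v)) :=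
    mul_le_mul_of_nonneg_left (by linarith) h0
  linarith

/-- exact difference formula -/
theorem rf_diff {v w : ℝ} (hv : |v| ≤ 1 / 10) (hw : |w| ≤ 1 / 10) :
    (rf w - rf v) * (3 - w - rf v - rf w) = (w - v) * (w + v + rf v) := by
  have h1 := rf_rel hv
  have h2 := rf_rel hw
  linear_combination h1 - h2

/-- difference bounds -/
theorem rf_diff_le {v w : ℝ} (hv0 : 0 ≤ v) (hvw : v ≤ w) (hw : w ≤ 1 / 10) :
    0 ≤ rf w - rf v ∧ rf w - rf v ≤ (w - v) * ((w + v) / 3 + w ^ 2) ∧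
      rf w - rf v ≤ (w - v) * (8 / 10 * w) := by
  have hv : v ≤ 1 / 10 := by linarith
  have hva : |v| ≤ 1 / 10 := by rw [abs_of_nonneg hv0]; exact hv
  have hwa : |w| ≤ 1 / 10 := by rw [abs_of_nonneg (by linarith)]; exact hw
  have e := rf_diff hva hwa
  obtain ⟨a1, a2, a3⟩ := rf_zero_le_third hv0 hv
  obtain ⟨b1, b2, b3⟩ := rf_zero_le_third (by linarith : (0:ℝ) ≤ w) hw
  have ha0 := rf_nonneg hva
  have hb0 := rf_nonneg hwa
  set a := rf v
  set b := rf w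
  set D := b - a with hD
  have hden : 2.89 ≤ 3 - w - a - b := by norm_num; linarith
  have hD0 : 0 ≤ D := by
    by_contra hcon
    push Not at hcon
    have : D * (3 - w - a - b) < 0 := mul_neg_of_neg_of_pos hcon (by linarith)
    have : 0 ≤ (w - v) * (w + v + a) := mul_nonneg (by linarith) (by linarith)
    linarith
  have hrough : D ≤ (w - v) * (8 / 10 * w) := by
    have h1 : D * 2.89 ≤ D * (3 - w - a - b) := mul_le_mul_of_nonneg_left hden hD0
    have h2 : (w - v) * (w + v + a) ≤ (w - v) * (2.04 * w) :=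
      mul_le_mul_of_nonneg_left (by norm_num; linarith) (by linarith)
    have h3 : 0 ≤ (w - v) * w := mul_nonneg (by linarith) (by linarith)
    norm_num at *
    linarith
  refine ⟨hD0, ?_, hrough⟩
  -- D * 3 = (w-v)(w+v+a) + D (w + a + b)
  have h1 : D * 3 = (w - v) * (w + v + a) + D * (w + a + b) := by linarith
  have h2 : D * (w + a + b) ≤ (w - v) * (8 / 10 * w) * (w + a + b) :=
    mul_le_mul_of_nonneg_right hrough (by linarith)
  have h3 : (w - v) * (8 / 10 * w) * (w + a + b) ≤ (w - v) * (8 / 10 * w) * (108 / 100 * w) := by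
    apply mul_le_mul_of_nonneg_left (by linarith)
    exact mul_nonneg (by linarith) (by linarith)
  have h4 : a ≤ 4 / 10 * w ^ 2 := by
    have k1 : v ^ 2 ≤ w ^ 2 := pow_le_pow_left₀ hv0 hvw 2
    have k2 : v ^ 2 / 3 * (1 + v) ≤ v ^ 2 / 3 * (11 / 10) :=
      mul_le_mul_of_nonneg_left (by linarith) (by positivity)
    have k3 : 0 ≤ w ^ 2 := sq_nonneg w
    linarith
  have h5 : (w - v) * (w + v + a) ≤ (w - v) * (w + v + 4 / 10 * w ^ 2) :=
    mul_le_mul_of_nonneg_left (by linarith) (by linarith)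
  have h6 : 0 ≤ (w - v) * w ^ 2 := mul_nonneg (by linarith) (sq_nonneg w)
  linarith

/-- upper bound in the ratio comparison -/
theorem rf_ratio_upper {v w : ℝ} (hv0 : 0 ≤ v) (hvw : v ≤ w) (hw : w ≤ 1 / 10) :
    v * rf w ≤ w * rf v + v * w * (w - v) / 3 * (1 + 2 * w) := by
  have hv : v ≤ 1 / 10 := by linarith
  have hva : |v| ≤ 1 / 10 := by rw [abs_of_nonneg hv0]; exact hv
  have hwa : |w| ≤ 1 / 10 := by rw [abs_of_nonneg (by linarith)]; exact hw
  obtain ⟨a1, a2, a3⟩ := rf_zero_le_third hv0 hv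
  obtain ⟨b1, b2, b3⟩ := rf_zero_le_third (by linarith : (0:ℝ) ≤ w) hw
  have ha0 := rf_nonneg hva
  have hb0 := rf_nonneg hwa
  obtain ⟨d1, d2, d3⟩ := rf_diff_le hv0 hvw hw
  have r1 := rf_rel hva
  have r2 := rf_rel hwa
  have r3 := rf_ratio hv0 hvw hw
  set a := rf v
  set b := rf w
  set D := v * b - w * a with hD
  have e : 3 * D = b * D + w * (a + v) * (b - a) + v * w * (w - v) := by
    rw [hD]
    linear_combination w * r1 - v * r2
  have hw0 : 0 ≤ w := by linarith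
  have hP0 : 0 ≤ v * w * (w - v) := mul_nonneg (mul_nonneg hv0 hw0) (by linarith)
  have hD0 : 0 ≤ D := by
    have : 0 ≤ v * w * (w - v) / 3 := by linarith
    linarith
  -- w (a+v)(b-a) ≤ w * 1.04 v * 0.8 w (w - v)
  have h1 : w * (a + v) * (b - a) ≤ w * (104 / 100 * v) * ((w - v) * (8 / 10 * w)) := by
    apply mul_le_mul _ d3 d1 (by positivity)
    exact mul_le_mul_of_nonneg_left (by linarith) hw0
  have h2 : D * (3 - b) ≤ v * w * (w - v) * (1 + 84 / 100 * w) := by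
    linarith [mul_nonneg hP0 hw0]
  -- D ≤ P(1+0.84 w)/(3-b), and (1+2w)(3-b) ≥ 3(1+0.84w)
  have h3 : 3 * (1 + 84 / 100 * w) ≤ (1 + 2 * w) * (3 - b) := by
    have k1 : (1 + 2 * w) * (3 - 4 / 100 * w) ≤ (1 + 2 * w) * (3 - b) :=
      mul_le_mul_of_nonneg_left (by linarith) (by linarith)
    have k2 : w * w ≤ w * (1 / 10) := mul_le_mul_of_nonneg_left hw hw0
    linarith
  have h4 : D * (3 - b) * 3 ≤ v * w * (w - v) * ((1 + 2 * w) * (3 - b)) := by
    have := mul_le_mul_of_nonneg_left h3 hP0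
    linarith
  have h5 : (D * 3) * (3 - b) ≤ (v * w * (w - v) * (1 + 2 * w)) * (3 - b) := by linarith
  have h6 := le_of_mul_le_mul_right h5 (by linarith : (0:ℝ) < 3 - b)
  linarith

/-- shape part of T2 -/
theorem shape_T2 {ξ S : ℝ} (hξ : 0 ≤ ξ) (hS : 0 ≤ S) (hy : ξ + S ≤ 1 / 10) :
    - rf S - ξ * (S * (ξ + S) / 9 + (ξ + S) ^ 3) ≤
      - rf (-ξ) - rf (ξ + S) + 2 / 3 * (ξ * (ξ + S))
      - 2 / 3 * ((ξ + S) * rf (-ξ) - ξ * rf (ξ + S)) := by
  have hSa : |S| ≤ 1 / 10 := by rw [abs_of_nonneg hS]; linarith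
  have hξa : |(-ξ)| ≤ 1 / 10 := by rw [abs_neg, abs_of_nonneg hξ]; linarith
  have hya : |ξ + S| ≤ 1 / 10 := by rw [abs_of_nonneg (by linarith)]; linarith
  have r1 := rf_rel hSa
  have r2 := rf_rel hξa
  have r3 := rf_rel hya
  obtain ⟨d1, d2, d3⟩ := rf_diff_le hS (by linarith : S ≤ ξ + S) hy
  obtain ⟨n1, n2⟩ := rf_neg_bounds hξ (by linarith)
  obtain ⟨b1, b2, b3⟩ := rf_zero_le_third (by linarith : (0:ℝ) ≤ ξ + S) hy
  obtain ⟨a1, a2, a3⟩ := rf_zero_le_third hS (by linarith)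
  have ha0 := rf_nonneg hSa
  set rS := rf S
  set rx := rf (-ξ)
  set ry := rf (ξ + S)
  set y := ξ + S with hydef
  have hy0 : 0 ≤ y := by linarith
  have hyx : ξ = y - S := by linarith
  -- 3 (E0 + rS) = - S D + ξ ry - (2 S + ξ) rx - D (rS + ry) - rx²
  have e : 3 * ((- rx - ry + 2 / 3 * (ξ * y) - 2 / 3 * (y * rx - ξ * ry)) + rS) =
      - S * (ry - rS) + ξ * ry - (2 * S + ξ) * rx - (ry - rS) * (rS + ry) - rx ^ 2 := by
    rw [hyx] at r2 ⊢
    linear_combination r3 - r1 + r2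
  have t1 : S * (ry - rS) ≤ S * (ξ * ((y + S) / 3 + y ^ 2)) := by
    apply mul_le_mul_of_nonneg_left _ hS
    have : y - S = ξ := by linarith
    rw [this] at d2; exact d2
  have t2 : ξ * (y ^ 2 / 3) ≤ ξ * ry := mul_le_mul_of_nonneg_left b1 hξ
  have t3 : (2 * S + ξ) * rx ≤ (2 * S + ξ) * (ξ ^ 2 / 3) :=
    mul_le_mul_of_nonneg_left n2 (by linarith)
  have t4 : (ry - rS) * (rS + ry) ≤ (ξ * (8 / 10 * y)) * (8 / 10 * y ^ 2) := by
    have h1 : ry - rS ≤ ξ * (8 / 10 * y) := by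
      have : y - S = ξ := by linarith
      rw [this] at d3; exact d3
    have h2 : rS + ry ≤ 8 / 10 * y ^ 2 := by
      have hSy : S ≤ y := by linarith
      have h3 : S ^ 2 ≤ y ^ 2 := pow_le_pow_left₀ hS hSy 2
      have h4 : S ^ 2 / 3 * (1 + S) ≤ y ^ 2 / 3 * (1 + 1 / 10) :=
        mul_le_mul (by linarith) (by linarith) (by linarith) (by positivity)
      have h5 : y ^ 2 / 3 * (1 + y) ≤ y ^ 2 / 3 * (1 + 1 / 10) :=
        mul_le_mul_of_nonneg_left (by linarith) (by positivity)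
      linarith [sq_nonneg y]
    exact mul_le_mul h1 h2 (by linarith) (by positivity)
  have t5 : rx ^ 2 ≤ ξ * y ^ 3 / 9 := by
    have h1 : rx ^ 2 ≤ (ξ ^ 2 / 3) ^ 2 := pow_le_pow_left₀ n1 n2 2
    have h2 : ξ ^ 3 ≤ y ^ 3 := pow_le_pow_left₀ hξ (by linarith) 3
    have h3 : ξ * ξ ^ 3 ≤ ξ * y ^ 3 := mul_le_mul_of_nonneg_left h2 hξ
    linarith
  have t6 : S * (ξ * y ^ 2) ≤ ξ * y ^ 3 := by
    have : S * (ξ * y ^ 2) ≤ y * (ξ * y ^ 2) :=
      mul_le_mul_of_nonneg_right (by linarith) (by positivity)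
    linarith
  have t7 : 0 ≤ ξ * y ^ 3 := by positivity
  have e2 : -(S * (ξ * ((y + S) / 3))) + ξ * (y ^ 2 / 3) - (2 * S + ξ) * (ξ ^ 2 / 3) =
      - (ξ * S * y / 3) := by
    rw [hyx]; ring
  linarith

end H33Solid
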