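import Pool.Agent.H33.Solid.RR
import Pool.Agent.H33.Solid.RfMore

/-! Module LH: the inequality `hard_T2` -/

namespace H33Solid

/-- a small quadratic inequality: `20 Y u ≤ M + Y ξ` if `1.4 u² ≤ M ξ`. -/
theorem quad_gain {Y u ξ M : ℝ} (hY0 : 0 < Y) (hY : Y ≤ 1 / 10 ^ 6) (hξ : 0 < ξ)
    (h : 14 / 10 * u ^ 2 ≤ M * ξ) : 24 * Y * u ≤ M + Y * ξ := by
  have h1 : 24 * Y * u * ξ ≤ (M + Y * ξ) * ξ := by
    have h2 : 24 * Y * u * ξ ≤ 14 / 10 * u ^ 2 + Y * ξ ^ 2 := by
      have h3 : 0 ≤ (u - 10 * Y * ξ) ^ 2 := sq_nonneg _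
      have h4 : 0 ≤ Y * ξ ^ 2 * (1 - 200 * Y) := by
        apply mul_nonneg (by positivity)
        norm_num at hY; linarith
      linarith [sq_nonneg (u - 10 * Y * ξ), h4, sq_nonneg u, mul_nonneg hY0.le (sq_nonneg ξ)]
    linarith
  exact le_of_mul_le_mul_right h1 hξ

theorem core_T2 {Y a e ξ S M1 M2 R : ℝ} (hY0 : 0 < Y) (hY : Y ≤ 1 / 10 ^ 6) (hξ : 0 < ξ)
    (hS0 : 0 < S) (hy : ξ + S ≤ 4 * Y) (hsum : a + e + ξ + S = Y) (ha : a ≤ Y) (he : e ≤ Y)
    (hM1 : 0 ≤ M1) (hM2 : 0 ≤ M2)
    (h1 : a < 0 → ξ ≤ -a → 14 / 10 * (-a) ≤ M1)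
    (h1' : a < 0 → -a ≤ ξ → 14 / 10 * a ^ 2 ≤ M1 * ξ)
    (h2 : e < 0 → S ≤ -e → 14 / 10 * (-e) ≤ M2)
    (h2' : e < 0 → -e ≤ S → 14 / 10 * e ^ 2 ≤ M2 * S)
    (hR : R = min (max (-e) 0) Y - min (max (-a - ξ) 0) Y) :
    24 * Y ^ 2 * ξ ≤ ξ * S + a * (Y + (ξ + S) + 2 * S) + e * (Y + (ξ + S) + 2 * ξ) + 6 * a * e
      + 2 * Y * ξ - 4 * Y * S * max (S - Y) 0 + M1 + M2 + 3 * Y * R := by
  have hY' : Y ≤ 1 / 1000000 := by norm_num at hY ⊢; linarith
  have hYξ : 24 * Y ^ 2 * ξ ≤ 1 / 100 * (Y * ξ) := by linarith [mul_pos hY0 hξ, mul_le_mul_of_nonneg_left hY' (mul_pos hY0 hξ).le]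
  have hξS : 0 < ξ * S := mul_pos hξ hS0
  have hYξ0 : 0 < Y * ξ := mul_pos hY0 hξ
  have hY2 : 0 < Y ^ 2 := by positivity
  -- right part of R
  rcases le_or_gt 0 a with ha0 | ha0
  · have hRa : min (max (-a - ξ) 0) Y = 0 := by
      rw [max_eq_right (by linarith), min_eq_left hY0.le]
    rcases le_or_gt 0 e with he0 | he0
    · -- no overhang
      have hRe : min (max (-e) 0) Y = 0 := by
        rw [max_eq_right (by linarith), min_eq_left hY0.le]
      rw [hR, hRa, hRe, max_eq_right (by linarith : S - Y ≤ 0)]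
      have i1 : 0 ≤ a * (Y + (ξ + S) + 2 * S) := mul_nonneg ha0 (by linarith)
      have i2 : 0 ≤ e * (Y + (ξ + S) + 2 * ξ) := mul_nonneg he0 (by linarith)
      have i3 : 0 ≤ 6 * a * e := by positivity
      linarith
    · -- right overhang only
      have hR0 : 0 ≤ min (max (-e) 0) Y := le_min (le_max_right _ _) hY0.le
      have hSY : max (S - Y) 0 ≤ -e := max_le (by linarith) (by linarith)
      have hSY0 : 0 ≤ max (S - Y) 0 := le_max_right _ _
      have j1 : 4 * Y * S * max (S - Y) 0 ≤ Y * (-e) := by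
        have : 4 * Y * S * max (S - Y) 0 ≤ 4 * Y * S * (-e) :=
          mul_le_mul_of_nonneg_left hSY (by positivity)
        have : 4 * Y * S * (-e) ≤ Y * (-e) := by
          apply mul_le_mul_of_nonneg_right _ (by linarith)
          linarith [mul_le_mul_of_nonneg_left (by linarith : 4 * S ≤ 1) hY0.le]
        linarith
      have j2 : 0 ≤ a * (Y + (ξ + S) + 2 * S) := mul_nonneg ha0 (by linarith)
      have j3 : (-e) * (Y + (ξ + S) + 2 * ξ) ≤ (-e) * (13 * Y) :=
        mul_le_mul_of_nonneg_left (by linarith) (by linarith)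
      have j4 : 6 * a * (-e) ≤ 6 * Y * (-e) := mul_le_mul_of_nonneg_right (by linarith) (by linarith)
      rw [hR, hRa, sub_zero]
      rcases le_total S (-e) with hc | hc
      · have g := h2 he0 hc
        have k1 : 20 * Y * (-e) ≤ 14 / 10 * (-e) := mul_le_mul_of_nonneg_right (by linarith) (by linarith)
        have k2 : 0 ≤ 3 * Y * min (max (-e) 0) Y := by positivity
        linarith
      · have g := h2' he0 hc
        rcases le_total (Y / 100) (-e) with hd | hd
        · have k0 : 35 / 10000 * (-e) ≤ M2 := by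
            have l1 : 14 / 10 * (Y / 100) * (-e) ≤ 14 / 10 * e ^ 2 := by linarith [mul_le_mul_of_nonneg_right hd (by linarith : 0 ≤ -e)]
            have l2 : M2 * S ≤ M2 * (4 * Y) := mul_le_mul_of_nonneg_left (by linarith) hM2
            have l3 : (35 / 10000 * (-e)) * (4 * Y) ≤ M2 * (4 * Y) := by linarith
            exact le_of_mul_le_mul_right l3 (by linarith)
          have k1 : 20 * Y * (-e) ≤ 35 / 10000 * (-e) :=
            mul_le_mul_of_nonneg_right (by linarith) (by linarith)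
          have k2 : 0 ≤ 3 * Y * min (max (-e) 0) Y := by positivity
          linarith
        · rw [max_eq_left (by linarith : 0 ≤ -e), min_eq_left (by linarith : -e ≤ Y)]
          -- y ≤ 1.01 Y
          have k1 : (-e) * (Y + (ξ + S) + 2 * ξ) ≤ (-e) * (201 / 100 * Y) + 2 / 100 * (Y * ξ) := by
            have l1 : (-e) * (Y + (ξ + S)) ≤ (-e) * (201 / 100 * Y) :=
              mul_le_mul_of_nonneg_left (by linarith) (by linarith)
            have l2 : (-e) * ξ ≤ (Y / 100) * ξ := mul_le_mul_of_nonneg_right hd hξ.le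
            linarith
          have k2 : 6 * a * (-e) ≤ a * (Y + (ξ + S) + 2 * S) := by
            have : a * (6 * (-e)) ≤ a * (Y + (ξ + S) + 2 * S) :=
              mul_le_mul_of_nonneg_left (by linarith) ha0
            linarith
          have k3 : 4 * Y * S * max (S - Y) 0 ≤ 1 / 10 * (Y * (-e)) := by
            have : 4 * Y * S * max (S - Y) 0 ≤ 4 * Y * S * (-e) :=
              mul_le_mul_of_nonneg_left hSY (by positivity)
            have : 4 * Y * S * (-e) ≤ (1 / 10 * Y) * (-e) := by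
              apply mul_le_mul_of_nonneg_right _ (by linarith)
              linarith [mul_le_mul_of_nonneg_left (by linarith : 4 * S ≤ 1 / 10) hY0.le]
            linarith
          have k4 : 0 ≤ Y * (-e) := mul_nonneg hY0.le (by linarith)
          linarith
  · -- left overhang
    have hgain : 24 * Y * (-a) + 3 * Y * max (-a - ξ) 0 ≤ M1 + Y * ξ := by
      rcases le_total ξ (-a) with hc | hc
      · have g := h1 ha0 hc
        rw [max_eq_left (by linarith)]
        have k1 : 27 * Y * (-a) ≤ 14 / 10 * (-a) := mul_le_mul_of_nonneg_right (by linarith) (by linarith)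
        linarith
      · have g := h1' ha0 hc
        rw [max_eq_right (by linarith)]
        have := quad_gain (u := -a) hY0 hY hξ (by rw [neg_sq]; exact g)
        linarith
    have hRa : min (max (-a - ξ) 0) Y ≤ max (-a - ξ) 0 := min_le_left _ _
    have hRa' : 3 * Y * min (max (-a - ξ) 0) Y ≤ 3 * Y * max (-a - ξ) 0 :=
      mul_le_mul_of_nonneg_left hRa (by linarith)
    have j3 : (-a) * (Y + (ξ + S) + 2 * S) ≤ (-a) * (13 * Y) :=
        mul_le_mul_of_nonneg_left (by linarith) (by linarith)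
    rcases le_or_gt 0 e with he0 | he0
    · have hRe : min (max (-e) 0) Y = 0 := by
        rw [max_eq_right (by linarith), min_eq_left hY0.le]
      have hSY : max (S - Y) 0 ≤ -a := max_le (by linarith) (by linarith)
      have j1 : 4 * Y * S * max (S - Y) 0 ≤ Y * (-a) := by
        have : 4 * Y * S * max (S - Y) 0 ≤ 4 * Y * S * (-a) :=
          mul_le_mul_of_nonneg_left hSY (by positivity)
        have : 4 * Y * S * (-a) ≤ Y * (-a) := by
          apply mul_le_mul_of_nonneg_right _ (by linarith)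
          linarith [mul_le_mul_of_nonneg_left (by linarith : 4 * S ≤ 1) hY0.le]
        linarith
      have j4 : 6 * (-a) * e ≤ 6 * Y * (-a) := by linarith [mul_le_mul_of_nonneg_left he (by linarith : 0 ≤ -a)]
      have i2 : 0 ≤ e * (Y + (ξ + S) + 2 * ξ) := mul_nonneg he0 (by linarith)
      rw [hR, hRe]
      linarith [mul_pos hY0 (by linarith : 0 < -a)]
    · have hSY : max (S - Y) 0 ≤ -a + -e := max_le (by linarith) (by linarith)
      have j1 : 4 * Y * S * max (S - Y) 0 ≤ 1 / 10 * Y * (-a) + 1 / 10 * Y * (-e) := by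
        have : 4 * Y * S * max (S - Y) 0 ≤ 4 * Y * S * (-a + -e) :=
          mul_le_mul_of_nonneg_left hSY (by positivity)
        have : 4 * Y * S * (-a + -e) ≤ (1 / 10 * Y) * (-a + -e) := by
          apply mul_le_mul_of_nonneg_right _ (by linarith)
          linarith [mul_le_mul_of_nonneg_left (by linarith : 4 * S ≤ 1 / 10) hY0.le]
        linarith
      have j4 : 0 ≤ 6 * a * e := by linarith [mul_pos_of_neg_of_neg ha0 he0]
      have j5 : (-e) * (Y + (ξ + S) + 2 * ξ) ≤ (-e) * (13 * Y) :=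
        mul_le_mul_of_nonneg_left (by linarith) (by linarith)
      have hR0 : 0 ≤ min (max (-e) 0) Y := le_min (le_max_right _ _) hY0.le
      have hR0' : 0 ≤ 3 * Y * min (max (-e) 0) Y := by positivity
      have hYe : 0 < Y * (-e) := mul_pos hY0 (by linarith)
      have hYa : 0 < Y * (-a) := mul_pos hY0 (by linarith)
      rcases le_total S (-e) with hc | hc
      · have g := h2 he0 hc
        have k1 : 20 * Y * (-e) ≤ 14 / 10 * (-e) := mul_le_mul_of_nonneg_right (by linarith) (by linarith)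
        rw [hR]
        linarith
      · have g := h2' he0 hc
        rcases le_total (Y / 100) (-e) with hd | hd
        · have k0 : 35 / 10000 * (-e) ≤ M2 := by
            have l1 : 14 / 10 * (Y / 100) * (-e) ≤ 14 / 10 * e ^ 2 := by linarith [mul_le_mul_of_nonneg_right hd (by linarith : 0 ≤ -e)]
            have l2 : M2 * S ≤ M2 * (4 * Y) := mul_le_mul_of_nonneg_left (by linarith) hM2
            have l3 : (35 / 10000 * (-e)) * (4 * Y) ≤ M2 * (4 * Y) := by linarith
            exact le_of_mul_le_mul_right l3 (by linarith)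
          have k1 : 20 * Y * (-e) ≤ 35 / 10000 * (-e) :=
            mul_le_mul_of_nonneg_right (by linarith) (by linarith)
          rw [hR]
          linarith
        · rcases le_total (ξ + S) (111 / 100 * Y) with hf | hf
          · have k5 : min (max (-e) 0) Y = -e := by
              rw [max_eq_left (by linarith : 0 ≤ -e), min_eq_left (by linarith : -e ≤ Y)]
            have k1 : (-e) * (Y + (ξ + S) + 2 * ξ) ≤ (-e) * (211 / 100 * Y) + 2 / 100 * (Y * ξ) := by
              have l1 : (-e) * (Y + (ξ + S)) ≤ (-e) * (211 / 100 * Y) :=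
                mul_le_mul_of_nonneg_left (by linarith) (by linarith)
              have l2 : (-e) * ξ ≤ (Y / 100) * ξ := mul_le_mul_of_nonneg_right hd hξ.le
              linarith
            rw [hR, k5]
            linarith
          · -- large left overhang
            have la : Y / 10 ≤ -a := by linarith
            have k0 : 35 / 10000 * Y ≤ M1 := by
              rcases le_total ξ (-a) with hg | hg
              · have g1 := h1 ha0 hg
                linarith
              · have g1 := h1' ha0 hg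
                have l1 : 14 / 10 * (Y / 10) ^ 2 ≤ 14 / 10 * a ^ 2 := by linarith [mul_le_mul la la (by linarith) (by linarith : 0 ≤ -a)]
                have l2 : M1 * ξ ≤ M1 * (4 * Y) := mul_le_mul_of_nonneg_left (by linarith) hM1
                have l3 : (35 / 10000 * Y) * (4 * Y) ≤ M1 * (4 * Y) := by linarith
                exact le_of_mul_le_mul_right l3 (by linarith)
            have la4 : -a ≤ 4 * Y := by linarith
            have k2 : (-a) * (13 * Y) ≤ (4 * Y) * (13 * Y) :=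
              mul_le_mul_of_nonneg_right la4 (by linarith)
            have k3 : (-e) * (13 * Y) ≤ (4 * Y) * (13 * Y) :=
              mul_le_mul_of_nonneg_right (by linarith) (by linarith)
            have k4 : 3 * Y * min (max (-a - ξ) 0) Y ≤ 3 * Y * Y :=
              mul_le_mul_of_nonneg_left (min_le_right _ _) (by linarith)
            have k6 : Y * (-a) ≤ Y * (4 * Y) := mul_le_mul_of_nonneg_left la4 hY0.le
            have k7 : Y * (-e) ≤ Y * (4 * Y) := mul_le_mul_of_nonneg_left (by linarith) hY0.le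
            have k8 : 200 * Y ^ 2 ≤ 35 / 10000 * Y := by linarith [mul_le_mul_of_nonneg_left hY' hY0.le]
            rw [hR]
            linarith

theorem hard_T2 {Y : ℝ} (hY0 : 0 < Y) (hY : Y ≤ 1 / 10 ^ 6) {c ξ S n m1 m2 : ℝ} (hξ : 0 < ξ)
    (hS0 : 0 < S) (hS : ξ + S ≤ 4 * Y) (hc1 : c ≤ Y) (hc2 : 0 ≤ c + (ξ + S))
    (hm1 : 0 ≤ m1) (hm2 : 0 ≤ m2)
    (h1 : c < 0 → ξ ≤ -c → -c ≤ m1 * (ξ + S))
    (h1' : c < 0 → -c ≤ ξ → c ^ 2 ≤ m1 * (ξ + S) * ξ)
    (h2 : Y < c + (ξ + S) → S ≤ c + (ξ + S) - Y → c + (ξ + S) - Y ≤ m2 * (ξ + S))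
    (h2' : Y < c + (ξ + S) → c + (ξ + S) - Y ≤ S → (c + (ξ + S) - Y) ^ 2 ≤ m2 * (ξ + S) * S)
    (hn : 6 * rf Y + 2 * Y * ((ξ + S) - Y) + ξ * S + c * (Y + (ξ + S) + 2 * S)
        + (Y - (c + (ξ + S))) * (Y + (ξ + S) + 2 * ξ) + 6 * c * (Y - (c + (ξ + S)))
        + 6 * Y * (1 - (rf Y / Y - Y / 6)) * (m1 + m2) ≤ 6 * Y * n)
    (hnα : rf Y / Y - Y / 6 ≤ n) :
    0 < - rf (-ξ) - rf (ξ + S) + 2 / 3 * (ξ * (ξ + S))
      - 2 / 3 * ((ξ + S) * rf (-ξ) - ξ * rf (ξ + S))
      + n * (S + ξ * (ξ + S) / 3 - ((ξ + S) * rf (-ξ) - ξ * rf (ξ + S)) / 3)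
      + S / 2 * RR Y (c + ξ) (c + (ξ + S)) := by
  have hY' : Y ≤ 1 / 1000000 := by norm_num at hY ⊢; linarith
  set y := ξ + S with hy
  have hy0 : 0 < y := by linarith
  have hy1 : y ≤ 1 / 10 := by linarith
  have hsh := shape_T2 hξ.le hS0.le hy1
  rw [← hy] at hsh
  obtain ⟨q1, q2, q3⟩ := rf_zero_le_third hY0.le (by linarith : Y ≤ 1 / 10)
  set al := rf Y / Y - Y / 6 with hal
  have hrY : rf Y = Y * (al + Y / 6) := by
    rw [hal]; field_simp; ring
  have hal1 : Y / 6 ≤ al := by
    rw [hrY] at q1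
    have : Y * (Y / 3) ≤ Y * (al + Y / 6) := by linarith
    have := le_of_mul_le_mul_left this hY0
    linarith
  have hal2 : al ≤ Y := by
    rw [hrY] at q2
    have : Y * (al + Y / 6) ≤ Y * (Y / 3 * (1 + Y)) := by linarith
    have := le_of_mul_le_mul_left this hY0
    linarith
  -- the gains
  set M1 := 6 * Y * (1 - al) * m1 with hM1
  set M2 := 6 * Y * (1 - al) * m2 with hM2
  have hYal : 56 / 10 * Y ≤ 6 * Y * (1 - al) := by linarith [mul_le_mul_of_nonneg_left (by linarith : al ≤ 1 / 100) hY0.le]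
  have hM10 : 0 ≤ M1 := mul_nonneg (by linarith) hm1
  have hM20 : 0 ≤ M2 := mul_nonneg (by linarith) hm2
  have hMg1 : 14 / 10 * (m1 * y) ≤ M1 := by
    have l1 : m1 * y ≤ m1 * (4 * Y) := mul_le_mul_of_nonneg_left hS hm1
    have l2 : 56 / 10 * Y * m1 ≤ M1 := mul_le_mul_of_nonneg_right hYal hm1
    linarith
  have hMg2 : 14 / 10 * (m2 * y) ≤ M2 := by
    have l1 : m2 * y ≤ m2 * (4 * Y) := mul_le_mul_of_nonneg_left hS hm2
    have l2 : 56 / 10 * Y * m2 ≤ M2 := mul_le_mul_of_nonneg_right hYal hm2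
    linarith
  set e := Y - (c + y) with he
  set R := RR Y (c + ξ) (c + y) with hRdef
  have hcore := core_T2 (Y := Y) (a := c) (e := e) (ξ := ξ) (S := S) (M1 := M1) (M2 := M2)
    (R := R) hY0 hY hξ hS0 (by linarith) (by linarith) hc1 (by linarith) hM10 hM20
    (fun g1 g2 => by have := h1 g1 g2; linarith)
    (fun g1 g2 => by
      have := h1' g1 g2
      have l : 14 / 10 * (m1 * y) * ξ ≤ M1 * ξ := mul_le_mul_of_nonneg_right hMg1 hξ.le
      linarith)
    (fun g1 g2 => by
      have := h2 (by linarith) (by linarith)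
      linarith)
    (fun g1 g2 => by
      have := h2' (by linarith) (by linarith)
      have l : 14 / 10 * (m2 * y) * S ≤ M2 * S := mul_le_mul_of_nonneg_right hMg2 hS0.le
      have l2 : (c + y - Y) ^ 2 = e ^ 2 := by rw [he]; ring
      linarith)
    (by
      rw [hRdef, RR, he]
      congr 2
      · congr 1; ring
      · congr 1; ring)
  rw [← hy] at hcore
  -- comparison of ratios
  have hratio : 2 * Y * S * (Y - S) - 4 * Y * S ^ 2 * max (S - Y) 0 ≤ 6 * (S * rf Y - Y * rf S) := by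
    rcases le_total S Y with hSY | hSY
    · have := rf_ratio hS0.le hSY (by linarith)
      rw [max_eq_right (by linarith)]
      linarith
    · have := rf_ratio_upper hY0.le hSY (by linarith)
      rw [max_eq_left (by linarith)]
      linarith
  -- S * hn
  have hnS := mul_le_mul_of_nonneg_left hn hS0.le
  have hcS := mul_le_mul_of_nonneg_left hcore hS0.le
  have hMsum : 6 * Y * (1 - al) * (m1 + m2) = M1 + M2 := by rw [hM1, hM2]; ring
  rw [hMsum] at hnS
  have hZ : 24 * Y ^ 2 * ξ * S ≤ 6 * Y * (S * n - rf S) + 3 * Y * S * R := by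
    have hyS : y = ξ + S := hy
    have e1 : S * (2 * Y * (y - Y)) = 2 * Y * S * ξ - 2 * Y * S * (Y - S) := by rw [hyS]; ring
    linarith
  have hZ' : 4 * Y * ξ * S ≤ (S * n - rf S) + S / 2 * R := by
    have h6 : 6 * Y * (4 * Y * ξ * S) ≤ 6 * Y * ((S * n - rf S) + S / 2 * R) := by
      linarith
    exact le_of_mul_le_mul_left h6 (by linarith)
  -- n q2
  obtain ⟨n1, n2⟩ := rf_neg_bounds hξ.le (by linarith : ξ ≤ 1 / 10)
  obtain ⟨b1, b2, b3⟩ := rf_zero_le_third hy0.le hy1
  have hry0 : 0 ≤ rf y := le_trans (by positivity) b1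
  have hq : ξ * y / 4 ≤ ξ * y / 3 - (y * rf (-ξ) - ξ * rf y) / 3 := by
    have l1 : y * rf (-ξ) ≤ y * (ξ ^ 2 / 3) := mul_le_mul_of_nonneg_left n2 hy0.le
    have l2 : 0 ≤ ξ * rf y := mul_nonneg hξ.le hry0
    have l3 : y * (ξ ^ 2 / 3) ≤ y * (ξ * (1 / 10)) := by
      apply mul_le_mul_of_nonneg_left _ hy0.le
      linarith [mul_le_mul_of_nonneg_left (by linarith : ξ ≤ 1 / 10) hξ.le]
    linarith [mul_pos hξ hy0]
  have hn0 : Y / 6 ≤ n := le_trans hal1 hnα
  have hnq : Y / 6 * (ξ * y / 4) ≤ n * (ξ * y / 3 - (y * rf (-ξ) - ξ * rf y) / 3) :=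
    mul_le_mul hn0 hq (by positivity) (by linarith)
  have hfin1 : y ^ 3 * ξ < Y / 6 * (ξ * y / 4) := by
    have l1 : y ^ 2 ≤ 4 * Y * (1 / 1000) := by linarith [mul_le_mul hS (by linarith : y ≤ 1 / 1000) hy0.le (by linarith)]
    have l2 : y ^ 2 < Y / 24 := by linarith
    have l3 : 0 < ξ * y := mul_pos hξ hy0
    linarith [mul_lt_mul_of_pos_right l2 l3]
  have hfin2 : ξ * (S * y / 9) ≤ 4 * Y * ξ * S := by
    have l1 : 0 < ξ * S := mul_pos hξ hS0
    linarith [mul_le_mul_of_nonneg_right (by linarith : y / 9 ≤ 4 * Y) l1.le]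
  have expand : n * (S + ξ * y / 3 - (y * rf (-ξ) - ξ * rf y) / 3) =
      S * n + n * (ξ * y / 3 - (y * rf (-ξ) - ξ * rf y) / 3) := by ring
  rw [expand]
  linarith

end H33Solid
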