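import Pool.Agent.H33.Solid.Shape

/-! Module LT3: the case `x + y ≤ 0` -/

namespace H33Solid

namespace T3Aux

theorem aux {T t α ζ β σ : ℝ} (hT : 0 ≤ T) (ht : 0 ≤ t) (hα : 0 ≤ α) (hζ : 0 ≤ ζ) (hβ : 0 ≤ β)
    (hα1 : α ≤ 1 / 20) (hζ1 : ζ ≤ 3 / 100) (hβ1 : β ≤ 1 / 60) (ht1 : t ≤ 3 * β ^ 2)
    (hσ1 : σ ≤ 76 / 100 * β ^ 2) (h1 : α ≤ 501 / 1000 * T + 151 / 100 * (β * ζ))
    (h2 : ζ ≤ 34 / 100 * t + 177 / 1000 * T) :
    α ^ 2 / 8 + β * α / 4 + 3 / 8 * ζ ^ 2 + σ * ζ / 4 ≤ 11 / 1000 * T + 34 / 100 * (β ^ 2 * t) := by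
  have hβ2 : 0 ≤ β ^ 2 := sq_nonneg β
  have hβ21 : β ^ 2 ≤ 1 / 3600 := by nlinarith
  have hg : 0 ≤ β ^ 2 * ζ := mul_nonneg hβ2 hζ
  -- β ζ α
  have e1 : β * ζ * α ≤ 501 / 1000 * (β * ζ * T) + 151 / 100 * (β ^ 2 * ζ * ζ) := by
    have := mul_le_mul_of_nonneg_left h1 (mul_nonneg hβ hζ)
    nlinarith
  have e2 : β * ζ * T ≤ 1 / 60 * (3 / 100) * T := by
    apply mul_le_mul_of_nonneg_right _ hT
    exact mul_le_mul hβ1 hζ1 hζ (by norm_num)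
  have e3 : β ^ 2 * ζ * ζ ≤ 3 / 100 * (β ^ 2 * ζ) := by
    have := mul_le_mul_of_nonneg_left hζ1 hg
    linarith
  have e4 : α ^ 2 ≤ 1 / 20 * (501 / 1000 * T) + 151 / 100 * (β * ζ * α) := by
    have k1 := mul_le_mul_of_nonneg_left h1 hα
    have k2 : α * (501 / 1000 * T) ≤ 1 / 20 * (501 / 1000 * T) :=
      mul_le_mul_of_nonneg_right hα1 (by positivity)
    nlinarith
  have e5 : β * α ≤ 501 / 1000 * (1 / 60 * T) + 151 / 100 * (β ^ 2 * ζ) := by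
    have k1 := mul_le_mul_of_nonneg_left h1 hβ
    have k2 : β * T ≤ 1 / 60 * T := mul_le_mul_of_nonneg_right hβ1 hT
    nlinarith
  have e6 : ζ ^ 2 ≤ 34 / 100 * (ζ * t) + 177 / 1000 * (3 / 100 * T) := by
    have k1 := mul_le_mul_of_nonneg_left h2 hζ
    have k2 : ζ * T ≤ 3 / 100 * T := mul_le_mul_of_nonneg_right hζ1 hT
    nlinarith
  have e7 : ζ * t ≤ 3 * (β ^ 2 * ζ) := by
    have := mul_le_mul_of_nonneg_left ht1 hζ
    linarith
  have e8 : σ * ζ ≤ 76 / 100 * (β ^ 2 * ζ) := by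
    have := mul_le_mul_of_nonneg_right hσ1 hζ
    linarith
  have e9 : β ^ 2 * ζ ≤ 34 / 100 * (β ^ 2 * t) + 177 / 1000 * (1 / 3600 * T) := by
    have k1 := mul_le_mul_of_nonneg_left h2 hβ2
    have k2 : β ^ 2 * T ≤ 1 / 3600 * T := mul_le_mul_of_nonneg_right hβ21 hT
    nlinarith
  have e10 : 0 ≤ β ^ 2 * t := mul_nonneg hβ2 ht
  linarith

theorem small {Y β : ℝ} (hβ : 0 ≤ β) (hY0 : 0 < Y) (hY : Y ≤ 1 / 1000000)
    (hb : Y / 15 < β ^ 2) : 8 * Y ≤ β := by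
  by_contra hcon
  push Not at hcon
  have : β ^ 2 ≤ (8 * Y) ^ 2 := pow_le_pow_left₀ hβ hcon.le 2
  nlinarith

theorem sq60 {β : ℝ} (hβ : 0 ≤ β) (hβ1 : β ≤ 1 / 60) : β ^ 2 ≤ 1 / 60 * β ∧ β ^ 2 ≤ 1 / 3600 := by
  constructor <;> nlinarith

theorem absB {x B : ℝ} (hx : |x| ≤ 1 / 100000) (hB : |B| ≤ 1 / 4) (h : 0 ≤ tau x B)
    (h' : tau x B ≤ 401 / 10000) : -7 / 1000 ≤ B ∧ B ≤ 1 / 1000 := by
  obtain ⟨x1, x2⟩ := abs_le.mp hx
  obtain ⟨b1, b2⟩ := abs_le.mp hB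
  unfold tau at h h'
  have hx2 : x ^ 2 ≤ 1 / 100000 := by nlinarith
  constructor
  · by_contra hcon
    push Not at hcon
    nlinarith [sq_nonneg x, sq_nonneg B]
  · by_contra hcon
    push Not at hcon
    nlinarith

end T3Aux

theorem shape_T3 {Y n x B1 y B3 : ℝ} (h : Window x B1 y B3) (hY0 : 0 < Y) (hY : Y ≤ 1 / 10 ^ 6)
    (hn : Y / 7 ≤ n) (hn' : n ≤ 1 + 2 * Y) (hx : |x| ≤ 4 * Y) (hy : |y| ≤ 4 * Y) (hS : x + y ≤ 0) :
    Y / 100 * (tau x B1 + tau y B3 + tau2 (x + y) (B3 - B1)) ≤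
      E0 x B1 y B3 + n * q2 x B1 y B3 := by
  have hY' : Y ≤ 1 / 1000000 := by norm_num at hY ⊢; exact hY
  obtain ⟨x1, x2⟩ := abs_le.mp hx
  obtain ⟨y1, y2⟩ := abs_le.mp hy
  obtain ⟨b11, b12⟩ := T3Aux.absB (abs_le.2 ⟨by linarith, by linarith⟩) h.hB1 h.t1 h.t1'
  obtain ⟨b31, b32⟩ := T3Aux.absB (abs_le.2 ⟨by linarith, by linarith⟩) h.hB3 h.t3 h.t3'
  have hβ1 : |B3 - B1| ≤ 1 / 60 := abs_le.2 ⟨by linarith, by linarith⟩
  have hss : |x + y| ≤ 1 / 100000 := abs_le.2 ⟨by linarith, by linarith⟩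
  have hA := h.absA
  have hZ := h.absZ
  have hE1 := h.E1_ge
  have hE0 := h.E0_close
  have hq : q2 x B1 y B3 = E1 x B1 y B3 - E0 x B1 y B3 := by unfold E0; ring
  have hE0eq := E0_eq x B1 y B3
  obtain ⟨r1, r2⟩ := h.rel le_rfl hss (by norm_num)
  have h1 := h.t1; have h3 := h.t3; have h2 := h.t2
  have h1' := h.t1'; have h3' := h.t3'; have h2' := h.t2'
  have ht2 : tau2 (x + y) (B3 - B1) = 4 * (x + y) + (x + y) ^ 2 + 3 * (B3 - B1) ^ 2 := rfl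
  have hyx : y - x ≤ 8 * Y := by linarith
  have hyx' : -(8 * Y) ≤ y - x := by linarith
  rw [hq]
  generalize E0 x B1 y B3 = e0 at hE0 hE0eq ⊢
  generalize E1 x B1 y B3 = e1 at hE1 ⊢
  have hAdef : (y - x - 3 * (B3 - B1)) = (y - x) - 3 * (B3 - B1) := rfl
  generalize hAA : y - x - 3 * (B3 - B1) = A at *
  generalize x + y + B1 + B3 = Z at *
  generalize hSS : x + y = S at *
  generalize B3 - B1 = b at *
  generalize hT13 : tau x B1 + tau y B3 = T13 at *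
  have hT0 : 0 ≤ T13 := by linarith
  generalize tau2 S b = t2 at *
  have hA0 := abs_nonneg A
  have hZ0 := abs_nonneg Z
  have hb0 := abs_nonneg b
  have hbsq : b ^ 2 = |b| ^ 2 := (sq_abs b).symm
  -- |S| ≤ 0.76 b²
  have hSabs : |S| = -S := abs_of_nonpos hS
  have hS1 : -(1 / 100000) ≤ S := (abs_le.mp hss).1
  have hS2 : S ^ 2 ≤ 1 / 100000 * (-S) := by
    have := mul_le_mul_of_nonneg_left (show -S ≤ 1 / 100000 by linarith) (show 0 ≤ -S by linarith)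
    linarith
  have hS3 : 0 ≤ S ^ 2 := sq_nonneg S
  have hSb : |S| ≤ 76 / 100 * |b| ^ 2 := by
    rw [hSabs, ← hbsq]
    linarith
  have ht2b : t2 ≤ 3 * |b| ^ 2 := by
    rw [← hbsq, ht2]
    linarith
  -- linear relations
  have a0 : |A| ≤ 501 / 1000 * T13 + 151 / 100 * (|b| * |Z|) := by
    have hp : 0 ≤ |b| * |Z| := mul_nonneg hb0 hZ0
    linarith
  have a1 : |b| * |Z| ≤ 1 / 60 * |Z| := mul_le_mul_of_nonneg_right hβ1 hZ0
  have z0 : |Z| ≤ 34 / 100 * t2 + 177 / 1000 * T13 := by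
    have k1 : |A| * (25 / 1000 + 3 * |b|) ≤ |A| * (75 / 1000) :=
      mul_le_mul_of_nonneg_left (by linarith) hA0
    have k2 : |A| ≤ 501 / 1000 * T13 + 151 / 100 * (1 / 60 * |Z|) := by linarith
    linarith
  have key := T3Aux.aux hT0 h2 hA0 hZ0 hb0 hA hZ hβ1 ht2b hSb a0 z0
  -- lower bound of `E0`
  have m1 : A ^ 2 = |A| ^ 2 := (sq_abs A).symm
  have m2 : b * A ≤ |b| * |A| := by rw [← abs_mul]; exact le_abs_self _
  have m3 : Z ^ 2 = |Z| ^ 2 := (sq_abs Z).symm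
  have m4 : -(|S| * |Z|) ≤ S * Z := by rw [← abs_mul]; exact neg_abs_le _
  have hE0ge : 239 / 1000 * T13 - 34 / 100 * (|b| ^ 2 * t2) ≤ e0 := by
    rw [hE0eq, m1, m3]
    linarith
  obtain ⟨c1, c2⟩ := abs_le.mp hE0
  rcases le_or_gt n 1 with hn1 | hn1
  · have k1 : (1 - n) * (239 / 1000 * T13 - 34 / 100 * (|b| ^ 2 * t2)) ≤ (1 - n) * e0 :=
      mul_le_mul_of_nonneg_left hE0ge (by linarith)
    have hn0 : 0 ≤ n := by linarith [div_pos hY0 (show (0:ℝ) < 7 by norm_num)]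
    have k2 : n * (24 / 100 * (T13 + t2)) ≤ n * e1 := mul_le_mul_of_nonneg_left hE1 hn0
    have k3 : Y / 7 * t2 ≤ n * t2 := mul_le_mul_of_nonneg_right hn h2
    have k4 : 0 ≤ n * (|b| ^ 2 * t2) := by positivity
    have k5 : 0 ≤ n * T13 := by positivity
    have k6 : 239 / 1000 * T13 + 24 / 100 * (Y / 7 * t2) - 34 / 100 * (|b| ^ 2 * t2) ≤
        e0 + n * (e1 - e0) := by linarith
    refine le_trans ?_ k6
    have k7 : Y * T13 ≤ 1 / 1000000 * T13 := mul_le_mul_of_nonneg_right hY' hT0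
    rcases le_or_gt (|b| ^ 2) (Y / 15) with hb | hb
    · have k8 : |b| ^ 2 * t2 ≤ Y / 15 * t2 := mul_le_mul_of_nonneg_right hb h2
      have k9 : 0 ≤ Y * t2 := by positivity
      linarith
    · -- `|b|` is much larger than `Y`
      have k8 : 8 * Y ≤ |b| := T3Aux.small hb0 hY0 hY' hb
      obtain ⟨k12, k12'⟩ := T3Aux.sq60 hb0 hβ1
      have k9 : 2 * |b| ≤ |A| := by
        have e : 3 * b = (y - x) - A := by rw [← hAA]; ring
        have : 3 * |b| = |3 * b| := by rw [abs_mul, abs_of_pos (show (0:ℝ) < 3 by norm_num)]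
        have h5 : |(y - x) - A| ≤ |y - x| + |A| := abs_sub _ _
        have h6 : |y - x| ≤ 8 * Y := abs_le.2 ⟨hyx', hyx⟩
        rw [← e, ← this] at h5
        linarith
      have k10 : |b| * |Z| ≤ 3 / 100 * |b| := by
        have := mul_le_mul_of_nonneg_left hZ hb0
        linarith
      have k11 : 38 / 10 * |b| ≤ T13 := by linarith
      have k13 : t2 ≤ 1 / 20 * |b| := by linarith
      have k14 : |b| ^ 2 * t2 ≤ 1 / 3600 * t2 := mul_le_mul_of_nonneg_right k12' h2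
      have k15 : 0 ≤ Y / 7 * t2 := by positivity
      have k16 : Y * t2 ≤ 1 / 1000000 * t2 := mul_le_mul_of_nonneg_right hY' h2
      linarith
  · have k1 : e0 ≤ 35 / 100 * (T13 + t2) := by linarith
    have hTt : 0 ≤ T13 + t2 := by linarith
    have k2 : (n - 1) * e0 ≤ (n - 1) * (35 / 100 * (T13 + t2)) :=
      mul_le_mul_of_nonneg_left k1 (by linarith)
    have k3 : (n - 1) * (35 / 100 * (T13 + t2)) ≤ (2 * Y) * (35 / 100 * (T13 + t2)) :=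
      mul_le_mul_of_nonneg_right (by linarith) (by positivity)
    have k4 : Y * (T13 + t2) ≤ 1 / 1000000 * (T13 + t2) := mul_le_mul_of_nonneg_right hY' hTt
    have k5 : 0 ≤ e1 := by linarith
    have k6 : 1 * e1 ≤ n * e1 := mul_le_mul_of_nonneg_right hn1.le k5
    linarith

end H33Solid
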