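import Pool.Agent.H33.Solid.EtotSoft
import Pool.Agent.H33.Solid.Coord
import Pool.Agent.H33.Solid.HardT1
import Pool.Agent.H33.Solid.HardT2
import Pool.Agent.H33.Solid.ShapeT3

/-! Module LM2: nonnegativity of the total energy -/

namespace H33Solid

variable {Y s x B1 y B3 n : ℝ}

/-- second coordinate of an edge of length exactly two -/
noncomputable def Bh (v : ℝ) : ℝ := (v + 2 * rf v) / 3

theorem tau_Bh {v : ℝ} (hv : |v| ≤ 1 / 10) : tau v (Bh v) = 0 := by
  have := rf_rel hv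
  unfold tau Bh
  nlinarith

theorem Bh_abs {v : ℝ} (hv : |v| ≤ 1 / 10) : |Bh v| ≤ 1 / 10 := by
  have h1 := rf_le_half hv
  have h2 := rf_nonneg hv
  unfold Bh
  obtain ⟨h3, h4⟩ := abs_le.mp hv
  rw [abs_le]
  constructor <;> linarith

theorem tau_diff (v B B' : ℝ) : tau v B - tau v B' = (B' - B) * (6 - 3 * (B + B')) := by
  unfold tau; ring

theorem le_Bh {v B : ℝ} (hv : |v| ≤ 1 / 10) (hB : |B| ≤ 1 / 4) (h : 0 ≤ tau v B) : B ≤ Bh v := by
  have h1 := tau_diff v B (Bh v)
  rw [tau_Bh hv] at h1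
  obtain ⟨h2, h3⟩ := abs_le.mp (Bh_abs hv)
  obtain ⟨h4, h5⟩ := abs_le.mp hB
  by_contra hcon
  push Not at hcon
  nlinarith

theorem eq_Bh {v B : ℝ} (hv : |v| ≤ 1 / 10) (hB : |B| ≤ 1 / 4) (h : tau v B = 0) : B = Bh v := by
  have h1 := tau_diff v B (Bh v)
  rw [tau_Bh hv, h] at h1
  obtain ⟨h2, h3⟩ := abs_le.mp (Bh_abs hv)
  obtain ⟨h4, h5⟩ := abs_le.mp hB
  have : (6 - 3 * (B + Bh v)) ≠ 0 := by intro h6; linarith
  have h7 : Bh v - B = 0 := by
    rcases mul_eq_zero.mp (by linarith : (Bh v - B) * (6 - 3 * (B + Bh v)) = 0) with h8 | h8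
    · exact h8
    · exact absurd h8 this
  linarith

theorem E0_can (x y : ℝ) : E0 x (Bh x) y (Bh y) =
    - rf x - rf y - 2 / 3 * (x * y) - 2 / 3 * (y * rf x + x * rf y) := by
  unfold E0 E1 q2 Bh; ring

theorem q2_can (x y : ℝ) : q2 x (Bh x) y (Bh y) =
    (x + y) - x * y / 3 - (y * rf x + x * rf y) / 3 := by
  unfold q2 Bh; ring

/-- reduction to the canonical shape -/
theorem can_reduction {R : ℝ} (hx : |x| ≤ 1 / 10) (hy : |y| ≤ 1 / 10) (hn0 : 0 ≤ n)
    (hn1 : n ≤ 2) (hR : |R| ≤ 1 / 20) (hB1 : B1 ≤ Bh x) (hB3 : B3 ≤ Bh y) :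
    E0 x (Bh x) y (Bh y) + n * q2 x (Bh x) y (Bh y) + 1 / 2 * cl (Bh y - Bh x) (x + y) * R
      + ((Bh x - B1) + (Bh y - B3)) ≤
    E0 x B1 y B3 + n * q2 x B1 y B3 + 1 / 2 * cl (B3 - B1) (x + y) * R := by
  have e : (E0 x B1 y B3 + n * q2 x B1 y B3) - (E0 x (Bh x) y (Bh y) + n * q2 x (Bh x) y (Bh y)) =
      3 / 2 * ((1 + y) * (Bh x - B1) + (1 + x) * (Bh y - B3))
        - (1 - n) / 2 * (y * (Bh x - B1) + x * (Bh y - B3)) := by
    unfold E0 E1 q2; ring
  have hc := cl_lip (B3 - B1) (Bh y - Bh x) (x + y)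
  obtain ⟨d1, hd1⟩ : ∃ d, d = Bh x - B1 := ⟨_, rfl⟩
  obtain ⟨d3, hd3⟩ : ∃ d, d = Bh y - B3 := ⟨_, rfl⟩
  have h1 : 0 ≤ d1 := by linarith
  have h3 : 0 ≤ d3 := by linarith
  rw [← hd1, ← hd3] at e ⊢
  have h4 : |B3 - B1 - (Bh y - Bh x)| ≤ d1 + d3 := by
    rw [abs_le]; constructor <;> linarith
  have h5 : |(cl (B3 - B1) (x + y) - cl (Bh y - Bh x) (x + y)) * R| ≤ (3 * (d1 + d3)) * (1 / 20) := by
    rw [abs_mul]
    apply mul_le_mul _ hR (abs_nonneg _) (by positivity)
    linarith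
  have h6 := (abs_le.mp h5).1
  obtain ⟨x1, x2⟩ := abs_le.mp hx
  obtain ⟨y1, y2⟩ := abs_le.mp hy
  have h7 : (1 - n) / 2 * (y * d1 + x * d3) ≤ 1 / 2 * (1 / 10 * (d1 + d3)) := by
    have a1 : |(1 - n) / 2| ≤ 1 / 2 := by rw [abs_le]; constructor <;> linarith
    have a2 : |y * d1 + x * d3| ≤ 1 / 10 * (d1 + d3) := by
      calc |y * d1 + x * d3| ≤ |y * d1| + |x * d3| := abs_add_le _ _
        _ = |y| * d1 + |x| * d3 := by rw [abs_mul, abs_mul, abs_of_nonneg h1, abs_of_nonneg h3]
        _ ≤ 1 / 10 * d1 + 1 / 10 * d3 := add_le_add (mul_le_mul_of_nonneg_right hy h1)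
          (mul_le_mul_of_nonneg_right hx h3)
        _ = _ := by ring
    calc (1 - n) / 2 * (y * d1 + x * d3) ≤ |(1 - n) / 2 * (y * d1 + x * d3)| := le_abs_self _
      _ = |(1 - n) / 2| * |y * d1 + x * d3| := abs_mul _ _
      _ ≤ _ := mul_le_mul a1 a2 (abs_nonneg _) (by norm_num)
  have h8 : 9 / 10 * (d1 + d3) ≤ (1 + y) * d1 + (1 + x) * d3 := by nlinarith
  nlinarith

/-- reflection symmetry -/
theorem avg_reflect (h0 : 0 < Y) (h1 : Y ≤ 1 / 1000) (a b : ℝ) :
    avg (ff Y) (Y - a) (Y - b) = (Y - rf Y) - avg (ff Y) a b := by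
  have hc := ff_continuous h0 (by linarith : Y ≤ 1 / 10)
  have : avg (ff Y) (Y - a) (Y - b) = avg (fun u => (fun _ => (Y - rf Y)) u - ff Y u) a b := by
    unfold avg
    congr 1
    funext t
    rw [show Y - a + t * (Y - b - (Y - a)) = Y - (a + t * (b - a)) by ring, ff_reflect h0 h1]
  rw [this, avg_sub continuous_const hc]
  simp [avg]

/-- the energy in the hard region -/
noncomputable def Eh (Y n s x B1 y B3 : ℝ) : ℝ :=
  E0 x B1 y B3 + n * q2 x B1 y B3 + 1 / 2 * cl (B3 - B1) (x + y) * RR Y s (s + (x + y))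

theorem Eh_reflect : Eh Y n (Y - s - (x + y)) y B3 x B1 = Eh Y n s x B1 y B3 := by
  unfold Eh RR
  rw [show B1 - B3 = -(B3 - B1) by ring, cl_neg, add_comm y x,
    show Y - s - (x + y) + (x + y) - Y = -s by ring,
    show -(Y - s - (x + y)) = s + (x + y) - Y by ring]
  unfold E0 E1 q2
  ring

/-- data of a triangle in the hard region, near the rise -/
structure Hard (Y n s x B1 y B3 : ℝ) : Prop where
  h0 : 0 < Y
  h1 : Y ≤ 1 / 10 ^ 6
  win : Window x B1 y B3
  hx : |x| ≤ 4 * Y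
  hy : |y| ≤ 4 * Y
  hS : x + y ≤ 4 * Y
  hS0 : 0 < x + y
  hn : al Y ≤ n
  hn' : n ≤ 1 + 2 * Y
  lo : s ≤ Y ∨ s + x ≤ Y
  hi : 0 ≤ s + (x + y) ∨ 0 ≤ s + x
  e1 : avg (ff Y) (s + x) (s + (x + y)) = avg (ff Y) s (s + (x + y)) + x / 2 * (1 - n)
  e2 : avg (ff Y) s (s + x) = avg (ff Y) s (s + (x + y)) - y / 2 * (1 - n)

def Concl (Y n s x B1 y B3 : ℝ) : Prop :=
  0 ≤ Eh Y n s x B1 y B3 ∧ (Eh Y n s x B1 y B3 = 0 →
    tau x B1 = 0 ∧ tau y B3 = 0 ∧ x + y = Y ∧ s = 0)

theorem Hard.reflect (h : Hard Y n s x B1 y B3) : Hard Y n (Y - s - (x + y)) y B3 x B1 := by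
  have h1 : Y ≤ 1 / 1000 := by have := h.h1; norm_num at this ⊢; linarith
  refine ⟨h.h0, h.h1, ⟨h.win.hy, h.win.hB3, h.win.hx, h.win.hB1, ?_, ?_, h.win.t3, h.win.t3',
    h.win.t1, h.win.t1', ?_, ?_⟩, h.hy, h.hx, ?_, ?_, h.hn, h.hn', ?_, ?_, ?_, ?_⟩
  · rw [add_comm]; exact h.win.hS
  · rw [abs_sub_comm]; exact h.win.hb
  · have := h.win.t2; unfold tau2 at this ⊢; linarith
  · have := h.win.t2'; unfold tau2 at this ⊢; linarith
  · rw [add_comm]; exact h.hS
  · rw [add_comm]; exact h.hS0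
  · rcases h.hi with h2 | h2
    · left; linarith
    · right; linarith
  · rcases h.lo with h2 | h2
    · left; linarith
    · right; linarith
  · rw [show Y - s - (x + y) + y = Y - (s + x) by ring,
      show Y - s - (x + y) + (y + x) = Y - s by ring,
      show Y - s - (x + y) = Y - (s + (x + y)) by ring,
      avg_reflect h.h0 h1, avg_reflect h.h0 h1, avg_symm _ (s + x), avg_symm _ (s + (x + y)),
      h.e2]
    ring
  · rw [show Y - s - (x + y) + y = Y - (s + x) by ring,
      show Y - s - (x + y) + (y + x) = Y - s by ring,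
      show Y - s - (x + y) = Y - (s + (x + y)) by ring,
      avg_reflect h.h0 h1, avg_reflect h.h0 h1, avg_symm _ (s + (x + y)) (s + x),
      avg_symm _ (s + (x + y)) s, h.e1]
    ring

theorem Concl.reflect (h : Concl Y n (Y - s - (x + y)) y B3 x B1) : Concl Y n s x B1 y B3 := by
  unfold Concl at h ⊢
  rw [Eh_reflect] at h
  refine ⟨h.1, fun h2 => ?_⟩
  obtain ⟨a, b, c, d⟩ := h.2 h2
  exact ⟨b, a, by linarith, by linarith⟩

theorem rf_mono {v w : ℝ} (hv0 : 0 ≤ v) (hvw : v ≤ w) (hw : w ≤ 1 / 10) : rf v ≤ rf w := by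
  rcases eq_or_lt_of_le hv0 with h | h
  · rw [← h]
    have : rf 0 = 0 := by
      have h2 := rf_le_half (v := 0) (by norm_num)
      have h3 := rf_nonneg (v := 0) (by norm_num)
      simp at h2; linarith
    rw [this]
    exact rf_nonneg (by rw [abs_of_nonneg (by linarith)]; exact hw)
  · have h1 := rf_ratio hv0 hvw hw
    have h2 : 0 ≤ rf v := rf_nonneg (by rw [abs_of_nonneg hv0]; linarith)
    have h3 : 0 ≤ v * w * (w - v) / 3 := by
      apply div_nonneg _ (by norm_num)
      exact mul_nonneg (mul_nonneg hv0 (by linarith)) (by linarith)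
    have h4 : v * rf v ≤ w * rf v := mul_le_mul_of_nonneg_right hvw h2
    have h5 : v * rf v ≤ v * rf w := by linarith
    exact le_of_mul_le_mul_left h5 h

/-- the case `0 ≤ x ≤ y` -/
theorem Hard.T1 (h : Hard Y n s x B1 y B3) (hx0 : 0 ≤ x) (hxy : x ≤ y) :
    Concl Y n s x B1 y B3 := by
  have h0 := h.h0
  have h1 := h.h1
  have h1' : Y ≤ 1 / 1000 := by norm_num at h1 ⊢; linarith
  have hx := (abs_le.mp h.hx).2
  have hy := (abs_le.mp h.hy).2
  have ax : |x| ≤ 1 / 10 := by have := h.hx; linarith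
  have ay : |y| ≤ 1 / 10 := by have := h.hy; linarith
  have hc1 : s ≤ Y := by rcases h.lo with h2 | h2 <;> linarith
  have hc2 : 0 ≤ s + (x + y) := by rcases h.hi with h2 | h2 <;> linarith
  have hal := (al_bounds h0 (by linarith : Y ≤ 1 / 10)).1
  have hb1 := le_Bh ax h.win.hB1 h.win.t1
  have hb3 := le_Bh ay h.win.hB3 h.win.t3
  have hn : (x + y) * (1 - n) =
      2 * (avg (ff Y) (s + x) (s + (x + y)) - avg (ff Y) s (s + x)) := by
    rw [h.e1, h.e2]; ring
  obtain ⟨m1, m2, hm1, hm2, k1, k1', k2, k2', hh⟩ :=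
    mean_lower h0 h1' hx0 (by linarith : (0:ℝ) ≤ y) h.hS0 h.hS hc1 hc2 hn
  have hR := RR_abs h0.le s (s + (x + y))
  have hβ1 : y - x ≤ cl (Bh y - Bh x) (x + y) := by
    apply cl_ge h.hS0.le
    · have := rf_mono hx0 hxy (by linarith : y ≤ 1 / 10)
      unfold Bh; linarith
    · linarith
  have key := hard_T1 h0 h1 hx0 hxy h.hS0 h.hS hc1 hc2 hm1 hm2 k1 k1' k2 k2' hh hβ1
    (cl_le h.hS0.le)
  have red := can_reduction (R := RR Y s (s + (x + y))) (B1 := B1) (B3 := B3) ax ay
    (by linarith [h.hn]) (by linarith [h.hn'] : n ≤ 2) (by linarith) hb1 hb3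
  rw [E0_can, q2_can] at red
  have hpos : 0 ≤ (x + y) / (6 * Y) * (x * y / 8 + Y / 200 * (|s| + |Y - (s + (x + y))|)) := by
    have := h.hS0
    have : 0 ≤ y := by linarith
    positivity
  unfold Concl Eh
  constructor
  · linarith
  · intro hz
    have z1 : Bh x - B1 = 0 := by linarith
    have z3 : Bh y - B3 = 0 := by linarith
    have z2 : (x + y) / (6 * Y) * (x * y / 8 + Y / 200 * (|s| + |Y - (s + (x + y))|)) = 0 := by
      linarith
    have hS0 := h.hS0
    have z4 : x * y / 8 + Y / 200 * (|s| + |Y - (s + (x + y))|) = 0 := by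
      rcases mul_eq_zero.mp z2 with h5 | h5
      · exfalso
        have : 0 < (x + y) / (6 * Y) := by positivity
        linarith
      · exact h5
    have a1 : 0 ≤ x * y / 8 := by
      have : 0 ≤ y := by linarith
      positivity
    have a2 := abs_nonneg s
    have a3 := abs_nonneg (Y - (s + (x + y)))
    have a4 : |s| + |Y - (s + (x + y))| = 0 := by
      have : 0 ≤ Y / 200 * (|s| + |Y - (s + (x + y))|) := by positivity
      have h6 : Y / 200 * (|s| + |Y - (s + (x + y))|) = 0 := by linarith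
      rcases mul_eq_zero.mp h6 with h7 | h7
      · linarith
      · exact h7
    have a5 : s = 0 := abs_eq_zero.mp (by linarith)
    have a6 : Y - (s + (x + y)) = 0 := abs_eq_zero.mp (by linarith)
    refine ⟨?_, ?_, by linarith, a5⟩
    · rw [show B1 = Bh x by linarith]; exact tau_Bh ax
    · rw [show B3 = Bh y by linarith]; exact tau_Bh ay

/-- the case `x < 0` -/
theorem Hard.T2 (h : Hard Y n s x B1 y B3) (hx0 : x < 0) :
    Concl Y n s x B1 y B3 := by
  have h0 := h.h0
  have h1 := h.h1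
  have h1' : Y ≤ 1 / 1000 := by norm_num at h1 ⊢; linarith
  have hx := (abs_le.mp h.hx).1
  have hy := (abs_le.mp h.hy).2
  have ax : |x| ≤ 1 / 10 := by have := h.hx; linarith
  have ay : |y| ≤ 1 / 10 := by have := h.hy; linarith
  have hS0 := h.hS0
  have hal := (al_bounds h0 (by linarith : Y ≤ 1 / 10)).1
  have hb1 := le_Bh ax h.win.hB1 h.win.t1
  have hb3 := le_Bh ay h.win.hB3 h.win.t3
  have hc1 : s + x ≤ Y := by rcases h.lo with h2 | h2 <;> linarith
  have hc2 : 0 ≤ s + x + (-x + (x + y)) := by rcases h.hi with h2 | h2 <;> linarith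
  have hn : (-x + (x + y)) * (1 - n) =
      2 * (avg (ff Y) (s + x + -x) (s + x + (-x + (x + y))) - avg (ff Y) (s + x) (s + x + -x)) := by
    rw [show s + x + -x = s by ring, show s + x + (-x + (x + y)) = s + (x + y) by ring,
      avg_symm _ (s + x) s, h.e2]
    ring
  obtain ⟨m1, m2, hm1, hm2, k1, k1', k2, k2', hh⟩ :=
    mean_lower h0 h1' (by linarith : (0:ℝ) ≤ -x) hS0.le (by linarith) (by linarith) hc1 hc2 hn
  have key := hard_T2 h0 h1 (by linarith : (0:ℝ) < -x) hS0 (by linarith) hc1 hc2 hm1 hm2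
    k1 k1' k2 k2' hh h.hn
  rw [show - -x = x by ring, show -x + (x + y) = y by ring, show s + x + -x = s by ring,
    show s + x + y = s + (x + y) by ring] at key
  have hR := RR_abs h0.le s (s + (x + y))
  have hβ : cl (Bh y - Bh x) (x + y) = x + y := by
    apply le_antisymm (cl_le hS0.le)
    apply cl_ge hS0.le _ le_rfl
    have r1 := rf_le_half ax
    have r2 := rf_nonneg ay
    rw [abs_of_neg hx0] at r1
    unfold Bh; linarith
  have red := can_reduction (R := RR Y s (s + (x + y))) (B1 := B1) (B3 := B3) ax ay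
    (by linarith [h.hn]) (by linarith [h.hn'] : n ≤ 2) (by linarith) hb1 hb3
  rw [E0_can, q2_can, hβ] at red
  have : 0 < Eh Y n s x B1 y B3 := by
    unfold Eh
    have e : n * (x + y - x * y / 3 - (y * rf x + x * rf y) / 3) =
      n * (x + y + -x * y / 3 - (y * rf x - -x * rf y) / 3) := by ring
    linarith
  exact ⟨this.le, fun hz => absurd hz this.ne'⟩

theorem Hard.concl (h : Hard Y n s x B1 y B3) : Concl Y n s x B1 y B3 := by
  rcases lt_or_ge x 0 with hx | hx
  · exact h.T2 hx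
  · rcases lt_or_ge y 0 with hy | hy
    · exact (h.reflect.T2 hy).reflect
    · rcases le_total x y with hxy | hxy
      · exact h.T1 hx hxy
      · exact (h.reflect.T1 hy hxy).reflect


theorem B_small (hY : |x| ≤ 1 / 1000) (hB : |B1| ≤ 1 / 4) (h1 : 0 ≤ tau x B1)
    (h2 : tau x B1 ≤ 401 / 10000) : -(8 / 1000) ≤ B1 ∧ B1 ≤ 1 / 1000 := by
  obtain ⟨x1, x2⟩ := abs_le.mp hY
  obtain ⟨b1, b2⟩ := abs_le.mp hB
  unfold tau at h1 h2
  constructor
  · by_contra hcon
    push Not at hcon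
    nlinarith
  · by_contra hcon
    push Not at hcon
    nlinarith

theorem etotOK (h0 : 0 < Y) (h1 : Y ≤ 1 / 10 ^ 6) : EtotOK Y := by
  intro s x B1 y B3 h
  have h1' : Y ≤ 1 / 1000 := by norm_num at h1 ⊢; linarith
  obtain ⟨n, hn, hn', nx, ny, nS, e1, e2, hfar⟩ := mean h0 h1' s x y
  have hal := (al_bounds h0 (by linarith : Y ≤ 1 / 10)).1
  rcases le_or_gt |1 - n| (1 / 2) with hsoft | hhard
  · have hn2 : 1 / 2 ≤ n := by have := (abs_le.mp hsoft).2; linarith
    have key := Etot_soft h h0 h1 hn2 hn' e1 e2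
    have t1 := h.t1; have t2 := h.t2; have t3 := h.t3
    refine ⟨?_, fun hz => Or.inl ?_⟩
    · have : 0 ≤ tau x B1 + tau y B3 + tau2 (x + y) (B3 - B1) := by positivity
      linarith
    · rw [hz] at key
      have : 0 ≤ tau x B1 + tau y B3 + tau2 (x + y) (B3 - B1) := by positivity
      linarith
  · have hx : |x| ≤ 4 * Y := by nlinarith [abs_nonneg x]
    have hy : |y| ≤ 4 * Y := by nlinarith [abs_nonneg y]
    have hS : |x + y| ≤ 4 * Y := by nlinarith [abs_nonneg (x + y)]
    have hn1 : n < 1 / 2 := by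
      by_contra hcon
      push Not at hcon
      have : |1 - n| ≤ 1 / 2 := by rw [abs_le]; constructor <;> linarith
      linarith
    obtain ⟨b1, b1'⟩ := B_small (by linarith : |x| ≤ 1 / 1000) h.hB1 h.t1 h.t1'
    obtain ⟨b3, b3'⟩ := B_small (by linarith : |y| ≤ 1 / 1000) h.hB3 h.t3 h.t3'
    obtain ⟨x1, x2⟩ := abs_le.mp hx
    obtain ⟨y1, y2⟩ := abs_le.mp hy
    have η1 : eta (x + B1) = 1 := eta_one (by rw [abs_le]; constructor <;> linarith)
    have η3 : eta (y + B3) = 1 := eta_one (by rw [abs_le]; constructor <;> linarith)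
    have η2 : eta (2 * (B3 - B1)) = 1 := eta_one (by rw [abs_le]; constructor <;> linarith)
    have hE : Etot Y s x B1 y B3 = E0 x B1 y B3 + n * q2 x B1 y B3 +
        1 / 2 * cl (B3 - B1) (x + y) * (R1 Y (s + (x + y)) - R1 Y (Y - s)) := by
      rw [Etot_eq e1 e2, η1, η2, η3]; ring
    rcases le_or_gt (x + y) 0 with hS0 | hS0
    · have key := shape_T3 h h0 h1 (by linarith) hn' hx hy hS0
      rw [hE, cl_nonpos hS0]
      have t1 := h.t1; have t2 := h.t2; have t3 := h.t3
      have hT : 0 ≤ tau x B1 + tau y B3 + tau2 (x + y) (B3 - B1) := by positivity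
      have hYT : 0 ≤ Y / 100 * (tau x B1 + tau y B3 + tau2 (x + y) (B3 - B1)) := by positivity
      refine ⟨by linarith, fun hz => Or.inl ?_⟩
      have hz' : Y / 100 * (tau x B1 + tau y B3 + tau2 (x + y) (B3 - B1)) = 0 := by linarith
      rcases mul_eq_zero.mp hz' with h5 | h5
      · linarith
      · exact h5
    · -- near the rise
      have : ∃ k : ℤ, (k : ℝ) ≤ max s (max (s + x) (s + (x + y))) ∧
          min s (min (s + x) (s + (x + y))) ≤ k + Y := by
        by_contra hcon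
        push Not at hcon
        have := hfar (fun k => by
          rcases lt_or_ge (max s (max (s + x) (s + (x + y)))) (k : ℝ) with h5 | h5
          · exact Or.inl h5
          · exact Or.inr (hcon k h5))
        linarith
      obtain ⟨k, hk1, hk2⟩ := this
      have hsh : ∀ u, ff Y (u + (-k : ℤ)) = ff Y u := fun u => ff_add_int u (-k)
      have hcast : ((-k : ℤ) : ℝ) = -(k : ℝ) := by push_cast; ring
      have f1 : avg (ff Y) (s - k) (s - k + (x + y)) = avg (ff Y) s (s + (x + y)) := by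
        have := avg_shift hsh s (s + (x + y))
        rw [hcast] at this
        rw [← this]; congr 1 <;> ring
      have f2 : avg (ff Y) (s - k + x) (s - k + (x + y)) = avg (ff Y) (s + x) (s + (x + y)) := by
        have := avg_shift hsh (s + x) (s + (x + y))
        rw [hcast] at this
        rw [← this]; congr 1 <;> ring
      have f3 : avg (ff Y) (s - k) (s - k + x) = avg (ff Y) s (s + x) := by
        have := avg_shift hsh s (s + x)
        rw [hcast] at this
        rw [← this]; congr 1 <;> ring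
      have H : Hard Y n (s - k) x B1 y B3 := by
        refine ⟨h0, h1, h, hx, hy, (abs_le.mp hS).2, hS0, hn, hn', ?_, ?_, ?_, ?_⟩
        · rcases min_le_iff.mp hk2 with h5 | h5
          · left; linarith
          · rcases min_le_iff.mp h5 with h6 | h6
            · right; linarith
            · left; linarith
        · rcases le_max_iff.mp hk1 with h5 | h5
          · left; linarith
          · rcases le_max_iff.mp h5 with h6 | h6
            · right; linarith
            · left; linarith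
        · rw [f2, f1, e1]
        · rw [f3, f1, e2]
      obtain ⟨c1, c2⟩ := H.concl
      have hlo : -(1 / 4) ≤ s - k ∧ s - k ≤ 1 / 4 := by
        rcases H.lo with h5 | h5 <;> rcases H.hi with h6 | h6 <;> constructor <;> linarith
      have r1 : R1 Y (s + (x + y)) = min (max (s - k + (x + y) - Y) 0) Y := by
        rw [← R1_window h0.le (by rcases H.hi with h6 | h6 <;> linarith) (by linarith)]
        have := R1_add_int (Y := Y) (v := s - k + (x + y)) k
        rw [← this]; congr 1; ring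
      have r2 : R1 Y (Y - s) = min (max (-(s - k)) 0) Y := by
        have h7 := R1_window (v := Y - (s - k)) h0.le (by linarith) (by linarith)
        rw [show Y - (s - k) - Y = -(s - k) by ring] at h7
        rw [← h7]
        have := R1_add_int (Y := Y) (v := Y - s) k
        rw [← this]; congr 1; ring
      have hEE : Etot Y s x B1 y B3 = Eh Y n (s - k) x B1 y B3 := by
        rw [hE, r1, r2]; rfl
      rw [hEE]
      refine ⟨c1, fun hz => Or.inr ?_⟩
      obtain ⟨_, z2, z3, z4⟩ := c2 hz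
      exact ⟨z2, z3, k, by linarith⟩

end H33Solid
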