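import Pool.Agent.H33.Solid.Etot
import Pool.Agent.H33.Solid.Mean

/-! Module LM1: the soft region -/

namespace H33Solid

variable {Y s x B1 y B3 n : ℝ}

/-- rewriting of the total energy by means of the mean `n` -/
theorem Etot_eq
    (e1 : avg (ff Y) (s + x) (s + (x + y)) = avg (ff Y) s (s + (x + y)) + x / 2 * (1 - n))
    (e2 : avg (ff Y) s (s + x) = avg (ff Y) s (s + (x + y)) - y / 2 * (1 - n)) :
    Etot Y s x B1 y B3 =
      (1 - eta (2 * (B3 - B1))) * E1 x B1 y B3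
      + eta (2 * (B3 - B1)) * (E0 x B1 y B3 + n * q2 x B1 y B3)
      + (eta (x + B1) - eta (2 * (B3 - B1))) * (2 - B1) * avg (ff Y) s (s + x)
      - (eta (y + B3) - eta (2 * (B3 - B1))) * (2 - B3) * avg (ff Y) (s + x) (s + (x + y))
      + eta (2 * (B3 - B1)) * (1 / 2 * cl (B3 - B1) (x + y) *
        (R1 Y (s + (x + y)) - R1 Y (Y - s))) := by
  unfold Etot
  rw [e1, e2]
  unfold E0 q2
  ring

theorem E0q2_soft (h : Window x B1 y B3) (h0 : 0 < Y) (h1 : Y ≤ 1 / 1000) (hn : 1 / 2 ≤ n)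
    (hn' : n ≤ 1 + 2 * Y) : 6 / 100 * (tau x B1 + tau y B3 + tau2 (x + y) (B3 - B1)) ≤
      E0 x B1 y B3 + n * q2 x B1 y B3 := by
  have e : E0 x B1 y B3 + n * q2 x B1 y B3 = (1 - n) * E0 x B1 y B3 + n * E1 x B1 y B3 := by
    unfold E0; ring
  rw [e]
  have hE1 := h.E1_ge
  obtain ⟨c1, c2⟩ := abs_le.mp h.E0_close
  have t1 := h.t1; have t2 := h.t2; have t3 := h.t3
  set T1 := tau x B1
  set T3 := tau y B3
  set T2 := tau2 (x + y) (B3 - B1)
  have hE1' : 24 / 100 * (T1 + T3 + T2) * n ≤ n * E1 x B1 y B3 := by nlinarith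
  rcases le_total n 1 with h2 | h2
  · have : (1 - n) * (-((T1 + T3 + T2) / 10)) ≤ (1 - n) * E0 x B1 y B3 :=
      mul_le_mul_of_nonneg_left (by linarith) (by linarith)
    nlinarith
  · have : (n - 1) * E0 x B1 y B3 ≤ (n - 1) * (35 / 100 * (T1 + T3 + T2)) :=
      mul_le_mul_of_nonneg_left (by linarith) (by linarith)
    nlinarith

theorem Etot_soft (h : Window x B1 y B3) (h0 : 0 < Y) (h1 : Y ≤ 1 / 10 ^ 6) (hn : 1 / 2 ≤ n)
    (hn' : n ≤ 1 + 2 * Y)
    (e1 : avg (ff Y) (s + x) (s + (x + y)) = avg (ff Y) s (s + (x + y)) + x / 2 * (1 - n))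
    (e2 : avg (ff Y) s (s + x) = avg (ff Y) s (s + (x + y)) - y / 2 * (1 - n)) :
    5 / 100 * (tau x B1 + tau y B3 + tau2 (x + y) (B3 - B1)) ≤ Etot Y s x B1 y B3 := by
  have h1' : Y ≤ 1 / 1000 := by norm_num at h1 ⊢; linarith
  have hc := ff_continuous h0 (by linarith : Y ≤ 1 / 10)
  have hrf : 0 ≤ rf Y := rf_nonneg (by rw [abs_of_pos h0]; linarith)
  have hS := E0q2_soft h h0 h1' hn hn'
  have hE1 := h.E1_ge
  obtain ⟨l1, l2⟩ := h.linA
  have t1 := h.t1; have t2 := h.t2; have t3 := h.t3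
  have a1 := avg_le_const hc (fun u => ff_le h0 h1' u) s (s + x)
  have a2 := const_le_avg hc (fun u => ff_nonneg h0 h1' u) s (s + x)
  have a3 := avg_le_const hc (fun u => ff_le h0 h1' u) (s + x) (s + (x + y))
  have a4 := const_le_avg hc (fun u => ff_nonneg h0 h1' u) (s + x) (s + (x + y))
  have w1 := h.hB1
  have w3 := h.hB3
  -- Lipschitz estimates
  have k1 : |eta (x + B1) - eta (2 * (B3 - B1))| ≤
      34 * (tau x B1 + tau y B3 + tau2 (x + y) (B3 - B1)) := by
    rw [← eta_neg (2 * (B3 - B1))]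
    have := eta_lip (x + B1) (-(2 * (B3 - B1)))
    have e : x + B1 - -(2 * (B3 - B1)) =
      ((x + y + B1 + B3) - (y - x - 3 * (B3 - B1))) / 2 := by ring
    rw [e, abs_div, abs_two] at this
    have h5 := abs_sub (x + y + B1 + B3) (y - x - 3 * (B3 - B1))
    linarith
  have k3 : |eta (y + B3) - eta (2 * (B3 - B1))| ≤
      34 * (tau x B1 + tau y B3 + tau2 (x + y) (B3 - B1)) := by
    have := eta_lip (y + B3) (2 * (B3 - B1))
    have e : y + B3 - 2 * (B3 - B1) =
      ((x + y + B1 + B3) + (y - x - 3 * (B3 - B1))) / 2 := by ring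
    rw [e, abs_div, abs_two] at this
    have h5 := abs_add_le (x + y + B1 + B3) (y - x - 3 * (B3 - B1))
    linarith
  rw [Etot_eq e1 e2]
  have hη0 := eta_nonneg (2 * (B3 - B1))
  have hη1 := eta_le_one (2 * (B3 - B1))
  have hcl := cl_abs (B3 - B1) (x + y)
  have hSp : max (x + y) 0 ≤ tau2 (x + y) (B3 - B1) / 4 := by
    apply max_le
    · unfold tau2; nlinarith [sq_nonneg (x + y), sq_nonneg (B3 - B1)]
    · linarith
  have r1 := R1_nonneg h0.le (s + (x + y))
  have r2 := R1_le h0.le (s + (x + y))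
  have r3 := R1_nonneg h0.le (Y - s)
  have r4 := R1_le h0.le (Y - s)
  set T := tau x B1 + tau y B3 + tau2 (x + y) (B3 - B1) with hT
  have hT0 : 0 ≤ T := by positivity
  set η := eta (2 * (B3 - B1))
  -- first two terms
  have m1 : 6 / 100 * T ≤ (1 - η) * E1 x B1 y B3 + η * (E0 x B1 y B3 + n * q2 x B1 y B3) := by
    have u1 : (1 - η) * (6 / 100 * T) ≤ (1 - η) * E1 x B1 y B3 :=
      mul_le_mul_of_nonneg_left (by linarith) (by linarith)
    have u2 : η * (6 / 100 * T) ≤ η * (E0 x B1 y B3 + n * q2 x B1 y B3) :=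
      mul_le_mul_of_nonneg_left hS hη0
    linarith
  -- error terms
  have m2 : |(eta (x + B1) - η) * (2 - B1) * avg (ff Y) s (s + x)| ≤ 34 * T * (9 / 4) * Y := by
    rw [abs_mul, abs_mul]
    apply mul_le_mul _ _ (abs_nonneg _) (by positivity)
    · apply mul_le_mul k1 _ (abs_nonneg _) (by positivity)
      obtain ⟨b1, b2⟩ := abs_le.mp w1
      rw [abs_le]; constructor <;> linarith
    · rw [abs_le]; constructor <;> linarith
  have m3 : |(eta (y + B3) - η) * (2 - B3) * avg (ff Y) (s + x) (s + (x + y))| ≤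
      34 * T * (9 / 4) * Y := by
    rw [abs_mul, abs_mul]
    apply mul_le_mul _ _ (abs_nonneg _) (by positivity)
    · apply mul_le_mul k3 _ (abs_nonneg _) (by positivity)
      obtain ⟨b1, b2⟩ := abs_le.mp w3
      rw [abs_le]; constructor <;> linarith
    · rw [abs_le]; constructor <;> linarith
  have m4 : |η * (1 / 2 * cl (B3 - B1) (x + y) * (R1 Y (s + (x + y)) - R1 Y (Y - s)))| ≤
      1 * (1 / 2 * (T / 4) * Y) := by
    rw [abs_mul, abs_mul, abs_mul]
    apply mul_le_mul _ _ (by positivity) (by norm_num)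
    · rw [abs_of_nonneg hη0]; exact hη1
    · apply mul_le_mul _ _ (abs_nonneg _) (by positivity)
      · apply mul_le_mul _ _ (abs_nonneg _) (by norm_num)
        · rw [abs_of_pos (by norm_num)]
        · linarith
      · rw [abs_le]; constructor <;> linarith
  have m2' := (abs_le.mp m2).1
  have m3' := (abs_le.mp m3).2
  have m4' := (abs_le.mp m4).1
  have hTY : T * Y ≤ T * (1 / 10 ^ 6) := mul_le_mul_of_nonneg_left h1 hT0
  nlinarith

end H33Solid
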