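import Pool.Agent.H33.Solid.Pt

/-!
# Module H: rigidity
-/

namespace H33Solid.RigidAux

open MeasureTheory H33Solid.PtAux

section
variable {t : ℝ} (h0 : 0 < t) (h1 : t < 1 / 200)
include h0 h1

lemma gapv_bounds : 0 < height t - Real.sqrt 3 ∧ height t - Real.sqrt 3 ≤ t * (3 / 5) :=
  ⟨by linarith [sqrt3_lt_height h0 h1], height_sub_lt h0 h1⟩

/-- The points of the rows `k ≥ 1` are not at integral position. -/
lemma ca_not_int {m k : ℤ} (hk : 0 < k) : ¬ ∃ j : ℤ, ca (pt t m k) = j := by
  rintro ⟨j, hj⟩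
  have g := gapv_bounds h0 h1
  have s1 := sqrt3_gt
  have s2 := sqrt3_lt
  unfold ca at hj
  rw [pt_re, pt_im, if_neg (by omega), if_neg (by omega)] at hj
  have e := sqrt3_sq
  have h2 : (j : ℝ) - (m + 2 * k : ℤ) = (t + Real.sqrt 3 * (height t - Real.sqrt 3)) / 2 := by
    push_cast
    rw [← hj]
    linear_combination ((k : ℝ) / 2) * e
  have h3 : 0 < (t + Real.sqrt 3 * (height t - Real.sqrt 3)) / 2 := by
    have : 0 < Real.sqrt 3 * (height t - Real.sqrt 3) := mul_pos (by linarith) g.1
    linarith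
  have h4 : (t + Real.sqrt 3 * (height t - Real.sqrt 3)) / 2 < 1 := by
    nlinarith
  rw [← h2] at h3 h4
  have h5 : 0 < j - (m + 2 * k) := by exact_mod_cast h3
  have h6 : j - (m + 2 * k) < 1 := by exact_mod_cast h4
  omega

variable {w : ℂ → ℂ → ℝ} (hw : Calibration t w) {C' : Set ℂ} (hC' : Sep C')
  (hgood : ∀ p ∈ C', Good C' p) (htight : ∀ p q r, Corner C' p q r → Phi w p q r = 0)
include hw hC' hgood htight

omit h0 h1 in
/-- the triangle above the edge `p, p + 2` -/
lemma above {p : ℂ} (hp : p ∈ C') (hp2 : p + 2 ∈ C') :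
    ∃ r, Corner C' p (p + 2) r ∧
      (r = p + 2 * e2 ∨ (r = p + 2 * e2 + bv t ∧ ∃ k : ℤ, ca p = k)) := by
  have hnb : p + 2 ∈ nb C' p := by
    refine ⟨hp2, ?_, ?_⟩
    · intro h
      have := congrArg Complex.re h
      simp at this
    · rw [dist_comm, Complex.dist_eq]
      simp
      norm_num
  obtain ⟨r, hr⟩ := exists_next hC' (hgood p hp) hnb
  refine ⟨r, hr, ?_⟩
  have hrot := Corner.rotate hC' (hgood _ hp2) hr
  have hr1 : r ∈ nb C' p := hr.2.2.1
  have hr2 : r ∈ nb C' (p + 2) := hrot.2.1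
  have hc := hr.2.2.2.2
  rw [add_sub_cancel_left] at hc
  refine hw.rigid p r ?_ hr2.2.2 ?_ ?_ hc (htight _ _ _ hr)
  · exact hC' _ hp2 _ hr2.1 (Ne.symm hr2.2.1)
  · exact hC' _ hr1.1 _ hp hr1.2.1
  · rw [dist_comm]
    exact hr1.2.2

/-- the key step: if the row below is in `C'` and the left neighbour in the row is in `C'`,
then so is the point. -/
lemma step {m k : ℤ} (hrow : ∀ m' : ℤ, pt t m' (k - 1) ∈ C') (hleft : pt t (m - 1) k ∈ C') :
    pt t m k ∈ C' := by
  have hw0 := hrow m
  have hw1 := hrow (m + 1)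
  have g := gapv_bounds h0 h1
  have s1 := sqrt3_gt
  have s2 := sqrt3_lt
  rw [pt_right] at hw1
  have hz : pt t m k = pt t m (k - 1) + 2 * e2 + stp t (k - 1) := by
    rw [← pt_up, sub_add_cancel]
  have hl : pt t (m - 1) k = pt t m (k - 1) + 2 * e3 + stp t (k - 1) := by
    rw [← pt_upl, sub_add_cancel]
  obtain ⟨r, hr, hcase⟩ := above hw hC' hgood htight hw0 hw1
  have hrC : r ∈ C' := hr.2.2.1.1
  rcases lt_trichotomy k 1 with hk | hk | hk
  · -- lower half
    have hst : stp t (k - 1) = 0 := by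
      unfold stp
      rw [if_neg (by omega)]
    rw [hst, add_zero] at hz hl
    rcases hcase with h | ⟨h, hint⟩
    · rw [hz, ← h]
      exact hrC
    · exfalso
      set p := pt t m (k - 1) with hp
      have hlC : p + 2 * e3 ∈ C' := by rw [← hl]; exact hleft
      have hlnb : p + 2 * e3 ∈ nb C' p := by
        refine ⟨hlC, ?_, ?_⟩
        · intro h
          have := congrArg Complex.re h
          rw [Complex.add_re, two_e3_re] at this
          linarith
        · rw [dist_le_iff (by norm_num), Complex.add_re, Complex.add_im, two_e3_re, two_e3_im]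
          have := sqrt3_sq
          nlinarith
      have hcor : Corner C' p r (p + 2 * e3) := by
        refine ⟨hw0, hr.2.2.1, hlnb, ?_, ?_⟩
        · rw [dist_le_iff (by norm_num), h]
          simp only [Complex.add_re, Complex.add_im, two_e3_re, two_e3_im, two_e2_re, two_e2_im,
            bv]
          nlinarith
        · rw [h]
          simp only [crs, Complex.sub_re, Complex.sub_im, Complex.add_re, Complex.add_im,
            two_e3_re, two_e3_im, two_e2_re, two_e2_im, bv]
          nlinarith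
      have := htight _ _ _ hcor
      rw [h] at this
      exact hw.rigid' p hint this
  · -- the fault
    subst hk
    have hst : stp t (1 - 1) = bv t := by
      unfold stp
      rw [if_pos (by norm_num)]
    rw [hst] at hz hl
    rcases hcase with h | ⟨h, _⟩
    · exfalso
      have hne : r ≠ pt t (m - 1) 1 := by
        rw [h, hl]
        intro h5
        have := congrArg Complex.re h5
        simp only [Complex.add_re, two_e3_re, two_e2_re, bv] at this
        linarith
      have hd := hC' _ hrC _ hleft hne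
      rw [le_dist_iff (by norm_num), h, hl] at hd
      simp only [Complex.add_re, Complex.add_im, two_e3_re, two_e3_im, two_e2_re, two_e2_im,
            bv] at hd
      nlinarith
    · rw [hz, ← h]
      exact hrC
  · have hst : stp t (k - 1) = 0 := by
      unfold stp
      rw [if_neg (by omega)]
    rw [hst, add_zero] at hz
    rcases hcase with h | ⟨h, hint⟩
    · rw [hz, ← h]
      exact hrC
    · exact absurd hint (ca_not_int h0 h1 (by omega))

theorem subset (hfin : (P t \ C').Finite) : P t ⊆ C' := by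
  by_contra hcon
  rw [Set.not_subset] at hcon
  obtain ⟨z, ⟨m₀, k₀, rfl⟩, hz⟩ := hcon
  -- the finite set of missing indices
  have hI : {x : ℤ × ℤ | pt t x.1 x.2 ∉ C'}.Finite := by
    apply Set.Finite.of_finite_image (f := fun x : ℤ × ℤ => pt t x.1 x.2)
    · apply hfin.subset
      rintro _ ⟨x, hx, rfl⟩
      exact ⟨pt_mem _ _, hx⟩
    · intro x _ y _ h
      have := pt_inj h0 h1 h
      exact Prod.ext this.1 this.2
  have hK := hI.image Prod.snd
  obtain ⟨k, ⟨⟨m₁, k'⟩, hm₁, hk'⟩, hkmin⟩ := Int.exists_least_of_bdd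
    (P := fun k => k ∈ Prod.snd '' {x : ℤ × ℤ | pt t x.1 x.2 ∉ C'})
    (by
      obtain ⟨b, hb⟩ := hK.bddBelow
      exact ⟨b, fun z hz => hb hz⟩) ⟨k₀, (m₀, k₀), hz, rfl⟩
  simp only at hk'
  subst hk'
  have hM := (hI.image Prod.fst)
  obtain ⟨m, hm, hmmin⟩ := Int.exists_least_of_bdd
    (P := fun m => pt t m k' ∉ C')
    (by
      obtain ⟨b, hb⟩ := hM.bddBelow
      exact ⟨b, fun z hz => hb ⟨(z, k'), hz, rfl⟩⟩) ⟨m₁, hm₁⟩
  apply hm
  apply step h0 h1 hw hC' hgood htight
  · intro m'
    by_contra h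
    have := hkmin (k' - 1) ⟨(m', k' - 1), h, rfl⟩
    omega
  · by_contra h
    have := hmmin (m - 1) h
    omega

end

end H33Solid.RigidAux

namespace H33Solid

theorem rigidity {t : ℝ} (h0 : 0 < t) (h1 : t < 1 / 200) {w : ℂ → ℂ → ℝ} (hw : Calibration t w)
    {C' : Set ℂ} (hC' : Sep C') (hgood : ∀ p ∈ C', Good C' p)
    (htight : ∀ p q r, Corner C' p q r → Phi w p q r = 0) (hfin : (P t \ C').Finite) :
    C' = P t := by
  have hsub := RigidAux.subset h0 h1 hw hC' hgood htight hfin
  apply Set.Subset.antisymm _ hsub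
  intro x hx
  obtain ⟨q, hq, hd⟩ := P_sat h0 h1 x
  by_contra hne
  have hxq : x ≠ q := by
    rintro rfl
    exact hne hq
  have := hC' x hx q (hsub hq) hxq
  linarith

end H33Solid
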