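import Pool.Agent.H33.Solid.EtotMain
import Pool.Agent.H33.Solid.Calib
import Pool.Agent.H33.Solid.Account
import Pool.Agent.H33.Solid.Rigid

/-! Module Z: assembly -/

namespace H33Solid

theorem sep_of_isPacking {C : Set ℂ} (h : IsPacking C) : Sep C := by
  intro p hp q hq hne
  have hd := h hp hq hne
  by_contra hcon
  push Not at hcon
  have hm : midpoint ℝ p q ∈ Metric.ball p 1 ∩ Metric.ball q 1 := by
    constructor
    · rw [Metric.mem_ball, dist_midpoint_left]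
      norm_num
      linarith
    · rw [Metric.mem_ball, dist_midpoint_right]
      norm_num
      linarith
  exact (Set.disjoint_iff.mp hd) hm

theorem isPacking_of_sep {C : Set ℂ} (h : Sep C) : IsPacking C := by
  intro p hp q hq hne
  exact Metric.ball_disjoint_ball (by have := h p hp q hq hne; linarith)

theorem strong {t : ℝ} (h0 : 0 < t) (h1 : t ≤ 1 / 10 ^ 6) : IsPacking (P t) ∧
    ∀ F F' : Finset ℂ, (F : Set ℂ) ⊆ P t → F.card ≤ F'.card → Disjoint (P t \ F) (F' : Set ℂ) →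
    IsPacking ((P t \ F) ∪ F') → (P t \ F) ∪ F' = P t := by
  have h200 : t < 1 / 200 := by norm_num at h1 ⊢; linarith
  refine ⟨isPacking_of_sep (P_sep h0 h200), ?_⟩
  intro F F' hF hcard hdisj hpack
  have hfacts := bv_facts h0 h1
  have hw := calib_of_EtotOK h0 h1 (etotOK hfacts.1 hfacts.2.1)
  -- a radius containing all changes
  obtain ⟨R₀, hR₀⟩ : ∃ R₀ : ℝ, ∀ z ∈ F ∪ F', ‖z‖ < R₀ := by
    refine ⟨∑ z ∈ F ∪ F', ‖z‖ + 1, fun z hz => ?_⟩
    have := Finset.single_le_sum (f := fun z : ℂ => ‖z‖) (fun i _ => norm_nonneg i) hz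
    linarith
  have hagree : ∀ z : ℂ, R₀ ≤ ‖z‖ → (z ∈ P t ↔ z ∈ (P t \ F) ∪ (F' : Set ℂ)) := by
    intro z hz
    have hzF : z ∉ F := fun h => by
      have := hR₀ z (Finset.mem_union_left _ h); linarith
    have hzF' : z ∉ F' := fun h => by
      have := hR₀ z (Finset.mem_union_right _ h); linarith
    simp [hzF, hzF']
  have hC' := sep_of_isPacking hpack
  have hC := P_sep h0 h200
  have hcardR : ∀ R, R₀ ≤ R → {z | z ∈ P t ∧ ‖z‖ ≤ R}.ncard ≤
      {z | z ∈ (P t \ F) ∪ (F' : Set ℂ) ∧ ‖z‖ ≤ R}.ncard := by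
    intro R hR
    have hfin := finite_ball hC R
    have e1 : {z | z ∈ P t ∧ ‖z‖ ≤ R} = ({z | z ∈ P t ∧ ‖z‖ ≤ R} \ (F : Set ℂ)) ∪ (F : Set ℂ) := by
      ext z
      constructor
      · intro hz
        by_cases hzF : z ∈ (F : Set ℂ)
        · exact Or.inr hzF
        · exact Or.inl ⟨hz, hzF⟩
      · rintro (hz | hz)
        · exact hz.1
        · exact ⟨hF hz, by have := hR₀ z (Finset.mem_union_left _ hz); linarith⟩
    have e2 : {z | z ∈ (P t \ F) ∪ (F' : Set ℂ) ∧ ‖z‖ ≤ R} =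
        ({z | z ∈ P t ∧ ‖z‖ ≤ R} \ (F : Set ℂ)) ∪ (F' : Set ℂ) := by
      ext z
      constructor
      · rintro ⟨hz | hz, hzR⟩
        · exact Or.inl ⟨⟨hz.1, hzR⟩, hz.2⟩
        · exact Or.inr hz
      · rintro (hz | hz)
        · exact ⟨Or.inl ⟨hz.1.1, hz.2⟩, hz.1.2⟩
        · exact ⟨Or.inr hz, by have := hR₀ z (Finset.mem_union_right _ hz); linarith⟩
    have hfin' : ({z | z ∈ P t ∧ ‖z‖ ≤ R} \ (F : Set ℂ)).Finite := hfin.subset Set.sdiff_subset
    rw [e2, e1]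
    rw [Set.ncard_union_eq Set.disjoint_sdiff_left hfin' F.finite_toSet,
      Set.ncard_coe_finset]
    have e3 : (({z | z ∈ P t ∧ ‖z‖ ≤ R} \ (F : Set ℂ)) ∪ (F : Set ℂ)) \ (F : Set ℂ) =
        {z | z ∈ P t ∧ ‖z‖ ≤ R} \ (F : Set ℂ) := by
      rw [Set.union_sdiff_right, Set.sdiff_sdiff, Set.union_self]
    rw [e3]
    rw [Set.ncard_union_eq _ hfin' F'.finite_toSet, Set.ncard_coe_finset]
    · omega
    · apply Set.disjoint_of_subset_left _ hdisj
      intro z hz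
      exact ⟨hz.1.1, hz.2⟩
  obtain ⟨hg, ht⟩ := account hw hC (P_good h0 h200) (P_sat h0 h200)
    (P_tight h0 h200 hw) hC' hagree hcardR
  apply rigidity h0 h200 hw hC' hg ht
  apply F.finite_toSet.subset
  intro z hz
  by_contra hzF
  exact hz.2 (Or.inl ⟨hz.1, hzF⟩)

theorem solid {t : ℝ} (h0 : 0 < t) (h1 : t ≤ 1 / 10 ^ 6) : Solid (P t) := by
  intro F F' hF hcard hdisj hpack
  refine ⟨IsometryEquiv.refl ℂ, ?_⟩
  rw [(strong h0 h1).2 F F' hF hcard.ge hdisj hpack]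
  exact Set.image_id _

end H33Solid
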