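import Pool.Agent.H33.Solid.Defs

/-! Area of a kite. -/

namespace H33Solid

open MeasureTheory

namespace Kite

/-- right triangle with apex `0` -/
def tri (h κ : ℝ) : Set ℂ := {z | 0 ≤ z.im ∧ z.im < κ * z.re ∧ z.re ≤ h}

/-- reflected right triangle with apex `0` -/
def tri' (h κ : ℝ) : Set ℂ := {z | z.im < 0 ∧ -z.im ≤ κ * z.re ∧ z.re ≤ h}

theorem lint {h κ : ℝ} (hh : 0 < h) (hκ : 0 < κ) :
    ∫⁻ x in Set.Ioc (0 : ℝ) h, ENNReal.ofReal (κ * x) = ENNReal.ofReal (κ * h ^ 2 / 2) := by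
  rw [← ofReal_integral_eq_lintegral_ofReal, ← intervalIntegral.integral_of_le hh.le]
  · rw [intervalIntegral.integral_const_mul, integral_id]
    congr 1; ring
  · exact ((continuous_const.mul continuous_id).integrableOn_Icc).mono_set Set.Ioc_subset_Icc_self
  · filter_upwards [ae_restrict_mem measurableSet_Ioc] with x hx
    have := hx.1
    simp only [Pi.zero_apply]
    positivity

theorem tri_volume {h κ : ℝ} (hh : 0 < h) (hκ : 0 < κ) :
    volume (tri h κ) = ENNReal.ofReal (κ * h ^ 2 / 2) := by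
  have hpre : tri h κ = Complex.measurableEquivRealProd ⁻¹'
      {z : ℝ × ℝ | 0 ≤ z.2 ∧ z.2 < κ * z.1 ∧ z.1 ≤ h} := by
    ext z; simp [tri, Complex.measurableEquivRealProd_apply]
  have hmeas : MeasurableSet {z : ℝ × ℝ | 0 ≤ z.2 ∧ z.2 < κ * z.1 ∧ z.1 ≤ h} := by
    measurability
  rw [hpre, Complex.volume_preserving_equiv_real_prod.measure_preimage_equiv,
    Measure.volume_eq_prod, Measure.prod_apply hmeas, ← lint hh hκ, ← lintegral_indicator measurableSet_Ioc]
  congr 1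
  ext x
  by_cases hx : x ∈ Set.Ioc 0 h
  · rw [Set.indicator_of_mem hx]
    have : Prod.mk x ⁻¹' {z : ℝ × ℝ | 0 ≤ z.2 ∧ z.2 < κ * z.1 ∧ z.1 ≤ h} = Set.Ico 0 (κ * x) := by
      ext y; simp [hx.2]
    rw [this, Real.volume_Ico, sub_zero]
  · rw [Set.indicator_of_notMem hx]
    have : Prod.mk x ⁻¹' {z : ℝ × ℝ | 0 ≤ z.2 ∧ z.2 < κ * z.1 ∧ z.1 ≤ h} = ∅ := by
      ext y
      simp only [Set.mem_preimage, Set.mem_ofPred_eq, Set.mem_empty_iff_false, iff_false]
      rintro ⟨h1, h2, h3⟩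
      apply hx
      refine ⟨?_, h3⟩
      by_contra hcon
      push Not at hcon
      nlinarith
    rw [this, measure_empty]

theorem tri'_volume {h κ : ℝ} (hh : 0 < h) (hκ : 0 < κ) :
    volume (tri' h κ) = ENNReal.ofReal (κ * h ^ 2 / 2) := by
  have hpre : tri' h κ = Complex.measurableEquivRealProd ⁻¹'
      {z : ℝ × ℝ | z.2 < 0 ∧ -z.2 ≤ κ * z.1 ∧ z.1 ≤ h} := by
    ext z; simp [tri', Complex.measurableEquivRealProd_apply]
  have hmeas : MeasurableSet {z : ℝ × ℝ | z.2 < 0 ∧ -z.2 ≤ κ * z.1 ∧ z.1 ≤ h} := by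
    measurability
  rw [hpre, Complex.volume_preserving_equiv_real_prod.measure_preimage_equiv,
    Measure.volume_eq_prod, Measure.prod_apply hmeas, ← lint hh hκ, ← lintegral_indicator measurableSet_Ioc]
  congr 1
  ext x
  by_cases hx : x ∈ Set.Ioc 0 h
  · rw [Set.indicator_of_mem hx]
    have : Prod.mk x ⁻¹' {z : ℝ × ℝ | z.2 < 0 ∧ -z.2 ≤ κ * z.1 ∧ z.1 ≤ h} = Set.Ico (-(κ * x)) 0 := by
      ext y
      simp only [Set.mem_preimage, Set.mem_ofPred_eq, Set.mem_Ico]
      constructor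
      · rintro ⟨h1, h2, h3⟩
        exact ⟨by linarith, h1⟩
      · rintro ⟨h1, h2⟩
        exact ⟨h2, by linarith, hx.2⟩
    rw [this, Real.volume_Ico]
    congr 1; ring
  · rw [Set.indicator_of_notMem hx]
    have : Prod.mk x ⁻¹' {z : ℝ × ℝ | z.2 < 0 ∧ -z.2 ≤ κ * z.1 ∧ z.1 ≤ h} = ∅ := by
      ext y
      simp only [Set.mem_preimage, Set.mem_ofPred_eq, Set.mem_empty_iff_false, iff_false]
      rintro ⟨h1, h2, h3⟩
      apply hx
      refine ⟨?_, h3⟩
      by_contra hcon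
      push Not at hcon
      nlinarith
    rw [this, measure_empty]

/-- triangle at `u` -/
def triU (u : ℂ) (κ : ℝ) : Set ℂ :=
  {x | 0 ≤ crs u x ∧ crs u x < κ * ip u x ∧ ip u x ≤ ‖u‖ ^ 2 / 2}

/-- triangle at `v` -/
def triV (v : ℂ) (κ : ℝ) : Set ℂ :=
  {x | 0 < crs x v ∧ crs x v ≤ κ * ip v x ∧ ip v x ≤ ‖v‖ ^ 2 / 2}

theorem rot_mp {u : ℂ} (hu : 0 < ‖u‖) :
    MeasurePreserving (fun z : ℂ => (starRingEnd ℂ u / ‖u‖) * z) volume volume := by
  have hun : ‖(starRingEnd ℂ u / ‖u‖ : ℂ)‖ = 1 := by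
    rw [norm_div, RCLike.norm_conj]
    simp [hu.ne']
  have := (rotation (⟨starRingEnd ℂ u / ‖u‖, mem_sphere_zero_iff_norm.2 hun⟩ : Circle)).measurePreserving
  exact this

theorem rot_re (u z : ℂ) : ((starRingEnd ℂ u / ‖u‖) * z).re = ip u z / ‖u‖ := by
  have : (starRingEnd ℂ u / ‖u‖) * z = (starRingEnd ℂ u * z) / (‖u‖ : ℝ) := by ring
  rw [this, Complex.div_ofReal_re]
  simp [ip]

theorem rot_im (u z : ℂ) : ((starRingEnd ℂ u / ‖u‖) * z).im = crs u z / ‖u‖ := by
  have : (starRingEnd ℂ u / ‖u‖) * z = (starRingEnd ℂ u * z) / (‖u‖ : ℝ) := by ring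
  rw [this, Complex.div_ofReal_im]
  simp [crs]
  ring

theorem tri_meas (h κ : ℝ) : MeasurableSet (tri h κ) := by
  unfold tri
  exact (measurableSet_le measurable_const Complex.measurable_im).inter
    ((measurableSet_lt Complex.measurable_im (Complex.measurable_re.const_mul κ)).inter
    (measurableSet_le Complex.measurable_re measurable_const))

theorem tri'_meas (h κ : ℝ) : MeasurableSet (tri' h κ) := by
  unfold tri'
  exact (measurableSet_lt Complex.measurable_im measurable_const).inter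
    ((measurableSet_le Complex.measurable_im.neg (Complex.measurable_re.const_mul κ)).inter
    (measurableSet_le Complex.measurable_re measurable_const))

theorem triU_eq {u : ℂ} (hu : 0 < ‖u‖) (κ : ℝ) :
    triU u κ = (fun z : ℂ => (starRingEnd ℂ u / ‖u‖) * z) ⁻¹' (tri (‖u‖ / 2) κ) := by
  ext x
  simp only [triU, tri, Set.mem_preimage, Set.mem_ofPred_eq, rot_re, rot_im]
  rw [le_div_iff₀ hu, zero_mul, ← mul_div_assoc, div_lt_div_iff_of_pos_right hu, div_le_iff₀ hu]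
  rw [show ‖u‖ ^ 2 / 2 = ‖u‖ / 2 * ‖u‖ by ring]

theorem triV_eq {v : ℂ} (hv : 0 < ‖v‖) (κ : ℝ) :
    triV v κ = (fun z : ℂ => (starRingEnd ℂ v / ‖v‖) * z) ⁻¹' (tri' (‖v‖ / 2) κ) := by
  ext x
  simp only [triV, tri', Set.mem_preimage, Set.mem_ofPred_eq, rot_re, rot_im]
  have e : crs v x = - crs x v := by simp [crs]; ring
  rw [div_lt_iff₀ hv, zero_mul, ← mul_div_assoc, ← neg_div, div_le_div_iff_of_pos_right hv, div_le_iff₀ hv, e]
  rw [show ‖v‖ ^ 2 / 2 = ‖v‖ / 2 * ‖v‖ by ring, neg_neg, neg_lt_zero]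

theorem triU_meas {u : ℂ} (hu : 0 < ‖u‖) (κ : ℝ) : MeasurableSet (triU u κ) := by
  rw [triU_eq hu]
  exact (rot_mp hu).measurable (tri_meas _ _)

theorem triV_meas {v : ℂ} (hv : 0 < ‖v‖) (κ : ℝ) : MeasurableSet (triV v κ) := by
  rw [triV_eq hv]
  exact (rot_mp hv).measurable (tri'_meas _ _)

theorem triU_volume {u : ℂ} (hu : 0 < ‖u‖) {κ : ℝ} (hκ : 0 < κ) :
    volume (triU u κ) = ENNReal.ofReal (κ * ‖u‖ ^ 2 / 8) := by
  rw [triU_eq hu, (rot_mp hu).measure_preimage (tri_meas _ _).nullMeasurableSet,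
    tri_volume (by positivity) hκ]
  congr 1; ring

theorem triV_volume {v : ℂ} (hv : 0 < ‖v‖) {κ : ℝ} (hκ : 0 < κ) :
    volume (triV v κ) = ENNReal.ofReal (κ * ‖v‖ ^ 2 / 8) := by
  rw [triV_eq hv, (rot_mp hv).measure_preimage (tri'_meas _ _).nullMeasurableSet,
    tri'_volume (by positivity) hκ]
  congr 1; ring

/-- the kite with vertices `0, u/2, c, v/2` -/
def kite (u v : ℂ) : Set ℂ :=
  {x | 0 ≤ crs u x ∧ 0 < crs x v ∧ ip u x ≤ ‖u‖ ^ 2 / 2 ∧ ip v x ≤ ‖v‖ ^ 2 / 2}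

theorem norm_sq' (z : ℂ) : ‖z‖ ^ 2 = z.re ^ 2 + z.im ^ 2 := by
  rw [Complex.sq_norm, Complex.normSq_apply]; ring

/-- coordinates of `x` in the frame `u, v` -/
theorem frame {u v x : ℂ} : crs u v * x.re = crs x v * u.re + crs u x * v.re ∧
    crs u v * x.im = crs x v * u.im + crs u x * v.im := by
  constructor <;> · simp only [crs]; ring

theorem ip_frame_u {u v x : ℂ} : crs u v * ip u x = crs x v * ‖u‖ ^ 2 + crs u x * ip u v := by
  rw [norm_sq']; simp only [crs, ip]; ring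

theorem ip_frame_v {u v x : ℂ} : crs u v * ip v x = crs x v * ip u v + crs u x * ‖v‖ ^ 2 := by
  rw [norm_sq']; simp only [crs, ip]; ring

theorem crs_sq {u v : ℂ} : crs u v ^ 2 = ‖u‖ ^ 2 * ‖v‖ ^ 2 - ip u v ^ 2 := by
  rw [norm_sq', norm_sq']; simp only [crs, ip]; ring

theorem kite_eq {u v : ℂ} (hX : 0 < crs u v) (hU : ip u v < ‖u‖ ^ 2) (hV : ip u v < ‖v‖ ^ 2) :
    kite u v = triU u ((‖v‖ ^ 2 - ip u v) / crs u v) ∪ triV v ((‖u‖ ^ 2 - ip u v) / crs u v) := by
  have hUp : 0 < ‖u‖ ^ 2 := by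
    have hu : u ≠ 0 := by rintro rfl; simp [crs] at hX
    have := norm_pos_iff.2 hu
    positivity
  have hVp : 0 < ‖v‖ ^ 2 := by
    have hu : v ≠ 0 := by rintro rfl; simp [crs] at hX
    have := norm_pos_iff.2 hu
    positivity
  ext x
  simp only [kite, triU, triV, Set.mem_union, Set.mem_ofPred_eq]
  have f1 := @ip_frame_u u v x
  have f2 := @ip_frame_v u v x
  have f3 := @crs_sq u v
  have f4 : 0 < ‖u‖ ^ 2 - ip u v := by linarith
  have f5 : 0 < ‖v‖ ^ 2 - ip u v := by linarith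
  generalize crs u v = X at hX f1 f2 f3 ⊢
  generalize crs u x = B at f1 f2 ⊢
  generalize crs x v = A at f1 f2 ⊢
  generalize ip u x = I at f1 f2 ⊢
  generalize ip v x = J at f1 f2 ⊢
  generalize ip u v = W at hU hV f1 f2 f3 f4 f5 ⊢
  generalize ‖u‖ ^ 2 = U at hU hUp f1 f2 f3 f4 ⊢
  generalize ‖v‖ ^ 2 = V at hV hVp f1 f2 f3 f5 ⊢
  -- the two conditions on the dividing line
  have c1 : B < (V - W) / X * I ↔ B * V * (U - W) < A * U * (V - W) := by
    rw [div_mul_eq_mul_div, lt_div_iff₀ hX]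
    have : (V - W) * I * X = (V - W) * (A * U + B * W) := by rw [← f1]; ring
    constructor
    · intro h
      have h' : B * X * X < (V - W) * (A * U + B * W) := by rw [← this]; gcongr
      have : B * X * X = B * (U * V - W ^ 2) := by rw [← f3]; ring
      nlinarith
    · intro h
      have h' : B * X * X < (V - W) * I * X := by
        rw [this, show B * X * X = B * (U * V - W ^ 2) by rw [← f3]; ring]
        nlinarith
      exact lt_of_mul_lt_mul_right h' hX.le
  have c2 : A ≤ (U - W) / X * J ↔ A * U * (V - W) ≤ B * V * (U - W) := by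
    rw [div_mul_eq_mul_div, le_div_iff₀ hX]
    have : (U - W) * J * X = (U - W) * (A * W + B * V) := by rw [← f2]; ring
    constructor
    · intro h
      have h' : A * X * X ≤ (U - W) * (A * W + B * V) := by rw [← this]; gcongr
      have : A * X * X = A * (U * V - W ^ 2) := by rw [← f3]; ring
      nlinarith
    · intro h
      have h' : A * X * X ≤ (U - W) * J * X := by
        rw [this, show A * X * X = A * (U * V - W ^ 2) by rw [← f3]; ring]
        nlinarith
      exact le_of_mul_le_mul_right h' hX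
  rw [c1, c2]
  constructor
  · rintro ⟨h1, h2, h3, h4⟩
    by_cases h : B * V * (U - W) < A * U * (V - W)
    · exact Or.inl ⟨h1, h, h3⟩
    · exact Or.inr ⟨h2, not_lt.1 h, h4⟩
  · rintro (⟨h1, h2, h3⟩ | ⟨h1, h2, h3⟩)
    · have hA : 0 < A := by
        have : 0 ≤ B * V * (U - W) := by positivity
        have h5 : 0 < A * (U * (V - W)) := by nlinarith
        exact (mul_pos_iff_of_pos_right (by positivity)).1 h5
      refine ⟨h1, hA, h3, ?_⟩
      -- U * X * J ≤ V * X * I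
      have h6 : U * (X * J) ≤ V * (X * I) := by
        rw [f1, f2]; nlinarith
      have h7 : (U * X) * J ≤ (U * X) * (V / 2) := by
        have : V * X * I ≤ V * X * (U / 2) := by gcongr
        nlinarith
      exact le_of_mul_le_mul_left h7 (by positivity)
    · have hB : 0 ≤ B := by
        have : 0 ≤ A * U * (V - W) := by positivity
        have h5 : 0 ≤ B * (V * (U - W)) := by nlinarith
        exact nonneg_of_mul_nonneg_left h5 (by positivity)
      refine ⟨hB, h1, ?_, h3⟩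
      have h6 : V * (X * I) ≤ U * (X * J) := by
        rw [f1, f2]; nlinarith
      have h7 : (V * X) * I ≤ (V * X) * (U / 2) := by
        have : U * X * J ≤ U * X * (V / 2) := by gcongr
        nlinarith
      exact le_of_mul_le_mul_left h7 (by positivity)

theorem kite_disj {u v : ℂ} (hX : 0 < crs u v) (hU : ip u v < ‖u‖ ^ 2) (hV : ip u v < ‖v‖ ^ 2) :
    Disjoint (triU u ((‖v‖ ^ 2 - ip u v) / crs u v)) (triV v ((‖u‖ ^ 2 - ip u v) / crs u v)) := by
  rw [Set.disjoint_left]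
  intro x
  simp only [triU, triV, Set.mem_ofPred_eq]
  have f1 := @ip_frame_u u v x
  have f2 := @ip_frame_v u v x
  have f3 := @crs_sq u v
  have f4 : 0 < ‖u‖ ^ 2 - ip u v := by linarith
  have f5 : 0 < ‖v‖ ^ 2 - ip u v := by linarith
  generalize crs u v = X at hX f1 f2 f3 ⊢
  generalize crs u x = B at f1 f2 ⊢
  generalize crs x v = A at f1 f2 ⊢
  generalize ip u x = I at f1 f2 ⊢
  generalize ip v x = J at f1 f2 ⊢
  generalize ip u v = W at hU hV f1 f2 f3 f4 f5 ⊢
  generalize ‖u‖ ^ 2 = U at hU f1 f2 f3 f4 ⊢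
  generalize ‖v‖ ^ 2 = V at hV f1 f2 f3 f5 ⊢
  rintro ⟨_, h2, _⟩ ⟨_, h5, _⟩
  rw [div_mul_eq_mul_div, lt_div_iff₀ hX] at h2
  rw [div_mul_eq_mul_div, le_div_iff₀ hX] at h5
  have e1 : B * X * X < (V - W) * (A * U + B * W) := by
    rw [← f1]; nlinarith
  have e2 : A * X * X ≤ (U - W) * (A * W + B * V) := by
    rw [← f2]; nlinarith
  have e3 : B * X * X = B * (U * V - W ^ 2) := by rw [← f3]; ring
  have e4 : A * X * X = A * (U * V - W ^ 2) := by rw [← f3]; ring
  nlinarith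

theorem kite_meas {u v : ℂ} (hX : 0 < crs u v) (hU : ip u v < ‖u‖ ^ 2) (hV : ip u v < ‖v‖ ^ 2) :
    MeasurableSet (kite u v) := by
  have hu : 0 < ‖u‖ := by
    apply norm_pos_iff.2; rintro rfl; simp [crs] at hX
  have hv : 0 < ‖v‖ := by
    apply norm_pos_iff.2; rintro rfl; simp [crs] at hX
  rw [kite_eq hX hU hV]
  exact (triU_meas hu _).union (triV_meas hv _)

theorem kite_volume {u v : ℂ} (hX : 0 < crs u v) (hU : ip u v < ‖u‖ ^ 2) (hV : ip u v < ‖v‖ ^ 2) :
    volume (kite u v) = ENNReal.ofReal (Kf u v) ∧ 0 ≤ Kf u v := by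
  have hu : 0 < ‖u‖ := by
    apply norm_pos_iff.2; rintro rfl; simp [crs] at hX
  have hv : 0 < ‖v‖ := by
    apply norm_pos_iff.2; rintro rfl; simp [crs] at hX
  have f4 : 0 < ‖u‖ ^ 2 - ip u v := by linarith
  have f5 : 0 < ‖v‖ ^ 2 - ip u v := by linarith
  have e : Kf u v = (‖v‖ ^ 2 - ip u v) / crs u v * ‖u‖ ^ 2 / 8 +
      (‖u‖ ^ 2 - ip u v) / crs u v * ‖v‖ ^ 2 / 8 := by
    unfold Kf; field_simp; ring
  rw [kite_eq hX hU hV, measure_union (kite_disj hX hU hV) (triV_meas hv _),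
    triU_volume hu (by positivity), triV_volume hv (by positivity), ← ENNReal.ofReal_add (by positivity)
      (by positivity), e]
  exact ⟨rfl, by positivity⟩

end Kite

end H33Solid
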