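import Pool.Agent.H33.Solid.Good

/-!
# Module G: the packing `P t`
-/

namespace H33Solid.PtAux

open MeasureTheory

/-! ### elementary facts -/

lemma dist_sq (p q : ℂ) : dist p q ^ 2 = (p.re - q.re) ^ 2 + (p.im - q.im) ^ 2 := by
  rw [Complex.dist_eq, Complex.sq_norm, Complex.normSq_apply]
  simp only [Complex.sub_re, Complex.sub_im]
  ring

lemma dist_le_iff {p q : ℂ} {c : ℝ} (hc : 0 ≤ c) :
    dist p q ≤ c ↔ (p.re - q.re) ^ 2 + (p.im - q.im) ^ 2 ≤ c ^ 2 := by
  rw [← dist_sq]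
  exact (sq_le_sq₀ dist_nonneg hc).symm

lemma le_dist_iff {p q : ℂ} {c : ℝ} (hc : 0 ≤ c) :
    c ≤ dist p q ↔ c ^ 2 ≤ (p.re - q.re) ^ 2 + (p.im - q.im) ^ 2 := by
  rw [← dist_sq]
  exact (sq_le_sq₀ hc dist_nonneg).symm

lemma crs_rotate (p q r : ℂ) : crs (q - p) (r - p) = crs (r - q) (p - q) := by
  simp only [crs, Complex.sub_re, Complex.sub_im]
  ring

lemma Phi_rotate (w : ℂ → ℂ → ℝ) (p q r : ℂ) : Phi w p q r = Phi w q r p := by
  unfold Phi
  rw [crs_rotate p q r]
  ring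

/-! ### heights -/

lemma sqrt3_sq : Real.sqrt 3 * Real.sqrt 3 = 3 := Real.mul_self_sqrt (by norm_num)

lemma sqrt3_gt : (173 : ℝ) / 100 < Real.sqrt 3 := by
  rw [Real.lt_sqrt (by norm_num)]
  norm_num

lemma sqrt3_lt : Real.sqrt 3 < 1733 / 1000 := by
  rw [Real.sqrt_lt' (by norm_num)]
  norm_num

section
variable {t : ℝ} (h0 : 0 < t) (h1 : t < 1 / 200)
include h0 h1

lemma height_sq : height t * height t = 4 - (1 - t) ^ 2 :=
  Real.mul_self_sqrt (by nlinarith)

lemma sqrt3_lt_height : Real.sqrt 3 < height t := by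
  unfold height
  apply Real.sqrt_lt_sqrt (by norm_num)
  nlinarith

lemma height_lt : height t < 174 / 100 := by
  unfold height
  rw [Real.sqrt_lt' (by norm_num)]
  nlinarith

lemma height_sub_lt : height t - Real.sqrt 3 ≤ t * (3 / 5) := by
  have e1 := height_sq h0 h1
  have e2 := sqrt3_sq
  have e3 := sqrt3_lt_height h0 h1
  have e4 := sqrt3_gt
  nlinarith

end

/-- displacement between consecutive rows is `2 e₂ + stp k` -/
noncomputable def stp (t : ℝ) (k : ℤ) : ℂ := if k = 0 then bv t else 0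

/-- height of the gap above row `k` -/
noncomputable def gp (t : ℝ) (k : ℤ) : ℝ := if k = 0 then height t else Real.sqrt 3

/-- shift of the gap above row `k` -/
noncomputable def sh (t : ℝ) (k : ℤ) : ℝ := if k = 0 then t else 0

lemma pt_re (t : ℝ) (m k : ℤ) : (pt t m k).re = 2 * (m : ℝ) + k + (if k ≤ 0 then 0 else t) := by
  unfold pt
  split_ifs <;> simp

lemma pt_im (t : ℝ) (m k : ℤ) : (pt t m k).im =
    (k : ℝ) * Real.sqrt 3 + (if k ≤ 0 then 0 else height t - Real.sqrt 3) := by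
  unfold pt
  split_ifs
  · simp
  · simp only
    ring

lemma pt_succ_re (t : ℝ) (m k : ℤ) : (pt t m (k + 1)).re = (pt t m k).re + 1 + sh t k := by
  rw [pt_re, pt_re]
  unfold sh
  push_cast
  rcases lt_trichotomy k 0 with h | h | h
  · rw [if_pos (by omega), if_pos (by omega), if_neg (by omega)]; ring
  · subst h; simp
  · rw [if_neg (by omega), if_neg (by omega), if_neg (by omega)]; ring

lemma pt_succ_im (t : ℝ) (m k : ℤ) : (pt t m (k + 1)).im = (pt t m k).im + gp t k := by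
  rw [pt_im, pt_im]
  unfold gp
  push_cast
  rcases lt_trichotomy k 0 with h | h | h
  · rw [if_pos (by omega), if_pos (by omega), if_neg (by omega)]; ring
  · subst h; simp
  · rw [if_neg (by omega), if_neg (by omega), if_neg (by omega)]; ring

lemma pt_add_re (t : ℝ) (m j k : ℤ) : (pt t (m + j) k).re = (pt t m k).re + 2 * j := by
  rw [pt_re, pt_re]
  push_cast
  ring

lemma pt_add_im (t : ℝ) (m j k : ℤ) : (pt t (m + j) k).im = (pt t m k).im := by
  rw [pt_im, pt_im]

lemma two_e2_re : (2 * e2 : ℂ).re = 1 := by simp [e2]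
lemma two_e2_im : (2 * e2 : ℂ).im = Real.sqrt 3 := by simp [e2]; ring
lemma two_e3_re : (2 * e3 : ℂ).re = -1 := by
  simp only [e3, Complex.mul_re, Complex.re_ofNat, Complex.im_ofNat]
  norm_num
lemma two_e3_im : (2 * e3 : ℂ).im = Real.sqrt 3 := by simp [e3]; ring

lemma pt_right (t : ℝ) (m k : ℤ) : pt t (m + 1) k = pt t m k + 2 := by
  apply Complex.ext
  · rw [pt_add_re]; simp
  · rw [pt_add_im]; simp

lemma pt_up (t : ℝ) (m k : ℤ) : pt t m (k + 1) = pt t m k + 2 * e2 + stp t k := by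
  apply Complex.ext
  · rw [pt_succ_re, Complex.add_re, Complex.add_re, two_e2_re]
    unfold sh stp bv
    split_ifs <;> simp
  · rw [pt_succ_im, Complex.add_im, Complex.add_im, two_e2_im]
    unfold gp stp bv
    split_ifs <;> simp

lemma pt_upl (t : ℝ) (m k : ℤ) : pt t (m - 1) (k + 1) = pt t m k + 2 * e3 + stp t k := by
  have h1 : m - 1 = m + (-1) := by ring
  apply Complex.ext
  · rw [pt_succ_re, Complex.add_re, Complex.add_re, two_e3_re, h1, pt_add_re]
    unfold sh stp bv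
    push_cast
    split_ifs <;> simp <;> ring
  · rw [pt_succ_im, Complex.add_im, Complex.add_im, two_e3_im, h1, pt_add_im]
    unfold gp stp bv
    split_ifs <;> simp

section
variable {t : ℝ} (h0 : 0 < t) (h1 : t < 1 / 200)
include h0 h1

lemma gp_bounds (k : ℤ) : Real.sqrt 3 ≤ gp t k ∧ gp t k ≤ 174 / 100 := by
  unfold gp
  split_ifs
  · exact ⟨(sqrt3_lt_height h0 h1).le, (height_lt h0 h1).le⟩
  · exact ⟨le_rfl, by linarith [sqrt3_lt]⟩

lemma sh_bounds (k : ℤ) : 0 ≤ sh t k ∧ sh t k ≤ 1 / 200 := by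
  unfold sh
  split_ifs
  · exact ⟨h0.le, h1.le⟩
  · exact ⟨le_rfl, by norm_num⟩

/-- upward steps: right step has length² `4 + 4 sh`, the left step has length² `4` -/
lemma gp_sh (k : ℤ) : gp t k * gp t k = 4 - (1 - sh t k) ^ 2 := by
  unfold gp sh
  split_ifs
  · exact height_sq h0 h1
  · rw [sqrt3_sq]; norm_num

/-- monotonicity of heights -/
lemma pt_im_lt (m m' : ℤ) {k k' : ℤ} (h : k < k') : (pt t m k).im < (pt t m' k').im := by
  rw [pt_im, pt_im]
  have e3 := sqrt3_lt_height h0 h1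
  have e4 := sqrt3_gt
  have h2 : (k : ℝ) + 1 ≤ k' := by exact_mod_cast h
  split_ifs with h3 h4
  · nlinarith
  · nlinarith
  · omega
  · nlinarith

theorem sep_lt {m k m' k' : ℤ} (h : k < k') : 2 ≤ dist (pt t m k) (pt t m' k') := by
  rw [le_dist_iff (by norm_num)]
  have e3 := sqrt3_lt_height h0 h1
  have e4 := sqrt3_gt
  rcases (Int.add_one_le_iff.mpr h).eq_or_lt with h2 | h2
  · subst h2
    obtain ⟨j, rfl⟩ : ∃ j, m' = m + j := ⟨m' - m, by ring⟩
    rw [pt_succ_re, pt_succ_im, pt_add_re, pt_add_im]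
    have e1 := gp_sh h0 h1 k
    have e2 := sh_bounds h0 h1 k
    have e5 : ((pt t m k).im - ((pt t m k).im + gp t k)) ^ 2 = gp t k * gp t k := by ring
    rw [e5, e1]
    rcases le_or_gt 0 j with hj | hj
    · have : (0 : ℝ) ≤ j := by exact_mod_cast hj
      nlinarith
    · have : (j : ℝ) ≤ -1 := by exact_mod_cast (by omega : j ≤ -1)
      nlinarith
  · have h3 := pt_im_lt h0 h1 m m (k := k + 1 + 1) (k' := k' + 1) (by omega)
    have h4 := pt_succ_im t m k
    have h5 := pt_succ_im t m (k + 1)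
    have h6 := pt_succ_im t m k'
    have h7 : (pt t m' k').im = (pt t m k').im := by
      rw [pt_im, pt_im]
    have h8 : (pt t m (k + 1 + 1)).im ≤ (pt t m k').im := by
      rcases (Int.add_one_le_iff.mpr h2).eq_or_lt with h9 | h9
      · rw [h9]
      · exact (pt_im_lt h0 h1 m m h9).le
    have g1 := gp_bounds h0 h1 k
    have g2 := gp_bounds h0 h1 (k + 1)
    rw [h7]
    have h10 : (2 : ℝ) ≤ (pt t m k').im - (pt t m k).im := by linarith
    nlinarith [sq_nonneg ((pt t m k).re - (pt t m' k').re)]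

theorem P_sep' : Sep (P t) := by
  rintro p ⟨m, k, rfl⟩ q ⟨m', k', rfl⟩ hne
  rcases lt_trichotomy k k' with h | h | h
  · exact sep_lt h0 h1 h
  · subst h
    obtain ⟨j, rfl⟩ : ∃ j, m' = m + j := ⟨m' - m, by ring⟩
    rw [le_dist_iff (by norm_num), pt_add_re, pt_add_im]
    have hj : j ≠ 0 := by
      rintro rfl
      apply hne
      simp
    have : (1 : ℝ) ≤ (j : ℝ) ^ 2 := by
      have : 1 ≤ j ^ 2 := by
        have := sq_nonneg j
        rcases lt_or_gt_of_ne hj with h | h <;> nlinarith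
      exact_mod_cast this
    nlinarith
  · rw [dist_comm]
    exact sep_lt h0 h1 h

lemma pt_inj {m k m' k' : ℤ} (h : pt t m k = pt t m' k') : m = m' ∧ k = k' := by
  rcases lt_trichotomy k k' with hk | hk | hk
  · have := pt_im_lt h0 h1 m m' hk
    rw [h] at this
    exact absurd this (lt_irrefl _)
  · subst hk
    refine ⟨?_, rfl⟩
    have := congrArg Complex.re h
    rw [pt_re, pt_re] at this
    have h2 : (m : ℝ) = m' := by linarith
    exact_mod_cast h2
  · have := pt_im_lt h0 h1 m' m hk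
    rw [h] at this
    exact absurd this (lt_irrefl _)

/-! ### near neighbours -/

omit h0 h1 in
lemma pt_mem (m k : ℤ) : pt t m k ∈ P t := ⟨m, k, rfl⟩

lemma dist_right (m k : ℤ) : dist (pt t m k) (pt t (m + 1) k) ≤ 201 / 100 := by
  rw [dist_le_iff (by norm_num), pt_add_re, pt_add_im]
  push_cast
  nlinarith

lemma dist_up (m k : ℤ) : dist (pt t m k) (pt t m (k + 1)) ≤ 201 / 100 := by
  rw [dist_le_iff (by norm_num), pt_succ_re, pt_succ_im]
  have e1 := gp_sh h0 h1 k
  have e2 := sh_bounds h0 h1 k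
  nlinarith

lemma dist_upl (m k : ℤ) : dist (pt t m k) (pt t (m - 1) (k + 1)) ≤ 201 / 100 := by
  rw [dist_le_iff (by norm_num), sub_eq_add_neg m, pt_succ_re, pt_succ_im, pt_add_re, pt_add_im]
  have e1 := gp_sh h0 h1 k
  have e2 := sh_bounds h0 h1 k
  push_cast
  nlinarith

/-- the six neighbours, in counterclockwise order -/
noncomputable def N (t : ℝ) (m k : ℤ) : Fin 6 → ℂ :=
  ![pt t (m + 1) k, pt t m (k + 1), pt t (m - 1) (k + 1), pt t (m - 1) k, pt t m (k - 1),
    pt t (m + 1) (k - 1)]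

lemma N_inj (m k : ℤ) : Function.Injective (N t m k) := by
  intro i j h
  fin_cases i <;> fin_cases j <;> first
    | rfl
    | (exfalso
       simp only [N, Fin.zero_eta, Fin.mk_one, Fin.reduceFinMk, Matrix.cons_val_zero,
         Matrix.cons_val_one, Matrix.cons_val] at h
       have := pt_inj h0 h1 h
       omega)

lemma N_nb (m k : ℤ) (i : Fin 6) : N t m k i ∈ nb (P t) (pt t m k) := by
  have hne : ∀ {m' k' : ℤ}, (m ≠ m' ∨ k ≠ k') → pt t m' k' ≠ pt t m k := by
    intro m' k' h h2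
    have := pt_inj h0 h1 h2
    omega
  have a0 := dist_right h0 h1 m k
  have a1 := dist_up h0 h1 m k
  have a2 := dist_upl h0 h1 m k
  have a3 := dist_right h0 h1 (m - 1) k
  have a4 := dist_up h0 h1 m (k - 1)
  have a5 := dist_upl h0 h1 (m + 1) (k - 1)
  rw [dist_comm] at a3 a4 a5
  simp only [sub_add_cancel, add_sub_cancel_right] at a3 a4 a5
  fin_cases i
  · exact ⟨pt_mem _ _, hne (by omega), a0⟩
  · exact ⟨pt_mem _ _, hne (by omega), a1⟩
  · exact ⟨pt_mem _ _, hne (by omega), a2⟩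
  · exact ⟨pt_mem _ _, hne (by omega), a3⟩
  · exact ⟨pt_mem _ _, hne (by omega), a4⟩
  · exact ⟨pt_mem _ _, hne (by omega), a5⟩

lemma range_encard (m k : ℤ) : (Set.range (N t m k)).encard = 6 := by
  rw [← Set.image_univ, (N_inj h0 h1 m k).encard_image]
  simp

theorem P_good' : ∀ p ∈ P t, Good (P t) p := by
  rintro p ⟨m, k, rfl⟩
  refine ⟨pt_mem _ _, ?_⟩
  rw [← range_encard h0 h1 m k]
  apply Set.encard_le_encard
  rintro _ ⟨i, rfl⟩
  exact N_nb h0 h1 m k i

lemma nb_eq (m k : ℤ) : nb (P t) (pt t m k) = Set.range (N t m k) := by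
  symm
  apply Set.Finite.eq_of_subset_of_encard_le
  · exact Set.finite_range _
  · rintro _ ⟨i, rfl⟩
    exact N_nb h0 h1 m k i
  · rw [range_encard h0 h1 m k]
    exact nb_encard_le (P_sep' h0 h1) (pt_mem (t := t) m k)

/-! ### the plane is covered by the disks of radius `6/5` -/

omit h0 h1 in
lemma sat_aux {d v H e : ℝ} (hd : |d| ≤ 1) (hv : 0 ≤ v) (hv2 : v ≤ H / 2) (hH : H ≤ 174 / 100)
    (he : |e| ≤ 1 / 200) :
    d ^ 2 + v ^ 2 ≤ (6 / 5) ^ 2 ∨
      ∃ s : ℤ, (s = 1 ∨ s = -1) ∧ (d - s - e) ^ 2 + (H - v) ^ 2 ≤ (6 / 5) ^ 2 := by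
  by_cases h : d ^ 2 + v ^ 2 ≤ (6 / 5) ^ 2
  · exact Or.inl h
  right
  push Not at h
  rw [abs_le] at hd he
  have hv3 : v ≤ 87 / 100 := by linarith
  have hd2 : (826 / 1000) ^ 2 ≤ d ^ 2 := by nlinarith
  by_contra hcon
  push Not at hcon
  rcases le_or_gt 0 d with hd0 | hd0
  · have h3 := hcon 1 (Or.inl rfl)
    push_cast at h3
    have h4 : 826 / 1000 ≤ d := by nlinarith
    have h5 : (d - 1 - e) ^ 2 ≤ (18 / 100) ^ 2 := by nlinarith
    have h6 : 1185 / 1000 < H - v := by nlinarith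
    have h7 : v ≤ 555 / 1000 := by linarith
    nlinarith
  · have h3 := hcon (-1) (Or.inr rfl)
    push_cast at h3
    have h4 : d ≤ -(826 / 1000) := by nlinarith
    have h5 : (d - -1 - e) ^ 2 ≤ (18 / 100) ^ 2 := by nlinarith
    have h6 : 1185 / 1000 < H - v := by nlinarith
    have h7 : v ≤ 555 / 1000 := by linarith
    nlinarith

omit h0 h1 in
lemma exists_col (t : ℝ) (x : ℝ) (k : ℤ) : ∃ m : ℤ, |x - (pt t m k).re| ≤ 1 := by
  refine ⟨round ((x - (pt t 0 k).re) / 2), ?_⟩
  have h := abs_sub_round ((x - (pt t 0 k).re) / 2)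
  set r := round ((x - (pt t 0 k).re) / 2) with hr
  have h2 : (pt t r k).re = (pt t 0 k).re + 2 * r := by
    have := pt_add_re t 0 r k
    rwa [zero_add] at this
  rw [h2]
  rw [abs_le] at h ⊢
  constructor <;> linarith [h.1, h.2]

lemma exists_row (y : ℝ) : ∃ k : ℤ, (pt t 0 k).im ≤ y ∧ y < (pt t 0 (k + 1)).im := by
  have e3 := sqrt3_lt_height h0 h1
  have e4 := sqrt3_gt
  have hs : (0 : ℝ) < Real.sqrt 3 := by linarith
  rcases lt_or_ge y 0 with hy | hy
  · refine ⟨⌊y / Real.sqrt 3⌋, ?_, ?_⟩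
    · have h2 : ⌊y / Real.sqrt 3⌋ < 0 := by
        rw [Int.floor_lt]
        push_cast
        exact div_neg_of_neg_of_pos hy hs
      have h3 := Int.floor_le (y / Real.sqrt 3)
      rw [le_div_iff₀ hs] at h3
      rw [pt_im, if_pos h2.le]
      linarith
    · have h2 : ⌊y / Real.sqrt 3⌋ < 0 := by
        rw [Int.floor_lt]
        push_cast
        exact div_neg_of_neg_of_pos hy hs
      have h3 := Int.lt_floor_add_one (y / Real.sqrt 3)
      rw [div_lt_iff₀ hs] at h3
      rw [pt_im, if_pos (by omega)]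
      push_cast
      linarith
  · rcases lt_or_ge y (height t) with hy2 | hy2
    · refine ⟨0, ?_, ?_⟩
      · rw [pt_im]; simpa using hy
      · rw [pt_im]; simpa using hy2
    · have h2 : 0 ≤ ⌊(y - height t) / Real.sqrt 3⌋ := by
        apply Int.floor_nonneg.mpr
        exact div_nonneg (by linarith) hs.le
      refine ⟨⌊(y - height t) / Real.sqrt 3⌋ + 1, ?_, ?_⟩
      · have h3 := Int.floor_le ((y - height t) / Real.sqrt 3)
        rw [le_div_iff₀ hs] at h3
        rw [pt_im, if_neg (by omega)]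
        push_cast
        linarith
      · have h3 := Int.lt_floor_add_one ((y - height t) / Real.sqrt 3)
        rw [div_lt_iff₀ hs] at h3
        rw [pt_im, if_neg (by omega)]
        push_cast
        linarith

theorem P_sat' : ∀ x : ℂ, ∃ q ∈ P t, dist x q ≤ 6 / 5 := by
  intro x
  obtain ⟨k, hk1, hk2⟩ := exists_row h0 h1 x.im
  have him : ∀ m k' : ℤ, (pt t m k').im = (pt t 0 k').im := by
    intro m k'
    rw [pt_im, pt_im]
  have hg := pt_succ_im t 0 k
  have g1 := gp_bounds h0 h1 k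
  have g2 := sh_bounds h0 h1 k
  rcases le_or_gt (x.im - (pt t 0 k).im) (gp t k / 2) with hv | hv
  · -- the lower row is nearer
    obtain ⟨m, hm⟩ := exists_col t x.re k
    rcases sat_aux (e := sh t k) hm (by linarith) hv g1.2
      (by rw [abs_le]; constructor <;> linarith [g2.1, g2.2]) with h | ⟨s, hs, h⟩
    · refine ⟨pt t m k, pt_mem _ _, ?_⟩
      rw [dist_le_iff (by norm_num), him]
      exact h
    · obtain ⟨m', hm'⟩ : ∃ m' : ℤ, (pt t m' (k + 1)).re = (pt t m k).re + s + sh t k := by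
        rcases hs with rfl | rfl
        · exact ⟨m, by rw [pt_succ_re]; push_cast; ring⟩
        · refine ⟨m + (-1), ?_⟩
          rw [pt_succ_re, pt_add_re]; push_cast; ring
      refine ⟨pt t m' (k + 1), pt_mem _ _, ?_⟩
      rw [dist_le_iff (by norm_num), him, hm', hg]
      refine le_trans (le_of_eq ?_) h
      ring
  · -- the upper row is nearer
    obtain ⟨m, hm⟩ := exists_col t x.re (k + 1)
    rcases sat_aux (d := x.re - (pt t m (k + 1)).re) (v := (pt t 0 (k + 1)).im - x.im)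
      (H := gp t k) (e := - sh t k) hm (by linarith) (by linarith) g1.2
      (by rw [abs_le]; constructor <;> linarith [g2.1, g2.2]) with h | ⟨s, hs, h⟩
    · refine ⟨pt t m (k + 1), pt_mem _ _, ?_⟩
      rw [dist_le_iff (by norm_num), him]
      refine le_trans (le_of_eq ?_) h
      ring
    · obtain ⟨m', hm'⟩ : ∃ m' : ℤ, (pt t m' k).re = (pt t m (k + 1)).re + s - sh t k := by
        rcases hs with rfl | rfl
        · refine ⟨m + 1, ?_⟩
          rw [pt_succ_re, pt_add_re]; push_cast; ring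
        · refine ⟨m, ?_⟩
          rw [pt_succ_re]; push_cast; ring
      refine ⟨pt t m' k, pt_mem _ _, ?_⟩
      rw [dist_le_iff (by norm_num), him, hm']
      refine le_trans (le_of_eq ?_) h
      rw [hg]
      ring

/-! ### triangles -/

lemma crs_up (m k : ℤ) : 0 < crs (pt t (m + 1) k - pt t m k) (pt t m (k + 1) - pt t m k) := by
  unfold crs
  simp only [Complex.sub_re, Complex.sub_im]
  rw [pt_succ_re, pt_succ_im, pt_add_re, pt_add_im]
  have g1 := gp_bounds h0 h1 k
  have e4 := sqrt3_gt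
  push_cast
  nlinarith

lemma crs_dn (m k : ℤ) :
    0 < crs (pt t m (k + 1) - pt t m k) (pt t (m - 1) (k + 1) - pt t m k) := by
  unfold crs
  simp only [Complex.sub_re, Complex.sub_im]
  rw [sub_eq_add_neg m, pt_succ_re, pt_succ_im, pt_succ_re, pt_succ_im, pt_add_re, pt_add_im]
  have g1 := gp_bounds h0 h1 k
  have e4 := sqrt3_gt
  push_cast
  nlinarith

omit h0 h1 in
lemma ca_row0 (m : ℤ) : ca (pt t m 0) = m := by
  unfold ca
  rw [pt_re, pt_im]
  simp

variable {w : ℂ → ℂ → ℝ} (hw : Calibration t w)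
include hw

omit h0 h1 in
lemma Phi_up (m k : ℤ) : Phi w (pt t m k) (pt t (m + 1) k) (pt t m (k + 1)) = 0 := by
  rw [pt_right, pt_up]
  unfold stp
  split_ifs with h
  · subst h
    exact hw.tight_fault_up _ ⟨m, ca_row0 m⟩
  · rw [add_zero]
    exact hw.tight_up _

omit h0 h1 in
lemma Phi_dn (m k : ℤ) : Phi w (pt t m k) (pt t m (k + 1)) (pt t (m - 1) (k + 1)) = 0 := by
  rw [pt_upl, pt_up]
  unfold stp
  split_ifs with h
  · subst h
    exact hw.tight_fault_down _ ⟨m, ca_row0 m⟩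
  · rw [add_zero, add_zero]
    exact hw.tight_down _

/-- the six corners at a point of `P t` -/
lemma N_corner (m k : ℤ) (i : Fin 6) :
    Corner (P t) (pt t m k) (N t m k i) (N t m k (i + 1)) ∧
      Phi w (pt t m k) (N t m k i) (N t m k (i + 1)) = 0 := by
  have u0 := crs_up h0 h1 m k
  have u1 := crs_dn h0 h1 m k
  have u2 := crs_up h0 h1 (m - 1) k
  have u3 := crs_dn h0 h1 m (k - 1)
  have u4 := crs_up h0 h1 m (k - 1)
  have u5 := crs_dn h0 h1 (m + 1) (k - 1)
  have v0 := Phi_up hw m k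
  have v1 := Phi_dn hw m k
  have v2 := Phi_up hw (m - 1) k
  have v3 := Phi_dn hw m (k - 1)
  have v4 := Phi_up hw m (k - 1)
  have v5 := Phi_dn hw (m + 1) (k - 1)
  have d0 := dist_upl h0 h1 (m + 1) k
  have d1 := dist_right h0 h1 (m - 1) (k + 1)
  have d2 := dist_up h0 h1 (m - 1) k
  have d3 := dist_upl h0 h1 m (k - 1)
  have d4 := dist_right h0 h1 m (k - 1)
  have d5 := dist_up h0 h1 (m + 1) (k - 1)
  simp only [sub_add_cancel, add_sub_cancel_right] at *
  have key : ∀ {a b : ℂ}, a ∈ nb (P t) (pt t m k) → b ∈ nb (P t) (pt t m k) →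
      dist a b ≤ 201 / 100 → 0 < crs (a - pt t m k) (b - pt t m k) →
      Corner (P t) (pt t m k) a b := by
    intro a b ha hb h1 h2
    exact ⟨pt_mem _ _, ha, hb, h1.trans (by norm_num), h2⟩
  have n := N_nb h0 h1 m k
  have n0 := n 0
  have n1 := n 1
  have n2 := n 2
  have n3 := n 3
  have n4 := n 4
  have n5 := n 5
  clear n
  fin_cases i
  · refine ⟨key n0 n1 d0 u0, v0⟩
  · refine ⟨key n1 n2 (by rw [dist_comm]; exact d1) u1, v1⟩
  · refine ⟨key n2 n3 (by rw [dist_comm]; exact d2) ?_, ?_⟩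
    · rw [crs_rotate] at u2
      exact u2
    · rw [Phi_rotate] at v2
      exact v2
  · refine ⟨key n3 n4 (by rw [dist_comm]; exact d3) ?_, ?_⟩
    · rw [crs_rotate] at u3
      exact u3
    · rw [Phi_rotate] at v3
      exact v3
  · refine ⟨key n4 n5 d4 ?_, ?_⟩
    · rw [crs_rotate, crs_rotate] at u4
      exact u4
    · rw [Phi_rotate, Phi_rotate] at v4
      exact v4
  · refine ⟨key n5 n0 d5 ?_, ?_⟩
    · rw [crs_rotate, crs_rotate] at u5
      exact u5
    · rw [Phi_rotate, Phi_rotate] at v5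
      exact v5

theorem P_tight' : ∀ p q r, Corner (P t) p q r → Phi w p q r = 0 := by
  intro p q r h
  obtain ⟨m, k, rfl⟩ := h.1
  have hq := h.2.1
  rw [nb_eq h0 h1] at hq
  obtain ⟨i, rfl⟩ := hq
  have hc := N_corner h0 h1 hw m k i
  rw [next_unique (P_sep' h0 h1) h hc.1]
  exact hc.2

end

end H33Solid.PtAux

namespace H33Solid

open MeasureTheory

theorem P_sep {t : ℝ} (h0 : 0 < t) (h1 : t < 1 / 200) : Sep (P t) := PtAux.P_sep' h0 h1

theorem P_good {t : ℝ} (h0 : 0 < t) (h1 : t < 1 / 200) : ∀ p ∈ P t, Good (P t) p :=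
  PtAux.P_good' h0 h1

theorem P_sat {t : ℝ} (h0 : 0 < t) (h1 : t < 1 / 200) : ∀ x : ℂ, ∃ q ∈ P t, dist x q ≤ 6 / 5 :=
  PtAux.P_sat' h0 h1

theorem P_tight {t : ℝ} (h0 : 0 < t) (h1 : t < 1 / 200) {w : ℂ → ℂ → ℝ} (hw : Calibration t w) :
    ∀ p q r, Corner (P t) p q r → Phi w p q r = 0 := PtAux.P_tight' h0 h1 hw

end H33Solid
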