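import Pool.Agent.H33.Solid.Defs

/-! Module LR: the function `rf`, the small root of `r² + v r + v² = 3 r` -/

namespace H33Solid

/-- small root of `r² + v r + v² = 3 r` -/
noncomputable def rf (v : ℝ) : ℝ := ((3 - v) - Real.sqrt ((3 - v) ^ 2 - 4 * v ^ 2)) / 2

theorem rf_disc {v : ℝ} (hv : |v| ≤ 1 / 10) : 0 ≤ (3 - v) ^ 2 - 4 * v ^ 2 := by
  obtain ⟨h1, h2⟩ := abs_le.mp hv; nlinarith

/-- the defining relation -/
theorem rf_rel {v : ℝ} (hv : |v| ≤ 1 / 10) : rf v ^ 2 + v * rf v + v ^ 2 = 3 * rf v := by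
  have h := Real.sq_sqrt (rf_disc hv)
  unfold rf
  generalize Real.sqrt ((3 - v) ^ 2 - 4 * v ^ 2) = s at h
  nlinarith

theorem rf_nonneg {v : ℝ} (hv : |v| ≤ 1 / 10) : 0 ≤ rf v := by
  obtain ⟨h1, h2⟩ := abs_le.mp hv
  unfold rf
  have : Real.sqrt ((3 - v) ^ 2 - 4 * v ^ 2) ≤ 3 - v := by
    rw [Real.sqrt_le_left (by linarith)]
    nlinarith [sq_nonneg v]
  linarith

theorem rf_le_half {v : ℝ} (hv : |v| ≤ 1 / 10) : rf v ≤ 1 / 2 * |v| := by
  obtain ⟨h1, h2⟩ := abs_le.mp hv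
  have h3 := rf_rel hv
  have h0 := rf_nonneg hv
  have hub : rf v ≤ 31 / 20 := by
    unfold rf
    have := Real.sqrt_nonneg ((3 - v) ^ 2 - 4 * v ^ 2)
    linarith
  -- r (3 - v - r) = v²
  have e : rf v * (3 - v - rf v) = v ^ 2 := by linarith
  have hd : 1 ≤ 3 - v - rf v := by linarith
  have h4 : rf v ≤ v ^ 2 := by nlinarith
  have : v ^ 2 = |v| ^ 2 := (sq_abs v).symm
  have h5 : 0 ≤ |v| := abs_nonneg v
  nlinarith

/-- lower and upper bounds of relative size `|v|` -/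
theorem rf_lower {v : ℝ} (hv : |v| ≤ 1 / 10) : v ^ 2 ≤ rf v * (3 - v) := by
  have h3 := rf_rel hv
  nlinarith [sq_nonneg (rf v)]

theorem rf_den {v : ℝ} (hv : |v| ≤ 1 / 10) : 3 - v - |v| / 2 ≤ 3 - v - rf v := by
  linarith [rf_le_half hv]

theorem rf_mul {v : ℝ} (hv : |v| ≤ 1 / 10) : rf v * (3 - v - rf v) = v ^ 2 := by
  linarith [rf_rel hv]

theorem rf_upper {v : ℝ} (hv : |v| ≤ 1 / 10) : rf v * (3 - 3 / 2 * |v|) ≤ v ^ 2 := by
  have h3 := rf_mul hv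
  have h0 := rf_nonneg hv
  have h4 := rf_le_half hv
  have h5 : v ≤ |v| := le_abs_self v
  have : 3 - 3 / 2 * |v| ≤ 3 - v - rf v := by linarith
  calc rf v * (3 - 3 / 2 * |v|) ≤ rf v * (3 - v - rf v) := mul_le_mul_of_nonneg_left this h0
    _ = v ^ 2 := h3

theorem rf_le {v : ℝ} (hv : |v| ≤ 1 / 10) : rf v ≤ v ^ 2 / 3 * (1 + |v|) := by
  have h3 := rf_upper hv
  have h0 := rf_nonneg hv
  have h5 : 0 ≤ |v| := abs_nonneg v
  -- rf v ≤ v² / (3 - 1.5|v|), 1/(1 - |v|/2) ≤ 1 + |v|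
  have h6 : 3 ≤ (3 - 3 / 2 * |v|) * (1 + |v|) := by nlinarith
  have h7 : rf v * 3 ≤ rf v * ((3 - 3 / 2 * |v|) * (1 + |v|)) := mul_le_mul_of_nonneg_left h6 h0
  have h8 : rf v * (3 - 3 / 2 * |v|) * (1 + |v|) ≤ v ^ 2 * (1 + |v|) :=
    mul_le_mul_of_nonneg_right h3 (by linarith)
  nlinarith

theorem rf_ge {v : ℝ} (hv : |v| ≤ 1 / 10) : v ^ 2 / 3 * (1 + v / 3) ≤ rf v := by
  have h3 := rf_lower hv
  obtain ⟨h1, h2⟩ := abs_le.mp hv
  -- v² (1/3)(1+v/3)(3 - v) = v² (1 - v²/9) ≤ v² ≤ rf (3-v)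
  have h4 : v ^ 2 / 3 * (1 + v / 3) * (3 - v) ≤ rf v * (3 - v) := by
    nlinarith [mul_nonneg (sq_nonneg v) (sq_nonneg v)]
  exact le_of_mul_le_mul_right h4 (by linarith)

/-- ratio comparison: `rf v / v` is increasing on `(0, 1/10]`, with slope at least `1/3` -/
theorem rf_ratio {v w : ℝ} (hv0 : 0 ≤ v) (hvw : v ≤ w) (hw : w ≤ 1 / 10) :
    w * rf v + v * w * (w - v) / 3 ≤ v * rf w := by
  have hv : |v| ≤ 1 / 10 := by rw [abs_of_nonneg hv0]; linarith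
  have hw' : |w| ≤ 1 / 10 := by rw [abs_of_nonneg (by linarith)]; linarith
  have h1 := rf_rel hv
  have h2 := rf_rel hw'
  have h3 := rf_nonneg hv
  have h4 := rf_nonneg hw'
  have h5 := rf_le_half hv
  have h6 := rf_le_half hw'
  rw [abs_of_nonneg hv0] at h5
  rw [abs_of_nonneg (by linarith : (0:ℝ) ≤ w)] at h6
  set a := rf v
  set b := rf w
  -- D = v b - w a ;  v w (3(vb - wa)) = v²(..)...
  -- w² · (3 a v⁰) : 3a = a²+va+v², 3b = b²+wb+w²
  -- 3(v b - w a) = v(b²+wb+w²) - w(a²+va+v²) = v b² - w a² + v w (b - a) + v w (w - v)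
  have e : 3 * (v * b - w * a) = (v * b ^ 2 - w * a ^ 2) + v * w * (b - a) + v * w * (w - v) := by
    nlinarith
  -- a ≤ b
  have hab : a ≤ b := by
    by_contra hcon
    push_neg at hcon
    -- a (3 - v - a) = v², b(3-w-b) = w²
    nlinarith
  have hD : 0 ≤ v * b - w * a := by
    by_contra hcon
    push_neg at hcon
    -- v b < w a ; then v b² - w a² ≥ ? 
    have k1 : v * b ^ 2 - w * a ^ 2 = b * (v * b - w * a) + w * a * (b - a) := by ring
    have k2 : 0 ≤ w * a * (b - a) := by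
      apply mul_nonneg (mul_nonneg (by linarith) h3) (by linarith)
    have k3 : 0 ≤ v * w * (b - a) := mul_nonneg (mul_nonneg hv0 (by linarith)) (by linarith)
    have k4 : 0 ≤ v * w * (w - v) := mul_nonneg (mul_nonneg hv0 (by linarith)) (by linarith)
    nlinarith
  have k1 : v * b ^ 2 - w * a ^ 2 = b * (v * b - w * a) + w * a * (b - a) := by ring
  have k2 : 0 ≤ w * a * (b - a) := by
    apply mul_nonneg (mul_nonneg (by linarith) h3) (by linarith)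
  have k3 : 0 ≤ v * w * (b - a) := mul_nonneg (mul_nonneg hv0 (by linarith)) (by linarith)
  have k5 : 0 ≤ b * (v * b - w * a) := mul_nonneg h4 hD
  linarith

end H33Solid
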